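import Pool.Agent.MP_b3b911_al.Slab

/-! The abstract two term asymptotic expansion. -/

open MeasureTheory Filter Topology Set

namespace Pool.Agent.MP_b3b911_al

namespace Base

variable {ι : Type} [Fintype ι] {P : Type*} [Group P] (X : Base ι P)

theorem finite_lev (k : ℕ) : {p | X.R p ∧ X.u p none = k}.Finite := by
  obtain ⟨C0, _, h⟩ := X.exists_R_norm
  refine (X.finite_ball0 (C0 * k)).subset fun p hp => ?_
  have := h p hp.1
  rw [hp.2] at this
  simpa using this

/-- Reachable elements of a given level. -/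
noncomputable def lev (k : ℕ) : Finset P := (X.finite_lev k).toFinset

theorem mem_lev {k : ℕ} {p : P} : p ∈ X.lev k ↔ X.R p ∧ X.u p none = k := by simp [lev]

end Base

namespace Sys

variable {ι : Type} [Fintype ι] {P : Type*} [Group P] {X : Base ι P} {C : Type*} [Fintype C]
  (Y : Sys X C)

theorem sum_lev (k : ℕ) : ∑ p ∈ X.lev k, Y.F p = ∑ p ∈ Y.Lk k, Y.F p := by
  refine Finset.sum_subset (fun p hp => ?_) fun p hp hp' => Y.zero p fun hR => hp' ?_
  · rw [X.mem_lev] at hp
    have := Y.C0_R hp.1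
    rw [hp.2] at this
    exact Y.mem_Lk.2 ⟨hp.2, this.trans (by simp)⟩
  · exact X.mem_lev.2 ⟨hR, (Y.mem_Lk.1 hp).1⟩

theorem sum_lead {k : ℕ} (hk : 1 ≤ k) :
    ∑ p ∈ Y.Lk k, ∫ η in cube ι, Y.lead (toR (X.u p) + emb ι η) =
      ({p | X.u p = 0}.ncard * ∫ x, Y.lead (e0 ι + emb ι x)) * (k : ℝ) ^ (Fintype.card ι + 2) := by
  classical
  have hk' : (0 : ℝ) < k := by exact_mod_cast hk
  let mk : (ι → ℤ) → Option ι → ℤ := fun x o => o.elim k x
  have hmk : ∀ x, toR (mk x) = (k : ℝ) • e0 ι + emb ι (toR x) := fun x => by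
    funext o; cases o <;> simp [mk, toR]
  have hfin : {x : ι → ℤ | ‖toR (mk x)‖ ≤ Y.C0 * k + 1}.Finite := by
    refine (Base.finite_norm_le (U := Option ι) (Y.C0 * k + 1)).preimage (f := mk) ?_
    intro x _ y _ h
    funext i
    exact congrFun h (some i)
  let f : (ι → ℝ) → ℝ := fun θ => Y.lead ((k : ℝ) • e0 ι + emb ι θ)
  have hsupp : ∀ θ, f θ ≠ 0 → ‖(k : ℝ) • e0 ι + emb ι θ‖ ≤ Y.C0 * k := fun θ h => by
    simpa using Y.C0_lead h
  have hint : Integrable f := by
    obtain ⟨C1, h0, h1⟩ := Y.exists_lead_bound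
    refine IntegrableOn.integrable_of_forall_notMem_eq_zero
      (s := Metric.closedBall 0 (Y.C0 * k)) ?_ ?_
    · refine Measure.integrableOn_of_bounded (M := C1 * (Y.C0 * k) ^ 2)
        measure_closedBall_lt_top.ne
        (Y.measurable_lead.comp (measurable_shift _)).aestronglyMeasurable
        (Eventually.of_forall fun θ => ?_)
      by_cases hθ : f θ = 0
      · rw [hθ, norm_zero]; positivity
      · refine (h1 _).trans ?_
        have := hsupp θ hθ
        gcongr
    · intro θ hθ
      by_contra h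
      apply hθ
      rw [mem_closedBall_zero_iff, pi_norm_le_iff_of_nonneg (by have := Y.one_le_C0; positivity)]
      intro i
      simpa using (norm_le_pi_norm _ (some i)).trans (hsupp θ h)
  have h1 := sum_cube_integral f hint hfin.toFinset fun θ h => by
    have h2 : θ - toR (fun i => ⌊θ i⌋) ∈ cube ι := by
      rw [mem_cube]; intro i
      simp only [Pi.sub_apply, toR]
      constructor
      · linarith [Int.floor_le (θ i)]
      · linarith [Int.lt_floor_add_one (θ i)]
    rw [Set.Finite.mem_toFinset, mem_ofPred_eq, hmk]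
    calc _ = ‖((k : ℝ) • e0 ι + emb ι θ) - emb ι (θ - toR fun i => ⌊θ i⌋)‖ := by
          rw [map_sub]; congr 1; abel
      _ ≤ _ := norm_sub_le _ _
      _ ≤ _ := add_le_add (hsupp θ h) (norm_emb_le h2)
  have h2 := Measure.integral_comp_smul (volume : Measure (ι → ℝ)) f (k : ℝ)
  have h3 : ∀ x, f ((k : ℝ) • x) = (k : ℝ) ^ 2 * Y.lead (e0 ι + emb ι x) := fun x => by
    simp only [f]
    rw [map_smul, ← smul_add, Y.lead_smul _ hk']
  simp only [h3, integral_const_mul, Module.finrank_fintype_fun_eq_card, smul_eq_mul] at h2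
  rw [abs_of_pos (by positivity)] at h2
  have h4 : ∫ θ, f θ = (∫ x, Y.lead (e0 ι + emb ι x)) * (k : ℝ) ^ (Fintype.card ι + 2) := by
    field_simp at h2
    rw [← h2]; ring
  rw [mul_assoc, ← h4, ← h1, Finset.mul_sum,
    ← Finset.sum_fiberwise_of_maps_to (s := Y.Lk k) (t := hfin.toFinset)
      (g := fun p i => X.u p (some i))]
  · refine Finset.sum_congr rfl fun x hx => ?_
    rw [Set.Finite.mem_toFinset, mem_ofPred_eq] at hx
    have e : ∀ p, p ∈ (Y.Lk k).filter (fun p => (fun i => X.u p (some i)) = x) ↔ X.u p = mk x := by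
      intro p
      rw [Finset.mem_filter, mem_Lk]
      constructor
      · rintro ⟨⟨a1, -⟩, a2⟩
        funext o
        cases o with
        | none => exact a1
        | some i => exact congrFun a2 i
      · intro h
        rw [h]
        exact ⟨⟨rfl, hx⟩, rfl⟩
    rw [Finset.sum_congr rfl (g := fun _ => ∫ η in cube ι, f (toR x + η)) fun p hp => by
      rw [(e p).1 hp, hmk]; simp only [f, map_add, add_assoc]]
    rw [Finset.sum_const, nsmul_eq_mul, ← X.ncard_fiber (mk x), ← Set.ncard_coe_finset]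
    congr 3
    ext p
    exact e p
  · intro p hp
    rw [Set.Finite.mem_toFinset, mem_ofPred_eq]
    rw [mem_Lk] at hp
    have : mk (fun i => X.u p (some i)) = X.u p := by
      funext o
      cases o with
      | none => exact hp.1.symm
      | some i => rfl
    rw [this]; exact hp.2

theorem main : ∃ α L : ℝ, Tendsto (fun k : ℕ =>
    (∑ p ∈ X.lev k, Y.F p - α * (k : ℝ) ^ (Fintype.card ι + 2)) / (k : ℝ) ^ (Fintype.card ι + 1))
    atTop (𝓝 L) := by
  classical
  obtain ⟨L0, h0⟩ := Y.interior_limit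
  choose! L1 h1 using fun a (ha : a ∈ Y.forms') => Y.slab_limit ha
  refine ⟨{p | X.u p = 0}.ncard * ∫ x, Y.lead (e0 ι + emb ι x), _,
    (h0.add (tendsto_finsetSum _ h1)).congr' ?_⟩
  · filter_upwards [eventually_ge_atTop 1] with k hk
    have hk' : (0 : ℝ) < k := by exact_mod_cast hk
    rw [Y.sum_lev, ← Y.sum_lead hk, ← Finset.sum_sub_distrib, ← Finset.sum_div]
    have e1 : (∑ p ∈ Y.Lk k, if Y.slabs p = ∅ then Y.term p / k else 0) / (k : ℝ) ^ Fintype.card ι =
        (∑ p ∈ Y.Lk k, if Y.slabs p = ∅ then Y.term p else 0) / (k : ℝ) ^ (Fintype.card ι + 1) := by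
      rw [pow_succ', ← div_div, Finset.sum_div _ _ (k : ℝ)]
      congr 1
      refine Finset.sum_congr rfl fun p _ => ?_
      split_ifs <;> simp
    rw [e1, ← add_div]
    congr 1
    simp only [Finset.sum_filter]
    rw [Finset.sum_comm, ← Finset.sum_add_distrib]
    refine Finset.sum_congr rfl fun p _ => ?_
    have e2 : Y.forms'.filter (fun a => a ∈ Y.slabs p) = Y.slabs p := by
      ext a
      rw [Finset.mem_filter, and_iff_right_iff_imp]
      exact fun h => (Y.mem_slabs.1 h).1
    rw [← Finset.sum_filter, e2, Finset.sum_const, nsmul_eq_mul]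
    change _ = Y.term p
    split_ifs with h
    · simp [h]
    · have : ((Y.slabs p).card : ℝ) ≠ 0 := by
        exact_mod_cast (Finset.card_pos.2 (Finset.nonempty_iff_ne_empty.2 h)).ne'
      field_simp
      simp

end Sys

end Pool.Agent.MP_b3b911_al
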