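import Pool.Agent.MP_b3b911_al.Riemann

/-! Finite maxima, integer forms, approximation of rays by lattice points, the base structure. -/

open MeasureTheory Filter Topology Set

namespace Pool.Agent.MP_b3b911_al

section Val

variable {C : Type*}

/-- Maximum over a finite set, bottom if empty. -/
noncomputable def wsup (V : Finset C) (f : C → ℝ) : WithBot ℝ :=
  V.sup fun c => (f c : WithBot ℝ)

/-- Maximum over a finite set, zero if empty. -/
noncomputable def val (V : Finset C) (f : C → ℝ) : ℝ := (wsup V f).unbotD 0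

theorem wsup_empty (f : C → ℝ) : wsup ∅ f = ⊥ := rfl

theorem val_empty (f : C → ℝ) : val ∅ f = 0 := rfl

theorem le_wsup {V : Finset C} (f : C → ℝ) {c : C} (hc : c ∈ V) : (f c : WithBot ℝ) ≤ wsup V f :=
  Finset.le_sup (f := fun c => (f c : WithBot ℝ)) hc

theorem exists_wsup {V : Finset C} (hV : V.Nonempty) (f : C → ℝ) :
    ∃ c ∈ V, wsup V f = f c ∧ val V f = f c ∧ ∀ c' ∈ V, f c' ≤ f c := by
  obtain ⟨c, hc, h⟩ := Finset.exists_mem_eq_sup V hV fun c => (f c : WithBot ℝ)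
  have h' : wsup V f = f c := h
  refine ⟨c, hc, h', by simp [val, h'], fun c' hc' => ?_⟩
  have := le_wsup f hc'
  rw [h'] at this
  exact_mod_cast this

theorem wsup_eq_bot {V : Finset C} (f : C → ℝ) : wsup V f = ⊥ ↔ V = ∅ := by
  constructor
  · intro h
    by_contra hne
    obtain ⟨c, _, h1, _⟩ := exists_wsup (Finset.nonempty_iff_ne_empty.2 hne) f
    rw [h] at h1
    exact WithBot.bot_ne_coe h1
  · rintro rfl; rfl

theorem wsup_eq_val {V : Finset C} (hV : V.Nonempty) (f : C → ℝ) : wsup V f = val V f := by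
  obtain ⟨c, _, h1, h2, _⟩ := exists_wsup hV f
  rw [h1, h2]

theorem le_val {V : Finset C} (f : C → ℝ) {c : C} (hc : c ∈ V) : f c ≤ val V f := by
  obtain ⟨c', _, _, h2, h3⟩ := exists_wsup ⟨c, hc⟩ f
  rw [h2]; exact h3 c hc

theorem val_eq_of {V : Finset C} (f : C → ℝ) {c : C} (hc : c ∈ V) (h : ∀ c' ∈ V, f c' ≤ f c) :
    val V f = f c := by
  obtain ⟨c', hc', _, h2, h3⟩ := exists_wsup ⟨c, hc⟩ f
  rw [h2]; exact le_antisymm (h c' hc') (h3 c hc)

theorem abs_val_sub_le {V : Finset C} {f g : C → ℝ} {ε : ℝ} (hε : 0 ≤ ε)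
    (h : ∀ c ∈ V, |f c - g c| ≤ ε) : |val V f - val V g| ≤ ε := by
  rcases V.eq_empty_or_nonempty with rfl | hV
  · simpa [val_empty] using hε
  · obtain ⟨c, hc, _, h2, _⟩ := exists_wsup hV f
    obtain ⟨c', hc', _, h2', _⟩ := exists_wsup hV g
    have a1 := le_val g hc
    have a2 := le_val f hc'
    have a3 := abs_le.1 (h c hc)
    have a4 := abs_le.1 (h c' hc')
    rw [abs_le]; constructor <;> linarith [a3.1, a3.2, a4.1, a4.2]

theorem abs_val_le {V : Finset C} {f : C → ℝ} {ε : ℝ} (hε : 0 ≤ ε)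
    (h : ∀ c ∈ V, |f c| ≤ ε) : |val V f| ≤ ε := by
  rcases V.eq_empty_or_nonempty with rfl | hV
  · simpa [val_empty] using hε
  · obtain ⟨c, hc, _, h2, _⟩ := exists_wsup hV f
    rw [h2]; exact h c hc

theorem val_mul {V : Finset C} (f : C → ℝ) {t : ℝ} (ht : 0 ≤ t) :
    val V (fun c => t * f c) = t * val V f := by
  rcases V.eq_empty_or_nonempty with rfl | hV
  · simp [val_empty]
  · obtain ⟨c, hc, _, h2, h3⟩ := exists_wsup hV f
    rw [h2]
    exact val_eq_of (fun c => t * f c) hc fun c' hc' => mul_le_mul_of_nonneg_left (h3 c' hc') ht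

theorem measurable_val [Fintype C] {α : Type*} [MeasurableSpace α] (V : α → Finset C)
    (hV : ∀ c, MeasurableSet {w | c ∈ V w}) (f : C → α → ℝ) (hf : ∀ c, Measurable (f c)) :
    Measurable fun w => val (V w) (fun c => f c w) := by
  classical
  have h1 : (fun w => val (V w) (fun c => f c w)) =
      fun w => ∑ V0 : Finset C, if V w = V0 then val V0 (fun c => f c w) else 0 := by
    funext w; simp
  rw [h1]
  refine Finset.measurable_sum _ fun V0 _ => Measurable.ite ?_ ?_ measurable_const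
  · have : {w | V w = V0} = ⋂ c, {w | c ∈ V w ↔ c ∈ V0} := by
      ext w; simp [Finset.ext_iff]
    rw [this]
    refine MeasurableSet.iInter fun c => ?_
    by_cases hc : c ∈ V0
    · simpa [hc] using hV c
    · have := (hV c).compl
      simpa [hc, compl_ofPred] using this
  · rcases V0.eq_empty_or_nonempty with rfl | hV0
    · simp [val_empty]
    · have : (fun w => val V0 (fun c => f c w)) = V0.sup' hV0 f := by
        funext w
        rw [Finset.sup'_apply]
        obtain ⟨c, hc, _, h2, h3⟩ := exists_wsup hV0 (fun c => f c w)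
        rw [h2]
        exact le_antisymm (Finset.le_sup' (fun c => f c w) hc) (Finset.sup'_le _ _ h3)
      rw [this]
      exact Finset.measurable_sup' hV0 fun c _ => hf c

end Val

section Forms

variable {U : Type*} [Fintype U]

omit [Fintype U] in
theorem toR_add (x y : U → ℤ) : toR (x + y) = toR x + toR y := by
  funext i; simp [toR]

omit [Fintype U] in
theorem toR_zero : toR (0 : U → ℤ) = 0 := by
  funext i; simp [toR]

omit [Fintype U] in
theorem toR_nsmul (n : ℕ) (x : U → ℤ) : toR (n • x) = (n : ℝ) • toR x := by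
  funext i; simp [toR]

omit [Fintype U] in
theorem toR_neg (x : U → ℤ) : toR (-x) = - toR x := by
  funext i; simp [toR]

/-- An integer form evaluated at a real vector. -/
noncomputable def rd (a : U → ℤ) : (U → ℝ) →ₗ[ℝ] ℝ where
  toFun w := toR a ⬝ᵥ w
  map_add' _ _ := dotProduct_add _ _ _
  map_smul' _ _ := dotProduct_smul _ _ _

theorem rd_apply (a : U → ℤ) (w : U → ℝ) : rd a w = ∑ i, (a i : ℝ) * w i := rfl

theorem rd_toR (a z : U → ℤ) : rd a (toR z) = ((a ⬝ᵥ z : ℤ) : ℝ) := by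
  simp [rd_apply, toR, dotProduct]

theorem rd_zero (w : U → ℝ) : rd 0 w = 0 := by simp [rd_apply]

theorem exists_lin_bound (f : (U → ℝ) →ₗ[ℝ] ℝ) : ∃ C, 0 ≤ C ∧ ∀ w, |f w| ≤ C * ‖w‖ :=
  ⟨‖LinearMap.toContinuousLinearMap f‖, norm_nonneg _, fun w =>
    (LinearMap.toContinuousLinearMap f).le_opNorm w⟩

theorem exists_bilin_bound (q : LinearMap.BilinForm ℝ (U → ℝ)) :
    ∃ C, 0 ≤ C ∧ ∀ v w, |q v w| ≤ C * ‖v‖ * ‖w‖ := by
  let q1 : (U → ℝ) →ₗ[ℝ] ((U → ℝ) →L[ℝ] ℝ) :=
    (LinearMap.toContinuousLinearMap (𝕜 := ℝ) (E := U → ℝ) (F' := ℝ)).toLinearMap ∘ₗ q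
  refine ⟨‖LinearMap.toContinuousLinearMap q1‖, ContinuousLinearMap.opNorm_nonneg _,
    fun v w => ?_⟩
  exact (LinearMap.toContinuousLinearMap q1).le_opNorm₂ v w

theorem continuous_bilin (q : LinearMap.BilinForm ℝ (U → ℝ)) : Continuous fun w => q w w := by
  let q1 : (U → ℝ) →ₗ[ℝ] ((U → ℝ) →L[ℝ] ℝ) :=
    (LinearMap.toContinuousLinearMap (𝕜 := ℝ) (E := U → ℝ) (F' := ℝ)).toLinearMap ∘ₗ q
  exact (LinearMap.toContinuousLinearMap q1).continuous₂.comp (continuous_id.prodMk continuous_id)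

theorem exists_fin_bound {α : Type*} (T : Finset α) (p : α → ℝ → Prop)
    (hp : ∀ a x y, x ≤ y → 0 ≤ x → p a x → p a y) (h : ∀ a ∈ T, ∃ C, 0 ≤ C ∧ p a C) :
    ∃ C, 0 ≤ C ∧ ∀ a ∈ T, p a C := by
  classical
  choose! f hf using h
  refine ⟨∑ a ∈ T, f a, Finset.sum_nonneg fun a ha => (hf a ha).1, fun a ha => ?_⟩
  exact hp a _ _ (Finset.single_le_sum (fun a ha => (hf a ha).1) ha) (hf a ha).1 (hf a ha).2

theorem exists_int_mul {α : Type*} [Fintype α] (v : α → ℚ) :
    ∃ m : ℕ, 0 < m ∧ ∃ κ : α → ℤ, ∀ i, (κ i : ℚ) = m * v i := by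
  classical
  refine ⟨∏ i, (v i).den, Finset.prod_pos fun i _ => (v i).den_pos,
    fun i => (∏ j ∈ Finset.univ.erase i, ((v j).den : ℤ)) * (v i).num, fun i => ?_⟩
  rw [← Finset.mul_prod_erase _ _ (Finset.mem_univ i)]
  push_cast
  rw [← Rat.mul_den_eq_num (v i)]
  ring

/-- Every ray is at bounded distance from lattice points killed by all integer forms that kill
the ray. -/
theorem app (θ : U → ℝ) (N : ℕ) (hN : 0 < N) : ∃ ρ : ℝ, ∀ t : ℝ, ∃ z : U → ℤ,
    ‖toR (N • z) - t • θ‖ ≤ ρ ∧ ∀ a : U → ℤ, rd a θ = 0 → a ⬝ᵥ z = 0 := by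
  classical
  let B := Module.Basis.ofVectorSpace ℚ ℝ
  let S := Finset.univ.biUnion fun i => (B.repr (θ i)).support
  choose m hm κ hκ using fun b => exists_int_mul fun i => B.repr (θ i) b
  have hθ : θ = ∑ b ∈ S, (B b / m b) • toR (κ b) := by
    funext i
    have h1 := B.linearCombination_repr (θ i)
    rw [Finsupp.linearCombination_apply, Finsupp.sum_of_support_subset _
      (s := S) (fun b hb => Finset.mem_biUnion.2 ⟨i, Finset.mem_univ _, hb⟩) _ (by simp)] at h1
    rw [← h1, Finset.sum_apply]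
    refine Finset.sum_congr rfl fun b _ => ?_
    have h2 : ((κ b i : ℤ) : ℝ) = (m b : ℝ) * ((B.repr (θ i) b : ℚ) : ℝ) := by
      exact_mod_cast congrArg (fun x : ℚ => (x : ℝ)) (hκ b i)
    have h3 : (m b : ℝ) ≠ 0 := by exact_mod_cast (hm b).ne'
    simp only [Pi.smul_apply, toR, smul_eq_mul, h2, Rat.smul_def]
    field_simp
  have hN' : (0 : ℝ) < N := by exact_mod_cast hN
  refine ⟨∑ b ∈ S, N * ‖toR (κ b)‖, fun t => ⟨∑ b ∈ S, ⌊t * (B b / m b) / N⌋ • κ b, ?_, ?_⟩⟩
  · have h1 : toR (N • ∑ b ∈ S, ⌊t * (B b / m b) / N⌋ • κ b) - t • θ =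
        ∑ b ∈ S, ((N : ℝ) * ⌊t * (B b / m b) / N⌋ - t * (B b / m b)) • toR (κ b) := by
      conv_lhs => rw [hθ]
      funext i
      simp only [toR, Pi.sub_apply, Pi.smul_apply, Finset.sum_apply, smul_eq_mul]
      rw [nsmul_eq_mul]
      push_cast
      rw [Finset.mul_sum, Finset.mul_sum, ← Finset.sum_sub_distrib]
      refine Finset.sum_congr rfl fun b _ => by ring
    rw [h1]
    refine (norm_sum_le _ _).trans (Finset.sum_le_sum fun b _ => ?_)
    rw [norm_smul]
    refine mul_le_mul_of_nonneg_right ?_ (norm_nonneg _)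
    have a1 := Int.floor_le (t * (B b / m b) / N)
    have a2 := Int.lt_floor_add_one (t * (B b / m b) / N)
    rw [le_div_iff₀ hN'] at a1
    rw [div_lt_iff₀ hN'] at a2
    rw [Real.norm_eq_abs, abs_le]
    constructor <;> nlinarith
  · intro a ha
    rw [dotProduct_sum]
    refine Finset.sum_eq_zero fun b _ => ?_
    rw [dotProduct_smul]
    have h1 : ∑ i, (a i : ℚ) * B.repr (θ i) b = 0 := by
      have h2 := congrArg (fun x => B.repr x b) ha
      simp only [rd_apply, map_sum, map_zero, Finsupp.coe_zero, Pi.zero_apply,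
        Finsupp.coe_finsetSum, Finset.sum_apply] at h2
      rw [← h2]
      refine Finset.sum_congr rfl fun i _ => ?_
      have : (a i : ℝ) * θ i = (a i : ℚ) • θ i := by simp [Rat.smul_def]
      rw [this, map_smul]; simp
    have h3 : ((a ⬝ᵥ κ b : ℤ) : ℚ) = 0 := by
      simp only [dotProduct]
      push_cast
      simp_rw [hκ]
      have : ∑ i, (a i : ℚ) * (m b * B.repr (θ i) b) = m b * ∑ i, (a i : ℚ) * B.repr (θ i) b := by
        rw [Finset.mul_sum]; exact Finset.sum_congr rfl fun i _ => by ring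
      rw [this, h1, mul_zero]
    have h4 : a ⬝ᵥ κ b = 0 := by exact_mod_cast h3
    rw [h4, smul_zero]

theorem le_of_sq {a b C : ℝ} (h : ∀ᶠ t : ℝ in atTop, t ^ 2 * a ≤ t ^ 2 * b + C * t) : a ≤ b := by
  by_contra hab
  push Not at hab
  obtain ⟨t, h1, h2, h3⟩ := (h.and ((eventually_gt_atTop (C / (a - b))).and
    (eventually_gt_atTop 0))).exists
  rw [div_lt_iff₀ (sub_pos.2 hab)] at h2
  nlinarith

theorem le_of_lin {a b C : ℝ} (h : ∀ᶠ t : ℝ in atTop, t * a ≤ t * b + C) : a ≤ b := by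
  by_contra hab
  push Not at hab
  obtain ⟨t, h1, h2⟩ := (h.and (eventually_gt_atTop (C / (a - b)))).exists
  rw [div_lt_iff₀ (sub_pos.2 hab)] at h2
  nlinarith

theorem ev_sign (T : Finset (U → ℤ)) (θ : U → ℝ) (ρ B : ℝ) :
    ∀ᶠ t : ℝ in atTop, ∀ w, ‖w - t • θ‖ ≤ ρ → ∀ a ∈ T,
      (0 < rd a θ → B < rd a w) ∧ (rd a θ < 0 → rd a w < -B) := by
  have : ∀ a ∈ T, ∀ᶠ t : ℝ in atTop, ∀ w, ‖w - t • θ‖ ≤ ρ →
      (0 < rd a θ → B < rd a w) ∧ (rd a θ < 0 → rd a w < -B) := by
    intro a _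
    obtain ⟨C, hC, hb⟩ := exists_lin_bound (rd a)
    have key : ∀ t w, ‖w - t • θ‖ ≤ ρ → |rd a w - t * rd a θ| ≤ C * ρ := by
      intro t w hw
      have := hb (w - t • θ)
      rw [map_sub, map_smul, smul_eq_mul] at this
      exact this.trans (mul_le_mul_of_nonneg_left hw hC)
    filter_upwards [eventually_gt_atTop ((B + C * ρ) / |rd a θ|)] with t ht w hw
    have h1 := abs_le.1 (key t w hw)
    constructor
    · intro h
      rw [abs_of_pos h, div_lt_iff₀ h] at ht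
      linarith [h1.1]
    · intro h
      rw [abs_of_neg h, div_lt_iff₀ (neg_pos.2 h)] at ht
      linarith [h1.2]
  filter_upwards [(Finset.eventually_all T).2 this] with t ht w hw a ha
  exact ht a ha w hw

end Forms

/-- A group mapping onto a lattice with finite kernel, central powers, and graded letters. -/
structure Base (ι : Type) (P : Type*) [Group P] where
  u : P → Option ι → ℤ
  u_mul : ∀ p q, u (p * q) = u p + u q
  u_surj : Function.Surjective u
  ker_fin : {p | u p = 0}.Finite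
  N : ℕ
  N_pos : 0 < N
  τ : (Option ι → ℤ) → P
  τ_add : ∀ z z', τ (z + z') = τ z * τ z'
  τ_comm : ∀ z p, τ z * p = p * τ z
  pow_eq : ∀ g, g ^ N = τ (u g)
  L : Finset P
  L_one : ∀ s ∈ L, u s none = 1
  L_gen : Subgroup.closure (L : Set P) = ⊤

namespace Base

variable {ι : Type} {P : Type*} [Group P] (X : Base ι P)

theorem u_one : X.u 1 = 0 := by
  have := X.u_mul 1 1
  rw [mul_one] at this
  simpa using this

theorem u_inv (p : P) : X.u p⁻¹ = - X.u p := by
  have := X.u_mul p⁻¹ p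
  rw [inv_mul_cancel, X.u_one] at this
  exact eq_neg_of_add_eq_zero_left this.symm

theorem u_pow (p : P) (n : ℕ) : X.u (p ^ n) = n • X.u p := by
  induction n with
  | zero => simp [X.u_one]
  | succ n ih => rw [pow_succ, X.u_mul, ih, succ_nsmul]

theorem u_τ (z : Option ι → ℤ) : X.u (X.τ z) = X.N • z := by
  obtain ⟨g, rfl⟩ := X.u_surj z
  rw [← X.pow_eq, X.u_pow]

theorem τ_zero : X.τ 0 = 1 := by
  have := X.τ_add 0 0
  rw [add_zero] at this
  simpa using this

theorem τ_neg_mul (z : Option ι → ℤ) (p : P) : X.τ (-z) * (X.τ z * p) = p := by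
  rw [← mul_assoc, ← X.τ_add, neg_add_cancel, X.τ_zero, one_mul]

theorem τ_nsmul (n : ℕ) (z : Option ι → ℤ) : X.τ (n • z) = X.τ z ^ n := by
  induction n with
  | zero => simp [X.τ_zero]
  | succ n ih => rw [succ_nsmul, X.τ_add, ih, pow_succ]

/-- Reachable elements. -/
def R (p : P) : Prop := p ∈ Submonoid.closure (X.L : Set P)

theorem R_one : X.R 1 := Submonoid.one_mem _

theorem R_mul {X : Base ι P} {p q : P} (hp : X.R p) (hq : X.R q) : X.R (p * q) :=
  Submonoid.mul_mem _ hp hq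

theorem R_pow {X : Base ι P} {p : P} (hp : X.R p) (n : ℕ) : X.R (p ^ n) :=
  Submonoid.pow_mem _ hp n

theorem R_of_mem {s : P} (hs : s ∈ X.L) : X.R s := Submonoid.subset_closure hs

theorem R_form (f : (Option ι → ℝ) →ₗ[ℝ] ℝ) (h : ∀ s ∈ X.L, 0 ≤ f (toR (X.u s))) {p : P}
    (hp : X.R p) : 0 ≤ f (toR (X.u p)) := by
  induction hp using Submonoid.closure_induction with
  | mem s hs => exact h s hs
  | one => simp [X.u_one, toR_zero]
  | mul p q _ _ hp hq => rw [X.u_mul, toR_add, map_add]; exact add_nonneg hp hq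

variable [Fintype ι]

theorem exists_R_norm : ∃ C0 : ℝ, 1 ≤ C0 ∧ ∀ p, X.R p → ‖toR (X.u p)‖ ≤ C0 * X.u p none := by
  refine ⟨1 + ∑ s ∈ X.L, ‖toR (X.u s)‖, by
    have : 0 ≤ ∑ s ∈ X.L, ‖toR (X.u s)‖ := by positivity
    linarith, fun p hp => ?_⟩
  induction hp using Submonoid.closure_induction with
  | mem s hs =>
    rw [X.L_one s hs]
    have := Finset.single_le_sum (f := fun s => ‖toR (X.u s)‖) (fun _ _ => norm_nonneg _) hs
    simp only [Int.cast_one, mul_one]
    linarith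
  | one => simp [X.u_one, toR_zero]
  | mul p q _ _ hp hq =>
    rw [X.u_mul, toR_add]
    refine (norm_add_le _ _).trans ?_
    simp only [Pi.add_apply, Int.cast_add]
    linarith

theorem finite_fiber (z : Option ι → ℤ) : {p | X.u p = z}.Finite := by
  obtain ⟨g, rfl⟩ := X.u_surj z
  refine (X.ker_fin.image fun p => g * p).subset fun p hp => ⟨g⁻¹ * p, ?_, by simp⟩
  simp only [mem_ofPred_eq] at hp ⊢
  rw [X.u_mul, X.u_inv, hp, neg_add_cancel]

theorem ncard_fiber (z : Option ι → ℤ) : {p | X.u p = z}.ncard = {p | X.u p = 0}.ncard := by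
  obtain ⟨g, rfl⟩ := X.u_surj z
  have : {p | X.u p = X.u g} = (fun p => g * p) '' {p | X.u p = 0} := by
    ext p
    simp only [mem_ofPred_eq, mem_image]
    constructor
    · intro hp
      exact ⟨g⁻¹ * p, by rw [X.u_mul, X.u_inv, hp, neg_add_cancel], by simp⟩
    · rintro ⟨q, hq, rfl⟩
      rw [X.u_mul, hq, add_zero]
  rw [this, ncard_image_of_injective _ (mul_right_injective g)]

theorem finite_norm_le {U : Type*} [Fintype U] (ρ : ℝ) : {z : U → ℤ | ‖toR z‖ ≤ ρ}.Finite := by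
  refine (Set.Finite.pi' (fun _ : U => Set.finite_Icc (-⌈ρ⌉) ⌈ρ⌉)).subset fun z hz i => ?_
  have h1 : |(z i : ℝ)| ≤ ρ := (norm_le_pi_norm (toR z) i).trans hz
  have h2 := abs_le.1 (h1.trans (Int.le_ceil ρ))
  constructor
  · exact_mod_cast h2.1
  · exact_mod_cast h2.2

theorem finite_ball0 (ρ : ℝ) : {p | ‖toR (X.u p)‖ ≤ ρ}.Finite := by
  refine ((finite_norm_le (U := Option ι) ρ).biUnion fun z _ => X.finite_fiber z).subset ?_
  intro p hp
  simp only [mem_iUnion]
  exact ⟨X.u p, hp, rfl⟩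

theorem ball_subset (w : Option ι → ℝ) (ρ : ℝ) : ∃ g : P,
    {p | ‖toR (X.u p) - w‖ ≤ ρ} ⊆ (fun p => g * p) '' {p | ‖toR (X.u p)‖ ≤ ρ + 1} := by
  obtain ⟨g, hg⟩ := X.u_surj fun i => ⌊w i⌋
  refine ⟨g, fun p hp => ⟨g⁻¹ * p, ?_, by simp⟩⟩
  simp only [mem_ofPred_eq] at hp ⊢
  rw [X.u_mul, X.u_inv, hg, toR_add, toR_neg]
  have h2 : w - toR (fun i => ⌊w i⌋) ∈ cube (Option ι) := by
    rw [mem_cube]; intro i
    simp only [Pi.sub_apply, toR]
    constructor
    · linarith [Int.floor_le (w i)]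
    · linarith [Int.lt_floor_add_one (w i)]
  have h3 := norm_le_of_mem_cube h2
  calc ‖-toR (fun i => ⌊w i⌋) + toR (X.u p)‖
      = ‖(toR (X.u p) - w) + (w - toR (fun i => ⌊w i⌋))‖ := by congr 1; abel
    _ ≤ _ := norm_add_le _ _
    _ ≤ ρ + 1 := add_le_add hp h3

theorem finite_ball (w : Option ι → ℝ) (ρ : ℝ) : {p | ‖toR (X.u p) - w‖ ≤ ρ}.Finite := by
  obtain ⟨g, hg⟩ := X.ball_subset w ρ
  exact ((X.finite_ball0 _).image _).subset hg

theorem card_le_of_ball (ρ : ℝ) : ∃ M : ℕ, ∀ (w : Option ι → ℝ) (T : Finset P),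
    (∀ p ∈ T, ‖toR (X.u p) - w‖ ≤ ρ) → T.card ≤ M := by
  refine ⟨{p | ‖toR (X.u p)‖ ≤ ρ + 1}.ncard, fun w T hT => ?_⟩
  obtain ⟨g, hg⟩ := X.ball_subset w ρ
  rw [← Set.ncard_coe_finset, ← ncard_image_of_injective {p | ‖toR (X.u p)‖ ≤ ρ + 1}
    (mul_right_injective g)]
  exact ncard_le_ncard (fun p hp => hg (hT p hp)) ((X.finite_ball0 _).image _)

end Base

end Pool.Agent.MP_b3b911_al
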