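import Pool.Agent.MP_b3b911_al.Sys

/-! Block sums, generic directions, and the error term of a system. -/

open MeasureTheory Filter Topology Set

namespace Pool.Agent.MP_b3b911_al

theorem fund_sum {P Γ : Type*} [AddCommGroup Γ] (act : Γ → P → P) (act0 : ∀ p, act 0 p = p)
    (act_add : ∀ a b p, act (a + b) p = act a (act b p)) (blk : P → Γ)
    (blk_act : ∀ a p, blk (act a p) = blk p + a) (σ : P ≃ P)
    (σ_act : ∀ a p, σ (act a p) = act a (σ p)) (S S' : P → Prop)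
    (S_act : ∀ a p, S p → S (act a p)) (S'_act : ∀ a p, S' p → S' (act a p))
    (hσ : ∀ p, S p ↔ S' (σ p)) (φ : P → ℝ) (φ_act : ∀ a p, φ (act a p) = φ p)
    (φ_σ : ∀ p, φ (σ p) = φ p) (D D' : Finset P) (ξ ξ' : Γ)
    (hD : ∀ p, p ∈ D ↔ S p ∧ blk p = ξ) (hD' : ∀ p, p ∈ D' ↔ S' p ∧ blk p = ξ') :
    ∑ p ∈ D, φ p = ∑ p ∈ D', φ p := by
  have σ_act' : ∀ a p, σ.symm (act a p) = act a (σ.symm p) := fun a p => by
    apply σ.injective; rw [σ_act]; simp
  refine Finset.sum_bij' (fun p _ => act (ξ' - blk (σ p)) (σ p))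
    (fun p _ => act (ξ - blk (σ.symm p)) (σ.symm p)) ?_ ?_ ?_ ?_ ?_
  · intro p hp
    rw [hD'] ; rw [hD] at hp
    exact ⟨S'_act _ _ ((hσ p).1 hp.1), by rw [blk_act]; abel⟩
  · intro p hp
    rw [hD]; rw [hD'] at hp
    exact ⟨S_act _ _ ((hσ _).2 (by simpa using hp.1)), by rw [blk_act]; abel⟩
  · intro p hp
    rw [hD] at hp
    rw [σ_act', Equiv.symm_apply_apply, blk_act, ← act_add, hp.2]
    convert act0 p; abel
  · intro p hp
    rw [hD'] at hp
    rw [σ_act, Equiv.apply_symm_apply, blk_act, ← act_add, hp.2]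
    convert act0 p; abel
  · intro p _
    rw [φ_act, φ_σ]

theorem fund_const {P Γ : Type*} [AddCommGroup Γ] (act : Γ → P → P) (act0 : ∀ p, act 0 p = p)
    (act_add : ∀ a b p, act (a + b) p = act a (act b p)) (blk : P → Γ)
    (blk_act : ∀ a p, blk (act a p) = blk p + a) (σ : P ≃ P)
    (σ_act : ∀ a p, σ (act a p) = act a (σ p)) (S : ℕ → P → Prop)
    (S_act : ∀ k a p, S k p → S k (act a p))
    (hσ : ∀ k p, S k p ↔ S (k + 1) (σ p)) (φ : P → ℝ) (φ_act : ∀ a p, φ (act a p) = φ p)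
    (φ_σ : ∀ p, φ (σ p) = φ p) (block : ℕ → Γ → Finset P)
    (hD : ∀ k ξ p, p ∈ block k ξ ↔ S k p ∧ blk p = ξ) (k : ℕ) (ξ : Γ) :
    ∑ p ∈ block k ξ, φ p = ∑ p ∈ block 0 0, φ p := by
  induction k generalizing ξ with
  | zero =>
    exact fund_sum act act0 act_add blk blk_act (Equiv.refl P) (fun _ _ => rfl) (S 0) (S 0)
      (S_act 0) (S_act 0) (fun _ => Iff.rfl) φ φ_act (fun _ => rfl) _ _ ξ 0 (hD 0 ξ) (hD 0 0)
  | succ k ih =>
    rw [← ih ξ]
    exact (fund_sum act act0 act_add blk blk_act σ σ_act (S k) (S (k + 1))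
      (S_act k) (S_act (k + 1)) (hσ k) φ φ_act φ_σ _ _ ξ ξ (hD k ξ) (hD (k + 1) ξ)).symm

theorem block_riemann {ι' P : Type*} [Fintype ι'] (blk : P → ι' → ℤ)
    (block : ℕ → (ι' → ℤ) → Finset P) (S : ℕ → P → Prop)
    (mem : ∀ k ξ p, p ∈ block k ξ ↔ S k p ∧ blk p = ξ) (f : ℕ → P → ℝ) (Lk : ℕ → Finset P)
    (hL : ∀ k p, p ∈ Lk k → S k p) (hL' : ∀ k p, S k p → f k p ≠ 0 → p ∈ Lk k)
    (M : ℕ) (hM : ∀ k ξ, (block k ξ).card ≤ M) (K : ℝ) (hK : 0 ≤ K)
    (hb : ∀ᶠ k in atTop, ∀ p ∈ Lk k, |f k p| ≤ K)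
    (hs : ∀ᶠ k : ℕ in atTop, ∀ p ∈ Lk k, ‖toR (blk p)‖ ≤ K * k)
    (hl : ∀ᵐ θ : ι' → ℝ, ∃ (φ : P → ℝ) (β : ℝ), (∀ k ξ, ∑ p ∈ block k ξ, φ p = β) ∧
      ∀ ε > 0, ∀ᶠ k : ℕ in atTop, ∀ p ∈ block k (fun i => ⌊(k : ℝ) * θ i⌋), |f k p - φ p| ≤ ε) :
    ∃ L, Tendsto (fun k : ℕ => (∑ p ∈ Lk k, f k p) / (k : ℝ) ^ Fintype.card ι') atTop (𝓝 L) := by
  classical
  have hne : ∀ k ξ, ∑ p ∈ block k ξ, f k p ≠ 0 → ∃ p ∈ Lk k, blk p = ξ := by
    intro k ξ h
    obtain ⟨p, hp, h0⟩ := Finset.exists_ne_zero_of_sum_ne_zero h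
    rw [mem] at hp
    exact ⟨p, hL' k p hp.1 h0, hp.2⟩
  refine (riemann (fun k ξ => ∑ p ∈ block k ξ, f k p) (fun k => (Lk k).image blk)
    ((M + 1) * K) (fun k ξ h => Finset.mem_image.2 (hne k ξ h)) ?_ ?_ ?_).imp
    fun L hL0 => hL0.congr fun k => ?_
  rotate_right
  · congr 1
    rw [← Finset.sum_fiberwise_of_maps_to (s := Lk k) (t := (Lk k).image blk) (g := blk)
      (fun p hp => Finset.mem_image_of_mem _ hp)]
    refine Finset.sum_congr rfl fun ξ _ => (Finset.sum_subset ?_ ?_).symm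
    · intro p hp
      rw [Finset.mem_filter] at hp
      exact (mem _ _ _).2 ⟨hL _ _ hp.1, hp.2⟩
    · intro p hp hp'
      by_contra h0
      rw [mem] at hp
      exact hp' (Finset.mem_filter.2 ⟨hL' k p hp.1 h0, hp.2⟩)
  · filter_upwards [hb] with k hk ξ
    refine (Finset.abs_sum_le_sum_abs _ _).trans ?_
    have h1 : ∀ p ∈ block k ξ, |f k p| ≤ K := by
      intro p hp
      by_cases h0 : f k p = 0
      · rw [h0, abs_zero]; exact hK
      · exact hk p (hL' k p ((mem _ _ _).1 hp).1 h0)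
    refine (Finset.sum_le_card_nsmul _ _ _ h1).trans ?_
    have : ((block k ξ).card : ℝ) ≤ M + 1 := by
      have : ((block k ξ).card : ℝ) ≤ M := by exact_mod_cast hM k ξ
      linarith
    rw [nsmul_eq_mul]; gcongr
  · filter_upwards [hs] with k hk ξ h
    obtain ⟨p, hp, rfl⟩ := hne k ξ h
    refine (hk p hp).trans ?_
    have : (0 : ℝ) ≤ M * K * k := by positivity
    nlinarith
  · filter_upwards [hl] with θ ⟨φ, β, h1, h2⟩
    refine ⟨β, Metric.tendsto_nhds.2 fun ε hε => ?_⟩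
    filter_upwards [h2 (ε / (M + 1)) (by positivity)] with k hk
    rw [Real.dist_eq, ← h1 k (fun i => ⌊(k : ℝ) * θ i⌋), ← Finset.sum_sub_distrib]
    refine ((Finset.abs_sum_le_sum_abs _ _).trans (Finset.sum_le_card_nsmul _ _ _ hk)).trans_lt ?_
    have : ((block k (fun i => ⌊(k : ℝ) * θ i⌋)).card : ℝ) < M + 1 := by
      have : ((block k (fun i => ⌊(k : ℝ) * θ i⌋)).card : ℝ) ≤ M := by exact_mod_cast hM k _
      linarith
    rw [nsmul_eq_mul, mul_div_assoc', div_lt_iff₀ (by positivity)]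
    nlinarith

theorem ae_gen {ι' : Type*} [Fintype ι'] (f : (ι' → ℝ) → ℝ) (hf : Measurable f)
    (h : ∀ x0 v, ∃ α β : ℝ, ∀ r : ℝ, f (x0 + r • v) = α * r ^ 2 + β * r + f x0) :
    ∀ᵐ y, f y = 0 → ∀ y', f y' = 0 := by
  by_cases h0 : ∀ y', f y' = 0
  · exact Eventually.of_forall fun _ _ => h0
  · push Not at h0
    obtain ⟨x0, hx0⟩ := h0
    have := null_of_lines f hf x0 hx0 (h x0)
    filter_upwards [measure_eq_zero_iff_ae_notMem.1 this] with y hy h1
    exact absurd h1 hy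

theorem ae_gen_lin {ι' U : Type*} [Fintype ι'] [Fintype U] (T : (ι' → ℝ) →ₗ[ℝ] (U → ℝ))
    (θ0 : U → ℝ) (a : U → ℤ) : ∀ᵐ y, rd a (θ0 + T y) = 0 → ∀ y', rd a (θ0 + T y') = 0 := by
  refine ae_gen _ ((rd a).continuous_of_finiteDimensional.comp
    (continuous_const.add T.continuous_of_finiteDimensional)).measurable fun x0 v =>
    ⟨0, rd a (T v), fun r => ?_⟩
  simp only [map_add, map_smul, smul_eq_mul]; ring

theorem abs_ediv_sub_le {x : ℤ} {m : ℕ} (hm : 0 < m) {y : ℝ} (h : x / m = ⌊y⌋) :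
    |(x : ℝ) - m * y| ≤ m := by
  have hm' : (0 : ℤ) < m := by exact_mod_cast hm
  have hm'' : (0 : ℝ) < m := by exact_mod_cast hm
  have a1 := Int.emod_add_mul_ediv x m
  have a2 := Int.emod_nonneg x hm'.ne'
  have a3 := Int.emod_lt_of_pos x hm'
  rw [h] at a1
  have b1 : ((x % m : ℤ) : ℝ) + m * (⌊y⌋ : ℝ) = x := by exact_mod_cast a1
  have b2 : (0 : ℝ) ≤ ((x % m : ℤ) : ℝ) := by exact_mod_cast a2
  have b3 : ((x % m : ℤ) : ℝ) < m := by exact_mod_cast a3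
  have c1 := Int.floor_le y
  have c2 := Int.lt_floor_add_one y
  rw [abs_le]; constructor <;> nlinarith

theorem norm_ediv_le {ι' U : Type*} [Fintype ι'] [Fintype U] (x : U → ℤ) (j : ι' → U) (m : ℤ) :
    ‖toR (fun i => x (j i) / m)‖ ≤ ‖toR x‖ := by
  rw [pi_norm_le_iff_of_nonneg (norm_nonneg _)]
  intro i
  refine le_trans ?_ (norm_le_pi_norm (toR x) (j i))
  simp only [toR, Real.norm_eq_abs]
  exact_mod_cast Int.abs_ediv_le_abs (x (j i)) m

/-- Spatial vectors at level zero. -/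
def emb (ι : Type) : (ι → ℝ) →ₗ[ℝ] (Option ι → ℝ) where
  toFun η := fun o => o.elim 0 η
  map_add' x y := by funext o; cases o <;> simp
  map_smul' c x := by funext o; cases o <;> simp

@[simp] theorem emb_none {ι : Type} (η : ι → ℝ) : emb ι η none = 0 := rfl
@[simp] theorem emb_some {ι : Type} (η : ι → ℝ) (i : ι) : emb ι η (some i) = η i := rfl

/-- The level direction. -/
def e0 (ι : Type) : Option ι → ℝ := fun o => o.elim 1 fun _ => 0

@[simp] theorem e0_none {ι : Type} : e0 ι none = 1 := rfl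
@[simp] theorem e0_some {ι : Type} (i : ι) : e0 ι (some i) = 0 := rfl

theorem norm_emb_le {ι : Type} [Fintype ι] {η : ι → ℝ} (h : η ∈ cube ι) : ‖emb ι η‖ ≤ 1 := by
  rw [pi_norm_le_iff_of_nonneg zero_le_one]
  rintro (_ | i)
  · simp
  · exact (norm_le_pi_norm η i).trans (norm_le_of_mem_cube h)

theorem near_emb {ι : Type} [Fintype ι] {η : ι → ℝ} (h : η ∈ cube ι) {w w0 : Option ι → ℝ}
    {ρ : ℝ} (hw : ‖w - w0‖ ≤ ρ) : ‖w + emb ι η - w0‖ ≤ ρ + 1 := by
  calc _ = ‖(w - w0) + emb ι η‖ := by congr 1; abel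
    _ ≤ _ := norm_add_le _ _
    _ ≤ _ := add_le_add hw (norm_emb_le h)

namespace Sys

variable {ι : Type} [Fintype ι] {P : Type*} [Group P] {X : Base ι P} {C : Type*} [Fintype C]
  (Y : Sys X C)

/-- Bound for the forms. -/
noncomputable def B0 : ℝ := Y.exists_B.choose

theorem B0_nonneg : 0 ≤ Y.B0 := Y.exists_B.choose_spec.1

theorem B0_const {c : C} {ab : (Option ι → ℤ) × ℤ} (h : ab ∈ Y.Φ c) : |(ab.2 : ℝ)| ≤ Y.B0 :=
  Y.exists_B.choose_spec.2.1 c ab h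

theorem B0_form {a : Option ι → ℤ} (h : a ∈ Y.forms) (w : Option ι → ℝ) :
    |rd a w| ≤ Y.B0 * ‖w‖ := Y.exists_B.choose_spec.2.2 a h w

/-- Slope of the reachable cone. -/
noncomputable def C0 : ℝ := Y.exists_supp.choose

theorem one_le_C0 : 1 ≤ Y.C0 := Y.exists_supp.choose_spec.1

theorem C0_R {p : P} (h : X.R p) : ‖toR (X.u p)‖ ≤ Y.C0 * X.u p none :=
  Y.exists_supp.choose_spec.2.1 p h

theorem C0_lead {w : Option ι → ℝ} (h : Y.lead w ≠ 0) : ‖w‖ ≤ Y.C0 * w none := by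
  refine Y.exists_supp.choose_spec.2.2 w 1 ?_
  by_contra h0
  rw [Finset.not_nonempty_iff_eq_empty] at h0
  exact h (by rw [lead, Av, h0, val_empty])

/-- The part of a level that matters. -/
noncomputable def Lk (k : ℕ) : Finset P :=
  Set.Finite.toFinset (s := {p | X.u p none = k ∧ ‖toR (X.u p)‖ ≤ Y.C0 * k + 1})
    ((X.finite_ball0 _).subset fun _ h => h.2)

theorem mem_Lk {k : ℕ} {p : P} :
    p ∈ Y.Lk k ↔ X.u p none = k ∧ ‖toR (X.u p)‖ ≤ Y.C0 * k + 1 := by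
  simp [Lk]

theorem norm_Lk {k : ℕ} (hk : 1 ≤ k) {p : P} (hp : p ∈ Y.Lk k) :
    ‖toR (X.u p)‖ ≤ (Y.C0 + 1) * k := by
  have : (1 : ℝ) ≤ k := by exact_mod_cast hk
  have := (Y.mem_Lk.1 hp).2
  linarith

/-- Error term at one point. -/
noncomputable def term (p : P) : ℝ := Y.F p - ∫ η in cube ι, Y.lead (toR (X.u p) + emb ι η)

theorem measurable_shift (w : Option ι → ℝ) : Measurable fun η : ι → ℝ => w + emb ι η :=
  (continuous_const.add (emb ι).continuous_of_finiteDimensional).measurable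

theorem integrableOn_lead (w : Option ι → ℝ) :
    IntegrableOn (fun η => Y.lead (w + emb ι η)) (cube ι) := by
  obtain ⟨C1, h0, h1⟩ := Y.exists_lead_bound
  refine integrableOn_cube (Y.measurable_lead.comp (measurable_shift w))
    (K := C1 * (‖w‖ + 1) ^ 2) fun η hη => (h1 _).trans ?_
  have : ‖w + emb ι η‖ ≤ ‖w‖ + 1 := (norm_add_le _ _).trans (by linarith [norm_emb_le hη])
  gcongr

theorem mem_Lk_of_term {k : ℕ} {p : P} (hk : X.u p none = k) (h : Y.term p ≠ 0) : p ∈ Y.Lk k := by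
  rw [mem_Lk]
  refine ⟨hk, ?_⟩
  by_contra hc
  push Not at hc
  apply h
  have h1 : Y.F p = 0 := Y.zero p fun hR => by
    have := Y.C0_R hR
    rw [hk] at this
    push_cast at this
    linarith
  have h2 : ∫ η in cube ι, Y.lead (toR (X.u p) + emb ι η) = 0 := by
    refine setIntegral_eq_zero_of_forall_eq_zero fun η hη => ?_
    by_contra h0
    have a1 := Y.C0_lead h0
    simp only [Pi.add_apply, emb_none, add_zero, toR, hk, Int.cast_natCast] at a1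
    have a2 : ‖toR (X.u p)‖ ≤ ‖toR (X.u p) + emb ι η‖ + 1 := by
      calc ‖toR (X.u p)‖ = ‖(toR (X.u p) + emb ι η) - emb ι η‖ := by simp
        _ ≤ _ := norm_sub_le _ _
        _ ≤ _ := by linarith [norm_emb_le hη]
    have a3 : ‖toR (X.u p) + emb ι η‖ ≤ Y.C0 * k := a1
    linarith
  rw [term, h1, h2, sub_zero]

/-- Forms with a nonzero spatial part. -/
noncomputable def forms' : Finset (Option ι → ℤ) := by
  classical
  exact Y.forms.filter fun a => ∃ i, a (some i) ≠ 0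

theorem mem_forms' {a : Option ι → ℤ} : a ∈ Y.forms' ↔ a ∈ Y.forms ∧ ∃ i, a (some i) ≠ 0 := by
  unfold forms'; simp only [Finset.mem_filter]

/-- The slabs containing a point. -/
noncomputable def slabs (p : P) : Finset (Option ι → ℤ) := by
  classical
  exact Y.forms'.filter fun a => |rd a (toR (X.u p))| ≤ Y.B0

theorem mem_slabs {a : Option ι → ℤ} {p : P} :
    a ∈ Y.slabs p ↔ a ∈ Y.forms' ∧ |rd a (toR (X.u p))| ≤ Y.B0 := by
  unfold slabs; simp only [Finset.mem_filter]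

/-- Templates relevant for the leading term near a ray, seen from a side. -/
noncomputable def W (θ z : Option ι → ℝ) : Finset C := by
  classical
  exact Finset.univ.filter fun c => Y.cong c 1 ∧ ∀ ab ∈ Y.Φ c,
    0 < rd ab.1 θ ∨ (rd ab.1 θ = 0 ∧ (0 < rd ab.1 z ∨ (rd ab.1 z = 0 ∧ ab.2 ≤ 0)))

theorem mem_W {θ z : Option ι → ℝ} {c : C} : c ∈ Y.W θ z ↔ Y.cong c 1 ∧ ∀ ab ∈ Y.Φ c,
    0 < rd ab.1 θ ∨ (rd ab.1 θ = 0 ∧ (0 < rd ab.1 z ∨ (rd ab.1 z = 0 ∧ ab.2 ≤ 0))) := by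
  unfold W; simp only [Finset.mem_filter, Finset.mem_univ, true_and]

theorem ev_W (θ : Option ι → ℝ) (ρ : ℝ) : ∀ᶠ t : ℝ in atTop, ∀ w,
    ‖w - t • θ‖ ≤ ρ → Y.V w 1 = Y.W θ w := by
  filter_upwards [ev_sign Y.forms θ ρ 0] with t ht w hw
  ext c
  rw [mem_V, mem_W]
  refine and_congr_right fun _ => forall₂_congr fun ab hab => ?_
  obtain ⟨h1, h2⟩ := ht _ hw _ (Y.mem_forms hab)
  rw [X.u_one, dotProduct_zero]
  rcases lt_trichotomy 0 (rd ab.1 θ) with h | h | h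
  · simp [h, h1 h]
  · simp [← h]
  · have := h2 h
    rw [neg_zero] at this
    simp [h.not_gt, h.ne, this.not_gt, this.ne]

theorem W_off {θ : Option ι → ℝ} (h : Y.Off θ) (z : Option ι → ℝ) : Y.W θ z = Y.V θ 1 := by
  ext c
  rw [mem_V, mem_W]
  refine and_congr_right fun _ => forall₂_congr fun ab hab => or_congr_right
    (and_congr_right fun h0 => ?_)
  rw [h _ (Y.mem_forms hab) h0]
  simp [rd_zero]

end Sys

end Pool.Agent.MP_b3b911_al
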