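import Pool.Agent.MP_b3b911_al.Words
import Pool.Agent.MP_b3b911_al.Abstract

/-! The maximal height function is a piecewise quadratic system. -/

open Filter Topology

namespace Pool.Agent.MP_b3b911_al

/-- Passing to a multiple of the period. -/
def Base.scale {ι : Type} {P : Type*} [Group P] (X : Base ι P) (m : ℕ) (hm : 0 < m) : Base ι P :=
  { X with
    N := X.N * m
    N_pos := Nat.mul_pos X.N_pos hm
    τ := fun z => X.τ (m • z)
    τ_add := fun z z' => by rw [smul_add, X.τ_add]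
    τ_comm := fun z p => X.τ_comm _ _
    pow_eq := fun g => by rw [pow_mul, X.pow_eq, X.τ_nsmul] }

theorem exists_affine_data {I U : Type*} [Fintype I] [Fintype U]
    (Λ : (I → ℚ) →ₗ[ℚ] (U → ℚ)) (μ : (U → ℚ) →ₗ[ℚ] (I → ℚ)) (B : LinearMap.BilinForm ℚ (I → ℚ))
    (ℓ : (I → ℚ) →ₗ[ℚ] ℚ) (w : I → ℚ) (r C : ℚ) (u0 : U → ℚ) :
    ∃ (Φ : Finset ((U → ℤ) × ℤ)) (q : LinearMap.BilinForm ℝ (U → ℝ)) (l : (U → ℝ) →ₗ[ℝ] ℝ) (c : ℝ),
      ∀ u : U → ℤ, ((∀ ab ∈ Φ, ab.2 ≤ ab.1 ⬝ᵥ u) ↔ Λ (μ (r • (toQ u - u0))) = r • (toQ u - u0) ∧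
        ∀ i, C ≤ (μ (r • (toQ u - u0)) + w) i) ∧
      q (toR u) (toR u) + l (toR u) + c =
        (B (μ (r • (toQ u - u0)) + w) (μ (r • (toQ u - u0)) + w) +
          ℓ (μ (r • (toQ u - u0)) + w) : ℚ) := by
  classical
  let ψ : (U → ℚ) →ₗ[ℚ] (U → ℚ) := r • (Λ ∘ₗ μ - LinearMap.id)
  let A : (U → ℚ) →ₗ[ℚ] (I → ℚ) := r • μ
  let b : I → ℚ := w - A u0
  have hA : ∀ u, μ (r • (u - u0)) + w = A u + b := fun u => by
    simp only [A, b, LinearMap.smul_apply, map_smul, map_sub, smul_sub]; abel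
  obtain ⟨Φ1, h1⟩ := exists_int_ineqs (fun o => LinearMap.proj o ∘ₗ ψ) (fun o => ψ u0 o)
  obtain ⟨Φ2, h2⟩ := exists_int_ineqs (fun o => -(LinearMap.proj o ∘ₗ ψ)) (fun o => -ψ u0 o)
  obtain ⟨Φ3, h3⟩ := exists_int_ineqs (fun i => LinearMap.proj i ∘ₗ A) (fun i => C - b i)
  obtain ⟨q, hq⟩ := exists_real_bilin (B.comp A A)
  obtain ⟨l, hl⟩ := exists_real_lin ((B b + B.flip b + ℓ) ∘ₗ A)
  refine ⟨Φ1 ∪ Φ2 ∪ Φ3, q, l, (B b b + ℓ b : ℚ), fun u => ⟨?_, ?_⟩⟩
  · rw [Finset.forall_mem_union, Finset.forall_mem_union, h1, h2, h3, hA]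
    refine and_congr ?_ (forall_congr' fun i => ?_)
    · have : Λ (μ (r • (toQ u - u0))) = r • (toQ u - u0) ↔ ψ (toQ u) = ψ u0 := by
        rw [← sub_eq_zero, ← sub_eq_zero (a := ψ _), ← map_sub]
        simp only [ψ, LinearMap.smul_apply, LinearMap.sub_apply, LinearMap.comp_apply, map_smul,
          LinearMap.id_apply, smul_sub (r) (Λ _)]
      rw [this, funext_iff, ← forall_and]
      refine forall_congr' fun o => ?_
      simp only [LinearMap.comp_apply, LinearMap.proj_apply, LinearMap.neg_apply, neg_le_neg_iff]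
      exact ⟨fun h => le_antisymm h.2 h.1, fun h => ⟨h.ge, h.le⟩⟩
    · simp only [LinearMap.comp_apply, LinearMap.proj_apply, Pi.add_apply]
      exact sub_le_iff_le_add
  · rw [hq, hl, hA]
    simp only [LinearMap.BilinForm.comp_apply, LinearMap.comp_apply, LinearMap.add_apply, map_add,
      LinearMap.BilinForm.flip_apply]
    push_cast
    ring

/-- Extension by zero. -/
def extJ {M : ℕ} (J : Finset (Fin M)) : (J → ℚ) →ₗ[ℚ] (Fin M → ℚ) where
  toFun t := fun j => if h : j ∈ J then t ⟨j, h⟩ else 0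
  map_add' x y := by funext j; by_cases h : j ∈ J <;> simp [h]
  map_smul' c x := by funext j; by_cases h : j ∈ J <;> simp [h]

/-- Exponents built from a base point and nonnegative parameters. -/
def nn {M : ℕ} (J : Finset (Fin M)) (N : ℕ) (n0 : Fin M → ℕ) (t : J → ℤ) : Fin M → ℕ :=
  fun j => n0 j + N * if h : j ∈ J then (t ⟨j, h⟩).toNat else 0

namespace Ext

variable {ι : Type} {P : Type*} [Group P] {X : Base ι P} {G : Type*} [Group G] (E : Ext X G)

/-- The word with prescribed blocks. -/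
def word {M : ℕ} (τ : Fin M → G) (n : Fin M → ℕ) : G := bw (List.ofFn fun j => (τ j, n j))

theorem word_succ {M : ℕ} (τ : Fin (M + 1) → G) (n : Fin (M + 1) → ℕ) :
    word τ n = τ 0 ^ n 0 * word (fun j => τ j.succ) (fun j => n j.succ) := by
  simp [word, List.ofFn_succ]

theorem cl_word {M : ℕ} (τ : Fin M → E.S) (n : Fin M → ℕ) : E.cl (word (fun j => (τ j : G)) n) := by
  refine E.cl_bw fun e he => ?_
  obtain ⟨j, rfl⟩ := List.mem_ofFn.1 he
  exact (τ j).2

theorem u_word {M : ℕ} (τ : Fin M → G) (n : Fin M → ℕ) :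
    X.u (E.pr (word τ n)) = ∑ j, n j • X.u (E.pr (τ j)) := by
  induction M with
  | zero => simp [word, X.u_one]
  | succ M ih => rw [word_succ, map_mul, X.u_mul, ih, Fin.sum_univ_succ, map_pow, X.u_pow]

theorem word_quad {M : ℕ} (τ : Fin M → G) : ∃ (B : LinearMap.BilinForm ℚ (Fin M → ℚ))
    (h : (Fin M → ℚ) →ₗ[ℚ] ℚ), ∀ n : Fin M → ℕ, E.ht (word τ n) =
      B (fun j => n j) (fun j => n j) + h fun j => n j := by
  induction M with
  | zero => exact ⟨0, 0, fun n => by simp [word, E.ht_one]⟩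
  | succ M ih =>
    obtain ⟨B, h, hB⟩ := ih fun j => τ j.succ
    let tl : (Fin (M + 1) → ℚ) →ₗ[ℚ] (Fin M → ℚ) := LinearMap.funLeft ℚ ℚ Fin.succ
    let Λ : (Fin M → ℚ) →ₗ[ℚ] (Option ι → ℚ) :=
      Fintype.linearCombination ℚ fun j => E.v (τ j.succ)
    refine ⟨B.comp tl tl + (LinearMap.proj 0 : (Fin (M + 1) → ℚ) →ₗ[ℚ] ℚ).smulRight
      (E.ω (E.v (τ 0)) ∘ₗ Λ ∘ₗ tl), h ∘ₗ tl + E.ht (τ 0) • LinearMap.proj 0, fun n => ?_⟩
    have e1 : tl (fun j => n j) = fun j => (n j.succ : ℚ) := rfl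
    have e2 : E.v (word (fun j => τ j.succ) fun j => n j.succ) = Λ fun j => (n j.succ : ℚ) := by
      rw [v, u_word]
      funext o
      simp [Λ, toQ, Fintype.linearCombination_apply, Finset.sum_apply, v]
    rw [word_succ, ht_mul', hB, ht_pow, v_pow, e2]
    simp only [LinearMap.add_apply, LinearMap.BilinForm.comp_apply, e1, LinearMap.smulRight_apply,
      LinearMap.proj_apply, LinearMap.smul_apply, LinearMap.comp_apply, map_smul, smul_eq_mul]
    ring

theorem pr_word_add {M : ℕ} (τ : Fin M → G) (n t : Fin M → ℕ) :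
    E.pr (word τ fun j => n j + X.N * t j) =
      E.pr (word τ n) * X.τ (∑ j, t j • X.u (E.pr (τ j))) := by
  induction M with
  | zero => simp [word, X.τ_zero]
  | succ M ih =>
    rw [word_succ, word_succ, map_mul, map_mul, ih, Fin.sum_univ_succ, X.τ_add, map_pow, map_pow,
      pow_add, pow_mul, X.pow_eq, ← X.τ_nsmul, mul_assoc, mul_assoc, ← mul_assoc (X.τ _),
      X.τ_comm, mul_assoc]

theorem exists_word (M : ℕ) {s0 : G} (hs0 : s0 ∈ E.S) (l : List (G × ℕ)) (hl : E.ok l)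
    (hM : l.length ≤ M) : ∃ (τ : Fin M → E.S) (n : Fin M → ℕ),
      word (fun j => (τ j : G)) n = bw l := by
  have h1 : ∀ l' : List (G × ℕ), E.ok l' → l'.length = M → ∃ (τ : Fin M → E.S) (n : Fin M → ℕ),
      word (fun j => (τ j : G)) n = bw l' := by
    intro l' h1 h2
    subst h2
    exact ⟨fun j => ⟨(l'.get j).1, h1 _ (List.get_mem _ _)⟩, fun j => (l'.get j).2, by
      simp [word]⟩
  obtain ⟨τ, n, h⟩ := h1 (l ++ List.replicate (M - l.length) (s0, 0)) (by
    intro e he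
    rcases List.mem_append.1 he with he | he
    · exact hl e he
    · rw [List.eq_of_mem_replicate he]; exact hs0) (by simp; omega)
  exact ⟨τ, n, by rw [h, bw_append]; simp [bw]⟩

/-- Integer parametrisation. -/
def LamZ {M : ℕ} (τ : Fin M → G) (J : Finset (Fin M)) (t : J → ℤ) : Option ι → ℤ :=
  ∑ i : J, t i • X.u (E.pr (τ i))

/-- Rational parametrisation. -/
noncomputable def Lam {M : ℕ} (τ : Fin M → G) (J : Finset (Fin M)) :
    (J → ℚ) →ₗ[ℚ] (Option ι → ℚ) :=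
  Fintype.linearCombination ℚ fun i : J => E.v (τ i)

theorem Lam_toQ {M : ℕ} (τ : Fin M → G) (J : Finset (Fin M)) (t : J → ℤ) :
    E.Lam τ J (toQ t) = toQ (E.LamZ τ J t) := by
  funext o
  simp [Lam, LamZ, toQ, Fintype.linearCombination_apply, Finset.sum_apply, v]

theorem pr_nn {M : ℕ} (τ : Fin M → G) (J : Finset (Fin M)) (n0 : Fin M → ℕ) {t : J → ℤ}
    (ht : ∀ i, 0 ≤ t i) :
    E.pr (word τ (nn J X.N n0 t)) = E.pr (word τ n0) * X.τ (E.LamZ τ J t) := by
  have := E.pr_word_add τ n0 fun j => if h : j ∈ J then (t ⟨j, h⟩).toNat else 0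
  refine this.trans ?_
  congr 2
  rw [← Finset.sum_subset (Finset.subset_univ J) (fun j _ hj => by simp [hj]), LamZ,
    ← Finset.sum_coe_sort]
  refine Finset.sum_congr rfl fun i _ => ?_
  simp only [i.2, dite_true]
  rw [← natCast_zsmul, Int.toNat_of_nonneg (ht i)]

/-- Quadratic part of the height of a template. -/
noncomputable def Bq {M : ℕ} (τ : Fin M → G) (J : Finset (Fin M)) :
    LinearMap.BilinForm ℚ (J → ℚ) :=
  (E.word_quad τ).choose.comp ((X.N : ℚ) • extJ J) ((X.N : ℚ) • extJ J)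

theorem exists_ell {M : ℕ} (τ : Fin M → G) (J : Finset (Fin M)) (n0 : Fin M → ℕ) :
    ∃ ℓ : (J → ℚ) →ₗ[ℚ] ℚ, ∀ t : J → ℤ, (∀ i, 0 ≤ t i) → E.ht (word τ (nn J X.N n0 t)) =
      E.Bq τ J (toQ t) (toQ t) + ℓ (toQ t) + E.ht (word τ n0) := by
  obtain ⟨h, hB⟩ := (E.word_quad τ).choose_spec
  refine ⟨((E.word_quad τ).choose (fun j => n0 j) + (E.word_quad τ).choose.flip (fun j => n0 j) + h)
    ∘ₗ ((X.N : ℚ) • extJ J), fun t ht => ?_⟩
  have e : (fun j => (nn J X.N n0 t j : ℚ)) =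
      (fun j => (n0 j : ℚ)) + ((X.N : ℚ) • extJ J) (toQ t) := by
    funext j
    by_cases hj : j ∈ J
    · have : (((t ⟨j, hj⟩).toNat : ℕ) : ℚ) = t ⟨j, hj⟩ := by
        exact_mod_cast congrArg (fun x : ℤ => (x : ℚ)) (Int.toNat_of_nonneg (ht ⟨j, hj⟩))
      simp [nn, extJ, hj, toQ, this]
    · simp [nn, extJ, hj]
  rw [hB, hB, e]
  simp only [Bq, LinearMap.BilinForm.comp_apply, LinearMap.comp_apply, LinearMap.add_apply, map_add,
    LinearMap.BilinForm.flip_apply]
  ring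

theorem last_big (N : ℕ) (l : List (G × ℕ)) (h : ∃ e ∈ l, N ≤ e.2) :
    ∃ l1 s m l2, l = l1 ++ (s, m) :: l2 ∧ N ≤ m ∧ ∀ e ∈ l2, e.2 < N := by
  induction l with
  | nil => simp at h
  | cons e l ih =>
    by_cases h' : ∃ e ∈ l, N ≤ e.2
    · obtain ⟨l1, s, m, l2, h1, h2, h3⟩ := ih h'
      exact ⟨e :: l1, s, m, l2, by rw [h1]; rfl, h2, h3⟩
    · push Not at h'
      obtain ⟨e', h1, h2⟩ := h
      rcases List.mem_cons.1 h1 with rfl | h1
      · exact ⟨[], e'.1, e'.2, l, rfl, h2, h'⟩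
      · exact absurd h2 (not_le.2 (h' e' h1))

theorem lv_bw_le {N : ℕ} {l : List (G × ℕ)} (hl : E.ok l) (h : ∀ e ∈ l, e.2 < N) :
    E.lv (bw l) + l.length ≤ l.length * N := by
  induction l with
  | nil => simp [lv_one]
  | cons e l ih =>
    have a1 := ih (fun e he => hl e (by simp [he])) fun e he => h e (by simp [he])
    have a2 : (e.2 : ℤ) < N := by exact_mod_cast h e (by simp)
    rw [bw_cons, lv_mul, lv_pow, E.lv_letter (hl e (by simp))]
    simp only [List.length_cons]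
    push_cast
    linarith

variable [Fintype ι]

theorem exists_sys {s0 : G} (hs0 : s0 ∈ E.S) : ∃ (m : ℕ) (hm : 0 < m) (M Cb : ℕ)
    (Y : Sys (X.scale m hm) ((Fin M → E.S) × Finset (Fin M) × (Fin M → Fin Cb))),
    Y.F = E.top := by
  classical
  obtain ⟨M, hM⟩ := E.consolidate
  obtain ⟨Ω, hΩ1, hΩ2⟩ := E.exists_Ω
  let D := fun (τ : Fin M → E.S) (J : Finset (Fin M)) =>
    (nonempty_qp (E.Lam (fun j => (τ j : G)) J) (E.Bq (fun j => (τ j : G)) J)).some
  let den : ℕ := ∏ x : (Fin M → E.S) × Finset (Fin M), (D x.1 x.2).den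
  have hden : 0 < den := Finset.prod_pos fun x _ => (D x.1 x.2).den_pos
  have hden' : ∀ τ J, (D τ J).den ∣ den := fun τ J =>
    Finset.dvd_prod_of_mem (fun x : (Fin M → E.S) × Finset (Fin M) => (D x.1 x.2).den)
      (Finset.mem_univ (τ, J))
  let Cq : ℕ := Finset.univ.sup fun x : (Fin M → E.S) × Finset (Fin M) => (D x.1 x.2).C
  have hCq : ∀ τ J, (D τ J).C ≤ Cq := fun τ J =>
    Finset.le_sup (f := fun x : (Fin M → E.S) × Finset (Fin M) => (D x.1 x.2).C)
      (Finset.mem_univ (τ, J))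
  set Cb : ℕ := X.N * (2 * Cq + 1) with hCb
  have hN := X.N_pos
  have hN' : (X.N : ℚ) ≠ 0 := by exact_mod_cast hN.ne'
  choose ℓ hℓ using fun (τ : Fin M → E.S) (J : Finset (Fin M)) (n0 : Fin M → ℕ) =>
    E.exists_ell (fun j => (τ j : G)) J n0
  let w0 : (Fin M → E.S) × Finset (Fin M) × (Fin M → Fin Cb) → G :=
    fun c => word (fun j => (c.1 j : G)) fun j => (c.2.2 j : ℕ)
  choose Φ q l cst hdat using fun c : (Fin M → E.S) × Finset (Fin M) × (Fin M → Fin Cb) =>
    exists_affine_data (E.Lam (fun j => (c.1 j : G)) c.2.1) (D c.1 c.2.1).μ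
      (E.Bq (fun j => (c.1 j : G)) c.2.1) (ℓ c.1 c.2.1 fun j => (c.2.2 j : ℕ))
      ((D c.1 c.2.1).wc (ℓ c.1 c.2.1 fun j => (c.2.2 j : ℕ))) (X.N : ℚ)⁻¹ Cq (E.v (w0 c))
  obtain ⟨K1, hK1, hK1'⟩ := exists_fin_bound Finset.univ
    (fun c K => |(E.ht (w0 c) : ℝ) + cst c| ≤ K) (fun _ _ _ h1 _ h2 => h2.trans h1)
    fun c _ => ⟨_, abs_nonneg _, le_rfl⟩
  choose lam hlam using fun s : P => exists_real_lin (E.ω.flip (toQ (X.u s)))
  have hx : ∀ c p x, p = E.pr (w0 c) * X.τ x →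
      (X.N : ℚ)⁻¹ • (toQ (X.u p) - E.v (w0 c)) = toQ x := by
    intro c p x hp
    rw [hp, X.u_mul, X.u_τ, toQ_add, toQ_nsmul, v, add_sub_cancel_left, smul_smul,
      inv_mul_cancel₀ hN', one_smul]
  set N1 : ℕ := X.N * den with hN1
  set K : ℝ := K1 + Cq + Ω + N1 * Ω + 2 * N1 * (Ω * (M * N1)) with hK
  have k1 : (0 : ℝ) ≤ N1 * Ω := by positivity
  have k2 : (0 : ℝ) ≤ 2 * N1 * (Ω * (M * N1)) := by positivity
  have k3 : (0 : ℝ) ≤ Cq := by positivity
  have k4 : (0 : ℝ) ≤ Ω := by positivity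
  refine ⟨den, hden, M, Cb,
    { F := E.top
      cong := fun c p => (D c.1 c.2.1).good ∧ ∃ (z : Option ι → ℤ) (t : c.2.1 → ℤ),
        p = E.pr (w0 c) * X.τ (E.LamZ (fun j => (c.1 j : G)) c.2.1 t + den • z)
      cong_τ := ?_
      Φ := Φ
      q := q
      l := l
      K := K
      K_nonneg := by linarith
      low := ?_
      up := ?_
      zero := fun p hp => E.top_eq_zero hp
      lam := lam
      mono := ?_
      k0 := M * N1 + 1
      opt := ?_ }, rfl⟩
  · rintro c z p ⟨h1, z', t, rfl⟩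
    refine ⟨h1, z' + z, t, ?_⟩
    change X.τ (den • z) * _ = _
    rw [X.τ_comm, mul_assoc, ← X.τ_add, smul_add, add_assoc]
  · rintro c p ⟨hg, z, t, hp⟩ hΦ
    change X.R p ∧ q c (toR (X.u p)) (toR (X.u p)) + l c (toR (X.u p)) - K ≤ E.top p
    obtain ⟨d1, d2⟩ := hdat c (X.u p)
    obtain ⟨d3, d4⟩ := d1.1 hΦ
    rw [hx c p _ hp] at d2 d3 d4
    have hd : (den : ℚ) ≠ 0 := by exact_mod_cast hden.ne'
    rw [toQ_add, toQ_nsmul, ← Lam_toQ, map_add, map_add, (D c.1 c.2.1).range, add_right_inj,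
      map_smul, map_smul] at d3
    obtain ⟨t', ht'⟩ := (D c.1 c.2.1).lattice z (smul_right_injective _ hd d3)
    obtain ⟨e, he⟩ := hden' c.1 c.2.1
    have e1 : toQ (E.LamZ (fun j => (c.1 j : G)) c.2.1 t + den • z) =
        E.Lam (fun j => (c.1 j : G)) c.2.1 (toQ (t + e • t')) := by
      rw [toQ_add, toQ_add, toQ_nsmul, toQ_nsmul, map_add, map_smul, ht', Lam_toQ, smul_smul, he]
      push_cast
      rw [mul_comm]
    rw [e1] at d2 d4
    obtain ⟨t1, r1, r2, r3⟩ := (D c.1 c.2.1).round hg (ℓ c.1 c.2.1 fun j => (c.2.2 j : ℕ))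
      (t + e • t')
    have hC : ((D c.1 c.2.1).C : ℚ) ≤ Cq := by exact_mod_cast hCq c.1 c.2.1
    have ht1 : ∀ i, 0 ≤ t1 i := fun i => by
      have : (0 : ℚ) ≤ t1 i := by linarith [r2 i, d4 i]
      exact_mod_cast this
    have f1 := E.pr_nn (fun j => (c.1 j : G)) c.2.1 (fun j => (c.2.2 j : ℕ)) ht1
    rw [toQ_injective ((E.Lam_toQ _ _ t1).symm.trans (r1.trans e1.symm)), ← hp] at f1
    have f2 := hℓ c.1 c.2.1 (fun j => (c.2.2 j : ℕ)) t1 ht1
    have f3 := E.le_top (E.cl_word c.1 _) f1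
    refine ⟨f1 ▸ E.R_pr (E.cl_word c.1 _), ?_⟩
    have f4 := (abs_le.1 (hK1' c (Finset.mem_univ _))).1
    have f5 := (Rat.cast_le (K := ℝ)).2 (r3.trans' (sub_le_sub_left hC _))
    rw [f2] at f3
    push_cast at f3 f5 d2
    simp only [w0] at f4
    linarith
  · intro p hp
    change ∃ c, _ ∧ (∀ ab ∈ Φ c, ab.2 ≤ ab.1 ⬝ᵥ X.u p) ∧
      E.top p ≤ q c (toR (X.u p)) (toR (X.u p)) + l c (toR (X.u p)) + K
    obtain ⟨g, g1, g2, g3⟩ := E.exists_top hp
    obtain ⟨L, l1, l2, l3, l4⟩ := hM g g1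
    obtain ⟨τ, n', hn'⟩ := E.exists_word M hs0 L l1 l2
    have hmax : ∀ n, E.pr (word (fun j => (τ j : G)) n) = p →
        E.ht (word (fun j => (τ j : G)) n) ≤ E.ht g := fun n hn => by
      have := E.le_top (E.cl_word τ n) hn
      rw [g3] at this
      exact_mod_cast this
    have hfin : {n : Fin M → ℕ | E.pr (word (fun j => (τ j : G)) n) = p ∧
        E.ht g ≤ E.ht (word (fun j => (τ j : G)) n)}.Finite := by
      refine (Set.Finite.pi' fun _ : Fin M => Set.finite_Iic (X.u p none).toNat).subset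
        fun n hn j => ?_
      have a1 := congrFun (E.u_word (fun j => (τ j : G)) n) none
      rw [hn.1, Finset.sum_apply] at a1
      have a2 : ∀ j, (n j • X.u (E.pr (τ j))) none = n j := fun j => by
        rw [Pi.smul_apply, X.L_one _ (E.pr_mem (τ j).2)]; simp
      simp only [a2] at a1
      have a3 := Finset.single_le_sum (f := fun j => (n j : ℤ)) (fun _ _ => Nat.cast_nonneg _)
        (Finset.mem_univ j)
      simp only [Set.mem_Iic]
      omega
    obtain ⟨n, ⟨hn1, hn2⟩, hn3⟩ := Set.exists_max_image _ (fun n : Fin M → ℕ => ∑ j, (n j : ℤ) ^ 2)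
      hfin ⟨n', by rw [Set.mem_ofPred_eq, hn']; exact ⟨l3.trans g2, l4⟩⟩
    let J : Finset (Fin M) := Finset.univ.filter fun j => Cb ≤ n j
    have hJ : ∀ j, j ∈ J ↔ Cb ≤ n j := fun j => by simp [J]
    let n0 : Fin M → Fin Cb := fun j => ⟨if j ∈ J then n j % X.N else n j, by
      split_ifs with h
      · exact (Nat.mod_lt _ hN).trans_le (Nat.le_mul_of_pos_right _ (by omega))
      · exact not_le.1 fun h' => h ((hJ j).2 h')⟩
    let t : J → ℤ := fun i => ((n i / X.N : ℕ) : ℤ)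
    have ht : ∀ i, (2 * Cq + 1 : ℤ) ≤ t i := fun i => by
      have : 2 * Cq + 1 ≤ n i / X.N := by
        rw [Nat.le_div_iff_mul_le hN, mul_comm]; exact (hJ i).1 i.2
      simp only [t]
      exact_mod_cast this
    have ht0 : ∀ i, 0 ≤ t i := fun i => Nat.cast_nonneg _
    have en : nn J X.N (fun j => (n0 j : ℕ)) t = n := by
      funext j
      by_cases h : j ∈ J
      · simp only [nn, n0, t, h, if_true, dite_true, Int.toNat_natCast]
        exact Nat.mod_add_div _ _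
      · simp [nn, n0, h]
    have hp0 := E.pr_nn (fun j => (τ j : G)) J (fun j => (n0 j : ℕ)) ht0
    have hh0 := hℓ τ J (fun j => (n0 j : ℕ)) t ht0
    rw [en] at hp0 hh0
    rw [hn1] at hp0
    have hC : ((D τ J).C : ℤ) ≤ Cq := by exact_mod_cast hCq τ J
    have move : ∀ κ : J → ℤ, E.Lam (fun j => (τ j : G)) J (toQ κ) = 0 → (∀ i, |κ i| ≤ (D τ J).C) →
        (∀ i, 0 ≤ (t + κ) i) ∧
          E.pr (word (fun j => (τ j : G)) (nn J X.N (fun j => (n0 j : ℕ)) (t + κ))) = p := by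
      intro κ h1 h2
      have a1 : ∀ i, 0 ≤ (t + κ) i := fun i => by
        have := (abs_le.1 (h2 i)).1
        have := ht i
        rw [Pi.add_apply]
        omega
      refine ⟨a1, ?_⟩
      rw [E.pr_nn _ _ _ a1, hp0]
      congr 2
      apply toQ_injective
      rw [← Lam_toQ, ← Lam_toQ, toQ_add, map_add, h1, add_zero]
    have hg : (D τ J).good := by
      by_contra hbad
      obtain ⟨κ, b1, b2, b3, b4⟩ := (D τ J).bad hbad
      obtain ⟨c1, c2⟩ := move κ b2 b4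
      obtain ⟨c3, c4⟩ := move (-κ) (by rw [toQ_neg, map_neg, b2, neg_zero]) (by simpa using b4)
      have c5 := hmax _ c2
      have c6 := hmax _ c4
      have c7 := hℓ τ J (fun j => (n0 j : ℕ)) _ c1
      have c8 := hℓ τ J (fun j => (n0 j : ℕ)) _ c3
      rw [toQ_add] at c7 c8
      rw [toQ_neg] at c8
      simp only [map_add, map_neg, LinearMap.add_apply, LinearMap.neg_apply] at c7 c8
      have d1 := hn3 _ ⟨c2, by linarith⟩
      have d2 := hn3 _ ⟨c4, by linarith⟩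
      have cn : ∀ κ : J → ℤ, (∀ i, 0 ≤ (t + κ) i) → ∀ j,
          (nn J X.N (fun j => (n0 j : ℕ)) (t + κ) j : ℤ) =
            n j + X.N * if h : j ∈ J then κ ⟨j, h⟩ else 0 := by
        intro κ hκ j
        conv_rhs => rw [← en]
        by_cases h : j ∈ J
        · simp only [nn, h, dite_true]
          push_cast
          rw [Int.toNat_of_nonneg (hκ _), Int.toNat_of_nonneg (ht0 _), Pi.add_apply]; ring
        · simp [nn, h]
      simp only [cn κ c1, cn (-κ) c3] at d1 d2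
      obtain ⟨i, hi⟩ := Function.ne_iff.1 b1
      have d3 : ∑ j, 2 * (n j : ℤ) ^ 2 < ∑ j, ((n j + X.N * if h : j ∈ J then κ ⟨j, h⟩ else 0) ^ 2 +
          (n j + X.N * if h : j ∈ J then (-κ) ⟨j, h⟩ else 0) ^ 2) := by
        refine Finset.sum_lt_sum (fun j _ => ?_) ⟨i, Finset.mem_univ _, ?_⟩
        · by_cases h : j ∈ J
          · simp only [h, dite_true, Pi.neg_apply]
            nlinarith [sq_nonneg (X.N * κ ⟨j, h⟩)]
          · simp [h, two_mul]
        · simp only [i.2, dite_true, Pi.neg_apply]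
          have : (X.N : ℤ) * κ i ≠ 0 := mul_ne_zero (by exact_mod_cast hN.ne') hi
          nlinarith [sq_pos_of_ne_zero this]
      rw [Finset.sum_add_distrib, ← Finset.mul_sum] at d3
      linarith
    have hprox := (D τ J).prox hg (ℓ τ J fun j => (n0 j : ℕ)) t fun κ h1 h2 => by
      obtain ⟨c1, c2⟩ := move κ h1 h2
      have c5 := hmax _ c2
      have c7 := hℓ τ J (fun j => (n0 j : ℕ)) _ c1
      linarith
    have hmx := (D τ J).max hg (ℓ τ J fun j => (n0 j : ℕ)) (toQ t)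
    obtain ⟨d1, d2⟩ := hdat (τ, J, n0) (X.u p)
    rw [hx (τ, J, n0) p _ hp0, ← Lam_toQ] at d1 d2
    refine ⟨(τ, J, n0), ⟨hg, 0, t, by simpa using hp0⟩, d1.2 ⟨(D τ J).range _, fun i => ?_⟩, ?_⟩
    · have a1 : (2 * Cq + 1 : ℚ) ≤ t i := by exact_mod_cast ht i
      have a2 : ((D τ J).C : ℚ) ≤ Cq := by exact_mod_cast hC
      linarith [hprox i]
    · have f4 := (abs_le.1 (hK1' (τ, J, n0) (Finset.mem_univ _))).2
      have f5 := (Rat.cast_le (K := ℝ)).2 ((hn2.trans hh0.le).trans (add_le_add_left hmx _))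
      rw [g3]
      push_cast at f5 d2
      simp only [w0] at f4
      linarith
  · intro σ hσ p hp
    change E.top p + lam σ (toR (X.u p)) - K ≤ E.top (p * σ)
    obtain ⟨s, hs, rfl⟩ := (E.L_eq σ).1 hσ
    obtain ⟨g, g1, rfl, g3⟩ := E.exists_top hp
    have a1 := E.le_top (g1.mul (E.cl_letter hs)) (map_mul E.pr g s)
    have a2 := (Rat.cast_le (K := ℝ)).2 (abs_le.1 (hΩ1 s hs)).1
    rw [g3, hlam, LinearMap.BilinForm.flip_apply]
    rw [E.ht_mul] at a1
    push_cast at a1 a2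
    linarith
  · intro p hp hk
    change ∃ s ∈ X.L, ∃ p', X.R p' ∧ p = p' * s ^ N1 ∧
      E.top p - N1 * lam s (toR (X.u p')) - K ≤ E.top p'
    change (M * N1 + 1 : ℤ) ≤ X.u p none at hk
    obtain ⟨g, g1, g2, g3⟩ := E.exists_top hp
    obtain ⟨L, l1, l2, l3, l4⟩ := hM g g1
    have l2' : (L.length : ℤ) ≤ M := by exact_mod_cast l2
    obtain ⟨L1, s, m, L2, rfl, hm, hL2⟩ := last_big N1 L (by
      by_contra hc
      push Not at hc
      have a1 := E.lv_bw_le l1 hc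
      rw [lv, l3, g2] at a1
      have : (L.length : ℤ) * N1 ≤ M * N1 := by gcongr
      have : (0 : ℤ) ≤ L.length := Nat.cast_nonneg _
      linarith)
    obtain ⟨m', rfl⟩ := Nat.exists_eq_add_of_le hm
    have hs : s ∈ E.S := l1 (s, N1 + m') (by simp)
    have o1 : E.ok L1 := fun e he => l1 e (by simp [he])
    have o2 : E.ok L2 := fun e he => l1 e (by simp [he])
    have c1 := (E.cl_bw o1).mul (((E.cl_letter hs).pow m').mul (E.cl_bw o2))
    refine ⟨E.pr s, E.pr_mem hs, _, E.R_pr c1, ?_, ?_⟩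
    · rw [← g2, ← l3]
      simp only [bw_append, bw_cons, map_mul, map_pow, pow_add, mul_assoc]
      rw [← mul_assoc (E.pr s ^ m'), ← E.pr_pow_comm s (Dvd.intro _ rfl)]
    · have a1 := E.le_top c1 rfl
      have a2 := abs_le.1 (hΩ1 s hs)
      have a3 := hΩ2 _ _ (E.cl_letter hs) (E.cl_bw o2)
      have a4 := E.lv_bw_le o2 hL2
      have a5 : (E.lv (bw L2) : ℚ) ≤ M * N1 := by
        have b1 : (L2.length : ℤ) ≤ M := by
          simp only [List.length_append, List.length_cons] at l2'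
          push_cast at l2'
          have : (0 : ℤ) ≤ L1.length := Nat.cast_nonneg _
          linarith
        have : (L2.length : ℤ) * N1 ≤ M * N1 := by gcongr
        have : (0 : ℤ) ≤ L2.length := Nat.cast_nonneg _
        have : E.lv (bw L2) ≤ M * N1 := by linarith
        exact_mod_cast this
      rw [E.lv_letter hs, Int.cast_one, mul_one] at a3
      have a6 := (abs_le.1 (a3.trans (mul_le_mul_of_nonneg_left a5 (Nat.cast_nonneg _)))).2
      have a7 := E.ω_swap (E.v (bw L2)) (E.v s)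
      have n0 : (0 : ℚ) ≤ N1 := Nat.cast_nonneg _
      have a8 : E.ht g - N1 * E.ω (E.v (bw L1 * (s ^ m' * bw L2))) (E.v s) -
          (N1 * Ω + 2 * N1 * (Ω * (M * N1))) ≤ E.ht (bw L1 * (s ^ m' * bw L2)) := by
        simp only [bw_append, bw_cons, ht_mul', v_mul, v_pow, ht_pow, map_add, map_smul,
          LinearMap.add_apply, LinearMap.smul_apply, smul_eq_mul, E.ω_self] at l4 ⊢
        push_cast at l4
        nlinarith [mul_le_mul_of_nonneg_left a2.2 n0, mul_le_mul_of_nonneg_left a6 n0]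
      have a9 := (Rat.cast_le (K := ℝ)).2 a8
      rw [g3, hlam, LinearMap.BilinForm.flip_apply]
      simp only [v] at a9
      push_cast at a9
      linarith

end Ext

/-- The counting system attached to a system. -/
noncomputable def Sys.count {ι : Type} [Fintype ι] {P : Type*} [Group P] {X : Base ι P} {C : Type*}
    (Y : Sys X C) : Sys X C := by
  classical
  exact
  { F := fun p => if X.R p then (X.u p none : ℝ) ^ 2 else 0
    cong := Y.cong
    cong_τ := Y.cong_τ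
    Φ := Y.Φ
    q := fun _ => (LinearMap.proj none : (Option ι → ℝ) →ₗ[ℝ] ℝ).smulRight (LinearMap.proj none)
    l := fun _ => 0
    K := (X.N : ℝ) ^ 2
    K_nonneg := sq_nonneg _
    low := fun c p h1 h2 => by
      have := (Y.low c p h1 h2).1
      refine ⟨this, ?_⟩
      simp [this, toR, sq, mul_self_nonneg]
    up := fun p hp => by
      obtain ⟨c, h1, h2, -⟩ := Y.up p hp
      refine ⟨c, h1, h2, ?_⟩
      simp [hp, toR, sq, mul_self_nonneg]
    zero := fun p hp => if_neg hp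
    lam := fun _ => (2 : ℝ) • LinearMap.proj none
    mono := fun s hs p hp => by
      simp only [hp, Base.R_mul hp (X.R_of_mem hs), if_true, X.u_mul, Pi.add_apply, X.L_one s hs,
        LinearMap.smul_apply, LinearMap.proj_apply, toR, smul_eq_mul]
      push_cast
      nlinarith [sq_nonneg (X.N : ℝ)]
    k0 := Y.k0
    opt := fun p hp hk => by
      obtain ⟨s, hs, p', h1, h2, -⟩ := Y.opt p hp hk
      refine ⟨s, hs, p', h1, h2, ?_⟩
      simp only [hp, h1, if_true, LinearMap.smul_apply, LinearMap.proj_apply, toR, smul_eq_mul]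
      rw [h2, X.u_mul, X.u_pow, Pi.add_apply, Pi.smul_apply, X.L_one s hs]
      simp only [nsmul_eq_mul, mul_one]
      push_cast
      nlinarith }

namespace Ext

variable {ι : Type} [Fintype ι] {P : Type*} [Group P] {X : Base ι P} {G : Type*} [Group G]
  (E : Ext X G)

theorem top_limit {s0 : G} (hs0 : s0 ∈ E.S) : ∃ α L : ℝ, Tendsto (fun k : ℕ =>
    (∑ p ∈ X.lev k, E.top p - α * (k : ℝ) ^ (Fintype.card ι + 2)) / (k : ℝ) ^ (Fintype.card ι + 1))
    atTop (𝓝 L) := by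
  obtain ⟨m, hm, M, Cb, Y, hY⟩ := E.exists_sys hs0
  have := Y.main
  rw [hY] at this
  exact this

theorem count_limit {s0 : G} (hs0 : s0 ∈ E.S) : ∃ α L : ℝ, Tendsto (fun k : ℕ =>
    ((X.lev k).card * (k : ℝ) ^ 2 - α * (k : ℝ) ^ (Fintype.card ι + 2)) /
      (k : ℝ) ^ (Fintype.card ι + 1)) atTop (𝓝 L) := by
  obtain ⟨m, hm, M, Cb, Y, -⟩ := E.exists_sys hs0
  obtain ⟨α, L, h⟩ := Y.count.main
  refine ⟨α, L, h.congr fun k => ?_⟩
  congr 2
  change ∑ p ∈ X.lev k, _ = _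
  rw [← nsmul_eq_mul, ← Finset.sum_const]
  refine Finset.sum_congr rfl fun p hp => ?_
  rw [X.mem_lev] at hp
  have h1 : (X.scale m hm).R p := hp.1
  have h2 : (X.scale m hm).u p none = k := hp.2
  simp [Sys.count, h1, h2]

end Ext

end Pool.Agent.MP_b3b911_al
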