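import Pool.Agent.MP_b3b911_al.Fill
import Pool.Agent.MP_b3b911_al.Templates

/-! Two term asymptotics for the number of products of letters at a given level. -/

open Filter Topology

namespace Pool.Agent.MP_b3b911_al

theorem lim_of_two {a : ℕ → ℝ} {α L : ℝ} {n : ℕ}
    (h : Tendsto (fun k : ℕ => (a k - α * (k : ℝ) ^ (n + 1)) / (k : ℝ) ^ n) atTop (𝓝 L)) :
    Tendsto (fun k : ℕ => a k / (k : ℝ) ^ (n + 1)) atTop (𝓝 α) := by
  have h1 := (h.mul tendsto_inv_atTop_nhds_zero_nat).add_const α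
  rw [mul_zero, zero_add] at h1
  refine h1.congr' ?_
  filter_upwards [eventually_ge_atTop 1] with k hk
  have : (k : ℝ) ≠ 0 := by exact_mod_cast (by omega : k ≠ 0)
  field_simp
  ring

namespace Ext

variable {ι : Type} {P : Type*} [Group P] {X : Base ι P} {G : Type*} [Group G] (E : Ext X G)

/-- Number of products of exactly `k` letters. -/
noncomputable def beta (k : ℕ) : ℕ := {g | E.cl g ∧ E.lv g = k}.ncard

theorem neg_neg_top (p : P) : E.neg.neg.top p = E.top p := by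
  simp only [top, neg, neg_neg]

/-- A central padding letter and formal inverses. -/
structure Pad where
  e : G
  mem : e ∈ E.S
  comm : ∀ g, e * g = g * e
  spatial : ∀ i, X.u (E.pr e) (some i) = 0
  inv : ∀ s ∈ E.S, ∃ s' ∈ E.S, s * s' = e ^ 2
  surj : Function.Surjective E.pr

/-- The padding data for the reversed height. -/
def Pad.neg {E : Ext X G} (Z : E.Pad) : E.neg.Pad := ⟨Z.e, Z.mem, Z.comm, Z.spatial, Z.inv, Z.surj⟩

theorem card_fib {D : ℕ} (hD : 0 < D)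
    (hcong : ∀ g g', E.pr g = E.pr g' → ∃ j : ℤ, E.ht g' = E.ht g + D * j)
    (hinj : ∀ g g', E.pr g = E.pr g' → E.ht g = E.ht g' → g = g')
    (hm : ∀ s ∈ E.S, ∀ t ∈ E.S, E.ω (E.v s) (E.v t) ≠ 0 → ∃ m : ℕ,
      E.pr s ^ m * E.pr t = E.pr t * E.pr s ^ m ∧ |2 * (m * E.ω (E.v s) (E.v t))| = D) :
    ∃ C : ℝ, 0 ≤ C ∧ ∀ p, X.R p → 1 ≤ X.u p none →
      |((E.fib p).card : ℝ) - (E.top p + E.neg.top p) / D| ≤ C * X.u p none ∧
      (C * X.u p none ≤ E.top p → C * X.u p none ≤ E.neg.top p →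
        |((E.fib p).card : ℝ) - (E.top p + E.neg.top p) / D| ≤ C) := by
  classical
  obtain ⟨C1, h1⟩ := E.fill hD hcong hm
  obtain ⟨C2, h2⟩ := E.neg.fill hD (fun g g' h => by
    obtain ⟨j, hj⟩ := hcong g g' h
    exact ⟨-j, by simp only [neg, hj]; push_cast; ring⟩) (fun s hs t ht hω => by
    obtain ⟨m, a1, a2⟩ := hm s hs t ht fun h0 => hω (by
      change -(E.ω (E.v s) (E.v t)) = 0; rw [h0, neg_zero])
    refine ⟨m, a1, ?_⟩
    change |2 * (m * -(E.ω (E.v s) (E.v t)))| = D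
    rw [mul_neg, mul_neg, abs_neg, a2])
  obtain ⟨C3, h3⟩ := E.sym
  obtain ⟨C4, h4⟩ := E.neg.sym
  refine ⟨2 * (C1 + C2) + C3 + C4 + 1, by positivity, fun p hp hk => ?_⟩
  obtain ⟨g0, a1, a2, a3⟩ := E.exists_top hp
  obtain ⟨g1, b1, b2, b3⟩ := E.neg.exists_top hp
  change E.pr g1 = p at b2
  change E.neg.top p = ((-E.ht g1 : ℚ) : ℝ) at b3
  have hD' : (1 : ℚ) ≤ D := by exact_mod_cast hD
  have hup : ∀ g, E.cl g → E.pr g = p → E.ht g ≤ E.ht g0 := fun g c1 c2 => by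
    have := E.le_top c1 c2
    rw [a3] at this
    exact_mod_cast this
  have hlo : ∀ g, E.cl g → E.pr g = p → E.ht g1 ≤ E.ht g := fun g c1 c2 => by
    have := E.neg.le_top (g := g) c1 c2
    rw [b3] at this
    change ((-E.ht g : ℚ) : ℝ) ≤ _ at this
    have : -E.ht g ≤ -E.ht g1 := by exact_mod_cast this
    linarith
  have hnat : ∀ g, E.cl g → E.pr g = p → ∃ w : ℕ, E.ht g = E.ht g0 - D * w := fun g c1 c2 => by
    obtain ⟨j, hj⟩ := hcong g0 g (a2.trans c2.symm)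
    have c3 := hup g c1 c2
    have c4 : 0 ≤ -j := by
      have : (0 : ℚ) ≤ D * ((-j : ℤ) : ℚ) := by push_cast; linarith
      exact_mod_cast (mul_nonneg_iff_of_pos_left (by linarith)).1 this
    obtain ⟨w, hw⟩ := Int.eq_ofNat_of_zero_le c4
    have : (j : ℚ) = -w := by
      have : -(j : ℚ) = w := by exact_mod_cast hw
      linarith
    exact ⟨w, by rw [hj, this]; ring⟩
  obtain ⟨w, hw⟩ := hnat g1 b1 b2
  have e1 : (E.top p + E.neg.top p) / D = w := by
    have : (D : ℝ) ≠ 0 := by exact_mod_cast hD.ne'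
    rw [a3, b3, hw]
    push_cast
    field_simp
    ring
  have e2 : ((E.fib p).image E.ht).card = (E.fib p).card :=
    Finset.card_image_of_injOn fun g hg g' hg' h =>
      hinj g g' ((E.mem_fib.1 hg).2.trans (E.mem_fib.1 hg').2.symm) h
  have u1 : (E.fib p).card ≤ w + 1 := by
    rw [← e2]
    refine (Finset.card_le_card (t := (Finset.range (w + 1)).image
      fun i : ℕ => E.ht g0 - D * i) fun x hx => ?_).trans
      (Finset.card_image_le.trans (by simp))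
    obtain ⟨g, hg, rfl⟩ := Finset.mem_image.1 hx
    rw [mem_fib] at hg
    obtain ⟨i, hi⟩ := hnat g hg.1 hg.2
    refine Finset.mem_image.2 ⟨i, Finset.mem_range.2 (Nat.lt_succ_of_le ?_), hi.symm⟩
    have c1 := hlo g hg.1 hg.2
    rw [hi, hw] at c1
    have : (i : ℚ) ≤ w := le_of_mul_le_mul_left (by linarith) (by linarith : (0 : ℚ) < D)
    exact_mod_cast this
  have lv0 : E.lv g0 = X.u p none := by rw [lv, a2]
  have lv1 : E.neg.lv g1 = X.u p none := by change X.u (E.pr g1) none = _; rw [b2]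
  have hk' : (1 : ℝ) ≤ X.u p none := by exact_mod_cast hk
  have u2 : (C1 + C2 : ℝ) * X.u p none ≤ E.top p → (C1 + C2 : ℝ) * X.u p none ≤ E.neg.top p →
      w ≤ (E.fib p).card + 2 * (C1 + C2) := by
    intro c1 c2
    have c0 : (0 : ℝ) ≤ C1 * X.u p none := by positivity
    have c0' : (0 : ℝ) ≤ C2 * X.u p none := by positivity
    have c3 : (C1 : ℚ) * E.lv g0 ≤ E.ht g0 := by
      have : (C1 : ℝ) * X.u p none ≤ E.ht g0 := by rw [← a3]; linarith
      rw [lv0]; exact_mod_cast this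
    have c4 : (C2 : ℚ) * E.neg.lv g1 ≤ E.neg.ht g1 := by
      have : (C2 : ℝ) * X.u p none ≤ ((-E.ht g1 : ℚ) : ℝ) := by rw [← b3]; linarith
      rw [lv1]; exact_mod_cast this
    have c5 : (Finset.Icc (C1 + C2) (w - (C1 + C2))).image (fun i : ℕ => E.ht g0 - D * i) ⊆
        (E.fib p).image E.ht ∨ w ≤ 2 * (C1 + C2) := by
      by_cases hw2 : w ≤ 2 * (C1 + C2)
      · exact Or.inr hw2
      refine Or.inl fun x hx => ?_
      obtain ⟨i, hi, rfl⟩ := Finset.mem_image.1 hx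
      rw [Finset.mem_Icc] at hi
      have d1 : (C1 + C2 : ℚ) ≤ i := by exact_mod_cast hi.1
      have d2 : (i : ℚ) + (C1 + C2) ≤ w := by exact_mod_cast (by omega : i + (C1 + C2) ≤ w)
      have d3 : (0 : ℚ) ≤ C1 := Nat.cast_nonneg _
      have d4 : (0 : ℚ) ≤ C2 := Nat.cast_nonneg _
      rcases le_total 0 (E.ht g0 - D * i) with h0 | h0
      · obtain ⟨g', f1, f2, f3⟩ := h1 g0 a1 (lv0 ▸ hk) c3 (-i) (by push_cast; linarith)
          (by push_cast; nlinarith)
        refine Finset.mem_image.2 ⟨g', E.mem_fib.2 ⟨f1, f2.trans a2⟩, ?_⟩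
        rw [f3]; push_cast; ring
      · have e3 : E.neg.ht g1 = -E.ht g1 := rfl
        obtain ⟨g', f1, f2, f3⟩ := h2 g1 b1 (lv1 ▸ hk) c4 (i - w)
          (by rw [e3, hw]; push_cast; linarith) (by push_cast; nlinarith)
        refine Finset.mem_image.2 ⟨g', E.mem_fib.2 ⟨f1, f2.trans b2⟩, ?_⟩
        change -E.ht g' = -E.ht g1 + _ at f3
        rw [hw] at f3
        push_cast at f3
        linarith
    rcases c5 with c5 | c5
    · have c6 := Finset.card_le_card c5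
      rw [e2, Finset.card_image_of_injective _ (fun i j h => by
        have : (D : ℚ) * i = D * j := by linarith
        exact_mod_cast mul_left_cancel₀ (by linarith : (D : ℚ) ≠ 0) this), Nat.card_Icc] at c6
      omega
    · omega
  have s1 := h3 p hp
  have s2 := h4 p hp
  rw [neg_neg_top] at s2
  have u1' : ((E.fib p).card : ℝ) ≤ w + 1 := by exact_mod_cast u1
  have n1 : (0 : ℝ) ≤ C1 := Nat.cast_nonneg _
  have n2 : (0 : ℝ) ≤ C2 := Nat.cast_nonneg _
  have n3 : (0 : ℝ) ≤ C3 := Nat.cast_nonneg _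
  have n4 : (0 : ℝ) ≤ C4 := Nat.cast_nonneg _
  have n5 : (0 : ℝ) ≤ (E.fib p).card := Nat.cast_nonneg _
  have hboth : (C1 + C2 : ℝ) * X.u p none ≤ E.top p → (C1 + C2 : ℝ) * X.u p none ≤ E.neg.top p →
      |((E.fib p).card : ℝ) - w| ≤ 2 * (C1 + C2) + C3 + C4 + 1 := fun c1 c2 => by
    have : (w : ℝ) ≤ (E.fib p).card + 2 * (C1 + C2) := by exact_mod_cast u2 c1 c2
    rw [abs_le]; constructor <;> linarith
  rw [e1]
  have hle : (C1 + C2 : ℝ) * X.u p none ≤ (2 * (C1 + C2) + C3 + C4 + 1) * X.u p none :=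
    mul_le_mul_of_nonneg_right (by linarith) (by linarith)
  refine ⟨?_, fun c1 c2 => hboth (hle.trans c1) (hle.trans c2)⟩
  by_cases hb : (C1 + C2 : ℝ) * X.u p none ≤ E.top p ∧ (C1 + C2 : ℝ) * X.u p none ≤ E.neg.top p
  · exact (hboth hb.1 hb.2).trans (le_mul_of_one_le_right (by positivity) hk')
  · have e3 : (w : ℝ) ≤ E.top p + E.neg.top p := by
      have hD1 : (1 : ℝ) ≤ D := by exact_mod_cast hD
      rw [div_eq_iff (by linarith)] at e1
      rw [e1]
      exact le_mul_of_one_le_right (Nat.cast_nonneg _) hD1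
    have m3 : (0 : ℝ) ≤ C3 * X.u p none := by positivity
    have m4 : (0 : ℝ) ≤ C4 * X.u p none := by positivity
    have m5 : (0 : ℝ) ≤ (C1 + C2) * X.u p none := by positivity
    rw [not_and_or, not_le, not_le] at hb
    rw [abs_le]
    rcases hb with hb | hb <;> constructor <;> linarith

theorem low_top (Z : E.Pad) (hpair : ∃ s ∈ E.S, ∃ t ∈ E.S, E.ω (E.v s) (E.v t) ≠ 0) :
    ∃ c1 C1 : ℝ, 0 < c1 ∧ 0 ≤ C1 ∧ ∀ (x : ℕ) (p : P), X.R p →
      c1 * x ^ 2 - C1 * x - C1 * X.u p none ≤ E.top (p * E.pr Z.e ^ (4 * X.N * x)) := by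
  obtain ⟨Ω, hΩ1, -⟩ := E.exists_Ω
  obtain ⟨C4, h4⟩ := E.neg.sym
  obtain ⟨s, hs, t, ht, hω⟩ : ∃ s ∈ E.S, ∃ t ∈ E.S, 0 < E.ω (E.v s) (E.v t) := by
    obtain ⟨s, hs, t, ht, h⟩ := hpair
    rcases lt_or_gt_of_ne h with h | h
    · exact ⟨t, ht, s, hs, by rw [E.ω_swap]; linarith⟩
    · exact ⟨s, hs, t, ht, h⟩
  obtain ⟨s', hs', es⟩ := Z.inv s hs
  obtain ⟨t', ht', et⟩ := Z.inv t ht
  have he : ∀ g, E.ω (E.v g) (E.v Z.e) = 0 := fun g => by
    have a1 := congrArg E.ht (Z.comm g)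
    rw [ht_mul', ht_mul', E.ω_swap (E.v Z.e)] at a1
    linarith
  have he' : ∀ g, E.ω (E.v Z.e) (E.v g) = 0 := fun g => by rw [E.ω_swap, he, neg_zero]
  have vs : E.v s' = (2 : ℚ) • E.v Z.e - E.v s := by
    have := congrArg E.v es
    rw [v_mul, v_pow] at this
    exact eq_sub_of_add_eq' this
  have vt : E.v t' = (2 : ℚ) • E.v Z.e - E.v t := by
    have := congrArg E.v et
    rw [v_mul, v_pow] at this
    exact eq_sub_of_add_eq' this
  have hN : (1 : ℝ) ≤ X.N := by exact_mod_cast X.N_pos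
  refine ⟨E.ω (E.v s) (E.v t), 4 * Ω * X.N + C4, by exact_mod_cast hω, by positivity,
    fun x p hp => ?_⟩
  obtain ⟨g, g1, g2, g3⟩ := E.exists_top hp
  have a1 := h4 p hp
  rw [neg_neg_top] at a1
  have a2 := E.neg.le_top (g := g) g1 g2
  change ((-E.ht g : ℚ) : ℝ) ≤ _ at a2
  set n := X.N * x with hn
  have hp1 : ∀ a : G, E.pr (a ^ n) = X.τ (x • X.u (E.pr a)) := fun a => by
    rw [map_pow, hn, pow_mul, X.pow_eq, X.τ_nsmul]
  have a3 : E.pr (s ^ n * t ^ n * s' ^ n * t' ^ n) = E.pr Z.e ^ (4 * X.N * x) := by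
    have b1 := congrArg (fun a => X.u (E.pr a)) es
    have b2 := congrArg (fun a => X.u (E.pr a)) et
    simp only [map_mul, map_pow, X.u_mul, X.u_pow] at b1 b2
    rw [map_mul, map_mul, map_mul, hp1, hp1, hp1, hp1, ← X.τ_add, ← X.τ_add, ← X.τ_add,
      mul_comm 4, mul_assoc, pow_mul, X.pow_eq, ← X.τ_nsmul]
    congr 1
    rw [← smul_add, ← smul_add, ← smul_add, add_right_comm (X.u (E.pr s)), add_assoc, b1, b2,
      ← add_nsmul, smul_smul, mul_comm]
  have cl := (((E.cl_letter hs).pow n).mul ((E.cl_letter ht).pow n) |>.mul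
    ((E.cl_letter hs').pow n)).mul ((E.cl_letter ht').pow n)
  have a4 := E.le_top (g1.mul cl) (by rw [map_mul, g2, a3])
  have a5 : E.ht g + 2 * n ^ 2 * E.ω (E.v s) (E.v t) - 4 * Ω * n ≤
      E.ht (g * (s ^ n * t ^ n * s' ^ n * t' ^ n)) := by
    have b1 := (abs_le.1 (hΩ1 s hs)).1
    have b2 := (abs_le.1 (hΩ1 t ht)).1
    have b3 := (abs_le.1 (hΩ1 s' hs')).1
    have b4 := (abs_le.1 (hΩ1 t' ht')).1
    have b5 := E.ω_swap (E.v t) (E.v s)
    have n0 : (0 : ℚ) ≤ n := Nat.cast_nonneg _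
    simp only [ht_mul', v_mul, v_pow, ht_pow, map_add, map_smul, map_sub, LinearMap.add_apply,
      LinearMap.smul_apply, LinearMap.sub_apply, smul_eq_mul, E.ω_self, vs, vt, he, he', b5]
    nlinarith [mul_le_mul_of_nonneg_left b1 n0, mul_le_mul_of_nonneg_left b2 n0,
      mul_le_mul_of_nonneg_left b3 n0, mul_le_mul_of_nonneg_left b4 n0]
  have a6 := ((Rat.cast_le (K := ℝ)).2 a5).trans a4
  have a7 : (0 : ℝ) < E.ω (E.v s) (E.v t) := by exact_mod_cast hω
  have a8 : (0 : ℝ) ≤ X.u p none := by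
    have := E.lv_nonneg g1
    rw [lv, g2] at this
    exact_mod_cast this
  rw [hn] at a6
  rw [g3] at a1
  push_cast at a2 a6
  have x0 : (0 : ℝ) ≤ x := Nat.cast_nonneg _
  have a9 : (x : ℝ) ^ 2 ≤ (X.N * x) ^ 2 := by gcongr; exact le_mul_of_one_le_left x0 hN
  have b1 : (0 : ℝ) ≤ C4 * x := by positivity
  have b2 : (0 : ℝ) ≤ C4 * X.u p none := by positivity
  have b3 : (0 : ℝ) ≤ 4 * Ω * X.N * X.u p none := by positivity
  have b4 := mul_le_mul_of_nonneg_right a9 a7.le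
  have b5 := mul_nonneg (sq_nonneg (x : ℝ)) a7.le
  linarith

variable [Fintype ι]

theorem beta_eq (k : ℕ) : E.beta k = ∑ p ∈ X.lev k, (E.fib p).card := by
  classical
  rw [beta, Set.ncard_eq_toFinset_card _ (E.finite_cl k),
    Finset.card_eq_sum_card_fiberwise (f := E.pr) (t := X.lev k)]
  · refine Finset.sum_congr rfl fun p hp => ?_
    congr 1
    ext g
    rw [Finset.mem_filter, Set.Finite.mem_toFinset, mem_fib, Set.mem_ofPred_eq]
    refine ⟨fun h => ⟨h.1.1, h.2⟩, fun h => ⟨⟨h.1, ?_⟩, h.2⟩⟩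
    rw [lv, h.2]; exact (X.mem_lev.1 hp).2
  · intro g hg
    rw [Finset.mem_coe, Set.Finite.mem_toFinset] at hg
    exact X.mem_lev.2 ⟨E.R_pr hg.1, hg.2⟩

omit [Fintype ι] in
theorem pad_reach (Z : E.Pad) (p : P) : ∃ j : ℕ, X.R (p * E.pr Z.e ^ j) := by
  have hc : ∀ p, Commute (E.pr Z.e) p := fun p => by
    obtain ⟨g, rfl⟩ := Z.surj p
    have := congrArg E.pr (Z.comm g)
    rwa [map_mul, map_mul] at this
  have h1 : ∀ q, X.R q → ∃ j : ℕ, X.R (q⁻¹ * E.pr Z.e ^ j) := by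
    intro q hq
    induction hq using Submonoid.closure_induction with
    | mem σ hσ =>
      obtain ⟨s, hs, rfl⟩ := (E.L_eq σ).1 hσ
      obtain ⟨s', hs', e⟩ := Z.inv s hs
      refine ⟨2, ?_⟩
      rw [← map_pow, ← e, map_mul, inv_mul_cancel_left]
      exact X.R_of_mem (E.pr_mem hs')
    | one => exact ⟨0, by simpa using X.R_one⟩
    | mul a b _ _ ha hb =>
      obtain ⟨i, hi⟩ := ha
      obtain ⟨j, hj⟩ := hb
      refine ⟨j + i, ?_⟩
      have := Base.R_mul hj hi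
      rwa [mul_assoc, ← mul_assoc _ a⁻¹, ((hc a⁻¹).pow_left j).eq, mul_assoc, ← pow_add,
        ← mul_assoc, ← mul_inv_rev] at this
  have hp : p ∈ Subgroup.closure (X.L : Set P) := by rw [X.L_gen]; trivial
  induction hp using Subgroup.closure_induction with
  | mem σ hσ => exact ⟨0, by simpa using X.R_of_mem hσ⟩
  | one => exact ⟨0, by simpa using X.R_one⟩
  | mul a b _ _ ha hb =>
    obtain ⟨i, hi⟩ := ha
    obtain ⟨j, hj⟩ := hb
    refine ⟨i + j, ?_⟩
    have := Base.R_mul hi hj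
    rwa [mul_assoc, ← mul_assoc _ b, ((hc b).pow_left i).eq, mul_assoc, ← pow_add,
      ← mul_assoc] at this
  | inv a _ ha =>
    obtain ⟨i, hi⟩ := ha
    obtain ⟨j, hj⟩ := h1 _ hi
    have := Base.R_mul hj (Base.R_pow (X.R_of_mem (E.pr_mem Z.mem)) i)
    refine ⟨j, ?_⟩
    rwa [← ((hc a).pow_left i).eq, mul_inv_rev, mul_assoc, mul_assoc, ← pow_add, add_comm j, pow_add,
      inv_mul_cancel_left] at this

theorem count_lower (Z : E.Pad) : ∃ J : ℕ, 0 < J ∧ ∀ x : ℕ,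
    x ^ Fintype.card ι ≤ (X.lev (J * x)).card := by
  classical
  choose h hh using fun i : ι => X.u_surj (Pi.single (some i) 1)
  choose j hj using fun i : ι => E.pad_reach Z (h i)
  have he : X.u (E.pr Z.e) none = 1 := X.L_one _ (E.pr_mem Z.mem)
  refine ⟨∑ i, j i + 1, by omega, fun x => ?_⟩
  have key : ∀ (ξ : ι → ℕ) (T : Finset ι), ∃ p, X.R p ∧
      X.u p = ∑ i ∈ T, ξ i • X.u (h i * E.pr Z.e ^ j i) := by
    intro ξ T
    induction T using Finset.induction_on with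
    | empty => exact ⟨1, X.R_one, by simp [X.u_one]⟩
    | insert i T hi ih =>
      obtain ⟨p, h1, h2⟩ := ih
      exact ⟨(h i * E.pr Z.e ^ j i) ^ ξ i * p, Base.R_mul (Base.R_pow (hj i) _) h1, by
        rw [Finset.sum_insert hi, X.u_mul, X.u_pow, h2]⟩
  have key2 : ∀ ξ : ι → Fin x, ∃ p ∈ X.lev ((∑ i, j i + 1) * x),
      ∀ i, X.u p (some i) = (ξ i : ℕ) := by
    intro ξ
    obtain ⟨p, h1, h2⟩ := key (fun i => ξ i) Finset.univ
    have hle : ∑ i, (ξ i : ℕ) * j i ≤ (∑ i, j i + 1) * x := by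
      rw [add_mul, Finset.sum_mul]
      refine le_add_right (Finset.sum_le_sum fun i _ => ?_)
      rw [mul_comm]
      exact Nat.mul_le_mul_left _ (ξ i).2.le
    refine ⟨p * E.pr Z.e ^ ((∑ i, j i + 1) * x - ∑ i, (ξ i : ℕ) * j i), X.mem_lev.2
      ⟨Base.R_mul h1 (Base.R_pow (X.R_of_mem (E.pr_mem Z.mem)) _), ?_⟩, fun i => ?_⟩
    · rw [X.u_mul, X.u_pow, h2]
      simp only [Pi.add_apply, Finset.sum_apply, Pi.smul_apply, X.u_mul, X.u_pow, hh, he]
      simp only [nsmul_eq_mul, mul_one]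
      push_cast [hle]
      simp
    · rw [X.u_mul, X.u_pow, h2]
      simp [Finset.sum_apply, X.u_mul, X.u_pow, hh, Z.spatial, Pi.single_apply]
  choose f hf1 hf2 using key2
  have := Finset.card_le_card_of_injOn (s := Finset.univ) f (fun ξ _ => hf1 ξ) fun ξ _ ξ' _ e => by
    funext i
    have a1 := hf2 ξ i
    rw [e, hf2] at a1
    exact Fin.ext (by exact_mod_cast a1.symm)
  simpa using this

theorem count_lim (Z : E.Pad) : ∃ α L : ℝ, 0 < α ∧
    Tendsto (fun k : ℕ => ((X.lev k).card : ℝ) / (k : ℝ) ^ Fintype.card ι) atTop (𝓝 α) ∧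
    Tendsto (fun k : ℕ => (((X.lev k).card : ℝ) - α * (k : ℝ) ^ Fintype.card ι) /
      (k : ℝ) ^ ((Fintype.card ι : ℤ) - 1)) atTop (𝓝 L) := by
  obtain ⟨α, L, h⟩ := E.count_limit Z.mem
  have h1 : Tendsto (fun k : ℕ => ((X.lev k).card : ℝ) / (k : ℝ) ^ Fintype.card ι) atTop (𝓝 α) := by
    refine (lim_of_two h).congr' ?_
    filter_upwards [eventually_ge_atTop 1] with k hk
    have : (k : ℝ) ≠ 0 := by exact_mod_cast (by omega : k ≠ 0)
    field_simp
    ring
  refine ⟨α, L, ?_, h1, h.congr' ?_⟩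
  · obtain ⟨J, hJ, hx⟩ := E.count_lower Z
    have hJ' : (0 : ℝ) < J := by exact_mod_cast hJ
    have h2 := h1.comp (tendsto_id.const_mul_atTop' hJ)
    refine lt_of_lt_of_le (b := 1 / (J : ℝ) ^ Fintype.card ι) (by positivity)
      (ge_of_tendsto h2 ?_)
    filter_upwards [eventually_ge_atTop 1] with x hx1
    have hx' : (0 : ℝ) < x := by exact_mod_cast hx1
    have : ((x : ℝ)) ^ Fintype.card ι ≤ (X.lev (J * x)).card := by exact_mod_cast hx x
    simp only [Function.comp, id]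
    push_cast
    rw [div_le_div_iff₀ (by positivity) (by positivity), mul_pow]
    have : (0 : ℝ) < (J : ℝ) ^ Fintype.card ι := by positivity
    nlinarith
  · filter_upwards [eventually_ge_atTop 1] with k hk
    have : (k : ℝ) ≠ 0 := by exact_mod_cast (by omega : k ≠ 0)
    rw [zpow_sub₀ this, zpow_natCast]
    field_simp
    ring

theorem case_one (Z : E.Pad) (hinj : Function.Injective E.pr) : ∃ c L : ℝ, 0 < c ∧
    Tendsto (fun k : ℕ => ((E.beta k : ℝ) - c * (k : ℝ) ^ Fintype.card ι) /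
      (k : ℝ) ^ ((Fintype.card ι : ℤ) - 1)) atTop (𝓝 L) := by
  obtain ⟨α, L, h0, -, h⟩ := E.count_lim Z
  refine ⟨α, L, h0, h.congr fun k => ?_⟩
  congr 3
  rw [beta_eq, Finset.card_eq_sum_ones]
  refine Finset.sum_congr rfl fun p hp => ?_
  obtain ⟨g, g1, g2⟩ := E.R_iff.1 (X.mem_lev.1 hp).1
  refine (Finset.card_eq_one.2 ⟨g, ?_⟩).symm
  ext g'
  rw [mem_fib, Finset.mem_singleton]
  exact ⟨fun h => hinj (h.2.trans g2.symm), fun h => h ▸ ⟨g1, g2⟩⟩

theorem tendsto_sqrt_div : Tendsto (fun k : ℕ => (Nat.sqrt k : ℝ) / k) atTop (𝓝 0) := by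
  have h1 : Tendsto (fun k : ℕ => (Real.sqrt k)⁻¹) atTop (𝓝 0) :=
    (Real.tendsto_sqrt_atTop.comp tendsto_natCast_atTop_atTop).inv_tendsto_atTop
  refine squeeze_zero' (Eventually.of_forall fun k => by positivity) ?_ h1
  filter_upwards [eventually_ge_atTop 1] with k hk
  have hk' : (0 : ℝ) < k := by exact_mod_cast hk
  rw [div_le_iff₀ hk', inv_mul_eq_div, Real.div_sqrt]
  exact Real.nat_sqrt_le_real_sqrt

theorem case_two (Z : E.Pad) {D : ℕ} (hD : 0 < D)
    (hcong : ∀ g g', E.pr g = E.pr g' → ∃ j : ℤ, E.ht g' = E.ht g + D * j)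
    (hinj : ∀ g g', E.pr g = E.pr g' → E.ht g = E.ht g' → g = g')
    (hm : ∀ s ∈ E.S, ∀ t ∈ E.S, E.ω (E.v s) (E.v t) ≠ 0 → ∃ m : ℕ,
      E.pr s ^ m * E.pr t = E.pr t * E.pr s ^ m ∧ |2 * (m * E.ω (E.v s) (E.v t))| = D)
    (hpair : ∃ s ∈ E.S, ∃ t ∈ E.S, E.ω (E.v s) (E.v t) ≠ 0) : ∃ c L : ℝ, 0 < c ∧
    Tendsto (fun k : ℕ => ((E.beta k : ℝ) - c * (k : ℝ) ^ (Fintype.card ι + 2)) /
      (k : ℝ) ^ (Fintype.card ι + 1)) atTop (𝓝 L) := by
  classical
  obtain ⟨C, hC0, hC⟩ := E.card_fib hD hcong hinj hm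
  obtain ⟨c1, C1, hc1, hC1, h1⟩ := E.low_top Z hpair
  obtain ⟨c2, C2, hc2, hC2, h2⟩ := E.neg.low_top Z.neg (by
    obtain ⟨s, hs, t, ht, h⟩ := hpair
    exact ⟨s, hs, t, ht, neg_ne_zero.2 h⟩)
  change ∀ (x : ℕ) (p : P), X.R p → _ ≤ E.neg.top (p * E.pr Z.e ^ (4 * X.N * x)) at h2
  obtain ⟨α0, -, hα0, h0, -⟩ := E.count_lim Z
  obtain ⟨α1, L1, t1⟩ := E.top_limit Z.mem
  obtain ⟨α2, L2, t2⟩ := E.neg.top_limit Z.mem
  have hD' : (0 : ℝ) < D := by exact_mod_cast hD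
  have he : X.u (E.pr Z.e) none = 1 := X.L_one _ (E.pr_mem Z.mem)
  have himg : ∀ k m : ℕ, (X.lev k).image (fun p => p * E.pr Z.e ^ m) ⊆ X.lev (k + m) := by
    intro k m q hq
    obtain ⟨p, hp, rfl⟩ := Finset.mem_image.1 hq
    rw [X.mem_lev] at hp ⊢
    refine ⟨Base.R_mul hp.1 (Base.R_pow (X.R_of_mem (E.pr_mem Z.mem)) _), ?_⟩
    rw [X.u_mul, X.u_pow, Pi.add_apply, Pi.smul_apply, hp.2, he]; simp
  have hcard : ∀ k m : ℕ, ((X.lev k).image (fun p => p * E.pr Z.e ^ m)).card = (X.lev k).card :=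
    fun k m => Finset.card_image_of_injective _ (mul_left_injective _)
  obtain ⟨R, hR⟩ := exists_nat_ge (1 + 4 * (2 * C1 + C) / c1 + 4 * (2 * C2 + C) / c2)
  have q1 : 0 ≤ 4 * (2 * C1 + C) / c1 := by positivity
  have q2 : 0 ≤ 4 * (2 * C2 + C) / c2 := by positivity
  have hR0 : (1 : ℝ) ≤ R := by linarith
  have hR1 : 4 * (2 * C1 + C) ≤ R * c1 := by rw [← div_le_iff₀ hc1]; linarith
  have hR2 : 4 * (2 * C2 + C) ≤ R * c2 := by rw [← div_le_iff₀ hc2]; linarith
  have good : ∀ (c1 C1 : ℝ), 0 < c1 → 0 ≤ C1 → 4 * (2 * C1 + C) ≤ R * c1 → ∀ k k' : ℕ, 1 ≤ k →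
      k' ≤ k → C * k ≤ c1 * ((R * Nat.sqrt k : ℕ) : ℝ) ^ 2 - C1 * (R * Nat.sqrt k : ℕ) - C1 * k' := by
    intro c1 C1 a1 a2 a3 k k' hk hk'
    have b1 : k ≤ 4 * (Nat.sqrt k * Nat.sqrt k) := by
      have := Nat.lt_succ_sqrt k
      have : 1 ≤ Nat.sqrt k := Nat.sqrt_pos.2 hk
      nlinarith
    have b2 : (k : ℝ) ≤ 4 * (Nat.sqrt k * Nat.sqrt k) := by exact_mod_cast b1
    have b3 : (Nat.sqrt k : ℝ) ≤ k := by exact_mod_cast Nat.sqrt_le_self k
    have b4 : (k' : ℝ) ≤ k := by exact_mod_cast hk'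
    have b5 : (0 : ℝ) ≤ k := Nat.cast_nonneg _
    have b6 : 4 * (2 * C1 + C) * R * k ≤ R * c1 * R * (4 * (Nat.sqrt k * Nat.sqrt k)) := by gcongr
    have b7 : C1 * (R * Nat.sqrt k) ≤ C1 * (R * k) := by gcongr
    have b8 : C1 * k' ≤ C1 * (R * k) := by gcongr; nlinarith
    have b9 : C * k ≤ C * (R * k) := by gcongr; nlinarith
    push_cast
    nlinarith
  let m : ℕ → ℕ := fun k => 4 * X.N * (R * Nat.sqrt k)
  have hm0 : Tendsto (fun k : ℕ => (m k : ℝ) / k) atTop (𝓝 0) := by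
    have := tendsto_sqrt_div.const_mul (4 * X.N * R : ℝ)
    rw [mul_zero] at this
    refine this.congr fun k => ?_
    simp only [m]; push_cast; ring
  have hm1 : ∀ᶠ k : ℕ in atTop, 2 * m k ≤ k := by
    filter_upwards [hm0.eventually_lt_const (by norm_num : (0 : ℝ) < 1 / 2), eventually_ge_atTop 1]
      with k hk hk1
    have hk' : (0 : ℝ) < k := by exact_mod_cast hk1
    rw [div_lt_iff₀ hk'] at hk
    have : (2 * m k : ℝ) ≤ k := by linarith
    exact_mod_cast this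
  have hm2 : Tendsto (fun k => k - m k) atTop atTop := by
    refine tendsto_atTop.2 fun b => ?_
    filter_upwards [hm1, eventually_ge_atTop (2 * b)] with k a1 a2
    omega
  have hm3 : Tendsto (fun k : ℕ => ((X.lev (k - m k)).card : ℝ) / (k : ℝ) ^ Fintype.card ι) atTop
      (𝓝 α0) := by
    have a1 := (h0.comp hm2).mul ((hm0.const_sub 1).pow (Fintype.card ι))
    rw [sub_zero, one_pow, mul_one] at a1
    refine a1.congr' ?_
    filter_upwards [hm1, eventually_ge_atTop 1] with k b1 b2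
    have hk' : (k : ℝ) ≠ 0 := by exact_mod_cast (by omega : k ≠ 0)
    have b3 : ((k - m k : ℕ) : ℝ) ≠ 0 := by exact_mod_cast (by omega : k - m k ≠ 0)
    have b4 : 1 - (m k : ℝ) / k = ((k - m k : ℕ) : ℝ) / k := by
      rw [Nat.cast_sub (by omega)]; field_simp
    simp only [Function.comp]
    rw [b4, div_pow]
    field_simp
  have herr : Tendsto (fun k : ℕ => ((E.beta k : ℝ) -
      (∑ p ∈ X.lev k, E.top p + ∑ p ∈ X.lev k, E.neg.top p) / D) / (k : ℝ) ^ (Fintype.card ι + 1))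
      atTop (𝓝 0) := by
    have a1 := ((h0.mul tendsto_inv_atTop_nhds_zero_nat).add (h0.sub hm3)).const_mul C
    rw [mul_zero, sub_self, add_zero, mul_zero] at a1
    refine squeeze_zero_norm' ?_ a1
    filter_upwards [hm1, eventually_ge_atTop 1] with k b1 b2
    have hk' : (0 : ℝ) < k := by exact_mod_cast b2
    have hsub := himg (k - m k) (m k)
    rw [Nat.sub_add_cancel (by omega)] at hsub
    have b3 : |(E.beta k : ℝ) - (∑ p ∈ X.lev k, E.top p + ∑ p ∈ X.lev k, E.neg.top p) / D| ≤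
        C * (X.lev k).card + C * k * ((X.lev k).card - (X.lev (k - m k)).card) := by
      rw [beta_eq, ← Finset.sum_add_distrib, Finset.sum_div, Nat.cast_sum, ← Finset.sum_sub_distrib]
      refine (Finset.abs_sum_le_sum_abs _ _).trans ?_
      rw [← Finset.sum_sdiff hsub, add_comm]
      refine add_le_add ?_ ?_
      · refine (Finset.sum_le_card_nsmul _ _ C fun q hq => ?_).trans ?_
        · have hq' := X.mem_lev.1 (hsub hq)
          obtain ⟨p, hp, rfl⟩ := Finset.mem_image.1 hq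
          rw [X.mem_lev] at hp
          have c1' := h1 (R * Nat.sqrt k) p hp.1
          have c2' := h2 (R * Nat.sqrt k) p hp.1
          rw [hp.2, Int.cast_natCast] at c1' c2'
          refine (hC _ hq'.1 (by rw [hq'.2]; exact_mod_cast b2)).2 ?_ ?_
          · rw [hq'.2, Int.cast_natCast]
            exact (good c1 C1 hc1 hC1 hR1 k _ b2 (Nat.sub_le _ _)).trans c1'
          · rw [hq'.2, Int.cast_natCast]
            exact (good c2 C2 hc2 hC2 hR2 k _ b2 (Nat.sub_le _ _)).trans c2'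
        · rw [nsmul_eq_mul, mul_comm]
          gcongr
      · refine (Finset.sum_le_card_nsmul _ _ (C * k) fun q hq => ?_).trans ?_
        · have hq' := X.mem_lev.1 (Finset.mem_sdiff.1 hq).1
          have := (hC _ hq'.1 (by rw [hq'.2]; exact_mod_cast b2)).1
          rwa [hq'.2, Int.cast_natCast] at this
        · rw [nsmul_eq_mul, mul_comm, Finset.cast_card_sdiff hsub, hcard]
    rw [Real.norm_eq_abs, abs_div, abs_of_pos (by positivity : (0 : ℝ) < (k : ℝ) ^ _),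
      div_le_iff₀ (by positivity)]
    refine b3.trans (le_of_eq ?_)
    field_simp
    ring
  have hmain : Tendsto (fun k : ℕ => ((E.beta k : ℝ) - (α1 + α2) / D *
      (k : ℝ) ^ (Fintype.card ι + 2)) / (k : ℝ) ^ (Fintype.card ι + 1)) atTop
      (𝓝 (0 + (L1 + L2) / D)) := by
    refine (herr.add ((t1.add t2).div_const D)).congr fun k => ?_
    ring
  refine ⟨_, _, ?_, hmain⟩
  have hN : (0 : ℝ) < X.N := by exact_mod_cast X.N_pos
  have hN4 : 0 < 4 * X.N := by have := X.N_pos; omega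
  have a1 := (lim_of_two hmain).comp (tendsto_id.const_mul_atTop' (by omega : 0 < 2 * (4 * X.N)))
  have a2 := h0.comp (tendsto_id.const_mul_atTop' hN4)
  have a3 := ((tendsto_inv_atTop_nhds_zero_nat (𝕜 := ℝ)).const_mul
    ((C1 + C2) * (1 + 4 * X.N) / D + C * (8 * X.N))).const_sub ((c1 + c2) / D)
  have a4 := (a2.mul a3).div_const ((2 : ℝ) ^ Fintype.card ι * (8 * X.N) ^ 2)
  rw [mul_zero, sub_zero] at a4
  refine lt_of_lt_of_le (by positivity) (le_of_tendsto_of_tendsto a4 a1 ?_)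
  filter_upwards [eventually_ge_atTop 1] with x hx
  have hx' : (0 : ℝ) < x := by exact_mod_cast hx
  have hsub := himg (4 * X.N * x) (4 * X.N * x)
  rw [← two_mul, ← mul_assoc] at hsub
  have b1 : ((X.lev (4 * X.N * x)).card : ℝ) * ((c1 + c2) / D * x ^ 2 -
      ((C1 + C2) * (1 + 4 * X.N) / D + C * (8 * X.N)) * x) ≤ E.beta (2 * (4 * X.N) * x) := by
    rw [beta_eq, Nat.cast_sum, ← hcard _ (4 * X.N * x), ← nsmul_eq_mul]
    refine le_trans (Finset.card_nsmul_le_sum _ _ _ fun q hq => ?_)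
      (Finset.sum_le_sum_of_subset_of_nonneg hsub fun _ _ _ => Nat.cast_nonneg _)
    have hq' := X.mem_lev.1 (hsub hq)
    obtain ⟨p, hp, rfl⟩ := Finset.mem_image.1 hq
    rw [X.mem_lev] at hp
    have c1' := h1 x p hp.1
    have c2' := h2 x p hp.1
    have c3 := (abs_le.1 (hC _ hq'.1 (by
      rw [hq'.2]; exact_mod_cast Nat.mul_pos (by omega) hx)).1).1
    rw [hp.2] at c1' c2'
    rw [hq'.2] at c3
    push_cast at c1' c2' c3
    have c4 := div_le_div_of_nonneg_right (add_le_add c1' c2') hD'.le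
    have c5 : (c1 * x ^ 2 - C1 * x - C1 * (4 * X.N * x) + (c2 * x ^ 2 - C2 * x - C2 * (4 * X.N * x)))
        / D = (c1 + c2) / D * x ^ 2 - (C1 + C2) * (1 + 4 * X.N) / D * x := by ring
    linarith
  simp only [Function.comp, id]
  rw [div_le_div_iff₀ (by positivity) (by positivity)]
  refine le_trans (le_of_eq ?_) (mul_le_mul_of_nonneg_right b1 (by positivity))
  push_cast
  rw [mul_assoc (2 : ℝ), mul_pow (2 : ℝ)]
  field_simp
  ring

end Ext

end Pool.Agent.MP_b3b911_al
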