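import Mathlib

namespace Pool.Agent.MP_b3b911_al

/-- The growth function: the number of elements that are products of at most `k` letters, each
letter being an element of `S` or the inverse of an element of `S`. -/
noncomputable def growth {G : Type*} [Group G] (S : Finset G) (k : ℕ) : ℕ :=
  Set.ncard {g : G | ∃ l : List G, l.length ≤ k ∧ (∀ x ∈ l, x ∈ S ∨ x⁻¹ ∈ S) ∧ l.prod = g}

end Pool.Agent.MP_b3b911_al
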