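import Pool.Agent.MP_b3b911_al.Words

/-! Filling the range of heights over a point. -/

namespace Pool.Agent.MP_b3b911_al

theorem chain_ivt {α : Type*} {r : α → α → Prop} {Inv : α → Prop} {f : α → ℚ} {c : ℚ} (hc : 0 ≤ c)
    (hr : ∀ a b, r a b → Inv b ∧ f a - f b ≤ c) {x y : α} (h : Relation.ReflTransGen r x y)
    (hx : Inv x) {t : ℚ} (h1 : f y ≤ t) (h2 : t ≤ f x) : ∃ e, Inv e ∧ t ≤ f e ∧ f e ≤ t + c := by
  induction h using Relation.ReflTransGen.head_induction_on with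
  | refl => exact ⟨y, hx, h2, by linarith⟩
  | @head a b hab _ ih =>
    by_cases h3 : t ≤ f b
    · exact ih (hr a b hab).1 h3
    · exact ⟨a, hx, h2, by linarith [(hr a b hab).2, not_le.1 h3]⟩

theorem first_split {α : Type*} (p : α → Prop) (l : List α) (h : ∃ e ∈ l, p e) :
    ∃ l1 e l2, l = l1 ++ e :: l2 ∧ p e ∧ ∀ x ∈ l1, ¬ p x := by
  induction l with
  | nil => simp at h
  | cons a l ih =>
    by_cases ha : p a
    · exact ⟨[], a, l, rfl, ha, by simp⟩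
    · obtain ⟨e, h1, h2⟩ := h
      rcases List.mem_cons.1 h1 with rfl | h1
      · exact absurd h2 ha
      obtain ⟨l1, e', l2, h3, h4, h5⟩ := ih ⟨e, h1, h2⟩
      refine ⟨a :: l1, e', l2, by rw [h3]; rfl, h4, fun x hx => ?_⟩
      rcases List.mem_cons.1 hx with rfl | hx
      · exact ha
      · exact h5 x hx

namespace Ext

variable {ι : Type} {P : Type*} [Group P] {X : Base ι P} {G : Type*} [Group G] (E : Ext X G)

/-- Reversing the sign of the height. -/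
def neg : Ext X G :=
  { E with
    ht := fun g => -E.ht g
    ω := -E.ω
    ω_self := fun x => by simp [E.ω_self]
    ht_mul := fun g h => by rw [E.ht_mul]; simp; ring }

/-- One small move. -/
def Step (c : ℚ) (g g' : G) : Prop := E.cl g' ∧ E.pr g' = E.pr g ∧ E.ht g - E.ht g' ≤ c

/-- A chain of small moves. -/
def Ch (c : ℚ) : G → G → Prop := Relation.ReflTransGen (E.Step c)

variable {E}

theorem Ch.inv {c : ℚ} {g g' : G} (h : E.Ch c g g') (hg : E.cl g) : E.cl g' ∧ E.pr g' = E.pr g := by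
  induction h with
  | refl => exact ⟨hg, rfl⟩
  | tail _ h2 ih => exact ⟨h2.1, h2.2.1.trans ih.2⟩

theorem Ch.ctx {c : ℚ} {g g' : G} (h : E.Ch c g g') {A B : G} (hA : E.cl A) (hB : E.cl B) :
    E.Ch c (A * g * B) (A * g' * B) := by
  refine Relation.ReflTransGen.lift (p := E.Step c) (fun g => A * g * B) (fun a b hab => ?_) _ _ h
  refine ⟨(hA.mul hab.1).mul hB, by simp only [map_mul, hab.2.1], ?_⟩
  simp only [ht_mul', v_mul, E.v_congr hab.2.1]
  linarith [hab.2.2]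

theorem Ch.ctxL {c : ℚ} {g g' : G} (h : E.Ch c g g') {A : G} (hA : E.cl A) :
    E.Ch c (A * g) (A * g') := by simpa using h.ctx hA E.cl_one

theorem Ch.ctxR {c : ℚ} {g g' : G} (h : E.Ch c g g') {B : G} (hB : E.cl B) :
    E.Ch c (g * B) (g' * B) := by simpa using h.ctx E.cl_one hB

theorem Ch.trans {c : ℚ} {g g' g'' : G} (h : E.Ch c g g') (h' : E.Ch c g' g'') : E.Ch c g g'' :=
  Relation.ReflTransGen.trans h h'

theorem swap_pow {c : ℚ} {e f : G} (he : E.cl e) (hf : E.cl f)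
    (hc : ∀ p, E.pr e * p = p * E.pr e) (hω : 2 * E.ω (E.v e) (E.v f) ≤ c) (i : ℕ) :
    E.Ch c (e ^ i * f) (f * e ^ i) := by
  induction i with
  | zero => simp; exact Relation.ReflTransGen.refl
  | succ i ih =>
    have h1 : E.Ch c (e * f) (f * e) := Relation.ReflTransGen.single
      ⟨hf.mul he, by simp only [map_mul, hc], by
        simp only [ht_mul']; linarith [E.ω_swap (E.v f) (E.v e)]⟩
    have h2 := h1.ctxL (he.pow i)
    have h3 := ih.ctxR he
    rw [← mul_assoc, ← pow_succ, ← mul_assoc] at h2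
    rw [mul_assoc f, ← pow_succ] at h3
    exact h2.trans h3

theorem swap_bw {c : ℚ} {e : G} (he : E.cl e) (hc : ∀ p, E.pr e * p = p * E.pr e) (i : ℕ)
    (l : List (G × ℕ)) (hl : ∀ x ∈ l, E.cl x.1 ∧ 2 * E.ω (E.v e) (E.v x.1) ≤ c) :
    E.cl (bw l) ∧ E.Ch c (e ^ i * bw l) (bw l * e ^ i) := by
  induction l with
  | nil => simp; exact ⟨E.cl_one, Relation.ReflTransGen.refl⟩
  | cons x l ih =>
    obtain ⟨f, j⟩ := x
    obtain ⟨h1, h2⟩ := ih fun x hx => hl x (by simp [hx])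
    obtain ⟨hf, hω⟩ := hl (f, j) (by simp)
    have h3 : ∀ j, E.Ch c (e ^ i * f ^ j) (f ^ j * e ^ i) := by
      intro j
      induction j with
      | zero => simp; exact Relation.ReflTransGen.refl
      | succ j ihj =>
        have a1 := (swap_pow he hf hc hω i).ctxR (hf.pow j)
        have a2 := ihj.ctxL hf
        rw [mul_assoc, ← pow_succ', mul_assoc] at a1
        rw [← mul_assoc f (f ^ j), ← pow_succ'] at a2
        exact a1.trans a2
    rw [bw_cons]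
    refine ⟨(hf.pow j).mul h1, ?_⟩
    have a1 := (h3 j).ctxR h1
    have a2 := h2.ctxL (hf.pow j)
    rw [mul_assoc, mul_assoc] at a1
    rw [mul_assoc]
    exact a1.trans a2

variable (E)

theorem rev {Ω : ℕ} (hΩ1 : ∀ s ∈ E.S, |E.ht s| ≤ Ω)
    (hΩ2 : ∀ g h, E.cl g → E.cl h → |E.ω (E.v g) (E.v h)| ≤ Ω * E.lv g * E.lv h)
    {c : ℚ} (hc : 2 * Ω * X.N * X.N ≤ c) (l : List (G × ℕ)) (hl : E.ok l) :
    ∃ g, E.Ch c (bw l) g ∧ E.ht (bw l) + E.ht g ≤ 2 * Ω * (1 + X.N * l.length) * E.lv (bw l) := by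
  have hN : (1 : ℚ) ≤ X.N := by exact_mod_cast X.N_pos
  have key : ∃ l1 l2 : List (G × ℕ), (∀ x ∈ l1 ++ l2, E.cl x.1 ∧ (E.lv x.1 : ℚ) ≤ X.N) ∧
      E.Ch c (bw l) (bw (l1 ++ l2)) ∧
      E.ht (bw l) + E.ht (bw (l1 ++ l2)) ≤ 2 * Ω * (1 + X.N * l.length) * E.lv (bw l) := by
    induction l with
    | nil => exact ⟨[], [], by simp, Relation.ReflTransGen.refl, by simp [ht_one, lv_one]⟩
    | cons x l ih =>
      obtain ⟨s, n⟩ := x
      have hl' : E.ok l := fun e he => hl e (by simp [he])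
      obtain ⟨l1, l2, h1, h2, h3⟩ := ih hl'
      have hs : s ∈ E.S := hl (s, n) (by simp)
      have cs := E.cl_letter hs
      have lN : (E.lv (s ^ X.N) : ℚ) = X.N := by rw [lv_pow, E.lv_letter hs]; simp
      obtain ⟨b1, b2⟩ := swap_bw (c := c) (cs.pow X.N)
        (fun p => by rw [map_pow]; exact E.pr_pow_comm s dvd_rfl p) (n / X.N) (l1 ++ l2)
        fun x hx => ⟨(h1 x hx).1, by
          have a1 := (abs_le.1 (hΩ2 _ _ (cs.pow X.N) (h1 x hx).1)).2
          rw [lN] at a1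
          have a2 : (Ω : ℚ) * X.N * E.lv x.1 ≤ Ω * X.N * X.N :=
            mul_le_mul_of_nonneg_left (h1 x hx).2 (by positivity)
          linarith⟩
      have e1 : s ^ n = s ^ (n % X.N) * (s ^ X.N) ^ (n / X.N) := by
        rw [← pow_mul, ← pow_add, Nat.mod_add_div]
      have e2 : bw (((s, n % X.N) :: l1) ++ (l2 ++ [(s ^ X.N, n / X.N)])) =
          s ^ (n % X.N) * (bw (l1 ++ l2) * (s ^ X.N) ^ (n / X.N)) := by
        simp [mul_assoc]
      refine ⟨(s, n % X.N) :: l1, l2 ++ [(s ^ X.N, n / X.N)], fun x hx => ?_, ?_, ?_⟩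
      · simp only [List.mem_append, List.mem_cons, List.not_mem_nil, or_false] at hx h1
        rcases hx with (rfl | hx) | hx | rfl
        · exact ⟨cs, by rw [E.lv_letter hs]; exact_mod_cast X.N_pos⟩
        · exact h1 x (Or.inl hx)
        · exact h1 x (Or.inr hx)
        · exact ⟨cs.pow _, lN.le⟩
      · rw [e2, bw_cons, e1, mul_assoc]
        exact ((h2.ctxL ((cs.pow _).pow _)).trans b2).ctxL (cs.pow _)
      · have hv := E.v_congr (h2.inv (E.cl_bw hl')).2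
        have a1 := (abs_le.1 (hΩ1 s hs)).2
        have a2 := (abs_le.1 (hΩ2 _ _ cs (E.cl_bw hl'))).2
        have a3 : (0 : ℚ) ≤ E.lv (bw l) := by exact_mod_cast E.lv_nonneg (E.cl_bw hl')
        have a4 : ((n % X.N : ℕ) : ℚ) ≤ X.N := by exact_mod_cast (Nat.mod_lt n X.N_pos).le
        have a5 : (n : ℚ) = (n % X.N : ℕ) + X.N * (n / X.N : ℕ) := by
          exact_mod_cast (Nat.mod_add_div n X.N).symm
        have a6 := E.ω_swap (E.v (bw l)) (E.v s)
        rw [E.lv_letter hs, Int.cast_one, mul_one] at a2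
        rw [e2, bw_cons, lv_mul, lv_pow, E.lv_letter hs]
        simp only [ht_mul', v_mul, v_pow, ht_pow, map_add, map_smul, LinearMap.smul_apply,
          smul_eq_mul, E.ω_self, hv, List.length_cons, a6]
        push_cast
        have n0 : (0 : ℚ) ≤ n := Nat.cast_nonneg _
        have r0 : (0 : ℚ) ≤ (n % X.N : ℕ) := Nat.cast_nonneg _
        have o0 : (0 : ℚ) ≤ Ω := Nat.cast_nonneg _
        have l0 : (0 : ℚ) ≤ l.length := Nat.cast_nonneg _
        have b3 : ((n % X.N : ℕ) : ℚ) * E.ω (E.v s) (E.v (bw l)) ≤ X.N * (Ω * E.lv (bw l)) :=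
          (mul_le_mul_of_nonneg_left a2 r0).trans (mul_le_mul_of_nonneg_right a4 (by positivity))
        have b4 : (n : ℚ) * E.ht s ≤ n * Ω := mul_le_mul_of_nonneg_left a1 n0
        have b5 : (0 : ℚ) ≤ Ω * (X.N * (l.length + 1)) * n := by positivity
        generalize ((n % X.N : ℕ) : ℚ) = r at *
        generalize ((n / X.N : ℕ) : ℚ) = q at *
        rw [a5] at b4 b5 ⊢
        nlinarith
  obtain ⟨l1, l2, -, h2, h3⟩ := key
  exact ⟨_, h2, h3⟩

theorem sym : ∃ C : ℕ, ∀ p, X.R p → E.top p - E.neg.top p ≤ C * X.u p none := by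
  obtain ⟨M, hM⟩ := E.consolidate
  obtain ⟨Ω, hΩ1, hΩ2⟩ := E.exists_Ω
  refine ⟨2 * Ω * (1 + X.N * M), fun p hp => ?_⟩
  obtain ⟨g, g1, g2, g3⟩ := E.exists_top hp
  obtain ⟨l, l1, l2, l3, l4⟩ := hM g g1
  obtain ⟨g', h1, h2⟩ := E.rev hΩ1 hΩ2 le_rfl l l1
  obtain ⟨h3, h4⟩ := h1.inv (E.cl_bw l1)
  have a1 := E.neg.le_top (g := g') h3 (h4.trans (l3.trans g2))
  have a2 : E.lv (bw l) = X.u p none := by rw [lv, l3, g2]
  have a3 : (0 : ℚ) ≤ E.lv (bw l) := by exact_mod_cast E.lv_nonneg (E.cl_bw l1)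
  have a4 : (l.length : ℚ) ≤ M := by exact_mod_cast l2
  have a5 : E.ht g + E.ht g' ≤ 2 * Ω * (1 + X.N * M) * E.lv (bw l) := by
    have : (2 * Ω * (1 + X.N * l.length) * E.lv (bw l) : ℚ) ≤
      2 * Ω * (1 + X.N * M) * E.lv (bw l) := by gcongr
    linarith
  rw [a2] at a5
  have a6 := (Rat.cast_le (K := ℝ)).2 a5
  have a7 : E.neg.ht g' = -E.ht g' := rfl
  rw [a7] at a1
  rw [g3]
  push_cast at a1 a6 ⊢
  linarith

theorem small_omega {Ω : ℕ}
    (hΩ2 : ∀ g h, E.cl g → E.cl h → |E.ω (E.v g) (E.v h)| ≤ Ω * E.lv g * E.lv h) {s : G}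
    (hs : s ∈ E.S) (a : ℕ) (l : List (G × ℕ)) (hl : E.ok l)
    (h : ∀ x ∈ l, ¬ (a ≤ x.2 ∧ E.ω (E.v s) (E.v x.1) ≠ 0)) :
    E.ω (E.v s) (E.v (bw l)) ≤ Ω * (l.length * a) := by
  induction l with
  | nil => simp [v_one]
  | cons x l ih =>
    have a1 := ih (fun e he => hl e (by simp [he])) fun e he => h e (by simp [he])
    have a2 : (x.2 : ℚ) * E.ω (E.v s) (E.v x.1) ≤ Ω * a := by
      by_cases h0 : E.ω (E.v s) (E.v x.1) = 0
      · rw [h0, mul_zero]; positivity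
      · have b1 : x.2 < a := by
          by_contra hc
          exact h x (by simp) ⟨not_lt.1 hc, h0⟩
        have b2 := (abs_le.1 (hΩ2 _ _ (E.cl_letter hs) (E.cl_letter (hl x (by simp))))).2
        rw [E.lv_letter hs, E.lv_letter (hl x (by simp))] at b2
        simp only [Int.cast_one, mul_one] at b2
        have b3 : (x.2 : ℚ) ≤ a := by exact_mod_cast b1.le
        calc _ ≤ (x.2 : ℚ) * Ω := mul_le_mul_of_nonneg_left b2 (Nat.cast_nonneg _)
          _ ≤ a * Ω := mul_le_mul_of_nonneg_right b3 (Nat.cast_nonneg _)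
          _ = _ := mul_comm _ _
    rw [bw_cons, v_mul, v_pow, map_add, map_smul, smul_eq_mul, List.length_cons]
    push_cast
    linarith

theorem pair_or_small {Ω : ℕ} (hΩ1 : ∀ s ∈ E.S, |E.ht s| ≤ Ω)
    (hΩ2 : ∀ g h, E.cl g → E.cl h → |E.ω (E.v g) (E.v h)| ≤ Ω * E.lv g * E.lv h)
    (a : ℕ) (l : List (G × ℕ)) (hl : E.ok l) :
    E.ht (bw l) ≤ Ω * (1 + l.length * a) * E.lv (bw l) ∨
      ∃ l1 s n1 l2 t n2 l3, l = l1 ++ (s, n1) :: (l2 ++ (t, n2) :: l3) ∧ a ≤ n1 ∧ a ≤ n2 ∧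
        E.ω (E.v s) (E.v t) ≠ 0 ∧ E.ω (E.v s) (E.v (bw l2)) ≤ Ω * (l2.length * a) := by
  induction l with
  | nil => left; simp [ht_one, lv_one]
  | cons x l ih =>
    obtain ⟨s, n⟩ := x
    have hl' : E.ok l := fun e he => hl e (by simp [he])
    have hs : s ∈ E.S := hl (s, n) (by simp)
    rcases ih hl' with ih | ⟨l1, s', n1, l2, t, n2, l3, h1, h2⟩
    swap
    · exact Or.inr ⟨(s, n) :: l1, s', n1, l2, t, n2, l3, by rw [h1]; rfl, h2⟩
    by_cases hp : a ≤ n ∧ ∃ x ∈ l, a ≤ x.2 ∧ E.ω (E.v s) (E.v x.1) ≠ 0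
    · obtain ⟨l2, x, l3, h1, h2, h3⟩ := first_split _ l hp.2
      refine Or.inr ⟨[], s, n, l2, x.1, x.2, l3, by rw [h1]; rfl, hp.1, h2.1, h2.2, ?_⟩
      exact E.small_omega hΩ2 hs a l2 (fun e he => hl' e (by simp [h1, he])) h3
    left
    have a1 := (abs_le.1 (hΩ1 s hs)).2
    have a3 : (0 : ℚ) ≤ E.lv (bw l) := by exact_mod_cast E.lv_nonneg (E.cl_bw hl')
    have n0 : (0 : ℚ) ≤ n := Nat.cast_nonneg _
    have o0 : (0 : ℚ) ≤ Ω := Nat.cast_nonneg _
    have l0 : (0 : ℚ) ≤ l.length := Nat.cast_nonneg _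
    have a0 : (0 : ℚ) ≤ a := Nat.cast_nonneg _
    have a2 : (n : ℚ) * E.ω (E.v s) (E.v (bw l)) ≤
        n * (Ω * (l.length * a)) + a * (Ω * E.lv (bw l)) := by
      by_cases hn : a ≤ n
      · have := E.small_omega hΩ2 hs a l hl' fun x hx h => hp ⟨hn, x, hx, h⟩
        have b1 := mul_le_mul_of_nonneg_left this n0
        have b2 : (0 : ℚ) ≤ a * (Ω * E.lv (bw l)) := by positivity
        linarith
      · have b0 := (abs_le.1 (hΩ2 _ _ (E.cl_letter hs) (E.cl_bw hl'))).2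
        rw [E.lv_letter hs, Int.cast_one, mul_one] at b0
        have b1 : (n : ℚ) ≤ a := by exact_mod_cast (not_le.1 hn).le
        have b2 : (0 : ℚ) ≤ n * (Ω * (l.length * a)) := by positivity
        have b3 := (mul_le_mul_of_nonneg_left b0 n0).trans
          (mul_le_mul_of_nonneg_right b1 (by positivity))
        linarith
    rw [bw_cons, lv_mul, lv_pow, E.lv_letter hs, ht_mul', ht_pow, v_pow, map_smul,
      LinearMap.smul_apply, smul_eq_mul, List.length_cons]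
    push_cast
    have b4 : (n : ℚ) * E.ht s ≤ n * Ω := mul_le_mul_of_nonneg_left a1 n0
    have b5 : (0 : ℚ) ≤ Ω * a * n := by positivity
    nlinarith

theorem abs_ht_le {Ω : ℕ} (hΩ1 : ∀ s ∈ E.S, |E.ht s| ≤ Ω)
    (hΩ2 : ∀ g h, E.cl g → E.cl h → |E.ω (E.v g) (E.v h)| ≤ Ω * E.lv g * E.lv h)
    {g : G} (hg : E.cl g) : |E.ht g| ≤ Ω * E.lv g ^ 2 := by
  induction hg using Submonoid.closure_induction with
  | mem s hs => rw [E.lv_letter hs]; simpa using hΩ1 s hs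
  | one => simp [ht_one, lv_one]
  | mul p q hp' hq' hp hq =>
    have a1 := hΩ2 p q hp' hq'
    have a2 : (0 : ℚ) ≤ E.lv p := by exact_mod_cast E.lv_nonneg hp'
    have a3 : (0 : ℚ) ≤ E.lv q := by exact_mod_cast E.lv_nonneg hq'
    have a4 : (0 : ℚ) ≤ Ω * E.lv p * E.lv q := by positivity
    rw [ht_mul', lv_mul]
    push_cast
    rw [abs_le] at *
    constructor <;> nlinarith [hp.1, hp.2, hq.1, hq.2, a1.1, a1.2]

theorem gadget {e t : G} (he : E.cl e) (ht : E.cl t) (hc : E.pr e * E.pr t = E.pr t * E.pr e)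
    {D : ℚ} (hD : |2 * E.ω (E.v e) (E.v t)| = D) {y : ℕ} (hy : 0 < y) :
    ∃ γ, E.cl γ ∧ E.pr γ = E.pr (e ^ y * t ^ y) ∧ E.ht (e ^ y * t ^ y) ≤ E.ht γ ∧
      ∀ i, i < y * y → ∃ γ', E.cl γ' ∧ E.pr γ' = E.pr γ ∧ E.ht γ' = E.ht γ - i * D := by
  have hc' : Commute (E.pr e) (E.pr t) := hc
  have key : ∀ n, n < y * y → ∃ γ', E.cl γ' ∧ E.pr γ' = E.pr (e ^ y * t ^ y) ∧
      E.ht γ' = E.ht (e ^ y * t ^ y) - n * (2 * E.ω (E.v e) (E.v t)) := by
    intro n hn
    have h1 : n / y < y := Nat.div_lt_of_lt_mul hn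
    have h2 : n % y < y := Nat.mod_lt _ hy
    have h3 : (n : ℚ) = (n % y : ℕ) + y * (n / y : ℕ) := by
      exact_mod_cast (Nat.mod_add_div n y).symm
    generalize n / y = b at *
    generalize n % y = j at *
    obtain ⟨a, ha⟩ : ∃ a, y = a + 1 + b := ⟨y - 1 - b, by omega⟩
    obtain ⟨j', hj⟩ : ∃ j', y = j + j' := ⟨y - j, by omega⟩
    refine ⟨e ^ a * t ^ j * e * t ^ j' * e ^ b, (((he.pow _).mul (ht.pow _)).mul he |>.mul
      (ht.pow _)).mul (he.pow _), ?_, ?_⟩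
    · simp only [map_mul, map_pow]
      conv_rhs => rw [ha]; arg 2; rw [← ha, hj]
      rw [pow_add, pow_add, pow_add, pow_one, mul_assoc (E.pr e ^ a), ← (hc'.pow_right j).eq]
      simp only [mul_assoc]
      rw [← (hc'.pow_pow b j').eq, ← mul_assoc (E.pr t ^ j), ← (hc'.pow_pow b j).eq, mul_assoc]
    · have a1 := E.ω_swap (E.v t) (E.v e)
      have b1 : (y : ℚ) = a + 1 + b := by exact_mod_cast ha
      have b2 : (j' : ℚ) = y - j := by rw [hj]; push_cast; ring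
      simp only [ht_mul', v_mul, v_pow, ht_pow, map_add, map_smul, LinearMap.add_apply,
        LinearMap.smul_apply, smul_eq_mul, E.ω_self, a1]
      rw [h3, b2, b1]; ring
  rcases le_total 0 (2 * E.ω (E.v e) (E.v t)) with h0 | h0
  · rw [abs_of_nonneg h0] at hD
    refine ⟨_, (he.pow y).mul (ht.pow y), rfl, le_rfl, fun i hi => ?_⟩
    rw [← hD]; exact key i hi
  · rw [abs_of_nonpos h0] at hD
    have hyy : 0 < y * y := Nat.mul_pos hy hy
    obtain ⟨γ, h1, h2, h3⟩ := key (y * y - 1) (by omega)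
    refine ⟨γ, h1, h2, ?_, fun i hi => ?_⟩
    · have : (0 : ℚ) ≤ (y * y - 1 : ℕ) := Nat.cast_nonneg _
      nlinarith
    · obtain ⟨γ', h4, h5, h6⟩ := key (y * y - 1 - i) (by omega)
      refine ⟨γ', h4, h5.trans h2.symm, ?_⟩
      have : ((y * y - 1 : ℕ) : ℚ) = (y * y - 1 - i : ℕ) + i := by
        exact_mod_cast (by omega : y * y - 1 = y * y - 1 - i + i)
      rw [h6, h3, this, ← hD]; ring

theorem fill {D : ℕ} (hD : 0 < D)
    (hcong : ∀ g g', E.pr g = E.pr g' → ∃ j : ℤ, E.ht g' = E.ht g + D * j)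
    (hm : ∀ s ∈ E.S, ∀ t ∈ E.S, E.ω (E.v s) (E.v t) ≠ 0 → ∃ m : ℕ,
      E.pr s ^ m * E.pr t = E.pr t * E.pr s ^ m ∧ |2 * (m * E.ω (E.v s) (E.v t))| = D) :
    ∃ C : ℕ, ∀ g, E.cl g → 1 ≤ E.lv g → C * E.lv g ≤ E.ht g →
      ∀ j : ℤ, 0 ≤ E.ht g + D * j → E.ht g + D * j ≤ E.ht g - C →
        ∃ g', E.cl g' ∧ E.pr g' = E.pr g ∧ E.ht g' = E.ht g + D * j := by
  classical
  obtain ⟨M, hM⟩ := E.consolidate
  obtain ⟨Ω, hΩ1, hΩ2⟩ := E.exists_Ω
  choose! m hm1 hm2 using hm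
  set mx : ℕ := ∑ s ∈ E.S, ∑ t ∈ E.S, m s t + 1 with hmx
  have hmle : ∀ s ∈ E.S, ∀ t ∈ E.S, m s t + 1 ≤ mx := fun s hs t ht => by
    have a1 := Finset.single_le_sum (f := fun t => m s t) (fun _ _ => Nat.zero_le _) ht
    have a2 := Finset.single_le_sum (f := fun s => ∑ t ∈ E.S, m s t) (fun _ _ => Nat.zero_le _) hs
    omega
  set y : ℕ := X.N * (2 * Ω * mx + 2 * Ω * X.N + 1) with hy
  have hN := X.N_pos
  have hy0 : 0 < y := Nat.mul_pos hN (by omega)
  set a : ℕ := mx * y with ha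
  set c : ℕ := 2 * Ω * X.N * X.N + 2 * Ω * a with hc
  have hcy : c < y * y := by
    have b1 : X.N ≤ y := Nat.le_mul_of_pos_right _ (by omega)
    have b2 : 2 * Ω * mx + 2 * Ω * X.N + 1 ≤ y := Nat.le_mul_of_pos_left _ hN
    have b3 := Nat.mul_le_mul_left y b2
    have b4 := Nat.mul_le_mul_left (2 * Ω * X.N) b1
    rw [hc, ha]
    nlinarith
  refine ⟨Ω * (1 + M * a) + 2 * a * (Ω * (M * a)) + 2 * (Ω * a ^ 2) + 2 * Ω * (1 + X.N * M) +
    2 * Ω * a + 1, fun g g1 hk htop j hj1 hj2 => ?_⟩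
  obtain ⟨l, l1, l2, l3, l4⟩ := hM g g1
  have hk' : (1 : ℚ) ≤ E.lv g := by exact_mod_cast hk
  have elv : E.lv (bw l) = E.lv g := E.lv_congr l3
  have l2' : (l.length : ℚ) ≤ M := by exact_mod_cast l2
  have o0 : (0 : ℚ) ≤ Ω := Nat.cast_nonneg _
  have a0 : (0 : ℚ) ≤ a := Nat.cast_nonneg _
  have M0 : (0 : ℚ) ≤ M := Nat.cast_nonneg _
  have N0 : (0 : ℚ) ≤ X.N := Nat.cast_nonneg _
  push_cast at htop hj2
  have p1 : (0 : ℚ) ≤ Ω * (1 + M * a) := by positivity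
  have p2 : (0 : ℚ) ≤ 2 * a * (Ω * (M * a)) := by positivity
  have p3 : (0 : ℚ) ≤ 2 * (Ω * a ^ 2) := by positivity
  have p4 : (0 : ℚ) ≤ 2 * Ω * (1 + X.N * M) := by positivity
  have p5 : (0 : ℚ) ≤ 2 * Ω * a := by positivity
  rcases E.pair_or_small hΩ1 hΩ2 a l l1 with h | ⟨L1, s, n1, L2, t, n2, L3, rfl, hn1, hn2, hω, hL2⟩
  · exfalso
    rw [elv] at h
    have : (Ω * (1 + l.length * a) * E.lv g : ℚ) ≤ Ω * (1 + M * a) * E.lv g := by gcongr
    have h0 := zero_le_one.trans hk'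
    linarith [mul_nonneg p2 h0, mul_nonneg p3 h0, mul_nonneg p4 h0, mul_nonneg p5 h0]
  have hs : s ∈ E.S := l1 (s, n1) (by simp)
  have ht : t ∈ E.S := l1 (t, n2) (by simp)
  have cs := E.cl_letter hs
  have ct := E.cl_letter ht
  obtain ⟨γ, γ1, γ2, γ3, γ4⟩ := E.gadget (e := s ^ m s t) (cs.pow _) ct
    (by rw [map_pow]; exact hm1 s hs t ht hω) (D := D)
    (by rw [v_pow, map_smul, LinearMap.smul_apply, smul_eq_mul]; exact hm2 s hs t ht hω) hy0
  rw [← pow_mul] at γ2 γ3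
  have hma : m s t * y + y ≤ a := by
    have := Nat.mul_le_mul_right y (hmle s hs t ht)
    rw [ha]; linarith
  obtain ⟨n1', rfl⟩ : ∃ n', n1 = n' + m s t * y := ⟨n1 - m s t * y, by omega⟩
  obtain ⟨n2', rfl⟩ : ∃ n', n2 = y + n' := ⟨n2 - y, by omega⟩
  have hNy : X.N ∣ y := Dvd.intro _ rfl
  have hcen : ∀ p, E.pr γ * p = p * E.pr γ := fun p => by
    rw [γ2, map_mul, map_pow, map_pow, mul_assoc, E.pr_pow_comm t hNy, ← mul_assoc,
      E.pr_pow_comm s (hNy.mul_left _), mul_assoc]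
  have γlv : (E.lv γ : ℚ) ≤ a := by
    rw [E.lv_congr γ2, lv_mul, lv_pow, lv_pow, E.lv_letter hs, E.lv_letter ht]
    exact_mod_cast (by simpa using hma)
  have γ0 : (0 : ℚ) ≤ E.lv γ := by exact_mod_cast E.lv_nonneg γ1
  have o1 : E.ok (L1 ++ (s, n1') :: L2) := fun e he => by
    simp only [List.mem_append, List.mem_cons] at he
    rcases he with he | rfl | he
    · exact l1 e (by simp [he])
    · exact hs
    · exact l1 e (by simp [he])
  have o2 : E.ok ((t, n2') :: L3) := fun e he => by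
    rcases List.mem_cons.1 he with rfl | he
    · exact ht
    · exact l1 e (by simp [he])
  have o3 : E.ok ((L1 ++ (s, n1') :: L2) ++ (t, n2') :: L3) := fun e he =>
    (List.mem_append.1 he).elim (o1 e) (o2 e)
  have cA := E.cl_bw o1
  have cB := E.cl_bw o2
  set A0 := bw (L1 ++ (s, n1') :: L2) with hA0
  set B0 := bw ((t, n2') :: L3) with hB0
  have q1 : E.pr (A0 * γ * B0) = E.pr g := by
    rw [← l3, map_mul, map_mul, γ2, hA0, hB0]
    simp only [bw_append, bw_cons, map_mul, map_pow, pow_add, mul_assoc]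
    rw [← mul_assoc (E.pr (bw L2)), ← E.pr_pow_comm s (hNy.mul_left _), mul_assoc]
  have q2 : E.ht g - 2 * a * (Ω * (M * a)) ≤ E.ht (A0 * γ * B0) := by
    have b1 : (L2.length : ℚ) ≤ M := by
      simp only [List.length_append, List.length_cons] at l2
      exact_mod_cast (by omega : L2.length ≤ M)
    have b2 : E.ω (E.v s) (E.v (bw L2)) ≤ Ω * (M * a) := hL2.trans (by gcongr)
    have b3 : ((m s t * y : ℕ) : ℚ) ≤ a := by exact_mod_cast (by omega : m s t * y ≤ a)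
    have b4 := (mul_le_mul_of_nonneg_left b2 (Nat.cast_nonneg (m s t * y))).trans
      (mul_le_mul_of_nonneg_right b3 (by positivity))
    have b5 := E.ω_swap (E.v (bw L2)) (E.v s)
    rw [ht_mul', ht_mul', v_mul, E.v_congr γ2, hA0, hB0]
    simp only [bw_append, bw_cons, pow_add, ht_mul', v_mul, v_pow, ht_pow, map_add, map_smul,
      LinearMap.add_apply, LinearMap.smul_apply, smul_eq_mul, E.ω_self, b5] at l4 γ3 ⊢
    linarith
  let r : G × G → G × G → Prop := fun x x' => (E.cl x'.1 ∧ E.cl x'.2 ∧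
    E.pr (x'.1 * x'.2) = E.pr (A0 * B0)) ∧ E.ht (x.1 * γ * x.2) - E.ht (x'.1 * γ * x'.2) ≤ c
  have r1 : ∀ A, E.cl A → ∀ B, E.cl B → E.pr (A * B) = E.pr (A0 * B0) →
      Relation.ReflTransGen r (A, B) (1, A * B) := by
    intro A hA
    induction hA using Submonoid.closure_induction_right with
    | one => intro B _ _; rw [one_mul]
    | mul_right A hA s' hs' ih =>
      intro B hB e
      have cs' := E.cl_letter hs'
      rw [mul_assoc] at e
      rw [mul_assoc]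
      refine Relation.ReflTransGen.head (b := (A, s' * B)) ⟨⟨hA, cs'.mul hB, e⟩, ?_⟩
        (ih _ (cs'.mul hB) e)
      have b1 := (abs_le.1 (hΩ2 _ _ cs' γ1)).2
      rw [E.lv_letter hs', Int.cast_one, mul_one] at b1
      have b2 := E.ω_swap (E.v γ) (E.v s')
      have b3 : (Ω : ℚ) * E.lv γ ≤ Ω * a := by gcongr
      have b4 : (0 : ℚ) ≤ 2 * Ω * X.N * X.N := by positivity
      simp only [ht_mul', v_mul, map_add, LinearMap.add_apply, b2, hc]
      push_cast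
      linarith
  obtain ⟨g', h1, h2⟩ := E.rev hΩ1 hΩ2 (c := c) (by rw [hc]; push_cast; linarith) _ o3
  rw [bw_append, ← hA0, ← hB0] at h1 h2
  have r2 : ∀ g', E.Ch c (A0 * B0) g' → Relation.ReflTransGen r (1, A0 * B0) (1, g') := by
    intro g' h
    induction h with
    | refl => exact Relation.ReflTransGen.refl
    | @tail b d h3 h4 ih =>
      have h5 := (Ch.inv h3 (cA.mul cB)).2
      refine ih.tail ⟨⟨E.cl_one, h4.1, by rw [one_mul, h4.2.1, h5]⟩, ?_⟩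
      simp only [one_mul, ht_mul', E.v_congr h4.2.1]
      linarith [h4.2.2]
  have q3 : E.ht (1 * γ * g') ≤ 0 := by
    have b0 := E.v_congr (h1.inv (cA.mul cB)).2
    have b1 : E.lv A0 + E.lv γ + E.lv B0 = E.lv g := by
      rw [← E.lv_congr q1, lv_mul, lv_mul]
    have b1' : (E.lv A0 : ℚ) + E.lv γ + E.lv B0 = E.lv g := by exact_mod_cast b1
    have b2 : (0 : ℚ) ≤ E.lv A0 := by exact_mod_cast E.lv_nonneg cA
    have b3 : (0 : ℚ) ≤ E.lv B0 := by exact_mod_cast E.lv_nonneg cB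
    have b4 : ((L1 ++ (s, n1') :: L2 ++ (t, n2') :: L3).length : ℚ) ≤ M := by
      simp only [List.length_append, List.length_cons] at l2 ⊢
      exact_mod_cast (by omega)
    have b5 : (E.lv (A0 * B0) : ℚ) ≤ E.lv g := by rw [lv_mul]; push_cast; linarith
    have b5' : (0 : ℚ) ≤ E.lv (A0 * B0) := by rw [lv_mul]; push_cast; linarith
    have b6 : E.ht (A0 * B0) + E.ht g' ≤ 2 * Ω * (1 + X.N * M) * E.lv g := h2.trans (by gcongr)
    have b7 := (abs_le.1 ((E.abs_ht_le hΩ1 hΩ2 γ1).trans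
      (show _ ≤ (Ω : ℚ) * a ^ 2 by gcongr))).2
    have bB : (E.lv B0 : ℚ) ≤ E.lv g := by linarith
    have b8 := (abs_le.1 ((hΩ2 _ _ γ1 cB).trans (show _ ≤ (Ω : ℚ) * a * E.lv g from
      mul_le_mul (mul_le_mul_of_nonneg_left γlv o0) bB b3 (mul_nonneg o0 a0)))).2
    have b9 := E.ω_swap (E.v A0) (E.v γ)
    simp only [one_mul, ht_mul', v_mul, map_add, LinearMap.add_apply, b0, b9] at q2 b6 ⊢
    linarith [mul_le_mul_of_nonneg_left hk' p2, mul_le_mul_of_nonneg_left hk' p3,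
      mul_nonneg p1 (zero_le_one.trans hk')]
  obtain ⟨⟨A, B⟩, ⟨i1, i2, i3⟩, i4, i5⟩ := chain_ivt (r := r) (c := c)
    (Inv := fun x => E.cl x.1 ∧ E.cl x.2 ∧ E.pr (x.1 * x.2) = E.pr (A0 * B0))
    (f := fun x => E.ht (x.1 * γ * x.2)) (Nat.cast_nonneg _) (fun _ _ h => h)
    ((r1 A0 cA B0 cB rfl).trans (r2 g' h1)) ⟨cA, cB, rfl⟩ (t := E.ht g + D * j)
    (q3.trans hj1) (by linarith)
  simp only at i1 i2 i3 i4 i5
  have q4 : E.pr (A * γ * B) = E.pr g := by
    rw [← q1, map_mul, map_mul, ← hcen, mul_assoc, ← map_mul, i3, map_mul, map_mul, map_mul,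
      ← hcen, mul_assoc]
  obtain ⟨j', hj'⟩ := hcong _ _ q4.symm
  have hD' : (1 : ℚ) ≤ D := by exact_mod_cast hD
  have i6 : 0 ≤ j' - j := by
    have : (0 : ℚ) ≤ D * ((j' - j : ℤ) : ℚ) := by push_cast; linarith
    exact_mod_cast (mul_nonneg_iff_of_pos_left (by linarith)).1 this
  obtain ⟨i, hi⟩ := Int.eq_ofNat_of_zero_le i6
  have hi' : (j' : ℚ) - j = i := by exact_mod_cast hi
  have i7 : i < y * y := by
    have b1 : (D : ℚ) * i ≤ c := by rw [← hi']; linarith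
    have b2 : (i : ℚ) ≤ c := by nlinarith [(Nat.cast_nonneg i : (0 : ℚ) ≤ i)]
    have : i ≤ c := by exact_mod_cast b2
    omega
  obtain ⟨γ', k1, k2, k3⟩ := γ4 i i7
  refine ⟨A * γ' * B, (i1.mul k1).mul i2, by rw [← q4]; simp only [map_mul, k2], ?_⟩
  simp only [ht_mul', v_mul, E.v_congr k2, k3] at hj' ⊢
  rw [← hi']
  linarith

end Ext

end Pool.Agent.MP_b3b911_al
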