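import Pool.Agent.MP_b3b911_al.Group

/-! Final form of the asymptotic statement. -/

open Filter Topology

namespace Pool.Agent.MP_b3b911_al

theorem ratio_of_two {a : ℕ → ℝ} {c L : ℝ} {d : ℕ}
    (h : Tendsto (fun k : ℕ => (a k - c * (k : ℝ) ^ d) / (k : ℝ) ^ ((d : ℤ) - 1)) atTop (𝓝 L)) :
    Tendsto (fun k : ℕ => a k / (k : ℝ) ^ d) atTop (𝓝 c) := by
  have h1 := (h.mul tendsto_inv_atTop_nhds_zero_nat).add_const c
  rw [mul_zero, zero_add] at h1
  refine h1.congr' ?_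
  filter_upwards [eventually_ge_atTop 1] with k hk
  have : (k : ℝ) ≠ 0 := by exact_mod_cast (by omega : k ≠ 0)
  rw [zpow_sub₀ this, zpow_natCast]
  field_simp
  ring

theorem log_of_ratio {a : ℕ → ℝ} {c : ℝ} {d : ℕ} (hc : 0 < c)
    (h : Tendsto (fun k : ℕ => a k / (k : ℝ) ^ d) atTop (𝓝 c)) :
    Tendsto (fun k : ℕ => Real.log (a k) / Real.log k) atTop (𝓝 d) := by
  have h1 : Tendsto (fun k : ℕ => Real.log k) atTop atTop :=
    Real.tendsto_log_atTop.comp tendsto_natCast_atTop_atTop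
  have h2 := ((h.log hc.ne').div_atTop h1).add_const (d : ℝ)
  rw [zero_add] at h2
  refine h2.congr' ?_
  filter_upwards [eventually_ge_atTop 2, h.eventually_const_lt hc] with k hk hp
  have hk' : (1 : ℝ) < k := by exact_mod_cast hk
  have h3 : (0 : ℝ) < (k : ℝ) ^ d := by positivity
  have h4 : a k ≠ 0 := fun h0 => by simp [h0] at hp
  have h5 := (Real.log_pos hk').ne'
  rw [Real.log_div h4 h3.ne', Real.log_pow]
  field_simp
  ring

theorem final {G : Type*} [Group G] (S : Finset G) (hS : Subgroup.closure (S : Set G) = ⊤) (z : G)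
    (hz : z ∈ Subgroup.center G) (hfin : (Subgroup.zpowers z).relIndex (commutator G) ≠ 0) :
    ∃ (d : ℕ) (c L : ℝ),
      Tendsto (fun k : ℕ => Real.log (growth S k) / Real.log k) atTop (𝓝 d) ∧ 0 < c ∧
      Tendsto (fun k : ℕ => (growth S k : ℝ) / (k : ℝ) ^ d) atTop (𝓝 c) ∧
      Tendsto (fun k : ℕ => ((growth S k : ℝ) - c * (k : ℝ) ^ d) / (k : ℝ) ^ ((d : ℤ) - 1))
        atTop (𝓝 L) := by
  obtain ⟨d, c, L, h0, h⟩ := two_term S hS z hz hfin
  exact ⟨d, c, L, log_of_ratio h0 (ratio_of_two h), h0, ratio_of_two h, h⟩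

end Pool.Agent.MP_b3b911_al
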