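import Pool.Agent.MP_b3b911_al.Setup

/-! The height cocycle of a group whose commutator subgroup is virtually a central cyclic group. -/

open Filter Topology

namespace Pool.Agent.MP_b3b911_al

variable {G : Type*} [Group G]

theorem exists_pi [Group.FG G] : ∃ (ι : Type) (_ : Fintype ι) (π : G → ι → ℤ) (K : Subgroup G),
    (∀ p q, π (p * q) = π p + π q) ∧ Function.Surjective π ∧ (∀ g, g ∈ K ↔ π g = 0) ∧
      (commutator G).relIndex K ≠ 0 := by
  haveI : Group.FG (Abelianization G) :=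
    Group.fg_of_surjective (f := Abelianization.of) QuotientGroup.mk_surjective
  obtain ⟨κ, ι, _, _, p, hp, e, ⟨f⟩⟩ :=
    CommGroup.equiv_free_prod_prod_multiplicative_zmod (Abelianization G)
  let F : G →* (ι → Multiplicative ℤ) := (MonoidHom.fst _ _).comp
    (f.toMonoidHom.comp Abelianization.of)
  refine ⟨ι, inferInstance, fun g i => (F g i).toAdd, F.ker, fun p q => ?_, fun x => ?_,
    fun g => ?_, ?_⟩
  · funext i; simp
  · obtain ⟨g, hg⟩ := QuotientGroup.mk_surjective
      (f.symm (fun i => Multiplicative.ofAdd (x i), 1))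
    refine ⟨g, funext fun i => ?_⟩
    have : Abelianization.of g = f.symm (fun i => Multiplicative.ofAdd (x i), 1) := hg
    simp [F, this]
  · rw [MonoidHom.mem_ker, funext_iff, funext_iff]
    rfl
  · rw [← Abelianization.ker_of, Subgroup.relIndex_ker]
    haveI : ∀ i, NeZero (p i ^ e i) := fun i => ⟨pow_ne_zero _ (hp i).ne_zero⟩
    haveI : Finite (F.ker.map Abelianization.of) := by
      refine Finite.of_injective (fun a => (f a.1).2) ?_
      rintro ⟨_, g, hg, rfl⟩ ⟨_, g', hg', rfl⟩ h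
      refine Subtype.ext (f.injective (Prod.ext ?_ h))
      exact (MonoidHom.mem_ker.1 hg).trans (MonoidHom.mem_ker.1 hg').symm
    exact Nat.card_pos.ne'

theorem zpowers_normal {z : G} (hz : ∀ g, g * z = z * g) : (Subgroup.zpowers z).Normal := by
  refine ⟨?_⟩
  rintro _ ⟨j, rfl⟩ g
  refine ⟨j, ?_⟩
  have : Commute g z := hz g
  simp only
  rw [(this.zpow_right j).eq, mul_inv_cancel_right]

theorem relIndex_zpow {z : G} (hz : ∀ g, g * z = z * g) {j : ℤ} (hj : j ≠ 0) :
    (Subgroup.zpowers (z ^ j)).relIndex (Subgroup.zpowers z) ≠ 0 := by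
  haveI := zpowers_normal (z := z ^ j) fun g => ((show Commute g z from hz g).zpow_right j).eq
  rw [← QuotientGroup.ker_mk' (Subgroup.zpowers (z ^ j)), Subgroup.relIndex_ker,
    MonoidHom.map_zpowers]
  have : IsOfFinOrder (QuotientGroup.mk' (Subgroup.zpowers (z ^ j)) z) := by
    rw [isOfFinOrder_iff_zpow_eq_one]
    refine ⟨j, hj, ?_⟩
    rw [← map_zpow, QuotientGroup.mk'_apply, QuotientGroup.eq_one_iff]
    exact Subgroup.mem_zpowers _
  haveI := this.finite_zpowers.to_subtype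
  exact Nat.card_pos.ne'

theorem exists_psi (K : Subgroup G) [K.Normal] {z : G} (hz : ∀ g, g * z = z * g) (hzK : z ∈ K)
    (hinf : ¬ IsOfFinOrder z) (hfin : (Subgroup.zpowers z).relIndex K ≠ 0) :
    ∃ ψ : G → ℚ, (∀ a ∈ K, ∀ b ∈ K, ψ (a * b) = ψ a + ψ b) ∧
      (∀ g, ∀ a ∈ K, ψ (g * a * g⁻¹) = ψ a) ∧ (∀ j : ℤ, ψ (z ^ j) = j) ∧
      ∃ n : ℕ, 0 < n ∧ ∀ a ∈ K, a ^ n ∈ Subgroup.zpowers z := by
  classical
  haveI := zpowers_normal hz
  have hc : ∀ g, Commute g z := hz
  haveI : ((Subgroup.zpowers z).subgroupOf K).FiniteIndex := ⟨hfin⟩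
  haveI : (Subgroup.center K).FiniteIndex := Subgroup.finiteIndex_of_le
    (H := (Subgroup.zpowers z).subgroupOf K) fun a ha => by
      obtain ⟨j, hj⟩ := Subgroup.mem_subgroupOf.1 ha
      rw [Subgroup.mem_center_iff]
      intro b
      apply Subtype.ext
      simp only [Subgroup.coe_mul, ← hj]
      exact ((hc b).zpow_right j).eq
  set c := (Subgroup.center K).index
  set d := (Subgroup.zpowers z).relIndex K
  have hn : 0 < c * d := Nat.mul_pos (Nat.pos_of_ne_zero Subgroup.FiniteIndex.index_ne_zero)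
    (Nat.pos_of_ne_zero hfin)
  have h1 : ∀ a ∈ K, a ^ (c * d) ∈ Subgroup.zpowers z := fun a ha => by
    rw [pow_mul]
    exact Subgroup.pow_relIndex_mem _ (K.pow_mem ha c)
  have h2 : ∀ a ∈ K, ∀ b ∈ K, (a * b) ^ (c * d) = a ^ (c * d) * b ^ (c * d) := by
    intro a ha b hb
    have e1 := congrArg (fun x : Subgroup.center K => ((x : K) : G))
      ((MonoidHom.transferCenterPow K).map_mul ⟨a, ha⟩ ⟨b, hb⟩)
    simp only [Subgroup.coe_mul, MonoidHom.transferCenterPow_apply, SubmonoidClass.coe_pow] at e1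
    have e2 := congrArg Subtype.val (Subgroup.mem_center_iff.1
      ((Subgroup.center K).pow_index_mem ⟨a, ha⟩) (⟨b, hb⟩ ^ c))
    simp only [Subgroup.coe_mul, SubmonoidClass.coe_pow] at e2
    rw [pow_mul, pow_mul, pow_mul, e1]
    exact (show Commute (a ^ c) (b ^ c) from e2.symm).mul_pow d
  choose! f hf using h1
  have hinj := injective_zpow_iff_not_isOfFinOrder.2 hinf
  have hn' : ((c * d : ℕ) : ℚ) ≠ 0 := by exact_mod_cast hn.ne'
  refine ⟨fun a => f a / (c * d : ℕ), fun a ha b hb => ?_, fun g a ha => ?_, fun j => ?_,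
    c * d, hn, fun a ha => ⟨_, hf a ha⟩⟩
  · have : f (a * b) = f a + f b := hinj (by
      have e1 := hf _ (K.mul_mem ha hb)
      have e2 := hf a ha
      have e3 := hf b hb
      simp only at e1 e2 e3 ⊢
      rw [e1, zpow_add, e2, e3, h2 a ha b hb])
    simp only [this]; push_cast; ring
  · have : f (g * a * g⁻¹) = f a := hinj (by
      have e1 := hf _ (Subgroup.Normal.conj_mem ‹_› a ha g)
      have e2 := hf a ha
      simp only at e1 e2 ⊢
      rw [e1, conj_pow, ← e2, ((hc g).zpow_right _).eq, mul_inv_cancel_right])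
    simp only [this]
  · have : f (z ^ j) = j * (c * d : ℕ) := hinj (by
      have e1 := hf _ (K.zpow_mem hzK j)
      simp only at e1 ⊢
      rw [e1, zpow_mul, zpow_natCast])
    simp only [this]
    rw [div_eq_iff hn']; push_cast; ring

theorem additive_zpow {f : G → ℚ} (hf : ∀ a b, f (a * b) = f a + f b) (a : G) (j : ℤ) :
    f (a ^ j) = j * f a := by
  let F : G →* Multiplicative ℚ := MonoidHom.mk' (fun p => Multiplicative.ofAdd (f p))
    fun p q => by rw [hf, ofAdd_add]
  have := congrArg Multiplicative.toAdd (map_zpow F a j)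
  simpa [F] using this

theorem exists_ht {ι : Type} [Fintype ι] (π : G → ι → ℤ) (π_mul : ∀ p q, π (p * q) = π p + π q)
    (hsurj : Function.Surjective π) (K : Subgroup G) [K.Normal] (hK : ∀ g, g ∈ K ↔ π g = 0)
    {z : G} (hz : ∀ g, g * z = z * g) (ψ : G → ℚ)
    (ψ_mul : ∀ a ∈ K, ∀ b ∈ K, ψ (a * b) = ψ a + ψ b) (ψ_conj : ∀ g, ∀ a ∈ K, ψ (g * a * g⁻¹) = ψ a)
    {n : ℕ} (hn : 0 < n) (hpow : ∀ a ∈ K, a ^ n ∈ Subgroup.zpowers z) :
    ∃ (ht : G → ℚ) (ω : LinearMap.BilinForm ℚ (ι → ℚ)), (∀ x, ω x x = 0) ∧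
      (∀ g h, ht (g * h) = ht g + ht h + ω (toQ (π g)) (toQ (π h))) ∧
      (∀ g h, ψ (g * h * g⁻¹ * h⁻¹) = 2 * ω (toQ (π g)) (toQ (π h))) ∧ ∀ a ∈ K, ht a = ψ a := by
  classical
  have π1 : π 1 = 0 := by simpa using π_mul 1 1
  have πinv : ∀ g, π g⁻¹ = -π g := fun g => by
    have := π_mul g⁻¹ g
    rw [inv_mul_cancel, π1] at this
    exact eq_neg_of_add_eq_zero_left this.symm
  have ψ1 : ψ 1 = 0 := by simpa using ψ_mul 1 K.one_mem 1 K.one_mem
  have hcK : ∀ g h, g * h * g⁻¹ * h⁻¹ ∈ K := fun g h => by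
    rw [hK]; simp only [π_mul, πinv]; abel
  let W : G → G → ℚ := fun g h => ψ (g * h * g⁻¹ * h⁻¹) / 2
  have W1 : ∀ g g' h, W (g * g') h = W g h + W g' h := fun g g' h => by
    have e : g * g' * h * (g * g')⁻¹ * h⁻¹ =
      g * (g' * h * g'⁻¹ * h⁻¹) * g⁻¹ * (g * h * g⁻¹ * h⁻¹) := by group
    simp only [W]
    rw [e, ψ_mul _ (Subgroup.Normal.conj_mem ‹_› _ (hcK _ _) g) _ (hcK _ _), ψ_conj _ _ (hcK _ _)]
    ring
  have Wswap : ∀ g h, W g h = -W h g := fun g h => by
    have := ψ_mul _ (hcK g h) _ (hcK h g)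
    rw [show g * h * g⁻¹ * h⁻¹ * (h * g * h⁻¹ * g⁻¹) = 1 by group, ψ1] at this
    simp only [W]; linarith
  have W2 : ∀ g h h', W g (h * h') = W g h + W g h' := fun g h h' => by
    rw [Wswap, W1, Wswap h, Wswap h']; ring
  have Wself : ∀ g, W g g = 0 := fun g => by linarith [Wswap g g]
  have WK : ∀ a ∈ K, ∀ h, W a h = 0 := fun a ha h => by
    have e1 := additive_zpow (f := fun g => W g h) (fun a b => W1 a b h) a n
    obtain ⟨j, hj⟩ := hpow a ha
    simp only at hj
    have hc : Commute h z := hz h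
    simp only [zpow_natCast, ← hj, W] at e1
    rw [← (hc.zpow_right j).eq, mul_inv_cancel_right, mul_inv_cancel, ψ1] at e1
    have : (n : ℚ) ≠ 0 := by exact_mod_cast hn.ne'
    simp only [W]
    simpa [this] using e1
  have Wl : ∀ g g' h, π g = π g' → W g h = W g' h := fun g g' h e => by
    have := W1 (g * g'⁻¹) g' h
    rwa [inv_mul_cancel_right, WK (g * g'⁻¹) (by rw [hK, π_mul, πinv, e, add_neg_cancel]),
      zero_add] at this
  have Wr : ∀ g h h', π h = π h' → W g h = W g h' := fun g h h' e => by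
    rw [Wswap, Wl _ _ _ e, ← Wswap]
  choose b hb using fun i : ι => hsurj (Pi.single i 1)
  let sec : List ι → (ι → ℤ) → G := fun l x => (l.map fun i => b i ^ x i).prod
  have sec_cons : ∀ i l x, sec (i :: l) x = b i ^ x i * sec l x := fun i l x => by simp [sec]
  have hadd : ∀ f : G → ℚ, (∀ a b, f (a * b) = f a + f b) → ∀ l x,
      f (sec l x) = (l.map fun i => x i * f (b i)).sum := by
    intro f hf l x
    induction l with
    | nil => simpa [sec] using hf 1 1
    | cons i l ih => rw [sec_cons, hf, ih, additive_zpow hf]; simp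
  have hπ : ∀ x, π (sec Finset.univ.toList x) = x := fun x => by
    funext j
    have := hadd (fun g => π g j) (fun a b => by rw [π_mul]; simp) Finset.univ.toList x
    rw [Finset.sum_map_toList] at this
    simp only [hb, Pi.single_apply] at this
    have e : ∑ i, (x i : ℚ) * (((if j = i then 1 else 0 : ℤ)) : ℚ) = x j := by simp
    rw [e] at this
    exact_mod_cast this
  have hπadd : ∀ l x y, π (sec l (x + y)) = π (sec l x) + π (sec l y) := by
    intro l x y
    induction l with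
    | nil => simp [sec, π1]
    | cons i l ih =>
      simp only [sec_cons, π_mul, ih, Pi.add_apply, zpow_add]; abel
  have hq : ∀ l, ∃ q : (ι → ℤ) → ℚ, ∀ x y, ψ (sec l x * sec l y * (sec l (x + y))⁻¹) =
      W (sec l x) (sec l y) + q x + q y - q (x + y) := by
    intro l
    induction l with
    | nil => exact ⟨fun _ => 0, fun x y => by simp [sec, W, ψ1]⟩
    | cons i l ih =>
      obtain ⟨q, hq⟩ := ih
      refine ⟨fun x => W (b i ^ x i) (sec l x) + q x, fun x y => ?_⟩
      have k1 : sec l x * sec l y * (sec l (x + y))⁻¹ ∈ K := by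
        rw [hK, π_mul, π_mul, πinv, hπadd, add_neg_cancel]
      have k2 := Subgroup.Normal.conj_mem ‹K.Normal› _ k1 (b i ^ y i)
      have e : sec (i :: l) x * sec (i :: l) y * (sec (i :: l) (x + y))⁻¹ =
          b i ^ x i * ((sec l x * b i ^ y i * (sec l x)⁻¹ * (b i ^ y i)⁻¹) *
            (b i ^ y i * (sec l x * sec l y * (sec l (x + y))⁻¹) * (b i ^ y i)⁻¹)) *
              (b i ^ x i)⁻¹ := by
        simp only [sec_cons, Pi.add_apply, zpow_add]; group
      have e1 : ψ (sec l x * b i ^ y i * (sec l x)⁻¹ * (b i ^ y i)⁻¹) =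
          2 * W (sec l x) (b i ^ y i) := by simp only [W]; ring
      have e2 : W (b i ^ x i) (b i ^ y i) = 0 := by
        have := additive_zpow (f := fun g => W g (b i ^ y i)) (fun a b => W1 a b _) (b i) (x i)
        have h2 := additive_zpow (f := fun g => W (b i) g) (W2 _) (b i) (y i)
        simp only [this, h2, Wself, mul_zero]
      rw [e, ψ_conj _ _ (K.mul_mem (hcK _ _) k2), ψ_mul _ (hcK _ _) _ k2, ψ_conj _ _ k1, e1, hq]
      beta_reduce
      rw [Wr _ (sec l (x + y)) (sec l x * sec l y) (by rw [hπadd, π_mul])]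
      simp only [sec_cons, Pi.add_apply, zpow_add, W1, W2, e2]
      linarith [Wswap (sec l x) (b i ^ y i)]
  obtain ⟨q, hq⟩ := hq Finset.univ.toList
  let ω : LinearMap.BilinForm ℚ (ι → ℚ) := Matrix.toBilin' fun i j => W (b i) (b j)
  have hω : ∀ x y, ω x y = ∑ i, ∑ j, x i * W (b i) (b j) * y j := fun x y =>
    Matrix.toBilin'_apply _ x y
  have hωW : ∀ g h, ω (toQ (π g)) (toQ (π h)) = W g h := fun g h => by
    rw [hω, Wl g _ h (hπ (π g)).symm, hadd (fun g => W g h) (fun a b => W1 a b h),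
      Finset.sum_map_toList]
    refine Finset.sum_congr rfl fun i _ => ?_
    rw [Wr (b i) h _ (hπ (π h)).symm, hadd (fun g => W (b i) g) (W2 _), Finset.sum_map_toList,
      Finset.mul_sum]
    exact Finset.sum_congr rfl fun j _ => by simp only [toQ]; ring
  set s := sec Finset.univ.toList with hs
  have kk : ∀ g, g * (s (π g))⁻¹ ∈ K := fun g => by rw [hK, π_mul, πinv, hπ, add_neg_cancel]
  have s0 : s 0 = 1 := by simp [hs, sec]
  refine ⟨fun g => ψ (g * (s (π g))⁻¹) + q (π g), ω, fun x => ?_, fun g h => ?_, fun g h => ?_,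
    fun a ha => ?_⟩
  · have e1 := hω x x
    have e2 : ω x x = -∑ i, ∑ j, x i * W (b i) (b j) * x j := by
      rw [e1]
      conv_lhs => rw [Finset.sum_comm]
      rw [← Finset.sum_neg_distrib]
      refine Finset.sum_congr rfl fun i _ => ?_
      rw [← Finset.sum_neg_distrib]
      exact Finset.sum_congr rfl fun j _ => by rw [Wswap (b j)]; ring
    linarith
  · have k1 : s (π g) * s (π h) * (s (π g + π h))⁻¹ ∈ K := by
      rw [hK, π_mul, π_mul, πinv, hπ, hπ, hπ, add_neg_cancel]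
    have k2 := Subgroup.Normal.conj_mem ‹K.Normal› _ (kk h) (s (π g))
    have e : g * h * (s (π g + π h))⁻¹ = (g * (s (π g))⁻¹) *
        ((s (π g) * (h * (s (π h))⁻¹) * (s (π g))⁻¹) *
          (s (π g) * s (π h) * (s (π g + π h))⁻¹)) := by group
    simp only [π_mul]
    rw [e, ψ_mul _ (kk g) _ (K.mul_mem k2 k1), ψ_mul _ k2 _ k1, ψ_conj _ _ (kk h), hq, hωW,
      Wl _ g _ (hπ _), Wr _ _ h (hπ _)]
    ring
  · rw [hωW]; simp only [W]; ring
  · have := hq 0 0
    simp only [add_zero, s0, mul_one, inv_one, ψ1, Wself] at this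
    simp only [(hK a).1 ha, s0, inv_one, mul_one]
    linarith

theorem two_term (S : Finset G) (hS : Subgroup.closure (S : Set G) = ⊤) (z : G)
    (hz : z ∈ Subgroup.center G) (hfin : (Subgroup.zpowers z).relIndex (commutator G) ≠ 0) :
    ∃ (d : ℕ) (c L : ℝ), 0 < c ∧ Tendsto (fun k : ℕ => ((growth S k : ℝ) - c * (k : ℝ) ^ d) /
      (k : ℝ) ^ ((d : ℤ) - 1)) atTop (𝓝 L) := by
  classical
  haveI : Group.FG G := ⟨⟨S, hS⟩⟩
  obtain ⟨ι, _, π, K, π_mul, hsurj, hK, hrel0⟩ := exists_pi (G := G)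
  have π1 : π 1 = 0 := by simpa using π_mul 1 1
  have πinv : ∀ g, π g⁻¹ = -π g := fun g => by
    have := π_mul g⁻¹ g
    rw [inv_mul_cancel, π1] at this
    exact eq_neg_of_add_eq_zero_left this.symm
  haveI : K.Normal := ⟨fun a ha g => by
    rw [hK] at ha ⊢; rw [π_mul, π_mul, πinv, ha]; simp⟩
  have hz' : ∀ g, g * z = z * g := Subgroup.mem_center_iff.1 hz
  have h1 := Subgroup.relIndex_ne_zero_trans hfin hrel0
  by_cases hKf : Finite K
  · obtain ⟨c, L, h⟩ := (transfer_main S hS (MonoidHom.id G) Function.surjective_id π π_mul hsurj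
      (by
        have : {p | π p = 0} = (K : Set G) := by ext p; simp [hK]
        rw [this]; exact Set.toFinite _) (fun _ => 0) 0 (fun _ => rfl) (fun _ _ => by simp)).1
      Function.injective_id
    exact ⟨_, c, L, h⟩
  obtain ⟨w, hw, hwK, hwinf, h2⟩ : ∃ w : G, (∀ g, g * w = w * g) ∧ w ∈ K ∧ ¬ IsOfFinOrder w ∧
      (Subgroup.zpowers w).relIndex K ≠ 0 := by
    have a1 : ¬ Finite ((Subgroup.zpowers z).subgroupOf K) := fun h => hKf (by
      have := ((Subgroup.zpowers z).subgroupOf K).card_mul_index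
      refine Nat.finite_of_card_ne_zero ?_
      rw [← this]
      exact mul_ne_zero Nat.card_pos.ne' h1)
    have a2 : ¬ IsOfFinOrder z := fun h => a1 (by
      haveI := h.finite_zpowers.to_subtype
      refine Finite.of_injective (β := Subgroup.zpowers z) (fun a => ⟨a.1.1, a.2⟩) ?_
      intro a b e
      exact Subtype.ext (Subtype.ext (congrArg (fun x : Subgroup.zpowers z => x.1) e)))
    have a3 : ∃ j : ℤ, j ≠ 0 ∧ z ^ j ∈ K := by
      by_contra hc
      push Not at hc
      refine a1 (@Finite.of_subsingleton _ ⟨?_⟩)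
      have : ∀ a : (Subgroup.zpowers z).subgroupOf K, a.1.1 = 1 := by
        rintro ⟨⟨a, ha⟩, j, hj⟩
        simp only [Subgroup.coe_subtype] at hj ⊢
        by_cases h0 : j = 0
        · rw [← hj, h0, zpow_zero]
        · exact absurd (hj ▸ ha) (hc j h0)
      intro a b
      exact Subtype.ext (Subtype.ext ((this a).trans (this b).symm))
    obtain ⟨j, hj, hjK⟩ := a3
    refine ⟨z ^ j, fun g => ((show Commute g z from hz' g).zpow_right j).eq, hjK, fun h => ?_,
      Subgroup.relIndex_ne_zero_trans (relIndex_zpow hz' hj) h1⟩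
    obtain ⟨i, hi, hi'⟩ := isOfFinOrder_iff_zpow_eq_one.1 h
    exact a2 (isOfFinOrder_iff_zpow_eq_one.2 ⟨j * i, mul_ne_zero hj hi, by rw [zpow_mul, hi']⟩)
  clear hfin hz hz' h1 z
  have hwc : ∀ g, Commute g w := hw
  obtain ⟨ψ, ψ_mul, ψ_conj, ψw, n, hn, hpow⟩ := exists_psi K hw hwK hwinf h2
  obtain ⟨ht, ω, ω_self, ht_mul, hψω, htK⟩ := exists_ht π π_mul hsurj K hK hw ψ ψ_mul ψ_conj hn hpow
  have hquot : ∀ j : ℤ, j ≠ 0 → ∀ [(Subgroup.zpowers (w ^ j)).Normal],
      ∃ π' : G ⧸ Subgroup.zpowers (w ^ j) → ι → ℤ, (∀ g : G, π' g = π g) ∧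
      (∀ p q, π' (p * q) = π' p + π' q) ∧ {p | π' p = 0}.Finite := by
    intro j hj _
    let F : G →* Multiplicative (ι → ℤ) := MonoidHom.mk' (fun p => Multiplicative.ofAdd (π p))
      fun p q => by rw [π_mul, ofAdd_add]
    let F' := QuotientGroup.lift (Subgroup.zpowers (w ^ j)) F (by
      rintro _ ⟨i, rfl⟩
      exact (hK _).1 (K.zpow_mem (K.zpow_mem hwK j) i))
    refine ⟨fun p => (F' p).toAdd, fun g => rfl, fun p q => by simp, ?_⟩
    have a1 := Subgroup.relIndex_ne_zero_trans (relIndex_zpow hw hj) h2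
    rw [← QuotientGroup.ker_mk' (Subgroup.zpowers (w ^ j)), Subgroup.relIndex_ker] at a1
    haveI := Nat.finite_of_card_ne_zero a1
    refine (Set.toFinite ((K.map (QuotientGroup.mk' (Subgroup.zpowers (w ^ j))) : Subgroup _) :
      Set _)).subset fun p hp => ?_
    obtain ⟨g, rfl⟩ := QuotientGroup.mk_surjective p
    exact ⟨g, (hK g).2 hp, rfl⟩
  have hnorm : ∀ j : ℤ, (Subgroup.zpowers (w ^ j)).Normal := fun j =>
    zpowers_normal fun g => ((hwc g).zpow_right j).eq
  obtain ⟨D1, hD1, hcomm⟩ : ∃ D1 : ℕ, 0 < D1 ∧ ∀ s t : G, ∃ e : ℤ,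
      s ^ D1 * t = w ^ e * t * s ^ D1 := by
    haveI := hnorm 1
    obtain ⟨π', a1, a2, a3⟩ := hquot 1 one_ne_zero
    obtain ⟨N, hN, b1, -⟩ := exists_pow_central π' a2 a3
    refine ⟨N, hN, fun s t => ?_⟩
    have := b1 (t : G ⧸ Subgroup.zpowers (w ^ (1 : ℤ)))⁻¹ 1
    have b2 := (b1 (s : G ⧸ Subgroup.zpowers (w ^ (1 : ℤ))) t).symm
    rw [← QuotientGroup.mk_pow, ← QuotientGroup.mk_mul, ← QuotientGroup.mk_mul,
      QuotientGroup.eq] at b2
    obtain ⟨e, he⟩ := b2
    simp only [zpow_one] at he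
    refine ⟨e, ?_⟩
    rw [mul_assoc, ← ((hwc _).zpow_right e).eq, he, mul_inv_cancel_left]
  choose e he using hcomm
  have heω : ∀ s t, (e s t : ℚ) = 2 * (D1 * ω (toQ (π s)) (toQ (π t))) := fun s t => by
    have a1 := hψω (s ^ D1) t
    rw [he, mul_inv_cancel_right, mul_inv_cancel_right, ψw] at a1
    have a2 : ∀ m : ℕ, π (s ^ m) = m • π s := fun m => by
      induction m with
      | zero => simp [π1]
      | succ m ih => rw [pow_succ, π_mul, ih, succ_nsmul]
    rw [a1, a2, toQ_nsmul, map_smul, LinearMap.smul_apply, smul_eq_mul]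
  have hepow : ∀ s t (i : ℕ), s ^ (D1 * i) * t = w ^ (e s t * i) * t * s ^ (D1 * i) := by
    intro s t i
    induction i with
    | zero => simp
    | succ i ih =>
      rw [mul_add, mul_one, pow_add, mul_assoc, he, mul_assoc, ← mul_assoc (s ^ (D1 * i)),
        ((hwc _).zpow_right _).eq, mul_assoc, ← mul_assoc (s ^ (D1 * i)), ih]
      push_cast
      rw [mul_add, mul_one, add_comm, zpow_add]
      simp only [mul_assoc]
  set D : ℕ := ∏ x ∈ (symS S ×ˢ symS S).filter (fun x => e x.1 x.2 ≠ 0), (e x.1 x.2).natAbs with hD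
  have hD0 : 0 < D := Finset.prod_pos fun x hx => Int.natAbs_pos.2 (Finset.mem_filter.1 hx).2
  haveI := hnorm D
  obtain ⟨π', a1, a2, a3⟩ := hquot D (by exact_mod_cast hD0.ne')
  have hφ : ∀ g, π' (QuotientGroup.mk' (Subgroup.zpowers (w ^ (D : ℤ))) g) = π g := a1
  have hrel : ∀ g g' : G, QuotientGroup.mk' (Subgroup.zpowers (w ^ (D : ℤ))) g =
      QuotientGroup.mk' (Subgroup.zpowers (w ^ (D : ℤ))) g' →
      ∃ j : ℤ, g' = g * w ^ (D * j) ∧ ht g' = ht g + D * j := fun g g' h => by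
    obtain ⟨j, hj⟩ := QuotientGroup.eq.1 h
    simp only [← zpow_mul] at hj
    have b1 : g' = g * w ^ (D * j) := by rw [hj, mul_inv_cancel_left]
    have b2 := K.zpow_mem hwK (D * j)
    refine ⟨j, b1, ?_⟩
    rw [b1, ht_mul, htK _ b2, ψw, (hK _).1 b2, toQ_zero, map_zero]
    push_cast; ring
  obtain ⟨c, L, h0, h⟩ := (transfer_main S hS (QuotientGroup.mk' (Subgroup.zpowers (w ^ (D : ℤ))))
    (QuotientGroup.mk'_surjective _) π' a2 (fun x => by
      obtain ⟨g, hg⟩ := hsurj x
      exact ⟨g, by rw [a1, hg]⟩) a3 ht ω ω_self (fun g h => by rw [hφ, hφ, ht_mul])).2 D hD0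
    (fun g g' h => by
      obtain ⟨j, -, hj⟩ := hrel g g' h
      exact ⟨j, hj⟩)
    (fun g g' h h' => by
      obtain ⟨j, b1, b2⟩ := hrel g g' h
      have b3 : (D : ℚ) * j = 0 := by linarith
      have b4 : (D : ℤ) * j = 0 := by exact_mod_cast b3
      rw [b1, b4, zpow_zero, mul_one])
    (fun s hs t ht' h => by
      rw [hφ, hφ] at h ⊢
      have b1 : e s t ≠ 0 := fun h0 => by
        have := heω s t
        rw [h0] at this
        have b2 : (D1 : ℚ) ≠ 0 := by exact_mod_cast hD1.ne'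
        simp [b2, h] at this
      obtain ⟨i, hi⟩ : (e s t).natAbs ∣ D := Finset.dvd_prod_of_mem
        (fun x : G × G => (e x.1 x.2).natAbs)
        (Finset.mem_filter.2 ⟨Finset.mem_product.2 ⟨hs, ht'⟩, b1⟩ : (s, t) ∈ _)
      refine ⟨D1 * i, ?_, ?_⟩
      · rw [← map_pow, ← map_mul, ← map_mul, hepow, mul_assoc, map_mul]
        have : QuotientGroup.mk' (Subgroup.zpowers (w ^ (D : ℤ))) (w ^ (e s t * i)) = 1 := by
          rw [QuotientGroup.mk'_apply, QuotientGroup.eq_one_iff]
          refine ⟨(e s t).sign, ?_⟩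
          simp only [← zpow_mul]
          rw [hi]
          push_cast
          rw [mul_right_comm, mul_comm |e s t|, Int.sign_mul_abs]
        rw [this, one_mul]
      · have : (2 * ((D1 * i : ℕ) * ω (toQ (π s)) (toQ (π t))) : ℚ) = e s t * i := by
          rw [heω]; push_cast; ring
        rw [this, hi, abs_mul]
        push_cast
        rw [Nat.abs_cast, Nat.cast_natAbs, Int.cast_abs])
    (by
      by_contra hc
      push Not at hc
      simp only [hφ] at hc
      have b1 : ∀ g h, ω (toQ (π g)) (toQ (π h)) = 0 := by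
        have c1 : ∀ (f : (ι → ℚ) →ₗ[ℚ] ℚ), (∀ s ∈ S, f (toQ (π s)) = 0) → ∀ g, f (toQ (π g)) = 0 := by
          intro f hf g
          have hg : g ∈ Subgroup.closure (S : Set G) := by rw [hS]; trivial
          induction hg using Subgroup.closure_induction with
          | mem s hs => exact hf s hs
          | one => rw [π1, toQ_zero, map_zero]
          | mul a b _ _ ha hb => rw [π_mul, toQ_add, map_add, ha, hb, add_zero]
          | inv a _ ha => rw [πinv, toQ_neg, map_neg, ha, neg_zero]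
        intro g h
        exact c1 (ω.flip _) (fun s hs => c1 (ω _) (hc s hs) h) g
      have b2 : ∀ a ∈ commutator G, ht a = 0 := by
        simp only [b1, add_zero] at ht_mul
        let F : G →* Multiplicative ℚ := MonoidHom.mk' (fun p => Multiplicative.ofAdd (ht p))
          fun p q => by rw [ht_mul, ofAdd_add]
        exact fun a ha => Abelianization.commutator_subset_ker F ha
      obtain ⟨i, hi, -, hi'⟩ := Subgroup.exists_pow_mem_of_relIndex_ne_zero hrel0 hwK
      have b3 := b2 _ hi'.1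
      rw [htK _ hi'.2, ← zpow_natCast, ψw] at b3
      exact hi.ne' (by exact_mod_cast b3))
  refine ⟨Fintype.card ι + 2, c, L, h0, h.congr fun k => ?_⟩
  rw [← zpow_natCast (k : ℝ) (Fintype.card ι + 1)]
  congr 2
  push_cast; ring

end Pool.Agent.MP_b3b911_al
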