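import Pool.Agent.MP_b3b911_al.Blocks

/-! Second order analysis away from the walls. -/

open MeasureTheory Filter Topology Set

namespace Pool.Agent.MP_b3b911_al

namespace Sys

variable {ι : Type} [Fintype ι] {P : Type*} [Group P] {X : Base ι P} {C : Type*} [Fintype C]
  (Y : Sys X C)

/-- Generic for the quadratic forms. -/
def Gen (θ : Option ι → ℝ) : Prop := ∀ c c', Y.Q c θ = Y.Q c' θ → ∀ w, Y.Q c w = Y.Q c' w

theorem ev_gap (θ : Option ι → ℝ) (c0 : C) (ρ C5 : ℝ) : ∀ᶠ t : ℝ in atTop, ∀ c,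
    Y.Q c θ < Y.Q c0 θ → ∀ w, ‖w - t • θ‖ ≤ ρ → Y.Q c w + C5 * t ≤ Y.Q c0 w := by
  obtain ⟨C2, h0, h⟩ := Y.exists_expand θ ρ
  rw [eventually_all]
  intro c
  by_cases hc : Y.Q c θ < Y.Q c0 θ
  swap
  · exact Eventually.of_forall fun _ h => absurd h hc
  filter_upwards [eventually_ge_atTop 1,
    eventually_ge_atTop ((4 * C2 + C5) / (Y.Q c0 θ - Y.Q c θ))] with t ht1 ht _ w hw
  rw [div_le_iff₀ (sub_pos.2 hc)] at ht
  obtain ⟨a1, a2, -⟩ := h c _ hw
  obtain ⟨b1, b2, -⟩ := h c0 _ hw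
  have e1 : w = t • θ + (w - t • θ) := by abel
  rw [e1, Q_expand, Q_expand]
  rw [abs_le] at a1 a2 b1 b2
  have : (4 * C2 + C5) * t ≤ t * (Y.Q c0 θ - Y.Q c θ) * t := by gcongr
  nlinarith [a1.1, a1.2, a2.1, a2.2, b1.1, b1.2, b2.1, b2.2]

/-- Second order coefficient. -/
noncomputable def bb (θ : Option ι → ℝ) (c0 : C) (p : P) : ℝ := by
  classical
  exact val ((Y.V θ p).filter fun c => Y.Q c θ = Y.Q c0 θ) fun c => Y.l c θ

theorem bb_τ {θ : Option ι → ℝ} (h : Y.Off θ) (c0 : C) (z : Option ι → ℤ) (p : P) :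
    Y.bb θ c0 (X.τ z * p) = Y.bb θ c0 p := by
  unfold bb
  rw [Y.V_τ fun a ha h0 => by rw [h a ha h0, zero_dotProduct]]

theorem ev_SO {θ : Option ι → ℝ} (h : Y.Off θ) (hg : Y.Gen θ) {c0 : C} (hc0 : c0 ∈ Y.V θ 1)
    (hmax : Y.Av θ 1 = Y.Q c0 θ) (ρ : ℝ) : ∃ C4 : ℝ, ∀ᶠ t : ℝ in atTop, ∀ p,
    ‖toR (X.u p) - t • θ‖ ≤ ρ →
      X.R p ∧ |Y.F p - Y.Q c0 (toR (X.u p)) - t * Y.bb θ c0 p| ≤ C4 := by
  classical
  obtain ⟨C2, h0, h2⟩ := Y.exists_expand θ ρ
  refine ⟨Y.K + C2, ?_⟩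
  filter_upwards [Y.ev_valid θ ρ, Y.ev_gap θ c0 ρ (2 * C2), eventually_ge_atTop 0]
    with t ht hgap ht0 p hp
  obtain ⟨a1, a2⟩ := Y.F_val (ht p hp)
  obtain ⟨a3, a4⟩ := Y.Av_eq_of_A (Y.A_off h p)
  have hne := a4.2 ⟨c0, hc0⟩
  refine ⟨a1.2 hne, ?_⟩
  have e1 : toR (X.u p) = t • θ + (toR (X.u p) - t • θ) := by abel
  have el : ∀ c, Y.l c (toR (X.u p)) = t * Y.l c θ + Y.l c (toR (X.u p) - t • θ) := fun c => by
    conv_lhs => rw [e1]
    rw [map_add, map_smul, smul_eq_mul]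
  obtain ⟨c1, hc1, -, b1, -⟩ := exists_wsup hne fun c => Y.Q c θ
  have hc1' : c1 ∈ (Y.V θ p).filter fun c => Y.Q c θ = Y.Q c0 θ :=
    Finset.mem_filter.2 ⟨hc1, by rw [← hmax, ← a3, Av, b1]⟩
  obtain ⟨c2, hc2, -, b2, b3⟩ := exists_wsup ⟨c1, hc1'⟩ fun c => Y.l c θ
  have hb : Y.bb θ c0 p = Y.l c2 θ := b2
  rw [Finset.mem_filter] at hc2
  have d1 := le_val (fun c => Y.Q c (toR (X.u p)) + Y.l c (toR (X.u p))) hc2.1
  obtain ⟨c3, hc3, -, d2, -⟩ := exists_wsup hne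
    fun c => Y.Q c (toR (X.u p)) + Y.l c (toR (X.u p))
  obtain ⟨-, -, f1, f2, -⟩ := h2 c2 _ hp
  obtain ⟨-, -, f3, f4, -⟩ := h2 c3 _ hp
  simp only [hg _ _ hc2.2, el c2] at d1
  have d3 : Y.Q c3 (toR (X.u p)) + Y.l c3 (toR (X.u p)) ≤
      Y.Q c0 (toR (X.u p)) + t * Y.l c2 θ + C2 := by
    have g1 : Y.Q c3 θ ≤ Y.Q c0 θ := by
      rw [← hmax, ← a3]; exact le_val (fun c => Y.Q c θ) hc3
    rw [abs_le] at f1 f2 f3 f4
    rcases g1.lt_or_eq with g1 | g1
    · have := hgap c3 g1 _ hp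
      rw [el c3]
      nlinarith [f1.1, f1.2, f2.1, f2.2, f3.1, f3.2, f4.1, f4.2]
    · have := b3 c3 (Finset.mem_filter.2 ⟨hc3, g1⟩)
      rw [el c3, hg _ _ g1]
      nlinarith [f3.1, f3.2]
  rw [hb]
  rw [abs_le] at a2 f1 ⊢
  constructor <;> linarith [a2.1, a2.2, f1.1, f1.2]

theorem ev_lead_off {θ : Option ι → ℝ} (h : Y.Off θ) (hg : Y.Gen θ) {c0 : C}
    (hc0 : c0 ∈ Y.V θ 1) (hmax : Y.Av θ 1 = Y.Q c0 θ) (ρ : ℝ) : ∀ᶠ t : ℝ in atTop, ∀ w,
    ‖w - t • θ‖ ≤ ρ → Y.lead w = Y.Q c0 w := by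
  filter_upwards [Y.ev_W θ ρ, Y.ev_gap θ c0 ρ 0] with t ht hgap w hw
  rw [lead, Av, ht w hw, Y.W_off h]
  refine val_eq_of (fun c => Y.Q c w) hc0 fun c hc => ?_
  have g1 : Y.Q c θ ≤ Y.Q c0 θ := by
    rw [← hmax]; exact le_val (fun c => Y.Q c θ) hc
  rcases g1.lt_or_eq with g1 | g1
  · simpa using hgap c g1 w hw
  · exact (hg _ _ g1 w).le

omit [Fintype C] in
theorem Q_shift (c : C) (θ w v : Option ι → ℝ) (t : ℝ) :
    Y.Q c (w + v) - Y.Q c w =
      t * Y.D c θ v + (Y.Q c (w + v - t • θ) - Y.Q c (w - t • θ)) := by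
  have e1 : w = t • θ + (w - t • θ) := by abel
  have e2 : w + v = t • θ + (w + v - t • θ) := by abel
  have e3 : w + v - t • θ = (w - t • θ) + v := by abel
  conv_lhs => rw [e2, Q_expand]; arg 2; rw [e1, Q_expand]
  rw [e3, map_add]; ring

theorem exists_bb_inv {θ : Option ι → ℝ} (hθ : 0 < θ none) (h : Y.Off θ) (hg : Y.Gen θ) {c0 : C}
    (hc0 : c0 ∈ Y.V θ 1) (hmax : Y.Av θ 1 = Y.Q c0 θ) :
    ∃ s ∈ X.L, ∀ p, Y.bb θ c0 (p * s) = Y.bb θ c0 p := by
  obtain ⟨ρ, hρ⟩ := X.exists_seq θ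
  have h1 : ∀ s ∈ X.L, ∀ p, Y.bb θ c0 p + (Y.lam s θ - Y.D c0 θ (toR (X.u s))) ≤
      Y.bb θ c0 (p * s) := by
    intro s hs p
    set ρ' := ρ + ‖toR (X.u p)‖ + ‖toR (X.u (p * s))‖
    obtain ⟨C4, h4⟩ := Y.ev_SO h hg hc0 hmax ρ'
    obtain ⟨C2, hC2, h2⟩ := Y.exists_expand θ ρ'
    refine le_of_lin (C := 2 * C4 + 3 * C2 + Y.K) ?_
    filter_upwards [h4] with t ht
    obtain ⟨z, -, hz'⟩ := hρ t
    have n1 : ‖toR (X.u (X.τ z * p)) - t • θ‖ ≤ ρ' := (hz' p).trans (by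
      have := norm_nonneg (toR (X.u (p * s))); simp only [ρ']; linarith)
    have n2 : ‖toR (X.u (X.τ z * (p * s))) - t • θ‖ ≤ ρ' := (hz' _).trans (by
      have := norm_nonneg (toR (X.u p)); simp only [ρ']; linarith)
    obtain ⟨hR, a2⟩ := ht _ n1
    obtain ⟨-, a4⟩ := ht _ n2
    rw [Y.bb_τ h] at a2 a4
    have a5 := Y.mono s hs _ hR
    rw [mul_assoc] at a5
    have e0 : toR (X.u (X.τ z * (p * s))) = toR (X.u (X.τ z * p)) + toR (X.u s) := by
      rw [← mul_assoc, X.u_mul, toR_add]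
    obtain ⟨-, b3, -, -, b⟩ := h2 c0 _ n1
    obtain ⟨-, b4, -⟩ := h2 c0 _ n2
    obtain ⟨b1, -⟩ := b s hs
    rw [e0] at a4 b4
    have a6 := Y.Q_shift c0 θ (toR (X.u (X.τ z * p))) (toR (X.u s)) t
    have e1 : Y.lam s (toR (X.u (X.τ z * p))) =
        t * Y.lam s θ + Y.lam s (toR (X.u (X.τ z * p)) - t • θ) := by
      rw [map_sub, map_smul, smul_eq_mul]; ring
    rw [abs_le] at a2 a4 b1 b3 b4
    nlinarith [a2.1, a2.2, a4.1, a4.2, b1.1, b1.2, b3.1, b3.2, b4.1, b4.2]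
  have h2 : ∃ s ∈ X.L, 0 ≤ Y.lam s θ - Y.D c0 θ (toR (X.u s)) := by
    by_contra hc
    push Not at hc
    obtain ⟨r, hr0, hr⟩ := exists_fin_bound X.L (fun s r => ‖toR (X.u (s ^ X.N))‖ ≤ r)
      (fun _ _ _ h1 _ h2 => h2.trans h1) fun s _ => ⟨_, norm_nonneg _, le_rfl⟩
    set ρ' := ρ + ‖toR (X.u 1)‖ + r
    obtain ⟨C4, h4⟩ := Y.ev_SO h hg hc0 hmax ρ'
    obtain ⟨C2, hC2, h2⟩ := Y.exists_expand θ ρ'
    have hN : (0 : ℝ) < X.N := by exact_mod_cast X.N_pos
    have h5 : ∀ᶠ t : ℝ in atTop, ∀ s ∈ X.L, 2 * C4 + 2 * C2 + X.N * C2 + Y.K <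
        t * (X.N * -(Y.lam s θ - Y.D c0 θ (toR (X.u s)))) := by
      rw [Finset.eventually_all]
      intro s hs
      have := hc s hs
      exact (tendsto_id.atTop_mul_const (mul_pos hN (neg_pos.2 this))).eventually_gt_atTop _
    have h6 : ∀ᶠ t : ℝ in atTop, ρ' + Y.k0 ≤ t * θ none :=
      (tendsto_id.atTop_mul_const hθ).eventually_ge_atTop _
    obtain ⟨t, ht, ht5, ht6⟩ := (h4.and (h5.and h6)).exists
    obtain ⟨z, -, hz'⟩ := hρ t
    have n1 : ‖toR (X.u (X.τ z * 1)) - t • θ‖ ≤ ρ' := (hz' 1).trans (by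
      simp only [ρ']; linarith)
    obtain ⟨hR, a2⟩ := ht _ n1
    have a0 : |(toR (X.u (X.τ z * 1)) - t • θ) none| ≤ ρ' := (norm_le_pi_norm _ none).trans n1
    simp only [Pi.sub_apply, toR, Pi.smul_apply, smul_eq_mul] at a0
    have a1 : Y.k0 ≤ X.u (X.τ z * 1) none := by
      have : (Y.k0 : ℝ) ≤ X.u (X.τ z * 1) none := by linarith [(abs_le.1 a0).1]
      exact_mod_cast this
    obtain ⟨s, hs, p', -, e, a3⟩ := Y.opt _ hR a1
    have e0 : toR (X.u (X.τ z * 1)) = toR (X.u p') + (X.N : ℝ) • toR (X.u s) := by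
      rw [e, X.u_mul, toR_add, X.u_pow, toR_nsmul]
    have n2 : ‖toR (X.u p') - t • θ‖ ≤ ρ' := by
      have b1 := hr s hs
      rw [X.u_pow, toR_nsmul] at b1
      calc _ = ‖(toR (X.u (X.τ z * 1)) - t • θ) - (X.N : ℝ) • toR (X.u s)‖ := by
            rw [e0]; congr 1; abel
        _ ≤ _ := norm_sub_le _ _
        _ ≤ _ := add_le_add (hz' 1) b1
    obtain ⟨-, a4⟩ := ht _ n2
    have e2 : Y.bb θ c0 (X.τ z * 1) = Y.bb θ c0 p' := by
      rw [e, X.pow_eq, ← X.τ_comm, Y.bb_τ h]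
    obtain ⟨-, b3, -⟩ := h2 c0 _ n1
    obtain ⟨-, b4, -, -, b⟩ := h2 c0 _ n2
    obtain ⟨b1, -⟩ := b s hs
    rw [e0] at a2 b3
    rw [e2] at a2
    have a6 := Y.Q_shift c0 θ (toR (X.u p')) ((X.N : ℝ) • toR (X.u s)) t
    rw [map_smul, smul_eq_mul] at a6
    have e1 : Y.lam s (toR (X.u p')) = t * Y.lam s θ + Y.lam s (toR (X.u p') - t • θ) := by
      rw [map_sub, map_smul, smul_eq_mul]; ring
    have a7 := ht5 s hs
    rw [abs_le] at a2 a4 b1 b3 b4
    rw [e1] at a3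
    nlinarith [a2.1, a2.2, a4.1, a4.2, b1.1, b1.2, b3.1, b3.2, b4.1, b4.2]
  obtain ⟨s, hs, h2⟩ := h2
  refine ⟨s, hs, fun p => le_antisymm ?_ (by linarith [h1 s hs p])⟩
  have h3 : ∀ n p, Y.bb θ c0 p ≤ Y.bb θ c0 (p * s ^ n) := by
    intro n
    induction n with
    | zero => simp
    | succ n ih =>
      intro p
      rw [pow_succ, ← mul_assoc]
      linarith [ih p, h1 s hs (p * s ^ n)]
  obtain ⟨n, hn⟩ : ∃ n, X.N = n + 1 := ⟨X.N - 1, by have := X.N_pos; omega⟩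
  have := h3 n (p * s)
  rwa [mul_assoc, ← pow_succ', ← hn, X.pow_eq, ← X.τ_comm, Y.bb_τ h] at this

theorem term_interior {θ : Option ι → ℝ} (hθ : 0 < θ none) (h : Y.Off θ) (hg : Y.Gen θ) :
    ∃ (φ : P → ℝ) (s : P), s ∈ X.L ∧ (∀ p, φ (p * s) = φ p) ∧ (∀ z p, φ (X.τ z * p) = φ p) ∧
      ∀ ρ, ∃ C6 : ℝ, ∀ᶠ t : ℝ in atTop, ∀ p, ‖toR (X.u p) - t • θ‖ ≤ ρ →
        |Y.term p - t * φ p| ≤ C6 := by
  rcases (Y.V θ 1).eq_empty_or_nonempty with h0 | h0
  · obtain ⟨s, hs⟩ : X.L.Nonempty := by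
      by_contra hc
      rw [Finset.not_nonempty_iff_eq_empty] at hc
      have h1 := X.L_gen
      rw [hc, Finset.coe_empty, Subgroup.closure_empty] at h1
      obtain ⟨g, hg⟩ := X.u_surj fun _ => 1
      have : g ∈ (⊥ : Subgroup P) := by rw [h1]; trivial
      rw [Subgroup.mem_bot] at this
      rw [this, X.u_one] at hg
      simpa using congrFun hg none
    refine ⟨fun _ => 0, s, hs, fun _ => rfl, fun _ _ => rfl, fun ρ => ⟨0, ?_⟩⟩
    obtain ⟨C3, h3⟩ := Y.ev_LO θ ρ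
    filter_upwards [h3, Y.ev_W θ (ρ + 1)] with t ht hW p hp
    have a1 : Y.F p = 0 := Y.zero p fun hR => by
      have := (Y.Av_eq_of_A (Y.A_off h p)).2.1 ((ht p hp).1.1 hR)
      rw [h0] at this
      exact absurd this Finset.not_nonempty_empty
    have a2 : ∫ η in cube ι, Y.lead (toR (X.u p) + emb ι η) = 0 := by
      refine setIntegral_eq_zero_of_forall_eq_zero fun η hη => ?_
      rw [lead, Av, hW _ (near_emb hη hp), Y.W_off h, h0, val_empty]
    simp [term, a1, a2]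
  obtain ⟨c0, hc0, -, hmax, -⟩ := exists_wsup h0 fun c => Y.Q c θ
  obtain ⟨s, hs, hinv⟩ := Y.exists_bb_inv hθ h hg hc0 hmax
  refine ⟨fun p => Y.bb θ c0 p - ∫ η in cube ι, Y.D c0 θ (emb ι η), s, hs,
    fun p => by simp only [hinv], fun z p => by simp only [Y.bb_τ h], fun ρ => ?_⟩
  obtain ⟨C4, h4⟩ := Y.ev_SO h hg hc0 hmax ρ
  obtain ⟨C2, hC2, h2⟩ := Y.exists_expand θ (ρ + 1)
  obtain ⟨C1, hC1, h1⟩ := exists_lin_bound (Y.D c0 θ)
  refine ⟨C4 + 2 * C2, ?_⟩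
  filter_upwards [h4, Y.ev_lead_off h hg hc0 hmax (ρ + 1)] with t ht hl p hp
  obtain ⟨-, a1⟩ := ht p hp
  have hi : IntegrableOn (fun η => Y.D c0 θ (emb ι η)) (cube ι) :=
    integrableOn_cube ((Y.D c0 θ).continuous_of_finiteDimensional.comp
      (emb ι).continuous_of_finiteDimensional).measurable (K := C1) fun η hη =>
        (h1 _).trans (by nlinarith [norm_emb_le hη])
  have hi0 : IntegrableOn (fun _ : ι → ℝ => Y.Q c0 (toR (X.u p))) (cube ι) :=
    integrableOn_cube measurable_const fun _ _ => le_rfl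
  have a2 := abs_cube_integral_sub_le (Y.integrableOn_lead (toR (X.u p)))
    (hi0.add (hi.const_mul t)) (K := 2 * C2) (fun η hη => by
      have n1 := near_emb hη hp
      obtain ⟨-, b3, -⟩ := h2 c0 _ n1
      obtain ⟨-, b4, -⟩ := h2 c0 _ (hp.trans (by linarith : ρ ≤ ρ + 1))
      have a6 := Y.Q_shift c0 θ (toR (X.u p)) (emb ι η) t
      rw [hl _ n1]
      simp only [Pi.add_apply]
      rw [abs_le] at b3 b4 ⊢
      constructor <;> linarith [b3.1, b3.2, b4.1, b4.2])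
  simp only [Pi.add_apply] at a2
  rw [integral_add hi0 (hi.const_mul t), cube_integral_const, integral_const_mul] at a2
  rw [term]
  rw [abs_le] at a1 a2 ⊢
  constructor <;> linarith [a1.1, a1.2, a2.1, a2.2]

theorem ae_interior : ∀ᵐ y : ι → ℝ,
    Y.Off (e0 ι + ((X.N : ℝ) • emb ι) y) ∧
      Y.Gen (e0 ι + ((X.N : ℝ) • emb ι) y) := by
  classical
  have hN : (X.N : ℝ) ≠ 0 := by exact_mod_cast X.N_pos.ne'
  set T : (ι → ℝ) →ₗ[ℝ] (Option ι → ℝ) := (X.N : ℝ) • emb ι with hT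
  set θ0 : Option ι → ℝ := e0 ι with hθ0
  have hw : ∀ w : Option ι → ℝ, w = w none • θ0 + T fun i => w (some i) / X.N := by
    intro w; funext o
    cases o with
    | none => simp [hT, hθ0]
    | some i => simp [hT, hθ0]; field_simp
  refine Eventually.and ?_ ?_
  · filter_upwards [(Finset.eventually_all Y.forms).2 fun a _ => ae_gen_lin T θ0 a]
      with y hy a ha h0
    have h1 := hy a ha h0
    have h2 : ∀ w, rd a w = 0 := by
      intro w
      have b1 := h1 0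
      have b2 := h1 fun i => w (some i) / X.N
      rw [map_zero, add_zero] at b1
      rw [map_add, b1, zero_add] at b2
      rw [hw w, map_add, map_smul, b1, b2]; simp
    funext o
    have := h2 (Pi.single o 1)
    simpa [rd_apply, Pi.single_apply] using this
  · have : ∀ cc : C × C, ∀ᵐ y : ι → ℝ, Y.Q cc.1 (θ0 + T y) - Y.Q cc.2 (θ0 + T y) = 0 →
        ∀ y', Y.Q cc.1 (θ0 + T y') - Y.Q cc.2 (θ0 + T y') = 0 := by
      intro cc
      have hc : Continuous fun y => θ0 + T y :=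
        continuous_const.add T.continuous_of_finiteDimensional
      refine ae_gen _ (((continuous_bilin (Y.q cc.1)).comp hc).sub
        ((continuous_bilin (Y.q cc.2)).comp hc)).measurable fun x0 v =>
        ⟨Y.Q cc.1 (T v) - Y.Q cc.2 (T v),
          Y.D cc.1 (T v) (θ0 + T x0) - Y.D cc.2 (T v) (θ0 + T x0), fun r => ?_⟩
      have e : θ0 + T (x0 + r • v) = r • T v + (θ0 + T x0) := by
        rw [map_add, map_smul]; abel
      rw [e, Q_expand, Q_expand]; ring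
    filter_upwards [eventually_all.2 this] with y hy c c' h0
    have h1 := hy (c, c') (sub_eq_zero.2 h0)
    have h2 : ∀ w : Option ι → ℝ, w none ≠ 0 → Y.Q c w = Y.Q c' w := by
      intro w hw0
      have e : w = w none • (θ0 + T fun i => w (some i) / X.N / w none) := by
        funext o
        cases o with
        | none => simp [hT, hθ0]
        | some i => simp [hT, hθ0]; field_simp
      rw [e, Q_smul, Q_smul, sub_eq_zero.1 (h1 _)]
    intro w
    by_cases hw0 : w none = 0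
    swap
    · exact h2 w hw0
    have b1 := h2 ((1 : ℝ) • θ0 + w) (by simp [hθ0, hw0])
    have b2 := h2 ((-1 : ℝ) • θ0 + w) (by simp [hθ0, hw0])
    have b3 := h2 θ0 (by simp [hθ0])
    rw [Q_expand, Q_expand] at b1 b2
    linarith

theorem interior_bound : ∃ K : ℝ, 0 ≤ K ∧ ∀ᶠ k : ℕ in atTop, ∀ p ∈ Y.Lk k, Y.slabs p = ∅ →
    |Y.term p| ≤ K * k := by
  obtain ⟨C1, h0, h1, h2, -⟩ := Y.exists_C
  have hC0 := Y.one_le_C0
  have hK := Y.K_nonneg
  refine ⟨Y.K + C1 * (Y.C0 + 1) + C1 * (2 * (Y.C0 + 1) + 1), by positivity, ?_⟩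
  filter_upwards [eventually_ge_atTop 1, tendsto_natCast_atTop_atTop.eventually_gt_atTop Y.B0]
    with k hk1 hkB p hp hs
  have hk1' : (1 : ℝ) ≤ k := by exact_mod_cast hk1
  have hn := Y.norm_Lk hk1 hp
  have hk := (Y.mem_Lk.1 hp).1
  have hbig : ∀ a ∈ Y.forms, a ≠ 0 → Y.B0 < |rd a (toR (X.u p))| := by
    intro a ha hne
    by_cases ha' : ∃ i, a (some i) ≠ 0
    · by_contra hc
      have : a ∈ Y.slabs p := Y.mem_slabs.2 ⟨Y.mem_forms'.2 ⟨ha, ha'⟩, not_lt.1 hc⟩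
      rw [hs] at this
      exact absurd this (Finset.notMem_empty _)
    · push Not at ha'
      have e : rd a (toR (X.u p)) = a none * k := by
        rw [rd_apply, Fintype.sum_option]; simp [ha', toR, hk]
      have : a none ≠ 0 := fun h => hne (funext fun o => by cases o <;> simp [h, ha'])
      have : (1 : ℝ) ≤ |(a none : ℝ)| := by exact_mod_cast Int.one_le_abs this
      rw [e, abs_mul, abs_of_nonneg (by linarith : (0 : ℝ) ≤ k)]
      nlinarith
  have hoff : Y.Off (toR (X.u p)) := by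
    intro a ha h0
    by_contra hne
    have := hbig a ha hne
    rw [h0, abs_zero] at this
    linarith [Y.B0_nonneg]
  have hv : ∀ c, Y.valid c p ↔ c ∈ Y.V (toR (X.u p)) p := by
    intro c
    rw [mem_V, valid]
    refine and_congr_right fun _ => forall₂_congr fun ab hab => ?_
    by_cases ha : ab.1 = 0
    · simp [ha, rd_zero]
    have b1 := hbig _ (Y.mem_forms hab) ha
    have b2 := abs_le.1 (Y.B0_const hab)
    rw [rd_toR] at b1 ⊢
    rcases lt_abs.1 b1 with b1 | b1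
    · have : (ab.2 : ℝ) ≤ ((ab.1 ⬝ᵥ X.u p : ℤ) : ℝ) := by linarith [b2.2]
      have b3 : (0 : ℝ) < ((ab.1 ⬝ᵥ X.u p : ℤ) : ℝ) := by linarith [Y.B0_nonneg]
      simp only [Int.cast_le.1 this, b3, true_or]
    · have : ((ab.1 ⬝ᵥ X.u p : ℤ) : ℝ) < (ab.2 : ℝ) := by linarith [b2.1]
      have b3 : ((ab.1 ⬝ᵥ X.u p : ℤ) : ℝ) < 0 := by linarith [Y.B0_nonneg]
      simp only [not_le.2 (Int.cast_lt.1 this), b3.not_gt, and_false, or_false]
  obtain ⟨-, a1⟩ := Y.F_val hv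
  have a2 : |val (Y.V (toR (X.u p)) p) (fun c => Y.Q c (toR (X.u p)) + Y.l c (toR (X.u p))) -
      Y.lead (toR (X.u p))| ≤ C1 * ((Y.C0 + 1) * k) := by
    rw [lead, ← (Y.Av_eq_of_A (Y.A_off hoff p)).1, Av]
    refine abs_val_sub_le (by positivity) fun c _ => ?_
    rw [add_sub_cancel_left]
    exact (h2 c _).trans (by gcongr)
  have a3 := abs_cube_integral_sub_le (Y.integrableOn_lead (toR (X.u p)))
    (g := fun _ => Y.lead (toR (X.u p))) (integrableOn_cube measurable_const fun _ _ => le_rfl)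
    (K := C1 * (2 * ((Y.C0 + 1) * k) + 1)) (fun η hη => by
      have hη' := norm_emb_le hη
      have e : Y.V (toR (X.u p) + emb ι η) 1 = Y.V (toR (X.u p)) 1 := by
        ext c
        rw [mem_V, mem_V]
        refine and_congr_right fun _ => forall₂_congr fun ab hab => ?_
        by_cases ha : ab.1 = 0
        · simp [ha, rd_zero]
        have b1 := hbig _ (Y.mem_forms hab) ha
        have b2 : |rd ab.1 (emb ι η)| ≤ Y.B0 := (Y.B0_form (Y.mem_forms hab) _).trans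
          (by nlinarith [Y.B0_nonneg])
        rw [map_add]
        rw [abs_le] at b2
        rcases lt_abs.1 b1 with b1 | b1
        · have b3 : 0 < rd ab.1 (toR (X.u p)) := by linarith [Y.B0_nonneg]
          have b4 : 0 < rd ab.1 (toR (X.u p)) + rd ab.1 (emb ι η) := by linarith [b2.1]
          simp only [b3, b4, true_or]
        · have b3 : rd ab.1 (toR (X.u p)) < 0 := by linarith [Y.B0_nonneg]
          have b4 : rd ab.1 (toR (X.u p)) + rd ab.1 (emb ι η) < 0 := by linarith [b2.2]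
          simp only [b3.not_gt, b4.not_gt, b3.ne, b4.ne, false_and]
      rw [lead, lead, Av, Av, e]
      refine abs_val_sub_le (by positivity) fun c _ => ?_
      have e2 := Y.Q_expand c (toR (X.u p)) (emb ι η) 1
      rw [one_smul, D_apply] at e2
      have b1 := (h1 c (toR (X.u p)) (emb ι η)).trans
        (show _ ≤ C1 * ((Y.C0 + 1) * k) * 1 by gcongr)
      have b2 := (h1 c (emb ι η) (toR (X.u p))).trans
        (show _ ≤ C1 * 1 * ((Y.C0 + 1) * k) by gcongr)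
      have b3 := (h1 c (emb ι η) (emb ι η)).trans (show _ ≤ C1 * 1 * 1 by gcongr)
      rw [e2]
      simp only [Q] at *
      rw [abs_le] at b1 b2 b3 ⊢
      constructor <;> linarith [b1.1, b1.2, b2.1, b2.2, b3.1, b3.2])
  rw [cube_integral_const] at a3
  rw [term]
  rw [abs_le] at a1 a2 a3 ⊢
  have : Y.K ≤ Y.K * k := by nlinarith
  have : C1 ≤ C1 * k := by nlinarith
  constructor <;> nlinarith [a1.1, a1.2, a2.1, a2.2, a3.1, a3.2]

theorem near_blockI {p : P} {t : ℝ} (hk : (X.u p none : ℝ) = t) {y : ι → ℝ}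
    (h : (fun i => X.u p (some i) / X.N) = fun i => ⌊y i⌋) :
    ‖toR (X.u p) - (t • e0 ι + ((X.N : ℝ) • emb ι) y)‖ ≤ X.N := by
  classical
  rw [pi_norm_le_iff_of_nonneg (Nat.cast_nonneg _)]
  rintro (_ | i)
  · simp [toR, hk]
  · have := abs_ediv_sub_le X.N_pos (congrFun h i)
    simpa [toR] using this

theorem interior_limit : ∃ L, Tendsto (fun k : ℕ =>
    (∑ p ∈ Y.Lk k, if Y.slabs p = ∅ then Y.term p / k else 0) / (k : ℝ) ^ Fintype.card ι)
    atTop (𝓝 L) := by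
  classical
  have hfin : ∀ (k : ℕ) (ξ : ι → ℤ),
      {p | X.u p none = k ∧ (fun i => X.u p (some i) / X.N) = ξ}.Finite := fun k ξ =>
    (X.finite_ball _ X.N).subset fun p hp =>
      near_blockI (t := k) (y := toR ξ) (by rw [hp.1]; simp) (by rw [hp.2]; funext i; simp [toR])
  obtain ⟨M, hM⟩ := X.card_le_of_ball X.N
  obtain ⟨K, hK0, hK⟩ := Y.interior_bound
  have hC0 := Y.one_le_C0
  have hmem : ∀ k ξ p, p ∈ (hfin k ξ).toFinset ↔
      X.u p none = k ∧ (fun i => X.u p (some i) / X.N) = ξ := fun k ξ p => by simp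
  refine block_riemann (fun p i => X.u p (some i) / X.N) (fun k ξ => (hfin k ξ).toFinset)
    (fun k p => X.u p none = k) hmem _ Y.Lk (fun k p hp => (Y.mem_Lk.1 hp).1) ?_ M ?_
    (K + (Y.C0 + 1)) (by positivity) ?_ ?_ ?_
  · intro k p hk h
    refine Y.mem_Lk_of_term hk fun h0 => h ?_
    simp [h0]
  · intro k ξ
    exact hM _ _ fun p hp => near_blockI (t := k) (y := toR ξ) (by rw [((hmem _ _ _).1 hp).1]; simp)
      (by rw [((hmem _ _ _).1 hp).2]; funext i; simp [toR])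
  · filter_upwards [hK, eventually_ge_atTop 1] with k hk hk1 p hp
    have hk1' : (0 : ℝ) < k := by exact_mod_cast hk1
    split_ifs with hs
    · rw [abs_div, abs_of_pos hk1', div_le_iff₀ hk1']
      refine (hk p hp hs).trans ?_
      gcongr; linarith
    · rw [abs_zero]; positivity
  · filter_upwards [eventually_ge_atTop 1] with k hk1 p hp
    refine (norm_ediv_le (X.u p) some _).trans ((Y.norm_Lk hk1 hp).trans ?_)
    exact mul_le_mul_of_nonneg_right (by linarith) (Nat.cast_nonneg _)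
  · filter_upwards [Y.ae_interior] with y ⟨hoff, hgen⟩
    obtain ⟨φ, s, hs, h1, h2, h3⟩ := Y.term_interior (by simp) hoff hgen
    refine ⟨φ, _, fund_const (fun ζ p => X.τ (fun o => o.elim 0 ζ) * p) ?_ ?_
      (fun p i => X.u p (some i) / X.N) ?_ (Equiv.mulRight s) (fun _ _ => mul_assoc _ _ _)
      (fun k p => X.u p none = k) ?_ ?_ φ (fun _ _ => h2 _ _) h1 _ hmem, fun ε hε => ?_⟩
    · intro p
      have : (fun o : Option ι => o.elim (0 : ℤ) (0 : ι → ℤ)) = 0 := by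
        funext o; cases o <;> rfl
      rw [this, X.τ_zero, one_mul]
    · intro a b p
      have : (fun o : Option ι => o.elim (0 : ℤ) (a + b)) =
          (fun o : Option ι => o.elim (0 : ℤ) a) + fun o : Option ι => o.elim (0 : ℤ) b := by
        funext o; cases o <;> simp
      rw [this, X.τ_add, mul_assoc]
    · intro a p
      funext i
      have : (X.N : ℤ) ≠ 0 := by exact_mod_cast X.N_pos.ne'
      simp only [X.u_mul, X.u_τ, Pi.add_apply, Pi.smul_apply, Option.elim_some]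
      rw [nsmul_eq_mul, add_comm, Int.add_mul_ediv_left _ _ this]
    · intro k a p hp
      simp [X.u_mul, X.u_τ, hp]
    · intro k p
      simp [X.u_mul, X.L_one s hs]
    obtain ⟨C6, h6⟩ := h3 X.N
    filter_upwards [tendsto_natCast_atTop_atTop.eventually h6,
      tendsto_natCast_atTop_atTop.eventually (ev_sign Y.forms _ X.N Y.B0),
      eventually_ge_atTop 1, tendsto_natCast_atTop_atTop.eventually_ge_atTop (C6 / ε)]
      with k hk hsg hk1 hkε p hp
    have hk1' : (0 : ℝ) < k := by exact_mod_cast hk1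
    rw [hmem] at hp
    have n1 := near_blockI (t := k) (y := (k : ℝ) • y) (by rw [hp.1]; simp) hp.2
    rw [map_smul, ← smul_add] at n1
    have hs : Y.slabs p = ∅ := by
      rw [Finset.eq_empty_iff_forall_notMem]
      intro a ha
      rw [mem_slabs, mem_forms'] at ha
      obtain ⟨⟨ha1, i, hi⟩, ha2⟩ := ha
      obtain ⟨b1, b2⟩ := hsg _ n1 a ha1
      rw [abs_le] at ha2
      rcases lt_trichotomy 0 (rd a (e0 ι + ((X.N : ℝ) • emb ι) y)) with h | h | h
      · linarith [b1 h, ha2.2]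
      · exact hi (by rw [hoff a ha1 h.symm]; rfl)
      · linarith [b2 h, ha2.1]
    rw [if_pos hs]
    have b1 := hk p n1
    rw [div_le_iff₀ hε] at hkε
    have e : Y.term p / k - φ p = (Y.term p - k * φ p) / k := by field_simp
    rw [e, abs_div, abs_of_pos hk1', div_le_iff₀ hk1']
    linarith

end Sys

end Pool.Agent.MP_b3b911_al
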