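import Pool.Agent.MP_b3b911_al.Basic

/-! Parametric integer quadratic programs with a definite form. -/

namespace Pool.Agent.MP_b3b911_al

/-- Integer vectors as rational vectors. -/
def toQ {α : Type*} (x : α → ℤ) : α → ℚ := fun i => (x i : ℚ)

theorem toQ_add {α : Type*} (x y : α → ℤ) : toQ (x + y) = toQ x + toQ y := by
  funext i; simp [toQ]

theorem toQ_neg {α : Type*} (x : α → ℤ) : toQ (-x) = - toQ x := by
  funext i; simp [toQ]

theorem toQ_zero {α : Type*} : toQ (0 : α → ℤ) = 0 := by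
  funext i; simp [toQ]

theorem toQ_nsmul {α : Type*} (n : ℕ) (x : α → ℤ) : toQ (n • x) = (n : ℚ) • toQ x := by
  funext i; simp [toQ]

theorem toQ_injective {α : Type*} {x y : α → ℤ} (h : toQ x = toQ y) : x = y := by
  funext i
  have := congrFun h i
  simpa [toQ] using this

section QP

variable {I U : Type*} [Fintype I] [Fintype U]

theorem exists_den (μ : (U → ℚ) →ₗ[ℚ] (I → ℚ)) :
    ∃ den : ℕ, 0 < den ∧ ∀ z : U → ℤ, ∃ t : I → ℤ, toQ t = (den : ℚ) • μ (toQ z) := by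
  classical
  obtain ⟨m, hm, κ, hκ⟩ := exists_int_mul fun x : U × I => μ (Pi.single x.1 1) x.2
  refine ⟨m, hm, fun z => ⟨fun i => ∑ o, z o * κ (o, i), ?_⟩⟩
  funext i
  have : toQ z = ∑ o, (z o : ℚ) • Pi.single o (1 : ℚ) := by
    funext o; simp [toQ, Finset.sum_apply, Pi.single_apply]
  rw [this, map_sum]
  simp only [toQ, map_smul, Pi.smul_apply, Finset.sum_apply, smul_eq_mul, Finset.mul_sum]
  push_cast
  exact Finset.sum_congr rfl fun o _ => by rw [hκ]; ring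

/-- The data attached to a parametric quadratic program. -/
structure QPData (Λ : (I → ℚ) →ₗ[ℚ] (U → ℚ)) (B : LinearMap.BilinForm ℚ (I → ℚ)) where
  good : Prop
  C : ℕ
  den : ℕ
  den_pos : 0 < den
  μ : (U → ℚ) →ₗ[ℚ] (I → ℚ)
  wc : ((I → ℚ) →ₗ[ℚ] ℚ) → I → ℚ
  bad : ¬ good → ∃ κ : I → ℤ, κ ≠ 0 ∧ Λ (toQ κ) = 0 ∧ 0 ≤ B (toQ κ) (toQ κ) ∧ ∀ i, |κ i| ≤ C
  range : ∀ t, Λ (μ (Λ t)) = Λ t
  lattice : ∀ z : U → ℤ, Λ (μ (toQ z)) = toQ z → ∃ t : I → ℤ, Λ (toQ t) = (den : ℚ) • toQ z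
  max : good → ∀ ℓ t, B t t + ℓ t ≤
    B (μ (Λ t) + wc ℓ) (μ (Λ t) + wc ℓ) + ℓ (μ (Λ t) + wc ℓ)
  prox : good → ∀ (ℓ : (I → ℚ) →ₗ[ℚ] ℚ) (t : I → ℤ),
    (∀ κ : I → ℤ, Λ (toQ κ) = 0 → (∀ i, |κ i| ≤ C) →
      B (toQ (t + κ)) (toQ (t + κ)) + ℓ (toQ (t + κ)) ≤ B (toQ t) (toQ t) + ℓ (toQ t)) →
    ∀ i, (t i : ℚ) - C ≤ (μ (Λ (toQ t)) + wc ℓ) i
  round : good → ∀ (ℓ : (I → ℚ) →ₗ[ℚ] ℚ) (t0 : I → ℤ), ∃ t : I → ℤ, Λ (toQ t) = Λ (toQ t0) ∧
    (∀ i, (μ (Λ (toQ t0)) + wc ℓ) i - C ≤ t i) ∧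
    B (μ (Λ (toQ t0)) + wc ℓ) (μ (Λ (toQ t0)) + wc ℓ) + ℓ (μ (Λ (toQ t0)) + wc ℓ) - C ≤
      B (toQ t) (toQ t) + ℓ (toQ t)

theorem exists_ginv (Λ : (I → ℚ) →ₗ[ℚ] (U → ℚ)) :
    ∃ g : (U → ℚ) →ₗ[ℚ] (I → ℚ), ∀ t, Λ (g (Λ t)) = Λ t := by
  obtain ⟨h, hh⟩ := Λ.rangeRestrict.exists_rightInverse_of_surjective Λ.range_rangeRestrict
  obtain ⟨g, hg⟩ := h.exists_extend
  refine ⟨g, fun t => ?_⟩
  have a1 := LinearMap.congr_fun hg ⟨Λ t, LinearMap.mem_range_self _ _⟩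
  have a2 := congrArg Subtype.val (LinearMap.congr_fun hh ⟨Λ t, LinearMap.mem_range_self _ _⟩)
  simp only [LinearMap.coe_comp, Submodule.coe_subtype, Function.comp_apply] at a1
  rw [a1]
  simpa using a2

theorem lattice_of (Λ : (I → ℚ) →ₗ[ℚ] (U → ℚ)) (μ : (U → ℚ) →ₗ[ℚ] (I → ℚ)) :
    ∃ den : ℕ, 0 < den ∧ ∀ z : U → ℤ, Λ (μ (toQ z)) = toQ z →
      ∃ t : I → ℤ, Λ (toQ t) = (den : ℚ) • toQ z := by
  obtain ⟨den, h0, h1⟩ := exists_den μ
  refine ⟨den, h0, fun z hz => ?_⟩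
  obtain ⟨t, ht⟩ := h1 z
  exact ⟨t, by rw [ht, map_smul, hz]⟩

theorem nonempty_qp (Λ : (I → ℚ) →ₗ[ℚ] (U → ℚ)) (B0 : LinearMap.BilinForm ℚ (I → ℚ)) :
    Nonempty (QPData Λ B0) := by
  classical
  obtain ⟨g, hg⟩ := exists_ginv Λ
  by_cases hgood : ∀ w, Λ w = 0 → w ≠ 0 → B0 w w < 0
  swap
  · push Not at hgood
    obtain ⟨w, h1, h2, h3⟩ := hgood
    obtain ⟨m, hm, κ, hκ⟩ := exists_int_mul w
    have e : toQ κ = (m : ℚ) • w := funext hκ
    have hm' : (0 : ℚ) < m := by exact_mod_cast hm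
    obtain ⟨den, d1, d2⟩ := lattice_of Λ g
    refine ⟨⟨False, ∑ i, (κ i).natAbs, den, d1, g, fun _ => 0, fun _ => ⟨κ, ?_, ?_, ?_, ?_⟩, hg, d2,
      False.elim, False.elim, False.elim⟩⟩
    · rintro rfl
      rw [toQ_zero, eq_comm, smul_eq_zero] at e
      exact h2 (e.resolve_left hm'.ne')
    · rw [e, map_smul, h1, smul_zero]
    · rw [e]
      simp only [map_smul, LinearMap.smul_apply, smul_eq_mul]
      positivity
    · intro i
      rw [← Int.natCast_natAbs]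
      exact_mod_cast Finset.single_le_sum (f := fun i => (κ i).natAbs) (fun _ _ => Nat.zero_le _)
        (Finset.mem_univ i)
  let B : LinearMap.BilinForm ℚ (I → ℚ) := B0 + B0.flip
  have hB : ∀ x y, B x y = B0 x y + B0 y x := fun _ _ => rfl
  let W := LinearMap.ker Λ
  have hnd0 : ∀ x : W, B x x = 0 → x = 0 := by
    intro x hx
    by_contra hne
    have := hgood x x.2 (fun h => hne (Subtype.ext h))
    rw [hB] at hx
    linarith
  have hnd : (B.restrict W).Nondegenerate :=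
    ⟨fun x hx => hnd0 x (hx x), fun x hx => hnd0 x (hx x)⟩
  let T := ((B.restrict W).toDual hnd).symm
  have hT : ∀ (f : Module.Dual ℚ W) (w : W), B (T f) w = f w := fun f w =>
    LinearMap.BilinForm.apply_toDual_symm_apply (hB := hnd) f w
  let π : (I → ℚ) →ₗ[ℚ] (I → ℚ) := W.subtype ∘ₗ T.toLinearMap ∘ₗ W.subtype.dualMap ∘ₗ B
  have hπ1 : ∀ t, Λ (π t) = 0 := fun t => (T (W.subtype.dualMap (B t))).2
  have hπ2 : ∀ t (w : W), B (π t) w = B t w := fun t w => hT _ w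
  let μ : (U → ℚ) →ₗ[ℚ] (I → ℚ) := g - π ∘ₗ g
  have hμ1 : ∀ t, Λ (μ (Λ t)) = Λ t := fun t => by
    simp only [μ, LinearMap.sub_apply, LinearMap.comp_apply, map_sub, hπ1, hg, sub_zero]
  have hμ2 : ∀ x (w : W), B (μ x) w = 0 := fun x w => by
    simp only [μ, LinearMap.sub_apply, LinearMap.comp_apply, map_sub, hπ2, sub_self]
  let wc : ((I → ℚ) →ₗ[ℚ] ℚ) → I → ℚ := fun ℓ => T (-(ℓ ∘ₗ W.subtype))
  have hw1 : ∀ ℓ, Λ (wc ℓ) = 0 := fun ℓ => (T (-(ℓ ∘ₗ W.subtype))).2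
  have hw2 : ∀ ℓ (w : W), B (wc ℓ) w = -ℓ w := fun ℓ w => hT _ w
  have key : ∀ (ℓ : (I → ℚ) →ₗ[ℚ] ℚ) x d, Λ d = 0 →
      B0 (μ x + wc ℓ + d) (μ x + wc ℓ + d) + ℓ (μ x + wc ℓ + d) =
        B0 (μ x + wc ℓ) (μ x + wc ℓ) + ℓ (μ x + wc ℓ) + B0 d d := by
    intro ℓ x d hd
    have a1 := hμ2 x ⟨d, hd⟩
    have a2 := hw2 ℓ ⟨d, hd⟩
    rw [hB] at a1 a2
    simp only [map_add, LinearMap.add_apply] at a1 a2 ⊢
    linarith
  have hd : ∀ (ℓ : (I → ℚ) →ₗ[ℚ] ℚ) t, Λ (t - (μ (Λ t) + wc ℓ)) = 0 := fun ℓ t => by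
    rw [map_sub, map_add, hμ1, hw1, add_zero, sub_self]
  obtain ⟨den, d1, d2⟩ := lattice_of Λ μ
  let b := Module.finBasis ℚ W
  choose m hm κ hκ using fun j => exists_int_mul (b j : I → ℚ)
  have eκ : ∀ j, toQ (κ j) = (m j : ℚ) • (b j : I → ℚ) := fun j => funext (hκ j)
  have hm1 : ∀ j, (1 : ℚ) ≤ m j := fun j => by exact_mod_cast hm j
  have hκ0 : ∀ j, Λ (toQ (κ j)) = 0 := fun j => by
    rw [eκ, map_smul, (b j).2, smul_zero]
  let bd := (B.restrict W).dualBasis hnd b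
  obtain ⟨C, hC⟩ := exists_nat_ge ((∑ i, ∑ j, |(κ j i : ℚ)|) +
    (∑ i, ∑ j, |B0 (toQ (κ j)) (toQ (κ j))| * |(bd j : I → ℚ) i|) +
    ∑ j, ∑ j', |B0 (toQ (κ j)) (toQ (κ j'))|)
  have p1 : 0 ≤ ∑ i, ∑ j, |(κ j i : ℚ)| := by positivity
  have p2 : 0 ≤ ∑ i, ∑ j, |B0 (toQ (κ j)) (toQ (κ j))| * |(bd j : I → ℚ) i| := by positivity
  have p3 : 0 ≤ ∑ j, ∑ j', |B0 (toQ (κ j)) (toQ (κ j'))| := by positivity
  have c1 : ∀ i, ∑ j, |(κ j i : ℚ)| ≤ C := fun i =>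
    (Finset.single_le_sum (f := fun i => ∑ j, |(κ j i : ℚ)|) (fun _ _ => by positivity)
      (Finset.mem_univ i)).trans (by linarith)
  have c2 : ∀ i, ∑ j, |B0 (toQ (κ j)) (toQ (κ j))| * |(bd j : I → ℚ) i| ≤ C := fun i =>
    (Finset.single_le_sum (f := fun i => ∑ j, |B0 (toQ (κ j)) (toQ (κ j))| * |(bd j : I → ℚ) i|)
      (fun _ _ => by positivity) (Finset.mem_univ i)).trans (by linarith)
  refine ⟨⟨True, C, den, d1, μ, wc, fun h => absurd trivial h, hμ1, d2, fun _ ℓ t => ?_,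
    fun _ ℓ t h i => ?_, fun _ ℓ t0 => ?_⟩⟩
  · have a1 := key ℓ (Λ t) _ (hd ℓ t)
    rw [add_sub_cancel] at a1
    have a2 : B0 (t - (μ (Λ t) + wc ℓ)) (t - (μ (Λ t) + wc ℓ)) ≤ 0 := by
      by_cases h0 : t - (μ (Λ t) + wc ℓ) = 0
      · simp [h0]
      · exact (hgood _ (hd ℓ t) h0).le
    linarith
  · set d := toQ t - (μ (Λ (toQ t)) + wc ℓ) with hdd
    have hd0 : Λ d = 0 := hd ℓ _
    have a0 := key ℓ (Λ (toQ t)) _ hd0
    have e0 : μ (Λ (toQ t)) + wc ℓ + d = toQ t := by rw [hdd]; abel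
    rw [e0] at a0
    have hb : ∀ j, |B d (b j)| ≤ |B0 (toQ (κ j)) (toQ (κ j))| := by
      intro j
      have hk : ∀ i, |κ j i| ≤ C := fun i => by
        have : |(κ j i : ℚ)| ≤ C := (Finset.single_le_sum (f := fun j => |(κ j i : ℚ)|)
          (fun _ _ => abs_nonneg _) (Finset.mem_univ j)).trans (c1 i)
        exact_mod_cast this
      have a1 := h (κ j) (hκ0 j) hk
      have a2 := h (-κ j) (by rw [toQ_neg, map_neg, hκ0, neg_zero]) (by simpa using hk)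
      have a3 := key ℓ (Λ (toQ t)) (d + toQ (κ j)) (by rw [map_add, hd0, hκ0, add_zero])
      have a4 := key ℓ (Λ (toQ t)) (d + -toQ (κ j))
        (by rw [map_add, map_neg, hd0, hκ0, neg_zero, add_zero])
      rw [← add_assoc, e0] at a3 a4
      rw [toQ_add] at a1 a2
      rw [toQ_neg] at a2
      rw [a3, a0] at a1
      rw [a4, a0] at a2
      simp only [map_add, map_neg, LinearMap.add_apply, LinearMap.neg_apply] at a1 a2
      have a5 : |B d (toQ (κ j))| ≤ |B0 (toQ (κ j)) (toQ (κ j))| := by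
        have := neg_abs_le (B0 (toQ (κ j)) (toQ (κ j)))
        rw [hB, abs_le]; constructor <;> linarith
      rw [eκ j, map_smul, smul_eq_mul, abs_mul, ← eκ j, abs_of_nonneg (Nat.cast_nonneg _)] at a5
      nlinarith [hm1 j, abs_nonneg (B d (b j))]
    have e1 := congrFun (congrArg Subtype.val (bd.sum_repr ⟨d, hd0⟩)) i
    simp only [AddSubmonoidClass.coe_finsetSum, SetLike.val_smul, Finset.sum_apply, Pi.smul_apply,
      smul_eq_mul, bd, LinearMap.BilinForm.dualBasis_repr_apply] at e1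
    have a6 : |d i| ≤ C := by
      rw [← e1]
      refine (Finset.abs_sum_le_sum_abs _ _).trans (le_trans (Finset.sum_le_sum fun j _ => ?_) (c2 i))
      rw [abs_mul]
      exact mul_le_mul_of_nonneg_right (hb j) (abs_nonneg _)
    have a7 : d i = t i - (μ (Λ (toQ t)) + wc ℓ) i := rfl
    linarith [(abs_le.1 a6).2]
  · set d := toQ t0 - (μ (Λ (toQ t0)) + wc ℓ) with hdd
    have hd0 : Λ d = 0 := hd ℓ _
    let x := fun j => b.repr ⟨d, hd0⟩ j / m j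
    have e1 : d = ∑ j, x j • toQ (κ j) := by
      have := congrArg Subtype.val (b.sum_repr ⟨d, hd0⟩)
      simp only [AddSubmonoidClass.coe_finsetSum, SetLike.val_smul] at this
      rw [← this]
      refine Finset.sum_congr rfl fun j _ => ?_
      have : (m j : ℚ) ≠ 0 := by linarith [hm1 j]
      rw [eκ, smul_smul]
      congr 1
      simp only [x]; field_simp
    have e2 : toQ (t0 - ∑ j, ⌊x j⌋ • κ j) =
        μ (Λ (toQ t0)) + wc ℓ + ∑ j, Int.fract (x j) • toQ (κ j) := by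
      have : toQ t0 = μ (Λ (toQ t0)) + wc ℓ + d := by rw [hdd]; abel
      funext i
      have a1 := congrFun this i
      rw [e1] at a1
      simp only [toQ, Pi.sub_apply, Pi.add_apply, Finset.sum_apply, Pi.smul_apply, smul_eq_mul,
        Int.fract] at a1 ⊢
      push_cast
      rw [a1]
      simp only [sub_mul, Finset.sum_sub_distrib]
      ring
    have e3 : Λ (∑ j, Int.fract (x j) • toQ (κ j)) = 0 := by
      simp [map_sum, hκ0]
    have hf : ∀ j, |Int.fract (x j)| ≤ 1 := fun j => by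
      rw [abs_of_nonneg (Int.fract_nonneg _)]; exact (Int.fract_lt_one _).le
    refine ⟨t0 - ∑ j, ⌊x j⌋ • κ j, ?_, fun i => ?_, ?_⟩
    · rw [e2, map_add, map_add, hμ1, hw1, e3, add_zero, add_zero]
    · have a1 := congrFun e2 i
      have a2 : |(∑ j, Int.fract (x j) • toQ (κ j)) i| ≤ C := by
        rw [Finset.sum_apply]
        refine (Finset.abs_sum_le_sum_abs _ _).trans
          (le_trans (Finset.sum_le_sum fun j _ => ?_) (c1 i))
        simp only [Pi.smul_apply, smul_eq_mul, abs_mul, toQ]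
        exact mul_le_of_le_one_left (abs_nonneg _) (hf j)
      rw [Pi.add_apply] at a1
      have a3 : toQ (t0 - ∑ j, ⌊x j⌋ • κ j) i = ((t0 - ∑ j, ⌊x j⌋ • κ j) i : ℤ) := rfl
      rw [← a3, a1]
      linarith [(abs_le.1 a2).1]
    · rw [e2, key ℓ _ _ e3]
      have a2 : |B0 (∑ j, Int.fract (x j) • toQ (κ j)) (∑ j, Int.fract (x j) • toQ (κ j))| ≤ C := by
        refine le_trans ?_ (show ∑ j, ∑ j', |B0 (toQ (κ j)) (toQ (κ j'))| ≤ C by linarith)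
        rw [map_sum B0, LinearMap.sum_apply]
        refine (Finset.abs_sum_le_sum_abs _ _).trans (Finset.sum_le_sum fun j _ => ?_)
        rw [map_sum]
        refine (Finset.abs_sum_le_sum_abs _ _).trans (Finset.sum_le_sum fun j' _ => ?_)
        simp only [map_smul, LinearMap.smul_apply, smul_eq_mul, abs_mul]
        exact (mul_le_of_le_one_left (by positivity) (hf _)).trans
          (mul_le_of_le_one_left (abs_nonneg _) (hf _))
      linarith [(abs_le.1 a2).1]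

theorem exists_int_ineq (φ : (U → ℚ) →ₗ[ℚ] ℚ) (b : ℚ) :
    ∃ ab : (U → ℤ) × ℤ, ∀ u : U → ℤ, ab.2 ≤ ab.1 ⬝ᵥ u ↔ b ≤ φ (toQ u) := by
  classical
  obtain ⟨m, hm, κ, hκ⟩ := exists_int_mul fun o : Option U => o.elim b fun o => φ (Pi.single o 1)
  refine ⟨⟨fun o => κ (some o), κ none⟩, fun u => ?_⟩
  have hm' : (0 : ℚ) < m := by exact_mod_cast hm
  have e : toQ u = ∑ o, (u o : ℚ) • Pi.single o (1 : ℚ) := by
    funext o; simp [toQ, Finset.sum_apply, Pi.single_apply]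
  have e2 : (((fun o => κ (some o)) ⬝ᵥ u : ℤ) : ℚ) = m * φ (toQ u) := by
    rw [e, map_sum, Finset.mul_sum, dotProduct]
    push_cast
    exact Finset.sum_congr rfl fun o _ => by rw [hκ]; simp; ring
  rw [← Int.cast_le (R := ℚ), e2, hκ]
  exact mul_le_mul_iff_right₀ hm'

theorem exists_int_ineqs {A : Type*} [Fintype A] (φ : A → (U → ℚ) →ₗ[ℚ] ℚ) (b : A → ℚ) :
    ∃ Φ : Finset ((U → ℤ) × ℤ), ∀ u : U → ℤ,
      (∀ ab ∈ Φ, ab.2 ≤ ab.1 ⬝ᵥ u) ↔ ∀ a, b a ≤ φ a (toQ u) := by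
  classical
  choose ab hab using fun a => exists_int_ineq (φ a) (b a)
  refine ⟨Finset.univ.image ab, fun u => ?_⟩
  simp [hab]

theorem exists_real_lin (φ : (U → ℚ) →ₗ[ℚ] ℚ) :
    ∃ φ' : (U → ℝ) →ₗ[ℝ] ℝ, ∀ u : U → ℤ, φ' (toR u) = (φ (toQ u) : ℚ) := by
  classical
  refine ⟨∑ o, ((φ (Pi.single o 1) : ℚ) : ℝ) • LinearMap.proj o, fun u => ?_⟩
  have e : toQ u = ∑ o, (u o : ℚ) • Pi.single o (1 : ℚ) := by
    funext o; simp [toQ, Finset.sum_apply, Pi.single_apply]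
  rw [e, map_sum]
  simp only [LinearMap.sum_apply, LinearMap.smul_apply, LinearMap.proj_apply, toR, smul_eq_mul,
    map_smul]
  push_cast
  exact Finset.sum_congr rfl fun o _ => by ring

theorem exists_real_bilin (q : LinearMap.BilinForm ℚ (U → ℚ)) :
    ∃ q' : LinearMap.BilinForm ℝ (U → ℝ), ∀ u : U → ℤ,
      q' (toR u) (toR u) = (q (toQ u) (toQ u) : ℚ) := by
  classical
  choose f hf using fun o => exists_real_lin (q (Pi.single o 1))
  refine ⟨∑ o, (LinearMap.proj o : (U → ℝ) →ₗ[ℝ] ℝ).smulRight (f o), fun u => ?_⟩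
  have e : toQ u = ∑ o, (u o : ℚ) • Pi.single o (1 : ℚ) := by
    funext o; simp [toQ, Finset.sum_apply, Pi.single_apply]
  have : q (toQ u) = ∑ o, (u o : ℚ) • q (Pi.single o 1) := by
    conv_lhs => rw [e, map_sum]
    simp
  rw [this]
  simp only [LinearMap.sum_apply, LinearMap.smulRight_apply, LinearMap.proj_apply,
    LinearMap.smul_apply, smul_eq_mul, hf]
  push_cast
  rfl

end QP

end Pool.Agent.MP_b3b911_al
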