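import Mathlib

/-! Null sets of quadratic functions, lattice Riemann sums, unit cube averages. -/

open MeasureTheory Filter Topology Set

namespace Pool.Agent.MP_b3b911_al

section Null

variable {ι : Type*} [Fintype ι]

theorem null_of_lines (f : (ι → ℝ) → ℝ) (hf : Measurable f) (x0 : ι → ℝ) (h0 : f x0 ≠ 0)
    (h : ∀ v, ∃ α β : ℝ, ∀ r : ℝ, f (x0 + r • v) = α * r ^ 2 + β * r + f x0) :
    volume {x | f x = 0} = 0 := by
  have h3 : ∀ (v : ι → ℝ) (r1 r2 r3 : ℝ), r1 ≠ r2 → r1 ≠ r3 → r2 ≠ r3 →
      f (x0 + r1 • v) = 0 → f (x0 + r2 • v) = 0 → f (x0 + r3 • v) = 0 → False := by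
    intro v r1 r2 r3 h12 h13 h23 e1 e2 e3
    obtain ⟨α, β, hv⟩ := h v
    rw [hv] at e1 e2 e3
    have a1 : (r1 - r2) * (α * (r1 + r2) + β) = 0 := by linear_combination e1 - e2
    have a2 : (r1 - r3) * (α * (r1 + r3) + β) = 0 := by linear_combination e1 - e3
    have b1 := (mul_eq_zero.1 a1).resolve_left (sub_ne_zero.2 h12)
    have b2 := (mul_eq_zero.1 a2).resolve_left (sub_ne_zero.2 h13)
    have a3 : (r2 - r3) * α = 0 := by linear_combination b1 - b2
    have c1 := (mul_eq_zero.1 a3).resolve_left (sub_ne_zero.2 h23)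
    have c2 : β = 0 := by rw [c1] at b1; simpa using b1
    rw [c1, c2] at e1
    exact h0 (by simpa using e1)
  have hZ : MeasurableSet {x | f x = 0} := hf (measurableSet_singleton 0)
  have key : ∀ R : ℕ, volume ({x | f x = 0} ∩ Metric.closedBall x0 R) = 0 := by
    intro R
    set A := {x | f x = 0} ∩ Metric.closedBall x0 (R : ℝ) with hA
    have hAm : MeasurableSet A := hZ.inter Metric.isClosed_closedBall.measurableSet
    let r : ℕ → ℝ := fun i => 1 / 2 + 1 / (2 * ((i : ℝ) + 1))
    have hr1 : ∀ i, 1 / 2 < r i := fun i => by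
      have : (0 : ℝ) < 1 / (2 * ((i : ℝ) + 1)) := by positivity
      simp only [r]; linarith
    have hr2 : ∀ i, r i ≤ 1 := fun i => by
      have h1 : (1 : ℝ) / (2 * ((i : ℝ) + 1)) ≤ 1 / 2 := by
        apply one_div_le_one_div_of_le (by norm_num)
        have : (0 : ℝ) ≤ i := Nat.cast_nonneg i
        linarith
      simp only [r]; linarith
    have hrinj : ∀ i j, r i = r j → i = j := by
      intro i j hij
      simp only [r] at hij
      have h1 : (1 : ℝ) / (2 * ((i : ℝ) + 1)) = 1 / (2 * ((j : ℝ) + 1)) := by linarith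
      have h2 : (2 * ((i : ℝ) + 1)) = 2 * ((j : ℝ) + 1) := by
        have := congrArg (fun t : ℝ => t⁻¹) h1
        simpa using this
      have : (i : ℝ) = j := by linarith
      exact_mod_cast this
    let Ar : ℕ → Set (ι → ℝ) := fun i => (fun y => r i • y) ⁻¹' ((fun y => x0 + y) ⁻¹' A)
    have hArm : ∀ i, MeasurableSet (Ar i) := fun i =>
      (measurable_const_smul (r i)) ((measurable_const_add x0) hAm)
    have hAr : ∀ i, volume A ≤ volume (Ar i) := by
      intro i
      have hpos : 0 < r i := lt_trans (by norm_num) (hr1 i)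
      simp only [Ar]
      rw [Measure.addHaar_preimage_smul _ hpos.ne', measure_preimage_add]
      have h1 : (1 : ℝ) ≤ |(r i ^ Module.finrank ℝ (ι → ℝ))⁻¹| := by
        rw [abs_of_pos (by positivity)]
        exact one_le_inv_iff₀.2 ⟨by positivity, pow_le_one₀ hpos.le (hr2 i)⟩
      calc volume A = 1 * volume A := (one_mul _).symm
        _ ≤ _ := by
          gcongr
          rw [← ENNReal.ofReal_one]
          exact ENNReal.ofReal_le_ofReal h1
    have hsub : ∀ i, Ar i ⊆ Metric.closedBall 0 (2 * R) := by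
      intro i y hy
      have hpos : 0 < r i := lt_trans (by norm_num) (hr1 i)
      have h1 : x0 + r i • y ∈ Metric.closedBall x0 (R : ℝ) := hy.2
      rw [mem_closedBall_iff_norm, add_sub_cancel_left, norm_smul, Real.norm_eq_abs,
        abs_of_pos hpos] at h1
      rw [mem_closedBall_zero_iff]
      have := hr1 i
      nlinarith [norm_nonneg y]
    have hb : ∀ n : ℕ, (n : ENNReal) * volume A ≤
        2 * volume (Metric.closedBall (0 : ι → ℝ) (2 * R)) := by
      intro n
      have hpt : ∀ y, ∑ i ∈ Finset.range n, (Ar i).indicator (fun _ => (1 : ENNReal)) y ≤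
          (Metric.closedBall (0 : ι → ℝ) (2 * R)).indicator (fun _ => (2 : ENNReal)) y := by
        intro y
        classical
        have e1 : ∑ i ∈ Finset.range n, (Ar i).indicator (fun _ => (1 : ENNReal)) y =
            (((Finset.range n).filter (fun i => y ∈ Ar i)).card : ENNReal) := by
          rw [Finset.card_filter]
          push_cast
          refine Finset.sum_congr rfl fun i _ => ?_
          by_cases hy : y ∈ Ar i <;> simp [hy]
        rw [e1]
        by_cases hy : y ∈ Metric.closedBall (0 : ι → ℝ) (2 * R)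
        · rw [indicator_of_mem hy]
          have : ((Finset.range n).filter (fun i => y ∈ Ar i)).card ≤ 2 := by
            by_contra hc
            obtain ⟨a, b, c, ha, hb, hc', hab, hac, hbc⟩ := Finset.two_lt_card_iff.1 (not_le.1 hc)
            exact h3 y (r a) (r b) (r c) (fun e => hab (hrinj _ _ e)) (fun e => hac (hrinj _ _ e))
              (fun e => hbc (hrinj _ _ e)) (Finset.mem_filter.1 ha).2.1
              (Finset.mem_filter.1 hb).2.1 (Finset.mem_filter.1 hc').2.1
          exact_mod_cast this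
        · have : ((Finset.range n).filter (fun i => y ∈ Ar i)) = ∅ := by
            rw [Finset.filter_eq_empty_iff]
            intro i _ hi
            exact hy (hsub i hi)
          simp [this]
      calc (n : ENNReal) * volume A = ∑ _i ∈ Finset.range n, volume A := by simp
        _ ≤ ∑ i ∈ Finset.range n, volume (Ar i) := Finset.sum_le_sum fun i _ => hAr i
        _ = ∑ i ∈ Finset.range n, ∫⁻ y, (Ar i).indicator (fun _ => (1 : ENNReal)) y := by
            refine Finset.sum_congr rfl fun i _ => ?_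
            rw [lintegral_indicator (hArm i)]; simp
        _ = ∫⁻ y, ∑ i ∈ Finset.range n, (Ar i).indicator (fun _ => (1 : ENNReal)) y := by
            rw [lintegral_finsetSum]
            intro i _
            exact measurable_const.indicator (hArm i)
        _ ≤ ∫⁻ y, (Metric.closedBall (0 : ι → ℝ) (2 * R)).indicator (fun _ => (2 : ENNReal)) y :=
            lintegral_mono hpt
        _ = _ := by
            rw [lintegral_indicator Metric.isClosed_closedBall.measurableSet]; simp
    by_contra hne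
    have hfin : 2 * volume (Metric.closedBall (0 : ι → ℝ) (2 * R)) ≠ ⊤ :=
      ENNReal.mul_ne_top (by norm_num) measure_closedBall_lt_top.ne
    obtain ⟨n, hn⟩ := ENNReal.exists_nat_mul_gt hne hfin
    exact absurd (hb n) (not_le.2 hn)
  have : {x | f x = 0} = ⋃ R : ℕ, ({x | f x = 0} ∩ Metric.closedBall x0 R) := by
    rw [← inter_iUnion, Metric.iUnion_closedBall_nat, inter_univ]
  rw [this]
  exact measure_iUnion_null key

end Null

section Cubes

variable {ι : Type*} [Fintype ι]

/-- The half-open unit cube. -/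
def cube (ι : Type*) : Set (ι → ℝ) := Set.pi univ fun _ => Ico (0 : ℝ) 1

theorem cube_meas : MeasurableSet (cube ι) :=
  MeasurableSet.univ_pi fun _ => measurableSet_Ico

theorem cube_vol : volume (cube ι) = 1 := by
  unfold cube
  rw [Real.volume_pi_Ico (a := fun _ => (0 : ℝ)) (b := fun _ => (1 : ℝ))]
  simp

theorem cube_real : (volume : Measure (ι → ℝ)).real (cube ι) = 1 := by
  simp [Measure.real, cube_vol]

theorem mem_cube {η : ι → ℝ} : η ∈ cube ι ↔ ∀ i, 0 ≤ η i ∧ η i < 1 := by
  simp [cube, Set.mem_pi]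

theorem norm_le_of_mem_cube {η : ι → ℝ} (h : η ∈ cube ι) : ‖η‖ ≤ 1 := by
  rw [pi_norm_le_iff_of_nonneg zero_le_one]
  intro i
  obtain ⟨h1, h2⟩ := mem_cube.1 h i
  rw [Real.norm_eq_abs, abs_of_nonneg h1]; exact h2.le

theorem abs_cube_integral_le {f : (ι → ℝ) → ℝ} {K : ℝ} (h : ∀ η ∈ cube ι, |f η| ≤ K) :
    |∫ η in cube ι, f η| ≤ K := by
  have := norm_setIntegral_le_of_norm_le_const (μ := volume) (s := cube ι) (f := f) (C := K)
    (by rw [cube_vol]; exact ENNReal.one_lt_top) (fun x hx => h x hx)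
  rwa [cube_real, mul_one] at this

theorem integrableOn_cube {f : (ι → ℝ) → ℝ} (hf : Measurable f) {K : ℝ}
    (h : ∀ η ∈ cube ι, |f η| ≤ K) : IntegrableOn f (cube ι) := by
  refine Measure.integrableOn_of_bounded (M := K) (by rw [cube_vol]; exact ENNReal.one_ne_top)
    hf.aestronglyMeasurable ?_
  exact (ae_restrict_iff' cube_meas).2 (Eventually.of_forall fun x hx => h x hx)

theorem abs_cube_integral_sub_le {f g : (ι → ℝ) → ℝ} (hf : IntegrableOn f (cube ι))
    (hg : IntegrableOn g (cube ι)) {K : ℝ} (h : ∀ η ∈ cube ι, |f η - g η| ≤ K) :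
    |(∫ η in cube ι, f η) - ∫ η in cube ι, g η| ≤ K := by
  rw [← integral_sub hf hg]
  exact abs_cube_integral_le h

theorem cube_integral_const (c : ℝ) : ∫ _η in cube ι, c = c := by
  simp [cube_real]

/-- Integer vectors as real vectors. -/
def toR (x : ι → ℤ) : ι → ℝ := fun i => (x i : ℝ)

theorem sum_cube_integral (f : (ι → ℝ) → ℝ) (hf : Integrable f) (T : Finset (ι → ℤ))
    (hT : ∀ θ, f θ ≠ 0 → (fun i => ⌊θ i⌋) ∈ T) :
    ∑ x ∈ T, ∫ η in cube ι, f (toR x + η) = ∫ θ, f θ := by
  classical
  have h1 : ∀ x : ι → ℤ, ∫ η in cube ι, f (toR x + η) =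
      ∫ θ, ((fun θ => θ - toR x) ⁻¹' cube ι).indicator f θ := by
    intro x
    rw [← integral_indicator cube_meas,
      ← integral_add_left_eq_self (μ := volume)
        (((fun θ => θ - toR x) ⁻¹' cube ι).indicator f) (toR x)]
    refine integral_congr_ae (Eventually.of_forall fun η => ?_)
    beta_reduce
    by_cases hη : η ∈ cube ι
    · rw [indicator_of_mem hη, indicator_of_mem (by simpa using hη)]
    · rw [indicator_of_notMem hη, indicator_of_notMem (by simpa using hη)]
  simp_rw [h1]
  rw [← integral_finsetSum]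
  · refine integral_congr_ae (Eventually.of_forall fun θ => ?_)
    have hm : ∀ x : ι → ℤ, θ ∈ (fun θ => θ - toR x) ⁻¹' cube ι ↔ x = fun i => ⌊θ i⌋ := by
      intro x
      rw [mem_preimage, mem_cube, funext_iff]
      refine forall_congr' fun i => ?_
      rw [eq_comm, Int.floor_eq_iff]
      simp only [Pi.sub_apply, toR]
      constructor <;> rintro ⟨a, b⟩ <;> constructor <;> linarith
    by_cases h0 : f θ = 0
    · simp only [h0]
      refine Finset.sum_eq_zero fun x _ => ?_
      by_cases hx : θ ∈ (fun θ => θ - toR x) ⁻¹' cube ι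
      · rw [indicator_of_mem hx, h0]
      · rw [indicator_of_notMem hx]
    · simp only
      rw [Finset.sum_eq_single (fun i => ⌊θ i⌋)]
      · rw [indicator_of_mem ((hm _).2 rfl)]
      · intro x _ hx
        rw [indicator_of_notMem (fun h => hx ((hm x).1 h))]
      · intro h; exact absurd (hT θ h0) h
  · intro x _
    exact hf.indicator ((measurable_id.sub_const _) cube_meas)

theorem measurable_floor_comp (g : (ι → ℤ) → ℝ) (t : ℝ) :
    Measurable fun θ : ι → ℝ => g (fun i => ⌊t * θ i⌋) := by
  refine (measurable_of_countable g).comp ?_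
  refine measurable_pi_lambda _ fun i => Int.measurable_floor.comp ?_
  exact measurable_const.mul (measurable_pi_apply i)

theorem integral_floor (g : (ι → ℤ) → ℝ) (T : Finset (ι → ℤ)) (hT : ∀ ξ, g ξ ≠ 0 → ξ ∈ T) :
    ∫ θ : ι → ℝ, g (fun i => ⌊θ i⌋) = ∑ ξ ∈ T, g ξ := by
  have hint : Integrable fun θ : ι → ℝ => g (fun i => ⌊θ i⌋) := by
    have hm : Measurable fun θ : ι → ℝ => g (fun i => ⌊θ i⌋) := by
      simpa using measurable_floor_comp g 1
    obtain ⟨R, hR⟩ : ∃ R : ℝ, ∀ ξ ∈ T, ‖toR ξ‖ ≤ R :=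
      ⟨∑ ξ ∈ T, ‖toR ξ‖, fun ξ hξ =>
        Finset.single_le_sum (f := fun ξ => ‖toR ξ‖) (fun _ _ => norm_nonneg _) hξ⟩
    refine IntegrableOn.integrable_of_forall_notMem_eq_zero
      (s := Metric.closedBall 0 (R + 1)) ?_ ?_
    · refine Measure.integrableOn_of_bounded (M := ∑ ξ ∈ T, |g ξ|)
        measure_closedBall_lt_top.ne hm.aestronglyMeasurable (Eventually.of_forall fun θ => ?_)
      by_cases h0 : g (fun i => ⌊θ i⌋) = 0
      · rw [h0, norm_zero]; positivity
      · exact Finset.single_le_sum (f := fun ξ => |g ξ|) (fun _ _ => abs_nonneg _) (hT _ h0)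
    · intro θ hθ
      by_contra h0
      apply hθ
      have h1 := hR _ (hT _ h0)
      have h2 : θ - toR (fun i => ⌊θ i⌋) ∈ cube ι := by
        rw [mem_cube]; intro i
        simp only [Pi.sub_apply, toR]
        constructor
        · linarith [Int.floor_le (θ i)]
        · linarith [Int.lt_floor_add_one (θ i)]
      rw [mem_closedBall_zero_iff]
      have h3 := norm_le_of_mem_cube h2
      calc ‖θ‖ = ‖toR (fun i => ⌊θ i⌋) + (θ - toR (fun i => ⌊θ i⌋))‖ := by simp
        _ ≤ _ := norm_add_le _ _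
        _ ≤ R + 1 := add_le_add h1 h3
  rw [← sum_cube_integral _ hint T (fun θ h => hT _ h)]
  refine Finset.sum_congr rfl fun x _ => ?_
  rw [← cube_integral_const (ι := ι) (g x)]
  refine setIntegral_congr_fun cube_meas fun η hη => ?_
  congr 1
  funext i
  obtain ⟨h1, h2⟩ := mem_cube.1 hη i
  rw [Int.floor_eq_iff]
  simp only [Pi.add_apply, toR]
  constructor <;> linarith

/-- Lattice Riemann sums: bounded, supported in a box of linear size, pointwise convergent. -/
theorem riemann (g : ℕ → (ι → ℤ) → ℝ) (T : ℕ → Finset (ι → ℤ)) (K : ℝ)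
    (hT : ∀ k ξ, g k ξ ≠ 0 → ξ ∈ T k)
    (hb : ∀ᶠ k in atTop, ∀ ξ, |g k ξ| ≤ K)
    (hs : ∀ᶠ k in atTop, ∀ ξ, g k ξ ≠ 0 → ‖toR ξ‖ ≤ K * k)
    (hl : ∀ᵐ θ : ι → ℝ, ∃ l, Tendsto (fun k : ℕ => g k (fun i => ⌊(k : ℝ) * θ i⌋)) atTop (𝓝 l)) :
    ∃ L, Tendsto (fun k : ℕ => (∑ ξ ∈ T k, g k ξ) / (k : ℝ) ^ Fintype.card ι) atTop (𝓝 L) := by
  let G : ℕ → (ι → ℝ) → ℝ := fun k θ => g k (fun i => ⌊(k : ℝ) * θ i⌋)
  have hG : Tendsto (fun k => ∫ θ, G k θ) atTop
      (𝓝 (∫ θ, limUnder atTop (fun k => G k θ))) := by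
    refine tendsto_integral_filter_of_dominated_convergence
      ((Metric.closedBall (0 : ι → ℝ) (K + 1)).indicator fun _ => K) ?_ ?_ ?_ ?_
    · exact Eventually.of_forall fun k => (measurable_floor_comp (g k) k).aestronglyMeasurable
    · filter_upwards [hb, hs, eventually_ge_atTop 1] with k hb hs hk
      refine Eventually.of_forall fun θ => ?_
      by_cases hθ : θ ∈ Metric.closedBall (0 : ι → ℝ) (K + 1)
      · rw [indicator_of_mem hθ]; exact hb _
      · rw [indicator_of_notMem hθ]
        by_contra hc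
        apply hθ
        have h0 : G k θ ≠ 0 := fun h => hc (by rw [h, norm_zero])
        have h1 := hs _ h0
        have hk' : (1 : ℝ) ≤ k := by exact_mod_cast hk
        have h2 : (k : ℝ) • θ - toR (fun i => ⌊(k : ℝ) * θ i⌋) ∈ cube ι := by
          rw [mem_cube]; intro i
          simp only [Pi.sub_apply, toR, Pi.smul_apply, smul_eq_mul]
          constructor
          · linarith [Int.floor_le ((k : ℝ) * θ i)]
          · linarith [Int.lt_floor_add_one ((k : ℝ) * θ i)]
        have h3 := norm_le_of_mem_cube h2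
        have h4 : ‖(k : ℝ) • θ‖ ≤ K * k + 1 := by
          calc ‖(k : ℝ) • θ‖ = ‖toR (fun i => ⌊(k : ℝ) * θ i⌋) +
              ((k : ℝ) • θ - toR (fun i => ⌊(k : ℝ) * θ i⌋))‖ := by simp
            _ ≤ _ := norm_add_le _ _
            _ ≤ _ := add_le_add h1 h3
        rw [norm_smul, Real.norm_eq_abs, abs_of_nonneg (by linarith)] at h4
        rw [mem_closedBall_zero_iff]
        by_contra h5
        push Not at h5
        nlinarith
    · exact (integrable_indicator_iff Metric.isClosed_closedBall.measurableSet).2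
        (integrableOn_const measure_closedBall_lt_top.ne)
    · filter_upwards [hl] with θ h
      exact tendsto_nhds_limUnder h
  refine ⟨_, hG.congr' ?_⟩
  filter_upwards [eventually_ge_atTop 1] with k hk
  have hk' : (0 : ℝ) < k := by exact_mod_cast hk
  have h1 := Measure.integral_comp_smul (volume : Measure (ι → ℝ))
    (fun θ : ι → ℝ => g k (fun i => ⌊θ i⌋)) (k : ℝ)
  rw [integral_floor (g k) (T k) (hT k)] at h1
  simp only [Pi.smul_apply, smul_eq_mul, Module.finrank_fintype_fun_eq_card] at h1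
  simp only [G]
  rw [h1, abs_of_pos (by positivity)]
  field_simp

end Cubes

end Pool.Agent.MP_b3b911_al
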