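import Pool.Agent.MP_b3b911_al.Count
import Pool.Agent.MP_b3b911_al.Defs

/-! Passing from a concrete group to the abstract structures. -/

open Filter Topology

namespace Pool.Agent.MP_b3b911_al

theorem exists_pow_central {Q A : Type*} [Group Q] [AddCommGroup A] (u : Q → A)
    (u_mul : ∀ p q, u (p * q) = u p + u q) (hfin : {p | u p = 0}.Finite) :
    ∃ N : ℕ, 0 < N ∧ (∀ g p : Q, g ^ N * p = p * g ^ N) ∧
      (∀ g h : Q, (g * h) ^ N = g ^ N * h ^ N) ∧ ∀ g h : Q, u g = u h → g ^ N = h ^ N := by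
  classical
  let f : Q →* Multiplicative A := MonoidHom.mk' (fun p => Multiplicative.ofAdd (u p))
    fun p q => by rw [u_mul, ofAdd_add]
  have hf : ∀ p, p ∈ f.ker ↔ u p = 0 := fun p => Iff.rfl
  have hf' : ∀ p q, u p = u q ↔ f p = f q := fun p q => Iff.rfl
  haveI : Finite f.ker := hfin.to_subtype
  haveI := Fintype.ofFinite f.ker
  set c := Nat.card f.ker with hc
  have hc0 : 0 < c := Nat.card_pos
  have h1 : ∀ g p : Q, Commute (g ^ c.factorial) p := by
    intro g p
    obtain ⟨i, hi, j, hj, hij, e⟩ := Finset.exists_ne_map_eq_of_card_lt_of_maps_to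
      (s := Finset.range (c + 1)) (t := (Finset.univ : Finset f.ker))
      (by rw [Finset.card_univ, Finset.card_range, ← Nat.card_eq_fintype_card]; omega)
      (f := fun n => (⟨p⁻¹ * (g ^ n * p * (g ^ n)⁻¹), by
        simp [MonoidHom.mem_ker, mul_right_comm]⟩ : f.ker)) (fun _ _ => Finset.mem_univ _)
    have key : ∀ i j : ℕ, i < j → j < c + 1 → g ^ i * p * (g ^ i)⁻¹ = g ^ j * p * (g ^ j)⁻¹ →
        Commute (g ^ c.factorial) p := by
      intro i j h1 h2 e
      obtain ⟨d, rfl⟩ := Nat.exists_eq_add_of_lt h1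
      have a1 : Commute (g ^ (d + 1)) p := by
        rw [add_assoc, pow_add] at e
        have : p = g ^ (d + 1) * p * (g ^ (d + 1))⁻¹ := by
          calc p = (g ^ i)⁻¹ * (g ^ i * p * (g ^ i)⁻¹) * g ^ i := by group
            _ = _ := by rw [e]; group
        exact mul_inv_eq_iff_eq_mul.1 this.symm
      obtain ⟨e, he⟩ := Nat.dvd_factorial (Nat.succ_pos d) (by omega : d + 1 ≤ c)
      rw [he, pow_mul]
      exact a1.pow_left _
    simp only [Subtype.mk.injEq, mul_right_inj] at e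
    rw [Finset.mem_range] at hi hj
    rcases lt_or_gt_of_ne hij with h | h
    · exact key i j h hj e
    · exact key j i h hi e.symm
  have h2 : ∀ κ : Q, f κ = 1 → κ ^ c = 1 := fun κ h =>
    congrArg Subtype.val (pow_card_eq_one' (x := (⟨κ, h⟩ : f.ker)))
  have h3 : ∀ a b : Q, (∀ p, Commute a p) → f a = f b → b ^ c = a ^ c := by
    intro a b ha e
    have := (ha (a⁻¹ * b)).mul_pow c
    rw [mul_inv_cancel_left, h2 (a⁻¹ * b) (by simp [e]), mul_one] at this
    exact this
  refine ⟨c.factorial * c, Nat.mul_pos c.factorial_pos hc0, fun g p => ?_, fun g h => ?_,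
    fun g h e => ?_⟩
  · rw [pow_mul]; exact ((h1 g p).pow_left c).eq
  · rw [pow_mul, pow_mul, pow_mul, ← (h1 g _).mul_pow]
    exact h3 _ _ (fun p => (h1 g p).mul_left (h1 h p)) (by simp [mul_pow])
  · rw [pow_mul, pow_mul]
    exact h3 _ _ (h1 h) (by simp [(hf' g h).1 e])

theorem exists_base {ι : Type} {H : Type*} [Group H] (π : H → ι → ℤ)
    (π_mul : ∀ p q, π (p * q) = π p + π q) (hsurj : Function.Surjective π)
    (hfin : {p | π p = 0}.Finite) (T : Finset H) (hT : Subgroup.closure (T : Set H) = ⊤)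
    (h1 : (1 : H) ∈ T) : ∃ X : Base ι (H × Multiplicative ℤ),
      (∀ p, X.u p none = p.2.toAdd) ∧ (∀ p i, X.u p (some i) = π p.1 i) ∧
      ∀ p, p ∈ X.L ↔ p.1 ∈ T ∧ p.2 = Multiplicative.ofAdd 1 := by
  classical
  let u : H × Multiplicative ℤ → Option ι → ℤ := fun p o => o.elim p.2.toAdd (π p.1)
  have u_mul : ∀ p q, u (p * q) = u p + u q := fun p q => by
    funext o; cases o <;> simp [u, π_mul]
  have u_surj : Function.Surjective u := fun z => by
    obtain ⟨h, hh⟩ := hsurj fun i => z (some i)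
    exact ⟨(h, Multiplicative.ofAdd (z none)), by funext o; cases o <;> simp [u, hh]⟩
  have ker_fin : {p | u p = 0}.Finite := by
    refine (hfin.prod (Set.finite_singleton (1 : Multiplicative ℤ))).subset fun p hp => ⟨?_, ?_⟩
    · funext i; exact congrFun hp (some i)
    · exact congrFun hp none
  obtain ⟨N, hN, a1, a2, a3⟩ := exists_pow_central u u_mul ker_fin
  choose sec hsec using u_surj
  have hL : ∀ p : H × Multiplicative ℤ, p ∈ T ×ˢ {Multiplicative.ofAdd (1 : ℤ)} ↔
      p.1 ∈ T ∧ p.2 = Multiplicative.ofAdd 1 := fun p => by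
    rw [Finset.mem_product, Finset.mem_singleton]
  refine ⟨⟨u, u_mul, fun z => ⟨_, hsec z⟩, ker_fin, N, hN, fun z => sec z ^ N, fun z z' => ?_,
    fun z p => a1 _ _, fun g => a3 _ _ (hsec _).symm, T ×ˢ {Multiplicative.ofAdd (1 : ℤ)},
    fun s hs => ?_, ?_⟩, fun _ => rfl, fun _ _ => rfl, hL⟩
  · rw [← a2]
    exact a3 _ _ (by rw [u_mul, hsec, hsec, hsec])
  · simp [u, ((hL s).1 hs).2]
  · rw [eq_top_iff]
    rintro ⟨h, n⟩ -
    set C := Subgroup.closure ((T ×ˢ {Multiplicative.ofAdd (1 : ℤ)} :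
      Finset (H × Multiplicative ℤ)) : Set (H × Multiplicative ℤ))
    have e1 : ((1 : H), Multiplicative.ofAdd (1 : ℤ)) ∈ C :=
      Subgroup.subset_closure ((hL _).2 ⟨h1, rfl⟩)
    have e2 : ∀ h : H, (h, (1 : Multiplicative ℤ)) ∈ C := by
      intro h
      have hh : h ∈ Subgroup.closure (T : Set H) := by rw [hT]; trivial
      induction hh using Subgroup.closure_induction with
      | mem s hs =>
        have := C.mul_mem (Subgroup.subset_closure ((hL (s, _)).2 ⟨hs, rfl⟩)) (C.inv_mem e1)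
        simpa using this
      | one => exact C.one_mem
      | mul a b _ _ ha hb => simpa using C.mul_mem ha hb
      | inv a _ ha => simpa using C.inv_mem ha
    have := C.mul_mem (e2 h) (C.zpow_mem e1 n.toAdd)
    simpa [← ofAdd_zsmul] using this

/-- Symmetrised generating set with the identity. -/
noncomputable def symS {G : Type*} [Group G] (S : Finset G) : Finset G := by
  classical
  exact insert 1 (S ∪ S.image fun x => x⁻¹)

theorem mem_symS {G : Type*} [Group G] {S : Finset G} {x : G} :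
    x ∈ symS S ↔ x = 1 ∨ x ∈ S ∨ x⁻¹ ∈ S := by
  unfold symS
  simp only [Finset.mem_insert, Finset.mem_union, Finset.mem_image]
  refine or_congr_right (or_congr_right ⟨?_, fun h => ⟨_, h, inv_inv _⟩⟩)
  rintro ⟨y, hy, rfl⟩
  simpa using hy

theorem transfer_main {ι : Type} [Fintype ι] {G H : Type*} [Group G] [Group H] (S : Finset G)
    (hS : Subgroup.closure (S : Set G) = ⊤) (φ : G →* H) (hφ : Function.Surjective φ)
    (π : H → ι → ℤ) (π_mul : ∀ p q, π (p * q) = π p + π q) (hsurj : Function.Surjective π)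
    (hfin : {p | π p = 0}.Finite) (ht : G → ℚ) (ω : LinearMap.BilinForm ℚ (ι → ℚ))
    (ω_self : ∀ x, ω x x = 0)
    (ht_mul : ∀ g h, ht (g * h) = ht g + ht h + ω (toQ (π (φ g))) (toQ (π (φ h)))) :
    (Function.Injective φ → ∃ c L : ℝ, 0 < c ∧
      Tendsto (fun k : ℕ => ((growth S k : ℝ) - c * (k : ℝ) ^ Fintype.card ι) /
        (k : ℝ) ^ ((Fintype.card ι : ℤ) - 1)) atTop (𝓝 L)) ∧
    ∀ D : ℕ, 0 < D → (∀ g g', φ g = φ g' → ∃ j : ℤ, ht g' = ht g + D * j) →
      (∀ g g', φ g = φ g' → ht g = ht g' → g = g') →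
      (∀ s ∈ symS S, ∀ t ∈ symS S, ω (toQ (π (φ s))) (toQ (π (φ t))) ≠ 0 → ∃ m : ℕ,
        φ s ^ m * φ t = φ t * φ s ^ m ∧ |2 * (m * ω (toQ (π (φ s))) (toQ (π (φ t))))| = D) →
      (∃ s ∈ S, ∃ t ∈ S, ω (toQ (π (φ s))) (toQ (π (φ t))) ≠ 0) → ∃ c L : ℝ, 0 < c ∧
      Tendsto (fun k : ℕ => ((growth S k : ℝ) - c * (k : ℝ) ^ (Fintype.card ι + 2)) /
        (k : ℝ) ^ (Fintype.card ι + 1)) atTop (𝓝 L) := by
  classical
  obtain ⟨X, x1, x2, x3⟩ := exists_base π π_mul hsurj hfin ((symS S).image φ) (by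
    rw [Finset.coe_image, ← MonoidHom.map_closure, eq_top_iff, ← Subgroup.map_top_of_surjective φ hφ,
      ← hS]
    exact Subgroup.map_mono (Subgroup.closure_mono fun x hx => mem_symS.2 (Or.inr (Or.inl hx))))
    (Finset.mem_image.2 ⟨1, mem_symS.2 (Or.inl rfl), map_one φ⟩)
  have hL : ∀ p : G × Multiplicative ℤ, p ∈ symS S ×ˢ {Multiplicative.ofAdd (1 : ℤ)} ↔
      p.1 ∈ symS S ∧ p.2 = Multiplicative.ofAdd 1 := fun p => by
    rw [Finset.mem_product, Finset.mem_singleton]
  let sp : (Option ι → ℚ) →ₗ[ℚ] (ι → ℚ) := LinearMap.funLeft ℚ ℚ some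
  have hsp : ∀ p, sp (toQ (X.u p)) = toQ (π p.1) := fun p => by
    funext i; simp [sp, LinearMap.funLeft_apply, toQ, x2]
  let E : Ext X (G × Multiplicative ℤ) :=
    { pr := φ.prodMap (MonoidHom.id _)
      S := symS S ×ˢ {Multiplicative.ofAdd (1 : ℤ)}
      L_eq := fun p => by
        rw [x3, Finset.mem_image]
        constructor
        · rintro ⟨⟨s, hs, e⟩, h2⟩
          exact ⟨(s, p.2), (hL _).2 ⟨hs, h2⟩, Prod.ext e rfl⟩
        · rintro ⟨s, hs, rfl⟩
          exact ⟨⟨s.1, ((hL _).1 hs).1, rfl⟩, ((hL _).1 hs).2⟩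
      ht := fun g => ht g.1
      ω := ω.comp sp sp
      ω_self := fun x => ω_self _
      ht_mul := fun g h => by
        rw [LinearMap.BilinForm.comp_apply, hsp, hsp]
        exact ht_mul _ _ }
  have hω : ∀ g h, E.ω (E.v g) (E.v h) = ω (toQ (π (φ g.1))) (toQ (π (φ h.1))) := fun g h => by
    change ω (sp (toQ _)) (sp (toQ _)) = _
    rw [hsp, hsp]; rfl
  have π1 : π 1 = 0 := by simpa using π_mul 1 1
  let Z : E.Pad :=
    { e := (1, Multiplicative.ofAdd 1)
      mem := (hL _).2 ⟨mem_symS.2 (Or.inl rfl), rfl⟩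
      comm := fun g => Prod.ext (by simp) (mul_comm _ _)
      spatial := fun i => by
        rw [x2]
        change π (φ 1) i = 0
        rw [map_one, π1]; rfl
      inv := fun s hs => ⟨(s.1⁻¹, s.2), (hL _).2 ⟨by
        have := mem_symS.1 ((hL _).1 hs).1
        rw [mem_symS]
        simp only [inv_eq_one, inv_inv]
        tauto, ((hL _).1 hs).2⟩, Prod.ext (by simp) (by simp [((hL _).1 hs).2, sq])⟩
      surj := fun p => by
        obtain ⟨g, hg⟩ := hφ p.1
        exact ⟨(g, p.2), Prod.ext hg rfl⟩ }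
  have hlv : ∀ g, E.lv g = g.2.toAdd := fun g => x1 _
  have hbeta : ∀ k, E.beta k = growth S k := by
    intro k
    have a1 : ∀ g, E.cl g → ∃ l : List G, (l.length : ℤ) ≤ g.2.toAdd ∧
        (∀ x ∈ l, x ∈ S ∨ x⁻¹ ∈ S) ∧ l.prod = g.1 := by
      intro g hg
      induction hg using Submonoid.closure_induction with
      | mem s hs =>
        obtain ⟨b1, b2⟩ := (hL s).1 hs
        rcases mem_symS.1 b1 with b1 | b1
        · exact ⟨[], by simp [b2], by simp, by simp [b1]⟩
        · exact ⟨[s.1], by simp [b2], by simpa using b1, by simp⟩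
      | one => exact ⟨[], by simp, by simp, by simp⟩
      | mul a b _ _ ha hb =>
        obtain ⟨l1, b1, b2, b3⟩ := ha
        obtain ⟨l2, c1, c2, c3⟩ := hb
        refine ⟨l1 ++ l2, by simp; linarith, fun x hx => ?_, by simp [b3, c3]⟩
        exact (List.mem_append.1 hx).elim (b2 x) (c2 x)
    have a2 : ∀ l : List G, (∀ x ∈ l, x ∈ S ∨ x⁻¹ ∈ S) →
        E.cl (l.prod, Multiplicative.ofAdd (l.length : ℤ)) := by
      intro l hl
      induction l with
      | nil => exact E.cl_one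
      | cons x l ih =>
        have b1 : E.cl (x, Multiplicative.ofAdd 1) :=
          E.cl_letter ((hL _).2 ⟨mem_symS.2 (Or.inr (hl x (by simp))), rfl⟩)
        have := b1.mul (ih fun y hy => hl y (by simp [hy]))
        simpa [ofAdd_add, mul_comm] using this
    rw [Ext.beta, growth, ← Set.InjOn.ncard_image (f := Prod.fst)]
    · congr 1
      ext g
      constructor
      · rintro ⟨g', ⟨h1, h2⟩, rfl⟩
        obtain ⟨l, b1, b2⟩ := a1 g' h1
        rw [← hlv, h2] at b1
        exact ⟨l, by exact_mod_cast b1, b2⟩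
      · rintro ⟨l, b1, b2, rfl⟩
        have := (a2 l b2).mul ((E.cl_letter Z.mem).pow (k - l.length))
        refine ⟨_, ⟨this, ?_⟩, by simp [Z]⟩
        rw [hlv]
        simp [Z, b1]
    · intro g hg g' hg' e
      refine Prod.ext e (Multiplicative.toAdd.injective ?_)
      rw [← hlv, ← hlv, hg.2, hg'.2]
  refine ⟨fun hinj => ?_, fun D hD hcong hinj hm hpair => ?_⟩
  · have := E.case_one Z fun g g' e =>
      Prod.ext (hinj (congrArg Prod.fst e)) (congrArg (Prod.snd : H × Multiplicative ℤ → _) e)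
    simpa only [hbeta] using this
  · have := E.case_two Z hD (fun g g' e => hcong _ _ (congrArg Prod.fst e))
      (fun g g' e h => Prod.ext (hinj _ _ (congrArg Prod.fst e) h) (congrArg (Prod.snd : H × Multiplicative ℤ → _) e))
      (fun s hs t ht' h => by
        rw [hω] at h ⊢
        obtain ⟨m, b1, b2⟩ := hm _ ((hL _).1 hs).1 _ ((hL _).1 ht').1 h
        exact ⟨m, Prod.ext b1 (mul_comm _ _), b2⟩)
      (by
        obtain ⟨s, hs, t, ht', h⟩ := hpair
        exact ⟨(s, _), (hL _).2 ⟨mem_symS.2 (Or.inr (Or.inl hs)), rfl⟩,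
          (t, _), (hL _).2 ⟨mem_symS.2 (Or.inr (Or.inl ht')), rfl⟩, by rwa [hω]⟩)
    simpa only [hbeta] using this

end Pool.Agent.MP_b3b911_al
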