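import Pool.Agent.MP_b3b911_al.Interior

/-! Leading order analysis in the slabs around the walls. -/

open MeasureTheory Filter Topology Set

namespace Pool.Agent.MP_b3b911_al

section Param

variable {ι : Type} [Fintype ι] [DecidableEq ι]

theorem rd_split (a : Option ι → ℤ) (i0 : ι) (w : Option ι → ℝ) :
    rd a w = a none * w none + a (some i0) * w (some i0) +
      ∑ j : {i // i ≠ i0}, (a (some j) : ℝ) * w (some j) := by
  rw [rd_apply, Fintype.sum_option, Fintype.sum_eq_add_sum_subtype_ne _ i0, add_assoc]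

/-- Parametrisation of the spatial part of a wall. -/
noncomputable def wallT (a : Option ι → ℤ) (i0 : ι) :
    ({i // i ≠ i0} → ℝ) →ₗ[ℝ] (Option ι → ℝ) where
  toFun y := fun o => o.elim 0 fun i =>
    if h : i = i0 then -(∑ j : {i // i ≠ i0}, (a (some j) : ℝ) * y j) / a (some i0) else y ⟨i, h⟩
  map_add' x y := by
    funext o
    rcases o with _ | i
    · simp
    · by_cases h : i = i0
      · simp [h, mul_add, Finset.sum_add_distrib]; ring
      · simp [h]
  map_smul' c x := by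
    funext o
    rcases o with _ | i
    · simp
    · by_cases h : i = i0
      · simp only [h, Option.elim_some, dite_true, Pi.smul_apply, smul_eq_mul, RingHom.id_apply]
        rw [← mul_div_assoc, mul_neg, Finset.mul_sum]
        congr 2
        exact Finset.sum_congr rfl fun _ _ => by ring
      · simp [h]

/-- Base point of a wall. -/
noncomputable def wall0 (a : Option ι → ℤ) (i0 : ι) : Option ι → ℝ :=
  fun o => o.elim 1 fun i => if i = i0 then -(a none : ℝ) / a (some i0) else 0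

/-- Lattice vectors in a wall. -/
def wallE (a : Option ι → ℤ) (i0 : ι) (ζ : {i // i ≠ i0} → ℤ) : Option ι → ℤ :=
  fun o => o.elim 0 fun i =>
    if h : i = i0 then -((a (some i0)).sign * ∑ j : {i // i ≠ i0}, a (some j) * ζ j)
    else ((a (some i0)).natAbs : ℤ) * ζ ⟨i, h⟩

variable {a : Option ι → ℤ} {i0 : ι}

@[simp] theorem wallT_none (y : {i // i ≠ i0} → ℝ) : wallT a i0 y none = 0 := rfl

@[simp] theorem wallT_ne (y : {i // i ≠ i0} → ℝ) (j : {i // i ≠ i0}) :
    wallT a i0 y (some j) = y j := by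
  simp [wallT, j.2]

theorem wallT_i0 (y : {i // i ≠ i0} → ℝ) : wallT a i0 y (some i0) =
    -(∑ j : {i // i ≠ i0}, (a (some j) : ℝ) * y j) / a (some i0) := by
  simp [wallT]

omit [Fintype ι] in
@[simp] theorem wall0_none : wall0 a i0 none = 1 := rfl

omit [Fintype ι] in
@[simp] theorem wall0_ne (j : {i // i ≠ i0}) : wall0 a i0 (some j) = 0 := by
  simp [wall0, j.2]

theorem rd_wallT (h : a (some i0) ≠ 0) (y : {i // i ≠ i0} → ℝ) : rd a (wallT a i0 y) = 0 := by
  have : (a (some i0) : ℝ) ≠ 0 := by exact_mod_cast h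
  rw [rd_split a i0, wallT_i0]
  simp only [wallT_none, wallT_ne]
  field_simp
  ring

theorem rd_wall0 (h : a (some i0) ≠ 0) : rd a (wall0 a i0) = 0 := by
  have : (a (some i0) : ℝ) ≠ 0 := by exact_mod_cast h
  rw [rd_split a i0]
  simp only [wall0_none, wall0_ne]
  simp only [wall0, Option.elim_some, if_true]
  field_simp
  simp

theorem near_wall (h : a (some i0) ≠ 0) {w : Option ι → ℝ} {t B m : ℝ} (hm : 0 ≤ m) (hB : 0 ≤ B)
    (h0 : w none = t) (h1 : |rd a w| ≤ B) {y : {i // i ≠ i0} → ℝ}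
    (h2 : ∀ j : {i // i ≠ i0}, |w (some j) - y j| ≤ m) :
    ‖w - (t • wall0 a i0 + wallT a i0 y)‖ ≤
      m + B + ∑ j : {i // i ≠ i0}, |(a (some j) : ℝ)| * m := by
  have hs : 0 ≤ ∑ j : {i // i ≠ i0}, |(a (some j) : ℝ)| * m := by positivity
  set e := w - (t • wall0 a i0 + wallT a i0 y) with he
  have e1 : e none = 0 := by simp [he, h0]
  have e2 : ∀ j : {i // i ≠ i0}, |e (some j)| ≤ m := fun j => by simpa [he] using h2 j
  have e3 : rd a e = rd a w := by
    rw [he, map_sub, map_add, map_smul, rd_wall0 h, rd_wallT h]; simp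
  rw [pi_norm_le_iff_of_nonneg (by positivity)]
  rintro (_ | i)
  · rw [e1, norm_zero]; positivity
  by_cases hi : i = i0
  · subst hi
    rw [rd_split a i, e1, mul_zero, zero_add] at e3
    have b1 : |∑ j : {j // j ≠ i}, (a (some j) : ℝ) * e (some j)| ≤
        ∑ j : {j // j ≠ i}, |(a (some j) : ℝ)| * m := by
      refine (Finset.abs_sum_le_sum_abs _ _).trans (Finset.sum_le_sum fun j _ => ?_)
      rw [abs_mul]
      exact mul_le_mul_of_nonneg_left (e2 j) (abs_nonneg _)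
    have b2 : |(a (some i) : ℝ) * e (some i)| ≤ B + ∑ j : {j // j ≠ i}, |(a (some j) : ℝ)| * m := by
      rw [eq_sub_of_add_eq e3]
      exact (abs_sub _ _).trans (add_le_add h1 b1)
    have b3 : (1 : ℝ) ≤ |(a (some i) : ℝ)| := by exact_mod_cast Int.one_le_abs h
    rw [abs_mul] at b2
    rw [Real.norm_eq_abs]
    nlinarith [abs_nonneg (e (some i))]
  · have := e2 ⟨i, hi⟩
    rw [Real.norm_eq_abs]
    linarith

theorem wall_decomp (h : a (some i0) ≠ 0) {z : Option ι → ℝ} (hz : rd a z = 0) :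
    z = z none • wall0 a i0 + wallT a i0 fun j => z (some j) := by
  have := near_wall h (w := z) (m := 0) (B := 0) le_rfl le_rfl rfl (by simp [hz])
    (y := fun j => z (some j)) (fun j => by simp)
  simp only [mul_zero, Finset.sum_const_zero, add_zero, norm_le_zero_iff] at this
  exact sub_eq_zero.1 this

@[simp] theorem wallE_none (ζ : {i // i ≠ i0} → ℤ) : wallE a i0 ζ none = 0 := rfl

@[simp] theorem wallE_ne (ζ : {i // i ≠ i0} → ℤ) (j : {i // i ≠ i0}) :
    wallE a i0 ζ (some j) = ((a (some i0)).natAbs : ℤ) * ζ j := by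
  simp [wallE, j.2]

theorem wallE_zero : wallE a i0 0 = 0 := by
  funext o
  rcases o with _ | i
  · rfl
  · simp [wallE]

theorem wallE_add (x y : {i // i ≠ i0} → ℤ) :
    wallE a i0 (x + y) = wallE a i0 x + wallE a i0 y := by
  funext o
  rcases o with _ | i
  · rfl
  · by_cases h : i = i0
    · simp [wallE, h, mul_add, Finset.sum_add_distrib]; ring
    · simp [wallE, h, mul_add]

theorem rd_wallE (ζ : {i // i ≠ i0} → ℤ) : rd a (toR (wallE a i0 ζ)) = 0 := by
  rw [rd_toR, Int.cast_eq_zero, dotProduct, Fintype.sum_option,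
    Fintype.sum_eq_add_sum_subtype_ne _ i0]
  simp only [wallE_none, wallE_ne, mul_zero, zero_add]
  have : wallE a i0 ζ (some i0) =
      -((a (some i0)).sign * ∑ j : {i // i ≠ i0}, a (some j) * ζ j) := by simp [wallE]
  rw [this, mul_neg, ← mul_assoc, Int.mul_sign_self, Finset.mul_sum, neg_add_eq_zero]
  exact Finset.sum_congr rfl fun _ _ => by ring

end Param

namespace Sys

variable {ι : Type} [Fintype ι] {P : Type*} [Group P] {X : Base ι P} {C : Type*} [Fintype C]
  (Y : Sys X C)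

/-- Side limits of the leading term along a ray. -/
noncomputable def LL (θ z : Option ι → ℝ) : ℝ := val (Y.W θ z) fun c => Y.Q c θ

theorem measurable_LL (θ : Option ι → ℝ) : Measurable (Y.LL θ) := by
  refine measurable_val (fun z => Y.W θ z) (fun c => ?_) (fun c _ => Y.Q c θ)
    fun c => measurable_const
  simp only [mem_W]
  refine MeasurableSet.inter (MeasurableSet.const _) ?_
  have : {z | ∀ ab ∈ Y.Φ c, 0 < rd ab.1 θ ∨
      (rd ab.1 θ = 0 ∧ (0 < rd ab.1 z ∨ (rd ab.1 z = 0 ∧ ab.2 ≤ 0)))} =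
      ⋂ ab ∈ Y.Φ c, ({_z | 0 < rd ab.1 θ} ∪ ({_z | rd ab.1 θ = 0} ∩
        ({z | 0 < rd ab.1 z} ∪ ({z | rd ab.1 z = 0} ∩ {_z | ab.2 ≤ 0})))) := by
    ext w; simp
  change MeasurableSet {z | ∀ ab ∈ Y.Φ c, 0 < rd ab.1 θ ∨
      (rd ab.1 θ = 0 ∧ (0 < rd ab.1 z ∨ (rd ab.1 z = 0 ∧ ab.2 ≤ 0)))}
  rw [this]
  refine Finset.measurableSet_biInter _ fun ab _ => ?_
  exact (MeasurableSet.const _).union ((MeasurableSet.const _).inter
    ((measurableSet_rd_pos _).union ((measurableSet_rd_zero _).inter (MeasurableSet.const _))))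

theorem integrableOn_LL (θ w : Option ι → ℝ) :
    IntegrableOn (fun η => Y.LL θ (w + emb ι η)) (cube ι) := by
  obtain ⟨C1, h0, h1, -⟩ := Y.exists_C
  exact integrableOn_cube ((Y.measurable_LL θ).comp (measurable_shift w))
    (K := C1 * ‖θ‖ * ‖θ‖) fun η _ => abs_val_le (by positivity) fun c _ => h1 c θ θ

theorem LL_add {θ z' : Option ι → ℝ} (h : ∀ a ∈ Y.forms, rd a θ = 0 → rd a z' = 0)
    (z : Option ι → ℝ) : Y.LL θ (z + z') = Y.LL θ z := by
  have : Y.W θ (z + z') = Y.W θ z := by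
    ext c
    rw [mem_W, mem_W]
    refine and_congr_right fun _ => forall₂_congr fun ab hab => or_congr_right
      (and_congr_right fun h0 => ?_)
    rw [map_add, h _ (Y.mem_forms hab) h0, add_zero]
  rw [LL, this, LL]

/-- Limit of the normalised error term. -/
noncomputable def psi (θ : Option ι → ℝ) (p : P) : ℝ :=
  Y.Av θ p - ∫ η in cube ι, Y.LL θ (toR (X.u p) + emb ι η)

theorem ev_term (θ : Option ι → ℝ) (ρ : ℝ) : ∃ C7 : ℝ, ∀ᶠ t : ℝ in atTop, ∀ p,
    ‖toR (X.u p) - t • θ‖ ≤ ρ → |Y.term p - t ^ 2 * Y.psi θ p| ≤ C7 * t := by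
  obtain ⟨C3, h3⟩ := Y.ev_LO θ ρ
  obtain ⟨C2, hC2, h2⟩ := Y.exists_expand θ (ρ + 1)
  refine ⟨C3 + 2 * C2, ?_⟩
  filter_upwards [h3, Y.ev_W θ (ρ + 1), eventually_ge_atTop 1] with t ht hW ht1 p hp
  obtain ⟨-, a1⟩ := ht p hp
  have a2 := abs_cube_integral_sub_le (Y.integrableOn_lead (toR (X.u p)))
    ((Y.integrableOn_LL θ (toR (X.u p))).const_mul (t ^ 2)) (K := 2 * C2 * t) (fun η hη => by
      have n1 := near_emb hη hp
      rw [lead, Av, hW _ n1, LL, ← val_mul _ (sq_nonneg t)]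
      refine abs_val_sub_le (by positivity) fun c _ => ?_
      obtain ⟨b1, b2, -⟩ := h2 c _ n1
      have e1 : toR (X.u p) + emb ι η = t • θ + (toR (X.u p) + emb ι η - t • θ) := by abel
      rw [e1, Q_expand]
      rw [abs_le] at b1 b2 ⊢
      constructor <;> nlinarith [b1.1, b1.2, b2.1, b2.2])
  rw [integral_const_mul] at a2
  rw [term, psi]
  rw [abs_le] at a1 a2 ⊢
  constructor <;> nlinarith [a1.1, a1.2, a2.1, a2.2]

theorem psi_eq_zero {θ : Option ι → ℝ} {a : Option ι → ℤ} {i0 : ι} (hi : a (some i0) ≠ 0)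
    (hg : ∀ a' ∈ Y.forms, rd a' θ = 0 → ∀ z, rd a z = 0 → rd a' z = 0)
    (hc : ∀ p, Y.A θ p = Y.A θ 1) (p : P) : Y.psi θ p = 0 := by
  classical
  have hi' : (a (some i0) : ℝ) ≠ 0 := by exact_mod_cast hi
  have key : ∀ z, Y.LL θ z = Y.Av θ 1 := by
    intro z
    obtain ⟨σ, lam, hlam, hσ⟩ : ∃ (σ : ℤ) (lam : ℝ), 0 < lam ∧ rd a z / a (some i0) = lam * σ := by
      rcases lt_trichotomy 0 (rd a z / a (some i0)) with h | h | h
      · exact ⟨1, _, h, by simp⟩
      · exact ⟨0, 1, one_pos, by simp [← h]⟩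
      · exact ⟨-1, _, neg_pos.2 h, by simp⟩
    obtain ⟨n, hn⟩ := exists_nat_gt Y.B0
    have : Y.W θ z = Y.V θ (X.τ (Pi.single (some i0) (n * σ)) * 1) := by
      ext c
      rw [mem_W, mem_V, cong_τ_iff]
      refine and_congr_right fun _ => forall₂_congr fun ab hab => or_congr_right
        (and_congr_right fun h0 => ?_)
      have b1 := hg _ (Y.mem_forms hab) h0 (z - (rd a z / a (some i0)) • Pi.single (some i0) 1)
        (by
          rw [map_sub, map_smul]
          have : rd a (Pi.single (some i0) 1) = a (some i0) := by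
            simp [rd_apply, Pi.single_apply]
          rw [this, smul_eq_mul]; field_simp; ring)
      have b2 : rd ab.1 (Pi.single (some i0) 1) = ab.1 (some i0) := by
        simp [rd_apply, Pi.single_apply]
      rw [map_sub, map_smul, b2, hσ, smul_eq_mul, sub_eq_zero, mul_assoc] at b1
      rw [mul_one, X.u_τ, dotProduct_smul, dotProduct_single, b1]
      have b3 := abs_le.1 (Y.B0_const hab)
      have hN : (1 : ℤ) ≤ X.N := by exact_mod_cast X.N_pos
      have b4 : ab.2 < n := by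
        have : (ab.2 : ℝ) < n := by linarith [b3.2]
        exact_mod_cast this
      have b5 : -(n : ℤ) < ab.2 := by
        have : -(n : ℝ) < ab.2 := by linarith [b3.1]
        exact_mod_cast this
      have hn0 : (0 : ℤ) ≤ n := Nat.cast_nonneg n
      have e : X.N • (ab.1 (some i0) * (n * σ)) = X.N * n * (σ * ab.1 (some i0)) := by
        rw [nsmul_eq_mul]; ring
      rw [e, ← Int.cast_mul]
      generalize σ * ab.1 (some i0) = x
      have hNn : (n : ℤ) ≤ X.N * n := by nlinarith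
      rcases lt_trichotomy 0 x with h | h | h
      · have c1 : 0 < lam * (x : ℝ) := mul_pos hlam (by exact_mod_cast h)
        have c2 : ab.2 ≤ X.N * n * x := by nlinarith
        simp only [c1, c2, true_or]
      · simp [← h]
      · have c1 : lam * (x : ℝ) < 0 := mul_neg_of_pos_of_neg hlam (by exact_mod_cast h)
        have c2 : X.N * n * x < ab.2 := by nlinarith
        simp only [c1.not_gt, c1.ne, not_le.2 c2, false_and, or_false]
    rw [LL, this]
    exact (Y.Av_eq_of_A (hc _)).1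
  simp only [psi, key, cube_integral_const, (Y.Av_eq_of_A (hc p)).1, sub_self]

theorem term_bound : ∃ K : ℝ, 0 ≤ K ∧ ∀ k : ℕ, 1 ≤ k → ∀ p ∈ Y.Lk k, |Y.term p| ≤ K * k ^ 2 := by
  obtain ⟨C1, h0, h1, h2, -⟩ := Y.exists_C
  obtain ⟨C2, h3, h4⟩ := Y.exists_lead_bound
  have hC0 := Y.one_le_C0
  have hK := Y.K_nonneg
  refine ⟨Y.K + C1 * (Y.C0 + 1) ^ 2 + C1 * (Y.C0 + 1) + C2 * (Y.C0 + 2) ^ 2, by positivity,
    fun k hk p hp => ?_⟩
  have hk1 : (1 : ℝ) ≤ k := by exact_mod_cast hk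
  have hk2 : (k : ℝ) ≤ k ^ 2 := by nlinarith
  have hn := Y.norm_Lk hk hp
  have a1 : |Y.F p| ≤ (Y.K + C1 * (Y.C0 + 1) ^ 2 + C1 * (Y.C0 + 1)) * k ^ 2 := by
    by_cases hR : X.R p
    · obtain ⟨c, b1, b2, b3⟩ := Y.up p hR
      have b4 := (Y.low c p b1 b2).2
      have b5 := (h1 c (toR (X.u p)) (toR (X.u p))).trans
        (show _ ≤ C1 * ((Y.C0 + 1) * k) * ((Y.C0 + 1) * k) by gcongr)
      have b6 := (h2 c (toR (X.u p))).trans (show _ ≤ C1 * ((Y.C0 + 1) * k ^ 2) by
        gcongr; exact hn.trans (by gcongr))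
      have b7 : Y.K ≤ Y.K * k ^ 2 := by nlinarith
      rw [abs_le] at b5 b6 ⊢
      constructor <;> nlinarith [b5.1, b5.2, b6.1, b6.2]
    · rw [Y.zero p hR, abs_zero]; positivity
  have a2 : |∫ η in cube ι, Y.lead (toR (X.u p) + emb ι η)| ≤ C2 * (Y.C0 + 2) ^ 2 * k ^ 2 := by
    refine abs_cube_integral_le fun η hη => (h4 _).trans ?_
    have : ‖toR (X.u p) + emb ι η‖ ≤ (Y.C0 + 2) * k :=
      (norm_add_le _ _).trans (by linarith [norm_emb_le hη])
    rw [mul_assoc, ← mul_pow]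
    gcongr
  rw [term]
  refine (abs_sub _ _).trans ?_
  linarith

/-- The slabs along a ray. -/
noncomputable def slabsAt (θ : Option ι → ℝ) (p : P) : Finset (Option ι → ℤ) := by
  classical
  exact Y.forms'.filter fun a => rd a θ = 0 ∧ |rd a (toR (X.u p))| ≤ Y.B0

theorem slabsAt_congr {θ : Option ι → ℝ} {p p' : P} {z : Option ι → ℝ}
    (e : toR (X.u p') = toR (X.u p) + z) (h : ∀ a ∈ Y.forms, rd a θ = 0 → rd a z = 0) :
    Y.slabsAt θ p' = Y.slabsAt θ p := by
  unfold slabsAt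
  refine Finset.filter_congr fun a ha => and_congr_right fun h0 => ?_
  rw [e, map_add, h a (Y.mem_forms'.1 ha).1 h0, add_zero]

theorem ev_slabs (θ : Option ι → ℝ) (ρ : ℝ) : ∀ᶠ t : ℝ in atTop, ∀ p,
    ‖toR (X.u p) - t • θ‖ ≤ ρ → Y.slabs p = Y.slabsAt θ p := by
  filter_upwards [ev_sign Y.forms θ ρ Y.B0] with t ht p hp
  unfold slabs slabsAt
  refine Finset.filter_congr fun a ha => ⟨fun h => ⟨?_, h⟩, fun h => h.2⟩
  obtain ⟨b1, b2⟩ := ht _ hp a (Y.mem_forms'.1 ha).1
  rw [abs_le] at h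
  rcases lt_trichotomy 0 (rd a θ) with h0 | h0 | h0
  · linarith [b1 h0, h.2]
  · exact h0.symm
  · linarith [b2 h0, h.1]

open Classical in
theorem slab_limit {a : Option ι → ℤ} (ha : a ∈ Y.forms') : ∃ L, Tendsto (fun k : ℕ =>
    (∑ p ∈ (Y.Lk k).filter (fun p => a ∈ Y.slabs p), ((Y.slabs p).card : ℝ)⁻¹ * Y.term p) /
      (k : ℝ) ^ (Fintype.card ι + 1)) atTop (𝓝 L) := by
  obtain ⟨i0, hi⟩ := (Y.mem_forms'.1 ha).2
  set m : ℕ := X.N * (a (some i0)).natAbs with hm
  have hm0 : 0 < m := Nat.mul_pos X.N_pos (Int.natAbs_pos.2 hi)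
  have hm' : (m : ℝ) ≠ 0 := by exact_mod_cast hm0.ne'
  set ρ : ℝ := m + Y.B0 + ∑ j : {i // i ≠ i0}, |(a (some j) : ℝ)| * m with hρ
  set T : ({i // i ≠ i0} → ℝ) →ₗ[ℝ] (Option ι → ℝ) := (m : ℝ) • wallT a i0 with hT
  have near : ∀ (p : P) (t : ℝ) (y : {i // i ≠ i0} → ℝ), (X.u p none : ℝ) = t →
      |rd a (toR (X.u p))| ≤ Y.B0 →
      ((fun j : {i // i ≠ i0} => X.u p (some j) / m) = fun j => ⌊y j⌋) →
      ‖toR (X.u p) - (t • wall0 a i0 + T y)‖ ≤ ρ := by
    intro p t y h1 h2 h3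
    have := near_wall hi (w := toR (X.u p)) (Nat.cast_nonneg m) Y.B0_nonneg h1 h2
      (y := (m : ℝ) • y) fun j => abs_ediv_sub_le hm0 (congrFun h3 j)
    rwa [map_smul] at this
  have hfin : ∀ (k : ℕ) (ξ : {i // i ≠ i0} → ℤ),
      {p | (X.u p none = k ∧ |rd a (toR (X.u p))| ≤ Y.B0) ∧
        (fun j : {i // i ≠ i0} => X.u p (some j) / m) = ξ}.Finite := fun k ξ =>
    (X.finite_ball _ ρ).subset fun p hp =>
      near p k (toR ξ) (by rw [hp.1.1]; simp) hp.1.2 (by rw [hp.2]; funext i; simp [toR])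
  obtain ⟨M, hM⟩ := X.card_le_of_ball ρ
  obtain ⟨K, hK0, hK⟩ := Y.term_bound
  have hC0 := Y.one_le_C0
  have hmem : ∀ k ξ p, p ∈ (hfin k ξ).toFinset ↔
      (X.u p none = k ∧ |rd a (toR (X.u p))| ≤ Y.B0) ∧
        (fun j : {i // i ≠ i0} => X.u p (some j) / m) = ξ := fun k ξ p => by simp
  have hw : ∀ T : Finset (Option ι → ℤ), |(T.card : ℝ)⁻¹| ≤ 1 := fun T => by
    rw [abs_of_nonneg (by positivity)]
    exact Nat.cast_inv_le_one _
  refine (block_riemann (fun p (j : {i // i ≠ i0}) => X.u p (some j) / m)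
    (fun k ξ => (hfin k ξ).toFinset) (fun k p => X.u p none = k ∧ |rd a (toR (X.u p))| ≤ Y.B0) hmem
    (fun k p => ((Y.slabs p).card : ℝ)⁻¹ * Y.term p / (k : ℝ) ^ 2)
    (fun k => (Y.Lk k).filter (fun p => a ∈ Y.slabs p)) ?_ ?_ M ?_
    (K + (Y.C0 + 1)) (by positivity) ?_ ?_ ?_).imp fun L hL => hL.congr fun k => ?_
  · intro k p hp
    rw [Finset.mem_filter] at hp
    exact ⟨(Y.mem_Lk.1 hp.1).1, (Y.mem_slabs.1 hp.2).2⟩
  · intro k p hk h
    refine Finset.mem_filter.2 ⟨Y.mem_Lk_of_term hk.1 fun h0 => h ?_, Y.mem_slabs.2 ⟨ha, hk.2⟩⟩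
    simp [h0]
  · intro k ξ
    exact hM _ _ fun p hp => near p k (toR ξ) (by rw [((hmem _ _ _).1 hp).1.1]; simp)
      ((hmem _ _ _).1 hp).1.2 (by rw [((hmem _ _ _).1 hp).2]; funext i; simp [toR])
  · filter_upwards [eventually_ge_atTop 1] with k hk1 p hp
    have hk1' : (0 : ℝ) < (k : ℝ) ^ 2 := by
      have : (0 : ℝ) < k := by exact_mod_cast hk1
      positivity
    have b1 := hK k hk1 p (Finset.mem_filter.1 hp).1
    rw [abs_div, abs_of_pos hk1', div_le_iff₀ hk1', abs_mul]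
    have b2 := hw (Y.slabs p)
    have b3 : |((Y.slabs p).card : ℝ)⁻¹| * |Y.term p| ≤ 1 * (K * k ^ 2) := by gcongr
    nlinarith
  · filter_upwards [eventually_ge_atTop 1] with k hk1 p hp
    refine (norm_ediv_le (X.u p) (fun j : {i // i ≠ i0} => some j.1) _).trans
      ((Y.norm_Lk hk1 (Finset.mem_filter.1 hp).1).trans ?_)
    exact mul_le_mul_of_nonneg_right (by linarith) (Nat.cast_nonneg _)
  · filter_upwards [(Finset.eventually_all Y.forms).2 fun a' _ => ae_gen_lin T (wall0 a i0) a']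
      with y hy
    set θ := wall0 a i0 + T y with hθ
    have hθ0 : rd a θ = 0 := by
      rw [hθ, map_add, rd_wall0 hi, hT, LinearMap.smul_apply, map_smul, rd_wallT hi]; simp
    have hθ1 : 0 < θ none := by simp [hθ, hT]
    have hg : ∀ a' ∈ Y.forms, rd a' θ = 0 → ∀ z, rd a z = 0 → rd a' z = 0 := by
      intro a' ha' h0 z hz
      have b1 := hy a' ha' h0 0
      have b2 := hy a' ha' h0 ((m : ℝ)⁻¹ • fun j : {i // i ≠ i0} => z (some j))
      rw [map_zero, add_zero] at b1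
      rw [map_add, b1, zero_add, hT, LinearMap.smul_apply, map_smul (wallT a i0), smul_smul,
        mul_inv_cancel₀ hm', one_smul] at b2
      rw [wall_decomp hi hz, map_add, map_smul, b1, b2]; simp
    have hφ : ∃ β : ℝ, ∀ k ξ, ∑ p ∈ (hfin k ξ).toFinset,
        ((Y.slabsAt θ p).card : ℝ)⁻¹ * Y.psi θ p = β := by
      rcases Y.dichotomy hθ1 hθ0 hg with ⟨s, hs, h0⟩ | hc
      swap
      · exact ⟨0, fun k ξ => by simp [Y.psi_eq_zero hi hg hc]⟩
      have hE : ∀ ζ, rd a (toR (X.N • wallE a i0 ζ)) = 0 := fun ζ => by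
        rw [toR_nsmul, map_smul, rd_wallE, smul_zero]
      have hs0 : rd a (toR (X.u s)) = 0 := by rw [rd_toR, h0]; simp
      have eE : ∀ ζ p, toR (X.u (X.τ (wallE a i0 ζ) * p)) =
          toR (X.u p) + toR (X.N • wallE a i0 ζ) := fun ζ p => by
        rw [X.u_mul, X.u_τ, toR_add, add_comm]
      have es : ∀ p, toR (X.u (p * s)) = toR (X.u p) + toR (X.u s) := fun p => by
        rw [X.u_mul, toR_add]
      refine ⟨_, fund_const (fun ζ p => X.τ (wallE a i0 ζ) * p) ?_ ?_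
        (fun p (j : {i // i ≠ i0}) => X.u p (some j) / m) ?_ (Equiv.mulRight s)
        (fun _ _ => mul_assoc _ _ _)
        (fun k p => X.u p none = k ∧ |rd a (toR (X.u p))| ≤ Y.B0) ?_ ?_ _ ?_ ?_ _ hmem⟩
      · intro p; rw [wallE_zero, X.τ_zero, one_mul]
      · intro x y p; rw [wallE_add, X.τ_add, mul_assoc]
      · intro ζ p
        funext j
        have : (m : ℤ) ≠ 0 := by exact_mod_cast hm0.ne'
        simp only [X.u_mul, X.u_τ, Pi.add_apply, Pi.smul_apply, wallE_ne]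
        rw [nsmul_eq_mul, add_comm, ← mul_assoc, ← Nat.cast_mul, ← hm,
          Int.add_mul_ediv_left _ _ this]
      · intro k ζ p hp
        refine ⟨by simp [X.u_mul, X.u_τ, hp.1], ?_⟩
        rw [eE, map_add, hE, add_zero]; exact hp.2
      · intro k p
        simp only [Equiv.coe_mulRight]
        rw [es, map_add, hs0, add_zero]
        simp [X.u_mul, X.L_one s hs]
      · intro ζ p
        have b1 : ∀ a' ∈ Y.forms, rd a' θ = 0 → rd a' (toR (X.N • wallE a i0 ζ)) = 0 :=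
          fun a' ha' h' => hg a' ha' h' _ (hE ζ)
        simp only [Y.slabsAt_congr (eE ζ p) b1, psi, eE]
        have b2 : Y.Av θ (X.τ (wallE a i0 ζ) * p) = Y.Av θ p := by
          refine (Y.Av_eq_of_A (Y.A_τ (fun a' ha' h' => ?_) p)).1
          have := hg a' ha' h' _ (rd_wallE ζ)
          rwa [rd_toR, Int.cast_eq_zero] at this
        rw [b2]
        simp only [add_right_comm _ (toR (X.N • wallE a i0 ζ)), Y.LL_add b1]
      · intro p
        have b1 : ∀ a' ∈ Y.forms, rd a' θ = 0 → rd a' (toR (X.u s)) = 0 :=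
          fun a' ha' h' => hg a' ha' h' _ hs0
        simp only [Equiv.coe_mulRight, Y.slabsAt_congr (es p) b1, psi, es]
        have b2 : Y.Av θ (p * s) = Y.Av θ p := by
          refine (Y.Av_eq_of_A (Y.A_inv θ hs X.R_one (fun a' ha' h' => ?_) p)).1
          have := b1 a' ha' h'
          rwa [rd_toR, Int.cast_eq_zero, ← mul_one s] at this
        rw [b2]
        simp only [add_right_comm _ (toR (X.u s)), Y.LL_add b1]
    obtain ⟨β, hβ⟩ := hφ
    refine ⟨_, β, hβ, fun ε hε => ?_⟩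
    obtain ⟨C7, h7⟩ := Y.ev_term θ ρ
    filter_upwards [tendsto_natCast_atTop_atTop.eventually h7,
      tendsto_natCast_atTop_atTop.eventually (Y.ev_slabs θ ρ),
      eventually_ge_atTop 1, tendsto_natCast_atTop_atTop.eventually_ge_atTop (C7 / ε)]
      with k hk hsl hk1 hkε p hp
    have hk1' : (0 : ℝ) < k := by exact_mod_cast hk1
    rw [hmem] at hp
    have n1 := near p k ((k : ℝ) • y) (by rw [hp.1.1]; simp) hp.1.2 hp.2
    rw [map_smul, ← smul_add] at n1
    have b1 := hk p n1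
    rw [hsl p n1]
    rw [div_le_iff₀ hε] at hkε
    have e : ((Y.slabsAt θ p).card : ℝ)⁻¹ * Y.term p / k ^ 2 -
        ((Y.slabsAt θ p).card : ℝ)⁻¹ * Y.psi θ p =
        ((Y.slabsAt θ p).card : ℝ)⁻¹ * ((Y.term p - k ^ 2 * Y.psi θ p) / k ^ 2) := by
      field_simp
    have b2 : |(Y.term p - k ^ 2 * Y.psi θ p) / k ^ 2| ≤ ε := by
      rw [abs_div, abs_of_pos (by positivity : (0 : ℝ) < k ^ 2), div_le_iff₀ (by positivity)]
      nlinarith
    rw [e, abs_mul]
    have b3 := hw (Y.slabsAt θ p)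
    calc _ ≤ 1 * ε := by gcongr
      _ = ε := one_mul _
  · have : Fintype.card ι = Fintype.card {i // i ≠ i0} + 1 := by
      rw [Fintype.card_subtype_compl, Fintype.card_subtype_eq]
      have : 0 < Fintype.card ι := Fintype.card_pos_iff.2 ⟨i0⟩
      omega
    rw [← Finset.sum_div, div_div, this]
    congr 1
    ring

end Sys

end Pool.Agent.MP_b3b911_al
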