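import Pool.Agent.MP_b3b911_al.Basic

/-! Piecewise quadratic systems: leading order behaviour along rays. -/

open MeasureTheory Filter Topology Set

namespace Pool.Agent.MP_b3b911_al

/-- A function on the group given, up to bounded error, by a maximum of quadratic functions over
polyhedral congruence domains, with two monotonicity properties. -/
structure Sys {ι : Type} [Fintype ι] {P : Type*} [Group P] (X : Base ι P) (C : Type*) where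
  F : P → ℝ
  cong : C → P → Prop
  cong_τ : ∀ c z p, cong c p → cong c (X.τ z * p)
  Φ : C → Finset ((Option ι → ℤ) × ℤ)
  q : C → LinearMap.BilinForm ℝ (Option ι → ℝ)
  l : C → (Option ι → ℝ) →ₗ[ℝ] ℝ
  K : ℝ
  K_nonneg : 0 ≤ K
  low : ∀ c p, cong c p → (∀ ab ∈ Φ c, ab.2 ≤ ab.1 ⬝ᵥ X.u p) →
    X.R p ∧ q c (toR (X.u p)) (toR (X.u p)) + l c (toR (X.u p)) - K ≤ F p
  up : ∀ p, X.R p → ∃ c, cong c p ∧ (∀ ab ∈ Φ c, ab.2 ≤ ab.1 ⬝ᵥ X.u p) ∧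
    F p ≤ q c (toR (X.u p)) (toR (X.u p)) + l c (toR (X.u p)) + K
  zero : ∀ p, ¬ X.R p → F p = 0
  lam : P → (Option ι → ℝ) →ₗ[ℝ] ℝ
  mono : ∀ s ∈ X.L, ∀ p, X.R p → F p + lam s (toR (X.u p)) - K ≤ F (p * s)
  k0 : ℤ
  opt : ∀ p, X.R p → k0 ≤ X.u p none → ∃ s ∈ X.L, ∃ p', X.R p' ∧ p = p' * s ^ X.N ∧
    F p - X.N * lam s (toR (X.u p')) - K ≤ F p'

namespace Sys

variable {ι : Type} [Fintype ι] {P : Type*} [Group P] {X : Base ι P} {C : Type*} [Fintype C]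
  (Y : Sys X C)

/-- All forms that occur. -/
noncomputable def forms : Finset (Option ι → ℤ) := by
  classical exact Finset.univ.biUnion fun c => (Y.Φ c).image Prod.fst

theorem mem_forms {c : C} {ab : (Option ι → ℤ) × ℤ} (h : ab ∈ Y.Φ c) : ab.1 ∈ Y.forms := by
  classical
  unfold forms
  exact Finset.mem_biUnion.2 ⟨c, Finset.mem_univ _, Finset.mem_image_of_mem _ h⟩

theorem exists_B : ∃ B : ℝ, 0 ≤ B ∧ (∀ c, ∀ ab ∈ Y.Φ c, |(ab.2 : ℝ)| ≤ B) ∧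
    ∀ a ∈ Y.forms, ∀ w, |rd a w| ≤ B * ‖w‖ := by
  obtain ⟨B1, h1, h2⟩ := exists_fin_bound Finset.univ
    (fun c B => ∀ ab ∈ Y.Φ c, |(ab.2 : ℝ)| ≤ B) (fun c x y hxy _ h ab hab => (h ab hab).trans hxy)
    (fun c _ => exists_fin_bound (Y.Φ c) (fun ab B => |(ab.2 : ℝ)| ≤ B)
      (fun _ _ _ hxy _ h => h.trans hxy) fun ab _ => ⟨_, abs_nonneg _, le_rfl⟩)
  obtain ⟨B2, h3, h4⟩ := exists_fin_bound Y.forms
    (fun a B => ∀ w, |rd a w| ≤ B * ‖w‖)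
    (fun a x y hxy _ h w => (h w).trans (mul_le_mul_of_nonneg_right hxy (norm_nonneg _)))
    (fun a _ => exists_lin_bound (rd a))
  refine ⟨B1 + B2, by linarith, fun c ab hab => (h2 c (Finset.mem_univ _) ab hab).trans
    (by linarith), fun a ha w => (h4 a ha w).trans ?_⟩
  exact mul_le_mul_of_nonneg_right (by linarith) (norm_nonneg _)

theorem exists_C : ∃ C1 : ℝ, 0 ≤ C1 ∧ (∀ c v w, |Y.q c v w| ≤ C1 * ‖v‖ * ‖w‖) ∧
    (∀ c w, |Y.l c w| ≤ C1 * ‖w‖) ∧ ∀ s ∈ X.L, ∀ w, |Y.lam s w| ≤ C1 * ‖w‖ := by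
  obtain ⟨B1, h1, h2⟩ := exists_fin_bound Finset.univ
    (fun c B => ∀ v w, |Y.q c v w| ≤ B * ‖v‖ * ‖w‖)
    (fun c x y hxy _ h v w => (h v w).trans (by gcongr))
    (fun c _ => exists_bilin_bound (Y.q c))
  obtain ⟨B2, h3, h4⟩ := exists_fin_bound Finset.univ
    (fun c B => ∀ w, |Y.l c w| ≤ B * ‖w‖)
    (fun c x y hxy _ h w => (h w).trans (by gcongr))
    (fun c _ => exists_lin_bound (Y.l c))
  obtain ⟨B3, h5, h6⟩ := exists_fin_bound X.L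
    (fun s B => ∀ w, |Y.lam s w| ≤ B * ‖w‖)
    (fun c x y hxy _ h w => (h w).trans (by gcongr))
    (fun s _ => exists_lin_bound (Y.lam s))
  refine ⟨B1 + B2 + B3, by linarith, fun c v w => (h2 c (Finset.mem_univ _) v w).trans ?_,
    fun c w => (h4 c (Finset.mem_univ _) w).trans ?_, fun s hs w => (h6 s hs w).trans ?_⟩
  · gcongr; linarith
  · gcongr; linarith
  · gcongr; linarith

/-- The quadratic form of a template. -/
def Q (c : C) (w : Option ι → ℝ) : ℝ := Y.q c w w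

/-- The derivative of the quadratic form. -/
def D (c : C) (θ : Option ι → ℝ) : (Option ι → ℝ) →ₗ[ℝ] ℝ := Y.q c θ + (Y.q c).flip θ

omit [Fintype C] in
theorem D_apply (c : C) (θ e : Option ι → ℝ) : Y.D c θ e = Y.q c θ e + Y.q c e θ := rfl

omit [Fintype C] in
theorem Q_expand (c : C) (θ e : Option ι → ℝ) (t : ℝ) :
    Y.Q c (t • θ + e) = t ^ 2 * Y.Q c θ + t * Y.D c θ e + Y.Q c e := by
  simp only [Q, D_apply, map_add, map_smul, LinearMap.add_apply, LinearMap.smul_apply, smul_eq_mul]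
  ring

omit [Fintype C] in
theorem Q_smul (c : C) (θ : Option ι → ℝ) (t : ℝ) : Y.Q c (t • θ) = t ^ 2 * Y.Q c θ := by
  simp only [Q, map_smul, LinearMap.smul_apply, smul_eq_mul]
  ring

/-- Templates valid near the ray. -/
noncomputable def V (θ : Option ι → ℝ) (p : P) : Finset C := by
  classical
  exact Finset.univ.filter fun c => Y.cong c p ∧ ∀ ab ∈ Y.Φ c,
    0 < rd ab.1 θ ∨ (rd ab.1 θ = 0 ∧ ab.2 ≤ ab.1 ⬝ᵥ X.u p)

theorem mem_V {θ : Option ι → ℝ} {p : P} {c : C} : c ∈ Y.V θ p ↔ Y.cong c p ∧ ∀ ab ∈ Y.Φ c,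
    0 < rd ab.1 θ ∨ (rd ab.1 θ = 0 ∧ ab.2 ≤ ab.1 ⬝ᵥ X.u p) := by
  unfold V; simp

/-- Leading coefficient near the ray. -/
noncomputable def A (θ : Option ι → ℝ) (p : P) : WithBot ℝ := wsup (Y.V θ p) fun c => Y.Q c θ

/-- Real valued leading coefficient near the ray. -/
noncomputable def Av (θ : Option ι → ℝ) (p : P) : ℝ := val (Y.V θ p) fun c => Y.Q c θ

/-- The leading term. -/
noncomputable def lead (w : Option ι → ℝ) : ℝ := Y.Av w 1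

/-- Validity of a template. -/
def valid (c : C) (p : P) : Prop := Y.cong c p ∧ ∀ ab ∈ Y.Φ c, ab.2 ≤ ab.1 ⬝ᵥ X.u p

theorem ev_valid (θ : Option ι → ℝ) (ρ : ℝ) : ∀ᶠ t : ℝ in atTop, ∀ p,
    ‖toR (X.u p) - t • θ‖ ≤ ρ → ∀ c, Y.valid c p ↔ c ∈ Y.V θ p := by
  obtain ⟨B, _, hB, _⟩ := Y.exists_B
  filter_upwards [ev_sign Y.forms θ ρ B] with t ht p hp c
  rw [mem_V, valid]
  refine and_congr_right fun _ => forall₂_congr fun ab hab => ?_
  obtain ⟨h1, h2⟩ := ht _ hp _ (Y.mem_forms hab)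
  rw [rd_toR] at h1 h2
  have h3 := abs_le.1 (hB c ab hab)
  rcases lt_trichotomy 0 (rd ab.1 θ) with h | h | h
  · have : (ab.2 : ℝ) ≤ ((ab.1 ⬝ᵥ X.u p : ℤ) : ℝ) := by linarith [h1 h, h3.2]
    simp [h, Int.cast_le.1 this]
  · simp [← h]
  · have : ((ab.1 ⬝ᵥ X.u p : ℤ) : ℝ) < (ab.2 : ℝ) := by linarith [h2 h, h3.1]
    simp [h.not_gt, h.ne, not_le.2 (Int.cast_lt.1 this)]

omit [Fintype C] in
theorem F_val {p : P} {V : Finset C} (h : ∀ c, Y.valid c p ↔ c ∈ V) :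
    (X.R p ↔ V.Nonempty) ∧
      |Y.F p - val V (fun c => Y.Q c (toR (X.u p)) + Y.l c (toR (X.u p)))| ≤ Y.K := by
  by_cases hR : X.R p
  · obtain ⟨c, h1, h2, h3⟩ := Y.up p hR
    have hc : c ∈ V := (h c).1 ⟨h1, h2⟩
    refine ⟨⟨fun _ => ⟨c, hc⟩, fun _ => hR⟩, ?_⟩
    have a1 := le_val (fun c => Y.Q c (toR (X.u p)) + Y.l c (toR (X.u p))) hc
    obtain ⟨c', hc', _, a2, _⟩ := exists_wsup ⟨c, hc⟩
      (fun c => Y.Q c (toR (X.u p)) + Y.l c (toR (X.u p)))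
    have a3 := (Y.low c' p ((h c').2 hc').1 ((h c').2 hc').2).2
    rw [abs_le]
    simp only [Q] at a1 a2 ⊢
    constructor <;> linarith
  · have hV : V = ∅ := by
      by_contra hne
      obtain ⟨c, hc⟩ := Finset.nonempty_iff_ne_empty.2 hne
      exact hR (Y.low c p ((h c).2 hc).1 ((h c).2 hc).2).1
    subst hV
    simp [hR, val_empty, Y.zero p hR, Y.K_nonneg]

theorem exists_expand (θ : Option ι → ℝ) (ρ : ℝ) : ∃ C2 : ℝ, 0 ≤ C2 ∧ ∀ c e, ‖e‖ ≤ ρ →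
    |Y.D c θ e| ≤ C2 ∧ |Y.Q c e| ≤ C2 ∧ |Y.l c e| ≤ C2 ∧ |Y.l c θ| ≤ C2 ∧
      ∀ s ∈ X.L, |Y.lam s e| ≤ C2 ∧ |Y.lam s θ| ≤ C2 := by
  obtain ⟨C1, h0, h1, h2, h3⟩ := Y.exists_C
  set r := |ρ| + ‖θ‖ + 1 with hr
  have hr1 : 1 ≤ r := by have := abs_nonneg ρ; have := norm_nonneg θ; linarith
  have hθ : ‖θ‖ ≤ r := by have := abs_nonneg ρ; linarith
  refine ⟨2 * C1 * r * r, by positivity, fun c e he => ?_⟩
  have he' : ‖e‖ ≤ r := by have := le_abs_self ρ; have := norm_nonneg θ; linarith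
  have b1 : ∀ v w : Option ι → ℝ, ‖v‖ ≤ r → ‖w‖ ≤ r → C1 * ‖v‖ * ‖w‖ ≤ C1 * r * r :=
    fun v w hv hw => by gcongr
  have b0 : 0 ≤ C1 * r * r := by positivity
  have b2 : ∀ w : Option ι → ℝ, ‖w‖ ≤ r → C1 * ‖w‖ ≤ 2 * C1 * r * r := fun w hw => by
    have : C1 * ‖w‖ ≤ C1 * r := by gcongr
    have : C1 * r * 1 ≤ C1 * r * r := by gcongr
    linarith
  refine ⟨?_, ?_, (h2 _ _).trans (b2 _ he'), (h2 _ _).trans (b2 _ hθ), fun s hs =>
    ⟨(h3 s hs _).trans (b2 _ he'), (h3 s hs _).trans (b2 _ hθ)⟩⟩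
  · rw [D_apply]
    have := (h1 c θ e).trans (b1 _ _ hθ he')
    have := (h1 c e θ).trans (b1 _ _ he' hθ)
    have := abs_add_le (Y.q c θ e) (Y.q c e θ)
    linarith
  · have := (h1 c e e).trans (b1 _ _ he' he')
    simp only [Q]
    linarith

theorem ev_LO (θ : Option ι → ℝ) (ρ : ℝ) : ∃ C3 : ℝ, ∀ᶠ t : ℝ in atTop, ∀ p,
    ‖toR (X.u p) - t • θ‖ ≤ ρ →
      (X.R p ↔ (Y.V θ p).Nonempty) ∧ |Y.F p - t ^ 2 * Y.Av θ p| ≤ C3 * t := by
  obtain ⟨C2, h0, h⟩ := Y.exists_expand θ ρ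
  refine ⟨Y.K + 4 * C2, ?_⟩
  filter_upwards [Y.ev_valid θ ρ, eventually_ge_atTop 1] with t ht ht1 p hp
  obtain ⟨a1, a2⟩ := Y.F_val (ht p hp)
  refine ⟨a1, ?_⟩
  have a3 : |val (Y.V θ p) (fun c => Y.Q c (toR (X.u p)) + Y.l c (toR (X.u p))) -
      t ^ 2 * Y.Av θ p| ≤ 4 * C2 * t := by
    rw [Av, ← val_mul _ (sq_nonneg t)]
    refine abs_val_sub_le (by positivity) fun c _ => ?_
    obtain ⟨b1, b2, b3, b4, _⟩ := h c _ hp
    have e1 : toR (X.u p) = t • θ + (toR (X.u p) - t • θ) := by abel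
    rw [e1, Q_expand, map_add (Y.l c), map_smul, smul_eq_mul]
    rw [abs_le] at b1 b2 b3 b4 ⊢
    constructor <;> nlinarith [b1.1, b1.2, b2.1, b2.2, b3.1, b3.2, b4.1, b4.2]
  have a4 := abs_sub_le (Y.F p)
    (val (Y.V θ p) (fun c => Y.Q c (toR (X.u p)) + Y.l c (toR (X.u p)))) (t ^ 2 * Y.Av θ p)
  have := Y.K_nonneg
  nlinarith

omit [Fintype C] in
theorem cong_τ_iff (c : C) (z : Option ι → ℤ) (p : P) : Y.cong c (X.τ z * p) ↔ Y.cong c p :=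
  ⟨fun h => by simpa [X.τ_neg_mul] using Y.cong_τ c (-z) _ h, Y.cong_τ c z p⟩

theorem V_τ {θ : Option ι → ℝ} {z : Option ι → ℤ}
    (hz : ∀ a ∈ Y.forms, rd a θ = 0 → a ⬝ᵥ z = 0) (p : P) : Y.V θ (X.τ z * p) = Y.V θ p := by
  ext c
  rw [mem_V, mem_V, cong_τ_iff]
  refine and_congr_right fun _ => forall₂_congr fun ab hab => or_congr_right
    (and_congr_right fun h => ?_)
  rw [X.u_mul, X.u_τ, dotProduct_add, dotProduct_smul, hz _ (Y.mem_forms hab) h, smul_zero,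
    zero_add]

theorem A_τ {θ : Option ι → ℝ} {z : Option ι → ℤ}
    (hz : ∀ a ∈ Y.forms, rd a θ = 0 → a ⬝ᵥ z = 0) (p : P) : Y.A θ (X.τ z * p) = Y.A θ p := by
  rw [A, Y.V_τ hz, A]

theorem _root_.Pool.Agent.MP_b3b911_al.Base.exists_seq (X : Base ι P) (θ : Option ι → ℝ) :
    ∃ ρ : ℝ, ∀ t : ℝ, ∃ z : Option ι → ℤ, (∀ a, rd a θ = 0 → a ⬝ᵥ z = 0) ∧
      ∀ p, ‖toR (X.u (X.τ z * p)) - t • θ‖ ≤ ρ + ‖toR (X.u p)‖ := by
  obtain ⟨ρ, h⟩ := app θ X.N X.N_pos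
  refine ⟨ρ, fun t => ?_⟩
  obtain ⟨z, h1, h2⟩ := h t
  refine ⟨z, h2, fun p => ?_⟩
  rw [X.u_mul, X.u_τ, toR_add]
  calc _ = ‖(toR (X.N • z) - t • θ) + toR (X.u p)‖ := by congr 1; abel
    _ ≤ _ := norm_add_le _ _
    _ ≤ _ := by linarith

theorem A_mono (θ : Option ι → ℝ) {s : P} (hs : s ∈ X.L) (p : P) : Y.A θ p ≤ Y.A θ (p * s) := by
  rcases (Y.V θ p).eq_empty_or_nonempty with h0 | h0
  · rw [A, h0, wsup_empty]; exact bot_le
  obtain ⟨ρ, hρ⟩ := X.exists_seq θ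
  set ρ' := ρ + ‖toR (X.u p)‖ + ‖toR (X.u (p * s))‖
  obtain ⟨C3, h3⟩ := Y.ev_LO θ ρ'
  obtain ⟨C2, hC2, h2⟩ := Y.exists_expand θ ρ'
  have key : ∀ᶠ t : ℝ in atTop, (Y.V θ (p * s)).Nonempty ∧
      t ^ 2 * Y.Av θ p ≤ t ^ 2 * Y.Av θ (p * s) + (2 * C3 + 2 * C2 + Y.K) * t := by
    filter_upwards [h3, eventually_ge_atTop 1] with t ht ht1
    obtain ⟨z, hz, hz'⟩ := hρ t
    have n1 : ‖toR (X.u (X.τ z * p)) - t • θ‖ ≤ ρ' := (hz' p).trans (by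
      have := norm_nonneg (toR (X.u (p * s))); simp only [ρ']; linarith)
    have n2 : ‖toR (X.u (X.τ z * (p * s))) - t • θ‖ ≤ ρ' := (hz' _).trans (by
      have := norm_nonneg (toR (X.u p)); simp only [ρ']; linarith)
    obtain ⟨a1, a2⟩ := ht _ n1
    obtain ⟨a3, a4⟩ := ht _ n2
    simp only [Av] at a2 a4 ⊢
    rw [Y.V_τ fun a _ => hz a] at a1 a2 a3 a4
    have hR := a1.2 h0
    have hR' : X.R (X.τ z * (p * s)) := by
      rw [← mul_assoc]; exact Base.R_mul hR (X.R_of_mem hs)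
    refine ⟨a3.1 hR', ?_⟩
    have a5 := Y.mono s hs _ hR
    rw [mul_assoc] at a5
    obtain ⟨c, _⟩ := h0
    obtain ⟨-, -, -, -, b⟩ := h2 c _ n1
    obtain ⟨b1, b2⟩ := b s hs
    have e1 : toR (X.u (X.τ z * p)) = t • θ + (toR (X.u (X.τ z * p)) - t • θ) := by abel
    rw [e1, map_add, map_smul, smul_eq_mul] at a5
    rw [abs_le] at a2 a4 b1 b2
    have := Y.K_nonneg
    nlinarith [a2.1, a2.2, a4.1, a4.2, b1.1, b1.2, b2.1, b2.2]
  have h4 := key.exists.choose_spec.1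
  rw [A, A, wsup_eq_val h0, wsup_eq_val h4]
  exact WithBot.coe_le_coe.2 (le_of_sq (key.mono fun _ h => h.2))

theorem A_monoM (θ : Option ι → ℝ) {g : P} (hg : X.R g) (p : P) : Y.A θ p ≤ Y.A θ (p * g) := by
  induction hg using Submonoid.closure_induction generalizing p with
  | mem s hs => exact Y.A_mono θ hs p
  | one => simp
  | mul g g' _ _ h1 h2 => rw [← mul_assoc]; exact (h1 p).trans (h2 _)

theorem A_inv (θ : Option ι → ℝ) {s g : P} (hs : s ∈ X.L) (hg : X.R g)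
    (h : ∀ a ∈ Y.forms, rd a θ = 0 → a ⬝ᵥ X.u (s * g) = 0) (p : P) :
    Y.A θ (p * s) = Y.A θ p := by
  refine le_antisymm ?_ (Y.A_mono θ hs p)
  obtain ⟨n, hn⟩ : ∃ n, X.N = n + 1 := ⟨X.N - 1, by have := X.N_pos; omega⟩
  have h1 := Y.A_monoM θ (Base.R_mul hg (Base.R_pow (Base.R_mul (X.R_of_mem hs) hg) n)) (p * s)
  have e : p * s * (g * (s * g) ^ n) = X.τ (X.u (s * g)) * p := by
    rw [X.τ_comm, ← X.pow_eq, hn, pow_succ']; simp only [mul_assoc]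
  rwa [e, Y.A_τ h] at h1

theorem A_const (θ : Option ι → ℝ) (h : ∀ s ∈ X.L, ∀ p, Y.A θ (p * s) = Y.A θ p) (p : P) :
    Y.A θ p = Y.A θ 1 := by
  have key : ∀ g ∈ Subgroup.closure (X.L : Set P), ∀ p, Y.A θ (p * g) = Y.A θ p := by
    intro g hg
    induction hg using Subgroup.closure_induction with
    | mem s hs => exact h s hs
    | one => simp
    | mul g g' _ _ h1 h2 => intro p; rw [← mul_assoc, h2, h1]
    | inv g _ h1 => intro p; rw [← h1 (p * g⁻¹)]; simp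
  have := key p (by rw [X.L_gen]; trivial) 1
  rwa [one_mul] at this

/-- Off all walls. -/
def Off (θ : Option ι → ℝ) : Prop := ∀ a ∈ Y.forms, rd a θ = 0 → a = 0

theorem A_off {θ : Option ι → ℝ} (h : Y.Off θ) (p : P) : Y.A θ p = Y.A θ 1 :=
  Y.A_const θ (fun _ hs p => Y.A_inv θ hs X.R_one
    (fun a ha h0 => by rw [h a ha h0, zero_dotProduct]) p) p

theorem Av_eq_of_A {θ θ' : Option ι → ℝ} {p p' : P} (h : Y.A θ p = Y.A θ' p') :
    Y.Av θ p = Y.Av θ' p' ∧ ((Y.V θ p).Nonempty ↔ (Y.V θ' p').Nonempty) := by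
  refine ⟨by simp only [Av, val]; rw [A, A] at h; rw [h], ?_⟩
  rw [Finset.nonempty_iff_ne_empty, Finset.nonempty_iff_ne_empty, Ne, Ne,
    ← wsup_eq_bot (fun c => Y.Q c θ), ← wsup_eq_bot (fun c => Y.Q c θ')]
  rw [A, A] at h; rw [h]

theorem ev_R {θ : Option ι → ℝ} {p : P} (h : (Y.V θ p).Nonempty) : ∃ ρ : ℝ, ∀ᶠ t : ℝ in atTop,
    ∃ z : Option ι → ℤ, (∀ a, rd a θ = 0 → a ⬝ᵥ z = 0) ∧ X.R (X.τ z * p) ∧
      ‖toR (X.u (X.τ z * p)) - t • θ‖ ≤ ρ := by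
  obtain ⟨ρ, hρ⟩ := X.exists_seq θ
  obtain ⟨C3, h3⟩ := Y.ev_LO θ (ρ + ‖toR (X.u p)‖)
  refine ⟨ρ + ‖toR (X.u p)‖, ?_⟩
  filter_upwards [h3] with t ht
  obtain ⟨z, hz, hz'⟩ := hρ t
  refine ⟨z, hz, (ht _ (hz' p)).1.2 ?_, hz' p⟩
  rwa [Y.V_τ fun a _ => hz a]

theorem exists_supp : ∃ C0 : ℝ, 1 ≤ C0 ∧ (∀ p, X.R p → ‖toR (X.u p)‖ ≤ C0 * X.u p none) ∧
    ∀ θ p, (Y.V θ p).Nonempty → ‖θ‖ ≤ C0 * θ none := by
  obtain ⟨C0, h0, h1⟩ := X.exists_R_norm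
  refine ⟨C0, h0, h1, fun θ p h => ?_⟩
  obtain ⟨ρ, hρ⟩ := Y.ev_R h
  refine le_of_lin (C := ρ + C0 * ρ) ?_
  filter_upwards [hρ, eventually_ge_atTop 0] with t ⟨z, _, hR, hn⟩ ht
  have a1 := h1 _ hR
  have a2 : |(toR (X.u (X.τ z * p)) - t • θ) none| ≤ ρ := (norm_le_pi_norm _ none).trans hn
  simp only [Pi.sub_apply, toR, Pi.smul_apply, smul_eq_mul] at a2
  have a3 : ‖t • θ‖ ≤ ‖toR (X.u (X.τ z * p))‖ + ρ := by
    calc ‖t • θ‖ = ‖toR (X.u (X.τ z * p)) - (toR (X.u (X.τ z * p)) - t • θ)‖ := by congr 1; abel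
      _ ≤ _ := norm_sub_le _ _
      _ ≤ _ := by linarith
  rw [norm_smul, Real.norm_eq_abs, abs_of_nonneg ht] at a3
  have a4 := (abs_le.1 a2).2
  nlinarith

theorem V_empty_of_pos {θ : Option ι → ℝ} (hθ : 0 < θ none) {a : Option ι → ℤ}
    (ha : rd a θ = 0) (h : ∀ s ∈ X.L, 0 < a ⬝ᵥ X.u s) (p : P) : Y.V θ p = ∅ := by
  by_contra hne
  obtain ⟨ρ, hρ⟩ := Y.ev_R (Finset.nonempty_iff_ne_empty.2 hne)
  have : θ none ≤ 0 := by
    refine le_of_lin (C := ρ + (a ⬝ᵥ X.u p : ℤ)) ?_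
    filter_upwards [hρ] with t ⟨z, hz, hR, hn⟩
    have a1 := X.R_form (rd a - LinearMap.proj none) (fun s hs => by
      have := h s hs
      simp only [LinearMap.sub_apply, rd_toR, LinearMap.coe_proj, Function.eval, toR,
        X.L_one s hs]
      have : (1 : ℝ) ≤ ((a ⬝ᵥ X.u s : ℤ) : ℝ) := by exact_mod_cast this
      push_cast at this ⊢
      linarith) hR
    have a2 : |(toR (X.u (X.τ z * p)) - t • θ) none| ≤ ρ := (norm_le_pi_norm _ none).trans hn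
    simp only [LinearMap.sub_apply, rd_toR, LinearMap.coe_proj, Function.eval] at a1
    rw [X.u_mul, X.u_τ, dotProduct_add, dotProduct_smul, hz a ha, smul_zero, zero_add] at a1
    rw [X.u_mul, X.u_τ] at a2
    simp only [Pi.sub_apply, Pi.smul_apply, smul_eq_mul] at a2
    have a4 := (abs_le.1 a2).1
    linarith
  linarith

theorem dichotomy {θ : Option ι → ℝ} (hθ : 0 < θ none) {a : Option ι → ℤ} (ha : rd a θ = 0)
    (hg : ∀ a' ∈ Y.forms, rd a' θ = 0 → ∀ z, rd a z = 0 → rd a' z = 0) :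
    (∃ s ∈ X.L, a ⬝ᵥ X.u s = 0) ∨ ∀ p, Y.A θ p = Y.A θ 1 := by
  by_cases h0 : ∃ s ∈ X.L, a ⬝ᵥ X.u s = 0
  · exact Or.inl h0
  right
  push Not at h0
  by_cases h1 : ∀ s ∈ X.L, 0 < a ⬝ᵥ X.u s
  · intro p; rw [A, A, Y.V_empty_of_pos hθ ha h1, Y.V_empty_of_pos hθ ha h1]
  by_cases h2 : ∀ s ∈ X.L, 0 < (-a) ⬝ᵥ X.u s
  · have ha' : rd (-a) θ = 0 := by
      rw [rd_apply] at ha ⊢; simp [ha]
    intro p; rw [A, A, Y.V_empty_of_pos hθ ha' h2, Y.V_empty_of_pos hθ ha' h2]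
  push Not at h1 h2
  obtain ⟨s1, hs1, h1⟩ := h1
  obtain ⟨s2, hs2, h2⟩ := h2
  rw [neg_dotProduct] at h2
  have key : ∀ s ∈ X.L, ∀ s' ∈ X.L, (a ⬝ᵥ X.u s) * (a ⬝ᵥ X.u s') < 0 → ∀ p,
      Y.A θ (p * s) = Y.A θ p := by
    intro s hs s' hs' hss
    have hne := h0 s' hs'
    refine Y.A_inv θ hs (g := s ^ ((a ⬝ᵥ X.u s').natAbs - 1) * s' ^ (a ⬝ᵥ X.u s).natAbs)
      (Base.R_mul (Base.R_pow (X.R_of_mem hs) _) (Base.R_pow (X.R_of_mem hs') _)) ?_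
    intro a' ha' h'
    have := hg a' ha' h' (toR (X.u (s * (s ^ ((a ⬝ᵥ X.u s').natAbs - 1) *
      s' ^ (a ⬝ᵥ X.u s).natAbs)))) (by
        rw [rd_toR, Int.cast_eq_zero, X.u_mul, X.u_mul, X.u_pow, X.u_pow, dotProduct_add,
          dotProduct_add, dotProduct_smul, dotProduct_smul]
        generalize a ⬝ᵥ X.u s = x at *
        generalize a ⬝ᵥ X.u s' = y at *
        have e1 : ((y.natAbs - 1 : ℕ) : ℤ) = |y| - 1 := by
          have : 1 ≤ y.natAbs := Int.natAbs_pos.2 hne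
          push_cast [this]; simp
        simp only [nsmul_eq_mul, e1, Nat.cast_natAbs, Int.cast_abs, Int.cast_id]
        rcases lt_or_gt_of_ne hne with hy | hy
        · have hx : 0 < x := by nlinarith
          rw [abs_of_neg hy, abs_of_pos hx]; ring
        · have hx : x < 0 := by nlinarith
          rw [abs_of_pos hy, abs_of_neg hx]; ring)
    rwa [rd_toR, Int.cast_eq_zero] at this
  refine Y.A_const θ fun s hs => ?_
  have a1 := lt_of_le_of_ne h1 (h0 s1 hs1)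
  have a2 : 0 < a ⬝ᵥ X.u s2 := lt_of_le_of_ne (by linarith) (h0 s2 hs2).symm
  rcases lt_or_gt_of_ne (h0 s hs) with h | h
  · exact key s hs s2 hs2 (mul_neg_of_neg_of_pos h a2)
  · exact key s hs s1 hs1 (mul_neg_of_pos_of_neg h a1)

theorem V_smul (w : Option ι → ℝ) {t : ℝ} (ht : 0 < t) (p : P) : Y.V (t • w) p = Y.V w p := by
  ext c
  simp only [mem_V, map_smul, smul_eq_mul, mul_pos_iff_of_pos_left ht, mul_eq_zero, ht.ne',
    false_or]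

theorem lead_smul (w : Option ι → ℝ) {t : ℝ} (ht : 0 < t) : Y.lead (t • w) = t ^ 2 * Y.lead w := by
  simp only [lead, Av, Y.V_smul w ht, Q_smul]
  exact val_mul _ (sq_nonneg t)

theorem measurableSet_rd_pos (a : Option ι → ℤ) : MeasurableSet {w | 0 < rd a w} :=
  measurableSet_lt measurable_const (rd a).continuous_of_finiteDimensional.measurable

theorem measurableSet_rd_zero (a : Option ι → ℤ) : MeasurableSet {w | rd a w = 0} :=
  measurableSet_eq_fun (rd a).continuous_of_finiteDimensional.measurable measurable_const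

theorem measurable_lead : Measurable Y.lead := by
  refine measurable_val (fun w => Y.V w 1) (fun c => ?_) (fun c w => Y.Q c w)
    fun c => (continuous_bilin (Y.q c)).measurable
  simp only [mem_V]
  refine MeasurableSet.inter (MeasurableSet.const _) ?_
  have : {w | ∀ ab ∈ Y.Φ c, 0 < rd ab.1 w ∨ (rd ab.1 w = 0 ∧ ab.2 ≤ ab.1 ⬝ᵥ X.u 1)} =
      ⋂ ab ∈ Y.Φ c, ({w | 0 < rd ab.1 w} ∪ ({w | rd ab.1 w = 0} ∩ {_w | ab.2 ≤ ab.1 ⬝ᵥ X.u 1})) := by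
    ext w; simp
  change MeasurableSet {w | ∀ ab ∈ Y.Φ c, 0 < rd ab.1 w ∨ (rd ab.1 w = 0 ∧ ab.2 ≤ ab.1 ⬝ᵥ X.u 1)}
  rw [this]
  refine Finset.measurableSet_biInter _ fun ab _ => ?_
  exact (measurableSet_rd_pos _).union ((measurableSet_rd_zero _).inter (MeasurableSet.const _))

theorem exists_lead_bound : ∃ C1 : ℝ, 0 ≤ C1 ∧ ∀ w, |Y.lead w| ≤ C1 * ‖w‖ ^ 2 := by
  obtain ⟨C1, h0, h1, -⟩ := Y.exists_C
  refine ⟨C1, h0, fun w => abs_val_le (by positivity) fun c _ => ?_⟩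
  have := h1 c w w
  rwa [mul_assoc, ← sq] at this

end Sys

end Pool.Agent.MP_b3b911_al
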