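import Pool.Agent.MP_b3b911_al.QP

/-! Heights of words, and consolidation of words into boundedly many blocks. -/

namespace Pool.Agent.MP_b3b911_al

/-- A group over the base with a height cocycle. -/
structure Ext {ι : Type} {P : Type*} [Group P] (X : Base ι P) (G : Type*) [Group G] where
  pr : G →* P
  S : Finset G
  L_eq : ∀ p, p ∈ X.L ↔ ∃ s ∈ S, pr s = p
  ht : G → ℚ
  ω : LinearMap.BilinForm ℚ (Option ι → ℚ)
  ω_self : ∀ x, ω x x = 0
  ht_mul : ∀ g h, ht (g * h) = ht g + ht h + ω (toQ (X.u (pr g))) (toQ (X.u (pr h)))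

/-- Product of a list of blocks. -/
def bw {G : Type*} [Group G] (l : List (G × ℕ)) : G := (l.map fun e => e.1 ^ e.2).prod

section bw

variable {G : Type*} [Group G]

@[simp] theorem bw_nil : bw ([] : List (G × ℕ)) = 1 := rfl

@[simp] theorem bw_cons (e : G × ℕ) (l : List (G × ℕ)) : bw (e :: l) = e.1 ^ e.2 * bw l := by
  simp [bw]

@[simp] theorem bw_append (l l' : List (G × ℕ)) : bw (l ++ l') = bw l * bw l' := by
  simp [bw]

open Classical in
/-- Total multiplicity of a letter. -/
noncomputable def cnt (s : G) (l : List (G × ℕ)) : ℕ :=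
  (l.map fun e => if e.1 = s then e.2 else 0).sum

open Classical in
/-- Removal of a letter. -/
noncomputable def rem (s : G) (l : List (G × ℕ)) : List (G × ℕ) := l.filter fun e => e.1 ≠ s

omit [Group G] in
theorem cnt_append (s : G) (l l' : List (G × ℕ)) : cnt s (l ++ l') = cnt s l + cnt s l' := by
  simp [cnt]

omit [Group G] in
theorem rem_append (s : G) (l l' : List (G × ℕ)) : rem s (l ++ l') = rem s l ++ rem s l' := by
  simp [rem]

omit [Group G] in
theorem cnt_cons_self (s : G) (n : ℕ) (l : List (G × ℕ)) : cnt s ((s, n) :: l) = n + cnt s l := by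
  simp [cnt]

omit [Group G] in
theorem cnt_cons_ne {s t : G} (h : t ≠ s) (n : ℕ) (l : List (G × ℕ)) :
    cnt s ((t, n) :: l) = cnt s l := by
  simp [cnt, h]

omit [Group G] in
theorem rem_cons_self (s : G) (n : ℕ) (l : List (G × ℕ)) : rem s ((s, n) :: l) = rem s l := by
  simp [rem]

omit [Group G] in
theorem rem_cons_ne {s t : G} (h : t ≠ s) (n : ℕ) (l : List (G × ℕ)) :
    rem s ((t, n) :: l) = (t, n) :: rem s l := by
  simp [rem, h]

end bw

namespace Ext

variable {ι : Type} {P : Type*} [Group P] {X : Base ι P} {G : Type*} [Group G] (E : Ext X G)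

/-- Image in the rational lattice. -/
def v (g : G) : Option ι → ℚ := toQ (X.u (E.pr g))

/-- Level. -/
def lv (g : G) : ℤ := X.u (E.pr g) none

/-- Products of letters. -/
def cl (g : G) : Prop := g ∈ Submonoid.closure (E.S : Set G)

/-- All blocks use letters. -/
def ok (l : List (G × ℕ)) : Prop := ∀ e ∈ l, e.1 ∈ E.S

theorem v_mul (g h : G) : E.v (g * h) = E.v g + E.v h := by
  simp only [v, map_mul, X.u_mul, toQ_add]

theorem v_one : E.v 1 = 0 := by simp only [v, map_one, X.u_one, toQ_zero]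

theorem v_pow (g : G) (n : ℕ) : E.v (g ^ n) = (n : ℚ) • E.v g := by
  simp only [v, map_pow, X.u_pow, toQ_nsmul]

theorem v_congr {g h : G} (e : E.pr g = E.pr h) : E.v g = E.v h := by simp only [v, e]

theorem lv_mul (g h : G) : E.lv (g * h) = E.lv g + E.lv h := by
  simp only [lv, map_mul, X.u_mul, Pi.add_apply]

theorem lv_one : E.lv 1 = 0 := by simp only [lv, map_one, X.u_one, Pi.zero_apply]

theorem lv_pow (g : G) (n : ℕ) : E.lv (g ^ n) = n * E.lv g := by
  simp only [lv, map_pow, X.u_pow, Pi.smul_apply, nsmul_eq_mul]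

theorem lv_congr {g h : G} (e : E.pr g = E.pr h) : E.lv g = E.lv h := by simp only [lv, e]

theorem pr_mem {s : G} (hs : s ∈ E.S) : E.pr s ∈ X.L := (E.L_eq _).2 ⟨s, hs, rfl⟩

theorem lv_letter {s : G} (hs : s ∈ E.S) : E.lv s = 1 := X.L_one _ (E.pr_mem hs)

theorem ht_mul' (g h : G) : E.ht (g * h) = E.ht g + E.ht h + E.ω (E.v g) (E.v h) := E.ht_mul g h

theorem ht_one : E.ht 1 = 0 := by
  have := E.ht_mul' 1 1
  rw [mul_one, E.ω_self] at this
  linarith

theorem ht_pow (g : G) (n : ℕ) : E.ht (g ^ n) = n * E.ht g := by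
  induction n with
  | zero => simp [E.ht_one]
  | succ n ih =>
    rw [pow_succ, ht_mul', ih, v_pow, map_smul, LinearMap.smul_apply, E.ω_self]
    push_cast; simp; ring

theorem ω_swap (x y : Option ι → ℚ) : E.ω x y = - E.ω y x := by
  have := E.ω_self (x + y)
  simp only [map_add, LinearMap.add_apply, E.ω_self] at this
  linarith

theorem cl_one : E.cl 1 := Submonoid.one_mem _

variable {E} in
theorem cl.mul {g h : G} (hg : E.cl g) (hh : E.cl h) : E.cl (g * h) := Submonoid.mul_mem _ hg hh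

variable {E} in
theorem cl.pow {g : G} (hg : E.cl g) (n : ℕ) : E.cl (g ^ n) := Submonoid.pow_mem _ hg n

theorem cl_letter {s : G} (hs : s ∈ E.S) : E.cl s := Submonoid.subset_closure hs

theorem cl_bw {l : List (G × ℕ)} (h : E.ok l) : E.cl (bw l) := by
  induction l with
  | nil => exact E.cl_one
  | cons e l ih =>
    rw [bw_cons]
    exact ((E.cl_letter (h e (by simp))).pow _).mul (ih fun e he => h e (by simp [he]))

theorem R_iff {p : P} : X.R p ↔ ∃ g, E.cl g ∧ E.pr g = p := by
  have : (X.L : Set P) = E.pr '' E.S := by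
    ext p; simp [E.L_eq]
  rw [Base.R, this, ← MonoidHom.map_mclosure, Submonoid.mem_map]
  rfl

theorem R_pr {g : G} (h : E.cl g) : X.R (E.pr g) := E.R_iff.2 ⟨g, h, rfl⟩

theorem lv_nonneg {g : G} (h : E.cl g) : 0 ≤ E.lv g := by
  induction h using Submonoid.closure_induction with
  | mem s hs => rw [E.lv_letter hs]; exact zero_le_one
  | one => rw [lv_one]
  | mul p q _ _ hp hq => rw [lv_mul]; exact add_nonneg hp hq

theorem exists_Ω : ∃ Ω : ℕ, (∀ s ∈ E.S, |E.ht s| ≤ Ω) ∧
    ∀ g h, E.cl g → E.cl h → |E.ω (E.v g) (E.v h)| ≤ Ω * E.lv g * E.lv h := by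
  obtain ⟨Ω, hΩ⟩ := exists_nat_ge (∑ s ∈ E.S, |E.ht s| + ∑ s ∈ E.S, ∑ t ∈ E.S, |E.ω (E.v s) (E.v t)|)
  have p1 : 0 ≤ ∑ s ∈ E.S, |E.ht s| := Finset.sum_nonneg fun _ _ => abs_nonneg _
  have p2 : 0 ≤ ∑ s ∈ E.S, ∑ t ∈ E.S, |E.ω (E.v s) (E.v t)| :=
    Finset.sum_nonneg fun _ _ => Finset.sum_nonneg fun _ _ => abs_nonneg _
  refine ⟨Ω, fun s hs => (Finset.single_le_sum (f := fun s => |E.ht s|)
    (fun _ _ => abs_nonneg _) hs).trans (by linarith), fun g h hg hh => ?_⟩
  induction hg using Submonoid.closure_induction with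
  | mem s hs =>
    induction hh using Submonoid.closure_induction with
    | mem t ht =>
      rw [E.lv_letter hs, E.lv_letter ht]
      have a1 := Finset.single_le_sum (f := fun t => |E.ω (E.v s) (E.v t)|)
        (fun _ _ => abs_nonneg _) ht
      have a2 := Finset.single_le_sum (f := fun s => ∑ t ∈ E.S, |E.ω (E.v s) (E.v t)|)
        (fun _ _ => Finset.sum_nonneg fun _ _ => abs_nonneg _) hs
      simp only [Int.cast_one, mul_one]
      linarith
    | one => simp [v_one, lv_one]
    | mul p q _ _ hp hq =>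
      rw [v_mul, lv_mul, map_add]
      push_cast
      exact (abs_add_le _ _).trans (by linarith)
  | one => simp [v_one, lv_one]
  | mul p q _ _ hp hq =>
    rw [v_mul, lv_mul, map_add, LinearMap.add_apply]
    push_cast
    exact (abs_add_le _ _).trans (by linarith)

theorem finite_cl (k : ℤ) : {g | E.cl g ∧ E.lv g = k}.Finite := by
  have h1 : ∀ n : ℕ, {g | ∃ l : List G, (∀ x ∈ l, x ∈ E.S) ∧ l.length = n ∧ l.prod = g}.Finite := by
    intro n
    induction n with
    | zero => exact (Set.finite_singleton 1).subset (by rintro _ ⟨l, -, h, rfl⟩; simp_all)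
    | succ n ih =>
      refine (Set.Finite.image2 (· * ·) E.S.finite_toSet ih).subset ?_
      rintro _ ⟨l, h1, h2, rfl⟩
      rcases l with _ | ⟨x, l⟩
      · simp at h2
      · exact ⟨x, h1 x (by simp), l.prod, ⟨l, fun y hy => h1 y (by simp [hy]), by simpa using h2,
          rfl⟩, by simp⟩
  have h2 : ∀ l : List G, (∀ x ∈ l, x ∈ E.S) → E.lv l.prod = l.length := by
    intro l hl
    induction l with
    | nil => simp [lv_one]
    | cons x l ih =>
      rw [List.prod_cons, lv_mul, E.lv_letter (hl x (by simp)), ih fun y hy => hl y (by simp [hy])]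
      simp; ring
  refine (h1 k.toNat).subset fun g hg => ?_
  obtain ⟨l, hl, rfl⟩ := Submonoid.exists_list_of_mem_closure hg.1
  refine ⟨l, hl, ?_, rfl⟩
  have := hg.2
  rw [h2 l hl] at this
  omega

/-- Products of letters over a given point. -/
noncomputable def fib (p : P) : Finset G :=
  Set.Finite.toFinset (s := {g | E.cl g ∧ E.pr g = p})
    ((E.finite_cl (X.u p none)).subset fun g hg => ⟨hg.1, by rw [← hg.2]; rfl⟩)

theorem mem_fib {p : P} {g : G} : g ∈ E.fib p ↔ E.cl g ∧ E.pr g = p := by simp [fib]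

/-- Maximal height over a given point. -/
noncomputable def top (p : P) : ℝ := val (E.fib p) fun g => (E.ht g : ℝ)

theorem le_top {p : P} {g : G} (h : E.cl g) (e : E.pr g = p) : (E.ht g : ℝ) ≤ E.top p :=
  le_val (fun g => (E.ht g : ℝ)) (E.mem_fib.2 ⟨h, e⟩)

theorem exists_top {p : P} (h : X.R p) : ∃ g, E.cl g ∧ E.pr g = p ∧ E.top p = E.ht g := by
  obtain ⟨g, h1, h2⟩ := E.R_iff.1 h
  obtain ⟨g', h3, -, h4, -⟩ := exists_wsup ⟨g, E.mem_fib.2 ⟨h1, h2⟩⟩ fun g => (E.ht g : ℝ)
  exact ⟨g', (E.mem_fib.1 h3).1, (E.mem_fib.1 h3).2, h4⟩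

theorem top_eq_zero {p : P} (h : ¬ X.R p) : E.top p = 0 := by
  have : E.fib p = ∅ := by
    rw [Finset.eq_empty_iff_forall_notMem]
    intro g hg
    exact h (E.R_iff.2 ⟨g, E.mem_fib.1 hg⟩)
  rw [top, this, val_empty]

theorem pr_pow_comm (g : G) {n : ℕ} (h : X.N ∣ n) (p : P) : E.pr g ^ n * p = p * E.pr g ^ n := by
  obtain ⟨m, rfl⟩ := h
  rw [pow_mul, X.pow_eq, ← X.τ_nsmul, X.τ_comm]

theorem u_bw (s : G) (l : List (G × ℕ)) :
    X.u (E.pr (bw l)) = cnt s l • X.u (E.pr s) + X.u (E.pr (bw (rem s l))) := by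
  induction l with
  | nil => simp [cnt, rem]
  | cons e l ih =>
    obtain ⟨t, n⟩ := e
    by_cases h : t = s
    · subst h
      rw [cnt_cons_self, rem_cons_self, bw_cons, map_mul, X.u_mul, ih, map_pow, X.u_pow, add_nsmul,
        add_assoc]
    · rw [cnt_cons_ne h, rem_cons_ne h, bw_cons, bw_cons, map_mul, map_mul, X.u_mul, X.u_mul, ih]
      abel

theorem v_bw (s : G) (l : List (G × ℕ)) :
    E.v (bw l) = (cnt s l : ℚ) • E.v s + E.v (bw (rem s l)) := by
  simp only [v, E.u_bw s l, toQ_add, toQ_nsmul]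

theorem slot (s : G) (l : List (G × ℕ)) : ∃ l1 l2, rem s l = l1 ++ l2 ∧
    E.ht (bw l) ≤ E.ht (bw (l1 ++ (s, cnt s l) :: l2)) := by
  induction l with
  | nil => exact ⟨[], [], rfl, by simp [cnt]⟩
  | cons e l ih =>
    obtain ⟨t, n⟩ := e
    obtain ⟨l1, l2, h1, h2⟩ := ih
    have hv := E.v_bw s l
    rw [h1, bw_append, v_mul] at hv
    by_cases h : t = s
    · subst h
      rw [cnt_cons_self, rem_cons_self, h1]
      simp only [bw_append, bw_cons, ht_mul', v_mul, v_pow, ht_pow, map_add, map_smul,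
        LinearMap.add_apply, LinearMap.smul_apply, smul_eq_mul, E.ω_self] at h2
      have a1 := E.ω_swap (E.v (bw l1)) (E.v t)
      have n0 : (0 : ℚ) ≤ n := Nat.cast_nonneg _
      have c0 : (0 : ℚ) ≤ cnt t l := Nat.cast_nonneg _
      rcases le_total 0 (E.ω (E.v t) (E.v (bw l1))) with h0 | h0
      · refine ⟨[], l1 ++ l2, rfl, ?_⟩
        simp only [List.nil_append, bw_append, bw_cons, ht_mul', v_mul, v_pow, ht_pow, map_add,
          map_smul, LinearMap.smul_apply, smul_eq_mul, E.ω_self, hv]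
        push_cast
        nlinarith [mul_nonneg c0 h0]
      · refine ⟨l1, l2, rfl, ?_⟩
        simp only [bw_append, bw_cons, ht_mul', v_mul, v_pow, ht_pow, map_add,
          map_smul, LinearMap.smul_apply, smul_eq_mul, E.ω_self, hv]
        push_cast
        nlinarith [mul_nonneg n0 (neg_nonneg.2 h0)]
    · refine ⟨(t, n) :: l1, l2, by rw [rem_cons_ne h, h1]; rfl, ?_⟩
      rw [cnt_cons_ne h, List.cons_append, bw_cons, bw_cons, ht_mul', ht_mul' E (t ^ n)]
      have : E.v (bw l) = E.v (bw (l1 ++ (s, cnt s l) :: l2)) := by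
        rw [hv, bw_append, bw_cons, v_mul, v_mul, v_pow]; abel
      rw [this]
      linarith

theorem reduce (l : List (G × ℕ)) (hl : E.ok l)
    (hlen : E.S.card * (X.ker_fin.toFinset.card * X.N) * 2 < l.length) :
    ∃ l', E.ok l' ∧ l'.length < l.length ∧ E.pr (bw l') = E.pr (bw l) ∧
      E.ht (bw l) ≤ E.ht (bw l') := by
  classical
  let κ : G → List (G × ℕ) → P := fun s l =>
    E.pr (bw l) * (E.pr s ^ cnt s l * E.pr (bw (rem s l)))⁻¹
  let a : ℕ → G := fun i => (l.getD i (1, 0)).1
  let f : ℕ → G × P × ℕ := fun i => (a i, κ (a i) (l.take i), cnt (a i) (l.take i) % X.N)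
  obtain ⟨y, -, hy⟩ := Finset.exists_lt_card_fiber_of_mul_lt_card_of_maps_to
    (s := Finset.range l.length) (t := E.S ×ˢ X.ker_fin.toFinset ×ˢ Finset.range X.N) (f := f)
    (n := 2) (fun i hi => by
      rw [Finset.mem_range] at hi
      simp only [f, Finset.mem_product, Set.Finite.mem_toFinset, Set.mem_ofPred_eq,
        Finset.mem_range]
      refine ⟨?_, ?_, Nat.mod_lt _ X.N_pos⟩
      · simp only [a, List.getD_eq_getElem _ _ hi]
        exact hl _ (List.getElem_mem hi)
      · simp only [κ]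
        rw [X.u_mul, X.u_inv, X.u_mul, X.u_pow, ← E.u_bw, add_neg_cancel])
    (by simpa using hlen)
  set T := (Finset.range l.length).filter fun i => f i = y with hT
  have hne : T.Nonempty := Finset.card_pos.1 (by omega)
  obtain ⟨i2, hi2⟩ : ((T.erase (T.min' hne)).erase (T.max' hne)).Nonempty := by
    rw [← Finset.card_pos]
    have := Finset.pred_card_le_card_erase (s := T) (a := T.min' hne)
    have := Finset.pred_card_le_card_erase (s := T.erase (T.min' hne)) (a := T.max' hne)
    omega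
  simp only [Finset.mem_erase] at hi2
  obtain ⟨n3, n1, m2⟩ := hi2
  have h12 : T.min' hne < i2 := lt_of_le_of_ne (T.min'_le _ m2) n1.symm
  have h23 : i2 < T.max' hne := lt_of_le_of_ne (T.le_max' _ m2) n3
  have m1 := T.min'_mem hne
  have m3 := T.max'_mem hne
  generalize T.min' hne = i1 at *
  generalize T.max' hne = i3 at *
  simp only [hT, Finset.mem_filter, Finset.mem_range] at m1 m2 m3
  obtain ⟨s, k0, r⟩ := y
  simp only [f, Prod.mk.injEq] at m1 m2 m3
  obtain ⟨l1, s1, k1, r1⟩ := m1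
  obtain ⟨l2, s2, -, -⟩ := m2
  obtain ⟨l3, s3, k3, r3⟩ := m3
  rw [s1] at k1 r1
  rw [s3] at k3 r3
  obtain ⟨Y, hY⟩ : ∃ Y, l.take i3 = l.take i1 ++ Y :=
    ⟨(l.take i3).drop i1, by
      conv_lhs => rw [← List.take_append_drop i1 (l.take i3)]
      rw [List.take_take, min_eq_left (by omega)]⟩
  have hcount : ∀ i (hi : i < l.length), a i = s → (l.take (i + 1)).countP (fun e => e.1 = s) =
      (l.take i).countP (fun e => e.1 = s) + 1 := by
    intro i hi h
    simp only [a, List.getD_eq_getElem _ _ hi] at h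
    rw [List.take_add_one, List.getElem?_eq_getElem hi, List.countP_append]
    simp [h]
  have hmono : ∀ i j, i ≤ j → (l.take i).countP (fun e => e.1 = s) ≤
      (l.take j).countP (fun e => e.1 = s) := fun i j h =>
    (List.take_sublist_take_left h).countP_le
  have hY2 : 2 ≤ Y.countP (fun e => e.1 = s) := by
    have b1 := hcount i1 l1 s1
    have b2 := hcount i2 l2 s2
    have b3 := hmono (i1 + 1) i2 h12
    have b4 := hmono (i2 + 1) i3 h23
    rw [hY, List.countP_append] at b4
    omega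
  have hY3 : (rem s Y).length + 2 ≤ Y.length := by
    have : ∀ Y : List (G × ℕ), (rem s Y).length + Y.countP (fun e => e.1 = s) = Y.length := by
      intro Y
      induction Y with
      | nil => simp [rem]
      | cons e Y ih =>
        obtain ⟨t, n⟩ := e
        by_cases h : t = s
        · subst h
          rw [rem_cons_self]; simp; omega
        · rw [rem_cons_ne h]; simp [h]; omega
    have := this Y
    omega
  have hdvd : X.N ∣ cnt s Y := by
    rw [hY, cnt_append, ← r1] at r3
    exact (Nat.modEq_iff_dvd' (Nat.le_add_right _ _)).1 r3.symm |>.trans (by simp)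
  have hpr : E.pr (bw Y) = E.pr s ^ cnt s Y * E.pr (bw (rem s Y)) := by
    rw [← k1, hY] at k3
    simp only [κ, cnt_append, rem_append, bw_append, map_mul, pow_add] at k3
    rw [mul_assoc, mul_right_inj, mul_inv_eq_iff_eq_mul] at k3
    rw [k3, mul_assoc (E.pr s ^ cnt s (l.take i1)), ← mul_assoc (E.pr s ^ cnt s Y),
      E.pr_pow_comm s hdvd]
    group
  obtain ⟨Y1, Y2, e1, e2⟩ := E.slot s Y
  have hl' : l = l.take i1 ++ Y ++ l.drop i3 := by rw [← hY, List.take_append_drop]
  have hpr' : E.pr (bw (Y1 ++ (s, cnt s Y) :: Y2)) = E.pr (bw Y) := by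
    rw [hpr, e1]
    simp only [bw_append, bw_cons, map_mul, map_pow]
    rw [← mul_assoc, ← mul_assoc, E.pr_pow_comm s hdvd]
  refine ⟨l.take i1 ++ (Y1 ++ (s, cnt s Y) :: Y2) ++ l.drop i3, ?_, ?_, ?_, ?_⟩
  · intro e he
    have hsub : ∀ e ∈ rem s Y, e.1 ∈ E.S := fun e he =>
      hl e (by rw [hl']; simp [List.mem_of_mem_filter he])
    rw [e1] at hsub
    simp only [List.mem_append, List.mem_cons] at he hsub
    rcases he with (he | he | he | he) | he
    · exact hl e (List.mem_of_mem_take he)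
    · exact hsub e (Or.inl he)
    · rw [he, ← s1]
      simp only [a, List.getD_eq_getElem _ _ l1]
      exact hl _ (List.getElem_mem l1)
    · exact hsub e (Or.inr he)
    · exact hl e (List.mem_of_mem_drop he)
  · rw [e1] at hY3
    conv_rhs => rw [hl']
    simp only [List.length_append, List.length_cons] at hY3 ⊢
    omega
  · conv_rhs => rw [hl']
    rw [bw_append, bw_append, bw_append (l.take i1 ++ Y), bw_append (l.take i1) Y, map_mul,
      map_mul, map_mul, map_mul, hpr']
  · conv_lhs => rw [hl']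
    rw [bw_append, bw_append, bw_append (l.take i1 ++ _), bw_append (l.take i1)]
    simp only [ht_mul', v_mul, E.v_congr hpr']
    linarith

theorem consolidate : ∃ M : ℕ, ∀ g, E.cl g → ∃ l, E.ok l ∧ l.length ≤ M ∧ E.pr (bw l) = E.pr g ∧
    E.ht g ≤ E.ht (bw l) := by
  refine ⟨E.S.card * (X.ker_fin.toFinset.card * X.N) * 2, fun g hg => ?_⟩
  obtain ⟨l0, h0, rfl⟩ := Submonoid.exists_list_of_mem_closure hg
  have e : l0.prod = bw (l0.map fun x => (x, 1)) := by
    simp [bw, Function.comp_def]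
  have h1 : E.ok (l0.map fun x => (x, 1)) := by
    intro e he
    obtain ⟨x, hx, rfl⟩ := List.mem_map.1 he
    exact h0 x hx
  rw [e]
  generalize (l0.map fun x => (x, 1)) = l at h1
  induction hn : l.length using Nat.strong_induction_on generalizing l with
  | _ n ih =>
    by_cases h : E.S.card * (X.ker_fin.toFinset.card * X.N) * 2 < l.length
    · obtain ⟨l', a1, a2, a3, a4⟩ := E.reduce l h1 h
      obtain ⟨l'', b1, b2, b3, b4⟩ := ih _ (hn ▸ a2) l' a1 rfl
      exact ⟨l'', b1, b2, b3.trans a3, a4.trans b4⟩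
    · exact ⟨l, h1, not_lt.1 h, rfl, le_rfl⟩

end Ext

end Pool.Agent.MP_b3b911_al
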